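import Pool.Agent.Lib_MP_051624_or.ODefs

/-!
# Words in given letters, and the normal closure estimate
-/

open Equiv

namespace ORel

variable {X : Type}

theorem wd_mono {V W : Set X} (h : V ⊆ W) : Wd V ≤ Wd W :=
  Subgroup.closure_mono (Set.image_mono h)

theorem of_mem_wd {V : Set X} {x : X} (h : x ∈ V) : FreeGroup.of x ∈ Wd V :=
  Subgroup.subset_closure ⟨x, h, rfl⟩

theorem wd_empty : Wd (∅ : Set X) = ⊥ := by
  simp [Wd]

theorem mk_mem_wd {V : Set X} (L : List (X × Bool)) (h : ∀ y ∈ L, y.1 ∈ V) :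
    FreeGroup.mk L ∈ Wd V := by
  induction L with
  | nil => exact (Wd V).one_mem
  | cons y L ih =>
    have h1 : (FreeGroup.mk (y :: L) : FreeGroup X) = FreeGroup.mk [y] * FreeGroup.mk L := by
      rw [FreeGroup.mul_mk]; rfl
    rw [h1]
    refine (Wd V).mul_mem ?_ (ih fun z hz => h z (by simp [hz]))
    rcases y with ⟨x, b⟩
    have hx : x ∈ V := h (x, b) (by simp)
    cases b
    · have h2 : (FreeGroup.mk [(x, false)] : FreeGroup X) = (FreeGroup.of x)⁻¹ := rfl
      rw [h2]
      exact (Wd V).inv_mem (of_mem_wd hx)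
    · exact of_mem_wd hx

/-- Two homomorphisms which agree on the letters of `V` agree on `Wd V`. -/
theorem hom_congr {G : Type*} [Group G] {V : Set X} {f g : FreeGroup X →* G}
    (h : ∀ x ∈ V, f (FreeGroup.of x) = g (FreeGroup.of x)) {w : FreeGroup X} (hw : w ∈ Wd V) :
    f w = g w := by
  induction hw using Subgroup.closure_induction with
  | mem w hw =>
    obtain ⟨x, hx, rfl⟩ := hw
    exact h x hx
  | one => rw [map_one, map_one]
  | mul u v _ _ hu hv => rw [map_mul, map_mul, hu, hv]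
  | inv u _ hu => rw [map_inv, map_inv, hu]

/-- The images of the words in the letters of `V`. -/
theorem map_wd {Y : Type} (f : X → Y) (V : Set X) :
    (Wd V).map (FreeGroup.map f) = Wd (f '' V) := by
  rw [Wd, MonoidHom.map_closure, Wd]
  congr 1
  ext w
  constructor
  · rintro ⟨_, ⟨x, hx, rfl⟩, rfl⟩
    exact ⟨f x, ⟨x, hx, rfl⟩, by simp⟩
  · rintro ⟨_, ⟨x, hx, rfl⟩, rfl⟩
    exact ⟨FreeGroup.of x, ⟨x, hx, rfl⟩, by simp⟩

/-- Equivariance of a projection for the letters gives equivariance for the words. -/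
theorem equivariant_wd {Ω Z : Type} {V : Set X} {θ' : FreeGroup X →* Perm Ω}
    {θ : FreeGroup X →* Perm Z} {p : Ω → Z}
    (h : ∀ x ∈ V, ∀ ω, p (θ' (FreeGroup.of x) ω) = θ (FreeGroup.of x) (p ω))
    {w : FreeGroup X} (hw : w ∈ Wd V) (ω : Ω) : p (θ' w ω) = θ w (p ω) := by
  induction hw using Subgroup.closure_induction generalizing ω with
  | mem w hw =>
    obtain ⟨x, hx, rfl⟩ := hw
    exact h x hx ω
  | one => simp
  | mul u v _ _ hu hv => rw [map_mul, map_mul, Perm.mul_apply, Perm.mul_apply, hu, hv]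
  | inv u _ hu =>
    have h1 := hu ((θ' u)⁻¹ ω)
    have h2 : θ' u ((θ' u)⁻¹ ω) = ω := by simp
    rw [h2] at h1
    rw [map_inv, map_inv, h1]
    simp

/-- An element of the normal closure of the relators moves few points if the relators move few
points; the constant depends only on the element. -/
theorem nc_bound (R : Set (List (X × Bool))) (g : FreeGroup X)
    (hg : g ∈ Subgroup.normalClosure (FreeGroup.mk '' R)) :
    ∃ C : ℕ, ∀ (Z : Type) [Finite Z] (θ : FreeGroup X →* Perm Z) (δ : ℝ), 0 ≤ δ →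
      (∀ L ∈ R, Small (fun z => θ (FreeGroup.mk L) z ≠ z) δ) →
        Small (fun z => θ g z ≠ z) (C * δ) := by
  rw [Subgroup.normalClosure] at hg
  induction hg using Subgroup.closure_induction with
  | mem w hw =>
    obtain ⟨_, ⟨L, hL, rfl⟩, hw⟩ := Group.mem_conjugatesOfSet_iff.1 hw
    obtain ⟨c, hc⟩ := isConj_iff.1 hw
    refine ⟨1, fun Z _ θ δ hδ hR => ?_⟩
    have h1 := (hR L hL).comp_perm (θ c)⁻¹
    refine h1.mono ?_ (by simp)
    intro z hz h2
    apply hz
    rw [← hc, map_mul, map_mul, map_inv, Perm.mul_apply, Perm.mul_apply, h2]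
    simp
  | one =>
    refine ⟨0, fun Z _ θ δ hδ hR => ?_⟩
    have h1 := small_false (Z := Z) (le_refl (0 : ℝ))
    refine h1.mono ?_ (by simp)
    intro z hz
    exact hz (by simp)
  | mul u v _ _ hu hv =>
    obtain ⟨C, hC⟩ := hu
    obtain ⟨D, hD⟩ := hv
    refine ⟨C + D, fun Z _ θ δ hδ hR => ?_⟩
    have h1 := (hC Z θ δ hδ hR).or (hD Z θ δ hδ hR)
    refine h1.mono ?_ (by push_cast; linarith)
    intro z hz
    by_contra h2
    push Not at h2
    apply hz
    rw [map_mul, Perm.mul_apply, h2.2, h2.1]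
  | inv u _ hu =>
    obtain ⟨C, hC⟩ := hu
    refine ⟨C, fun Z _ θ δ hδ hR => ?_⟩
    refine (hC Z θ δ hδ hR).mono ?_ le_rfl
    intro z hz h2
    apply hz
    rw [map_inv, Perm.inv_eq_iff_eq, h2]

end ORel
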