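import Pool.Agent.Lib_MP_051624_or.OSkew
import Pool.Agent.Lib_MP_051624_or.OWd

/-!
# The glued model

Proof of `assemble`. Write `F = S₀ ∩ S₁`. Let
`ψ : FreeGroup X →* Perm Z₀ × Perm Z₁ × Q` be the homomorphism with
`ψ (of x) = (θ₀ (of x), θ₁ (of x), q (of x))` for `x ∈ F` and `ψ (of x) = 1` for `x ∉ F`. Let
`Γ = ψ.range` (a finite group), with the restrictions `ψ' : FreeGroup X →* Γ` of `ψ` and
`ρ₀ : Γ →* Perm Z₀`, `ρ₁ : Γ →* Perm Z₁`, `ρQ : Γ →* Q` of the projections. Every element of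
`Γ` is of the form `ψ' d` with `d ∈ Wd F` (the letters outside of `F` are mapped to `1`), and for
`d ∈ Wd F`: `ρ₀ (ψ' d) = θ₀ d`, `ρ₁ (ψ' d) = θ₁ d`, `ρQ (ψ' d) = q d` (`hom_congr`).

Apply `c₀` to the cover `Ω = Z₀`, `θ' = θ₀`, `p = id` (`triv_id`), the group `Γ` and the constant
cocycle `fun x _ => ψ' (of x)`: there is `g₀ : X → Z₀ → Γ` with `g₀ x z = ψ' (of x)` for
`x ∉ U₀`, in particular for all `x ∈ F` (`hU₀`), and such that the proportion of the `z` with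
`val θ₀ g₀ L z ≠ 1` is at most `δ` for `L ∈ R₀`. Similarly `g₁ : X → Z₁ → Γ` from `c₁`.

Let `τ₀` be the bijection `(y, γ) ↦ (ρ₀ γ y, γ)` of `Z₀ × Γ` and let
`T₀ w = τ₀⁻¹ ∘ skew θ₀ g₀ w ∘ τ₀`, a homomorphism `FreeGroup X →* Perm (Z₀ × Γ)`. Explicitly
`T₀ w (y, γ) = ((ρ₀ γ')⁻¹ z', γ')` where `(z', γ') = skew θ₀ g₀ w (ρ₀ γ y, γ)`. For `d ∈ Wd F`
one has `cval θ₀ g₀ d z = ψ' d` (`cval_const`), hence `T₀ d (y, γ) = (y, ψ' d * γ)`.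
Similarly `T₁` on `Z₁ × Γ`.

Let `Ω = Z₀ × Z₁ × Γ × P`. The first action `ΘK w : (y₀, y₁, γ, p) ↦ (y₀', y₁, γ', p)` where
`(y₀', γ') = T₀ w (y₀, γ)`; the second action
`ΘB w : (y₀, y₁, γ, p) ↦ (y₀, y₁', γ', π (y₀, y₁') * (π (y₀, y₁))⁻¹ * p)` where
`(y₁', γ') = T₁ w (y₁, γ)`; it is the product action of `T₁ w` and the identity in the
coordinates `((y₁, γ), (y₀, (π (y₀, y₁))⁻¹ * p))`, so it is a homomorphism. For a letter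
`x ∈ F` both `ΘK (of x)` and `ΘB (of x)` map `(y₀, y₁, γ, p)` to `(y₀, y₁, ψ' (of x) * γ, p)`. Let
`θ = FreeGroup.lift (fun x => if x ∈ S₀ then ΘK (of x) else ΘB (of x))`. Then `θ w = ΘK w` for
`w ∈ Wd S₀` and `θ w = ΘB w` for `w ∈ Wd S₁` (`hom_congr`).

Let `p₀ (y₀, y₁, γ, p) = ρ₀ γ y₀` and `p₁ (y₀, y₁, γ, p) = ρ₁ γ y₁`. These maps are `Triv`
(`(y₀, y₁, γ, p) ↦ (ρ₀ γ y₀, (y₁, γ, p))` is a bijection) and equivariant: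
`p₀ (ΘK w ω) = ρ₀ γ' y₀' = z' = θ₀ w (p₀ ω)`.

* `move₀`: if `y₀' = y₀` then `θ₀ w (p₀ ω) = z' = ρ₀ γ' y₀ = ρ₀ (γ' * γ⁻¹) (ρ₀ γ y₀) =
  θ₀ d (p₀ ω)` where `γ' * γ⁻¹ = ψ' d`, `d ∈ Wd F`. Similarly `move₁`.
* `free`: for `f ∈ Wd F`, `θ f ω = ω` implies `ψ' f * γ = γ`, so `ψ' f = 1` and
  `q f = ρQ (ψ' f) = 1`.
* `bp`, `b₀`, `k₁`, `kp`: by definition.
* relators: `L ∈ R₀`: `mk L ∈ Wd S₀` (`mk_mem_wd`), `θ (mk L) ω = ΘK (mk L) ω` and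
  `skew θ₀ g₀ (mk L) (z, γ) = (θ₀ (mk L) z, val θ₀ g₀ L z * γ)` (`skew_mk`), where `z = p₀ ω`. This
  is `(z, γ)` unless `θ₀ (mk L) z ≠ z` or `val θ₀ g₀ L z ≠ 1`; the proportion of these `ω` is
  at most `2 * δ` (`Small.or`, `Small.comp_triv`). Similarly for `L ∈ R₁` (if `(y₁', γ') = (y₁, γ)`
  then the coordinate in `P` is also unchanged).
-/

open Equiv

namespace ORel

private def asmTw {Z Γ : Type} [Group Γ] (ρ : Γ →* Perm Z) : Perm (Z × Γ) where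
  toFun a := (ρ a.2 a.1, a.2)
  invFun a := ((ρ a.2)⁻¹ a.1, a.2)
  left_inv a := by
    rcases a with ⟨z, γ⟩
    simp
  right_inv a := by
    rcases a with ⟨z, γ⟩
    simp

private theorem asmTw_apply {Z Γ : Type} [Group Γ] (ρ : Γ →* Perm Z) (z : Z) (γ : Γ) :
    asmTw ρ (z, γ) = (ρ γ z, γ) := rfl

private theorem asmTw_inv_apply {Z Γ : Type} [Group Γ] (ρ : Γ →* Perm Z) (z : Z) (γ : Γ) :
    (asmTw ρ)⁻¹ (z, γ) = ((ρ γ)⁻¹ z, γ) := rfl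

/-- the skew product in the trivialised coordinates -/
private def asmT {X Z Γ : Type} [Group Γ] (θ : FreeGroup X →* Perm Z) (g : X → Z → Γ) (ρ : Γ →* Perm Z) :
    FreeGroup X →* Perm (Z × Γ) :=
  (MulAut.conj (asmTw ρ)⁻¹).toMonoidHom.comp (skew θ g)

private theorem asmT_apply {X Z Γ : Type} [Group Γ] (θ : FreeGroup X →* Perm Z) (g : X → Z → Γ)
    (ρ : Γ →* Perm Z) (w : FreeGroup X) (y : Z) (γ : Γ) :
    asmT θ g ρ w (y, γ) = ((ρ (cval θ g w (ρ γ y) * γ))⁻¹ (θ w (ρ γ y)), cval θ g w (ρ γ y) * γ) := by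
  have h : asmT θ g ρ w = (asmTw ρ)⁻¹ * skew θ g w * ((asmTw ρ)⁻¹)⁻¹ := rfl
  rw [h, inv_inv, Perm.mul_apply, Perm.mul_apply, asmTw_apply, skew_apply, asmTw_inv_apply]

private theorem asmT_const {X Z Γ : Type} [Group Γ] (θ : FreeGroup X →* Perm Z) (g : X → Z → Γ)
    (ρ : Γ →* Perm Z) (V : Set X) (ψ : FreeGroup X →* Γ)
    (h : ∀ x ∈ V, ∀ z, g x z = ψ (FreeGroup.of x)) (w : FreeGroup X) (hw : w ∈ Wd V)
    (hρ : ρ (ψ w) = θ w) (y : Z) (γ : Γ) :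
    asmT θ g ρ w (y, γ) = (y, ψ w * γ) := by
  rw [asmT_apply, cval_const θ g V ψ h w hw, map_mul, hρ, mul_inv_rev, Perm.mul_apply]
  simp

/-- the action on one factor of a product -/
private def asmL {Ω A K : Type} (e : Ω ≃ A × K) : Perm A →* Perm Ω where
  toFun σ := (e.trans (Equiv.prodCongr σ (Equiv.refl K))).trans e.symm
  map_one' := by
    ext ω
    simp
  map_mul' σ τ := by
    refine Equiv.ext fun ω => ?_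
    simp only [Perm.mul_apply, Equiv.trans_apply, Equiv.prodCongr_apply, Equiv.apply_symm_apply]
    rfl

private theorem asmL_apply {Ω A K : Type} (e : Ω ≃ A × K) (σ : Perm A) (ω : Ω) :
    asmL e σ ω = e.symm (σ (e ω).1, (e ω).2) := rfl

private def asmEK (Z₀ Z₁ Γ P : Type) : Z₀ × Z₁ × Γ × P ≃ (Z₀ × Γ) × (Z₁ × P) where
  toFun ω := ((ω.1, ω.2.2.1), (ω.2.1, ω.2.2.2))
  invFun a := (a.1.1, a.2.1, a.1.2, a.2.2)
  left_inv _ := rfl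
  right_inv _ := rfl

private def asmEB {Z₀ Z₁ P : Type} (Γ : Type) [Group P] (π : Z₀ × Z₁ → P) :
    Z₀ × Z₁ × Γ × P ≃ (Z₁ × Γ) × (Z₀ × P) where
  toFun ω := ((ω.2.1, ω.2.2.1), (ω.1, (π (ω.1, ω.2.1))⁻¹ * ω.2.2.2))
  invFun a := (a.2.1, a.1.1, a.1.2, π (a.2.1, a.1.1) * a.2.2)
  left_inv ω := by
    rcases ω with ⟨y₀, y₁, γ, p⟩
    simp
  right_inv a := by
    rcases a with ⟨⟨y₁, γ⟩, y₀, p⟩
    simp

private theorem asm_group {X : Type} (F : Set X) {Z₀ Z₁ Q : Type} [Finite Z₀] [Finite Z₁]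
    [Group Q] [Finite Q] (θ₀ : FreeGroup X →* Perm Z₀) (θ₁ : FreeGroup X →* Perm Z₁)
    (q : FreeGroup X →* Q) :
    ∃ (Γ : Type) (_ : Group Γ) (_ : Finite Γ) (ψ : FreeGroup X →* Γ) (ρ₀ : Γ →* Perm Z₀)
      (ρ₁ : Γ →* Perm Z₁) (ρQ : Γ →* Q),
      (∀ γ : Γ, ∃ d ∈ Wd F, ψ d = γ) ∧ ∀ d ∈ Wd F, ρ₀ (ψ d) = θ₀ d ∧ ρ₁ (ψ d) = θ₁ d ∧ ρQ (ψ d) = q d := by
  classical
  set φ : FreeGroup X →* Perm Z₀ × Perm Z₁ × Q := FreeGroup.lift fun x =>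
    if x ∈ F then (θ₀ (FreeGroup.of x), θ₁ (FreeGroup.of x), q (FreeGroup.of x)) else 1 with hφ
  have hφF : ∀ d ∈ Wd F, φ d = (θ₀ d, θ₁ d, q d) := by
    intro d hd
    have h := hom_congr (f := φ) (g := θ₀.prod (θ₁.prod q)) (V := F) (fun x hx => by
      simp only [hφ, FreeGroup.lift_apply_of, if_pos hx, MonoidHom.prod_apply]) hd
    rw [h]
    rfl
  set κ : FreeGroup X →* FreeGroup X := FreeGroup.lift fun x =>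
    if x ∈ F then FreeGroup.of x else 1 with hκ
  have hκF : ∀ w, κ w ∈ Wd F := by
    intro w
    induction w using FreeGroup.induction_on with
    | C1 => rw [map_one]; exact (Wd F).one_mem
    | of x =>
      simp only [hκ, FreeGroup.lift_apply_of]
      split_ifs with hx
      · exact of_mem_wd hx
      · exact (Wd F).one_mem
    | inv_of x ih => rw [map_inv]; exact (Wd F).inv_mem ih
    | mul u v hu hv => rw [map_mul]; exact (Wd F).mul_mem hu hv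
  have hκφ : φ.comp κ = φ := by
    refine FreeGroup.ext_hom _ _ fun x => ?_
    by_cases hx : x ∈ F
    · simp [hφ, hκ, hx]
    · simp [hφ, hκ, hx]
  refine ⟨φ.range, inferInstance, inferInstance, φ.rangeRestrict,
    (MonoidHom.fst _ _).comp φ.range.subtype,
    ((MonoidHom.fst _ _).comp (MonoidHom.snd _ _)).comp φ.range.subtype,
    ((MonoidHom.snd _ _).comp (MonoidHom.snd _ _)).comp φ.range.subtype, ?_, ?_⟩
  · rintro ⟨_, w, rfl⟩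
    refine ⟨κ w, hκF w, ?_⟩
    refine Subtype.ext ?_
    exact DFunLike.congr_fun hκφ w
  · intro d hd
    have h := hφF d hd
    refine ⟨?_, ?_, ?_⟩
    · exact congrArg Prod.fst h
    · exact congrArg (fun a => a.2.1) h
    · exact congrArg (fun a => a.2.2) h

theorem assemble {X : Type} (S₀ S₁ : Set X) (R₀ R₁ : Set (List (X × Bool)))
    (hR₀ : ∀ L ∈ R₀, ∀ y ∈ L, y.1 ∈ S₀) (hR₁ : ∀ L ∈ R₁, ∀ y ∈ L, y.1 ∈ S₁)
    (U₀ U₁ : Set X) (hU₀ : Disjoint U₀ S₁) (hU₁ : Disjoint U₁ S₀)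
    {Z₀ Z₁ Q P : Type} [Finite Z₀] [Nonempty Z₀] [Finite Z₁] [Nonempty Z₁]
    [Group Q] [Finite Q] [Group P] [Finite P]
    (θ₀ : FreeGroup X →* Perm Z₀) (θ₁ : FreeGroup X →* Perm Z₁) (q : FreeGroup X →* Q)
    (π : Z₀ × Z₁ → P) (δ : ℝ)
    (r₀ : ∀ L ∈ R₀, Small (fun z => θ₀ (FreeGroup.mk L) z ≠ z) δ)
    (r₁ : ∀ L ∈ R₁, Small (fun z => θ₁ (FreeGroup.mk L) z ≠ z) δ)
    (c₀ : CSolv S₀ θ₀ R₀ U₀ δ) (c₁ : CSolv S₁ θ₁ R₁ U₁ δ) :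
    ∃ (Ω : Type) (_ : Finite Ω) (_ : Nonempty Ω) (θ : FreeGroup X →* Perm Ω)
      (_ : Glued S₀ S₁ θ₀ θ₁ q π Ω θ),
        ∀ L ∈ R₀ ∪ R₁, Small (fun ω => θ (FreeGroup.mk L) ω ≠ ω) (2 * δ) := by
  classical
  obtain ⟨Γ, hΓg, hΓf, ψ, ρ₀, ρ₁, ρQ, hsurj, hρ⟩ := asm_group (S₀ ∩ S₁) θ₀ θ₁ q
  obtain ⟨g₀, hg₀, hg₀s⟩ := c₀ Z₀ θ₀ id (triv_id Z₀) (fun x _ ω => rfl) Γ (fun x _ => ψ (FreeGroup.of x))
  obtain ⟨g₁, hg₁, hg₁s⟩ := c₁ Z₁ θ₁ id (triv_id Z₁) (fun x _ ω => rfl) Γ (fun x _ => ψ (FreeGroup.of x))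
  have hF₀ : ∀ x ∈ S₀ ∩ S₁, ∀ z, g₀ x z = ψ (FreeGroup.of x) := by
    intro x hx z
    rw [hg₀ x fun hxU => Set.disjoint_left.1 hU₀ hxU hx.2]
  have hF₁ : ∀ x ∈ S₀ ∩ S₁, ∀ z, g₁ x z = ψ (FreeGroup.of x) := by
    intro x hx z
    rw [hg₁ x fun hxU => Set.disjoint_left.1 hU₁ hxU hx.1]
  have hT₀ : ∀ d ∈ Wd (S₀ ∩ S₁), ∀ y γ, asmT θ₀ g₀ ρ₀ d (y, γ) = (y, ψ d * γ) := fun d hd y γ =>
    asmT_const θ₀ g₀ ρ₀ (S₀ ∩ S₁) ψ hF₀ d hd (hρ d hd).1 y γ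
  have hT₁ : ∀ d ∈ Wd (S₀ ∩ S₁), ∀ y γ, asmT θ₁ g₁ ρ₁ d (y, γ) = (y, ψ d * γ) := fun d hd y γ =>
    asmT_const θ₁ g₁ ρ₁ (S₀ ∩ S₁) ψ hF₁ d hd (hρ d hd).2.1 y γ
  set ΘK : FreeGroup X →* Perm (Z₀ × Z₁ × Γ × P) :=
    (asmL (asmEK Z₀ Z₁ Γ P)).comp (asmT θ₀ g₀ ρ₀) with hΘK
  set ΘB : FreeGroup X →* Perm (Z₀ × Z₁ × Γ × P) :=
    (asmL (asmEB Γ π)).comp (asmT θ₁ g₁ ρ₁) with hΘB
  have hK : ∀ w y₀ y₁ γ p, ΘK w (y₀, y₁, γ, p) =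
      ((asmT θ₀ g₀ ρ₀ w (y₀, γ)).1, y₁, (asmT θ₀ g₀ ρ₀ w (y₀, γ)).2, p) := fun _ _ _ _ _ => rfl
  have hB : ∀ w y₀ y₁ γ p, ΘB w (y₀, y₁, γ, p) =
      (y₀, (asmT θ₁ g₁ ρ₁ w (y₁, γ)).1, (asmT θ₁ g₁ ρ₁ w (y₁, γ)).2,
        π (y₀, (asmT θ₁ g₁ ρ₁ w (y₁, γ)).1) * ((π (y₀, y₁))⁻¹ * p)) := fun _ _ _ _ _ => rfl
  set θ : FreeGroup X →* Perm (Z₀ × Z₁ × Γ × P) := FreeGroup.lift fun x =>
    if x ∈ S₀ then ΘK (FreeGroup.of x) else ΘB (FreeGroup.of x) with hθ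
  have hθK : ∀ w ∈ Wd S₀, θ w = ΘK w := fun w hw => hom_congr (fun x hx => by
    simp only [hθ, FreeGroup.lift_apply_of, if_pos hx]) hw
  have hθB : ∀ w ∈ Wd S₁, θ w = ΘB w := fun w hw => hom_congr (fun x hx => by
    simp only [hθ, FreeGroup.lift_apply_of]
    by_cases hx0 : x ∈ S₀
    · rw [if_pos hx0]
      ext1 ω
      obtain ⟨y₀, y₁, γ, p⟩ := ω
      have hx' : FreeGroup.of x ∈ Wd (S₀ ∩ S₁) := of_mem_wd ⟨hx0, hx⟩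
      rw [hK, hB, hT₀ _ hx', hT₁ _ hx', mul_inv_cancel_left]
    · rw [if_neg hx0]) hw
  have htriv₀ : Triv (fun ω : Z₀ × Z₁ × Γ × P => ρ₀ ω.2.2.1 ω.1) := by
    refine ⟨Z₁ × Γ × P, inferInstance, ⟨(Classical.arbitrary Z₁, 1, 1)⟩,
      { toFun := fun ω => (ρ₀ ω.2.2.1 ω.1, (ω.2.1, ω.2.2.1, ω.2.2.2))
        invFun := fun a => ((ρ₀ a.2.2.1)⁻¹ a.1, a.2.1, a.2.2.1, a.2.2.2)
        left_inv := fun ω => by
          obtain ⟨y₀, y₁, γ, p⟩ := ω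
          simp
        right_inv := fun a => by
          obtain ⟨z, y₁, γ, p⟩ := a
          simp }, fun ω => rfl⟩
  have htriv₁ : Triv (fun ω : Z₀ × Z₁ × Γ × P => ρ₁ ω.2.2.1 ω.2.1) := by
    refine ⟨Z₀ × Γ × P, inferInstance, ⟨(Classical.arbitrary Z₀, 1, 1)⟩,
      { toFun := fun ω => (ρ₁ ω.2.2.1 ω.2.1, (ω.1, ω.2.2.1, ω.2.2.2))
        invFun := fun a => (a.2.1, (ρ₁ a.2.2.1)⁻¹ a.1, a.2.2.1, a.2.2.2)
        left_inv := fun ω => by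
          obtain ⟨y₀, y₁, γ, p⟩ := ω
          simp
        right_inv := fun a => by
          obtain ⟨z, y₁, γ, p⟩ := a
          simp }, fun ω => rfl⟩
  have hWF₀ : ∀ f ∈ Wd (S₀ ∩ S₁), f ∈ Wd S₀ := fun f hf => wd_mono Set.inter_subset_left hf
  have hmove : ∀ {Z : Type} (ϑ : FreeGroup X →* Perm Z) (g : X → Z → Γ) (ρ : Γ →* Perm Z),
      (∀ d ∈ Wd (S₀ ∩ S₁), ρ (ψ d) = ϑ d) → ∀ w y γ, (asmT ϑ g ρ w (y, γ)).1 = y →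
        ∃ d ∈ Wd (S₀ ∩ S₁), ϑ d (ρ γ y) = ϑ w (ρ γ y) := by
    intro Z ϑ g ρ hρ' w y γ hy
    obtain ⟨d, hd, hdc⟩ := hsurj (cval ϑ g w (ρ γ y))
    refine ⟨d, hd, ?_⟩
    rw [asmT_apply, ← hdc] at hy
    simp only at hy
    rw [Perm.inv_eq_iff_eq] at hy
    rw [hy, map_mul, hρ' d hd, Perm.mul_apply]
  refine ⟨Z₀ × Z₁ × Γ × P, inferInstance,
    ⟨(Classical.arbitrary Z₀, Classical.arbitrary Z₁, 1, 1)⟩, θ,
    { p₀ := fun ω => ρ₀ ω.2.2.1 ω.1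
      p₁ := fun ω => ρ₁ ω.2.2.1 ω.2.1
      y₀ := fun ω => ω.1
      y₁ := fun ω => ω.2.1
      p := fun ω => ω.2.2.2
      triv₀ := htriv₀
      triv₁ := htriv₁
      eq₀ := ?_
      eq₁ := ?_
      k₁ := ?_
      kp := ?_
      b₀ := ?_
      bp := ?_
      move₀ := ?_
      move₁ := ?_
      free := ?_ }, ?_⟩
  · rintro w hw ⟨y₀, y₁, γ, p⟩
    rw [hθK w hw, hK, asmT_apply]
    simp
  · rintro w hw ⟨y₀, y₁, γ, p⟩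
    rw [hθB w hw, hB, asmT_apply]
    simp
  · rintro w hw ⟨y₀, y₁, γ, p⟩
    rw [hθK w hw, hK]
  · rintro w hw ⟨y₀, y₁, γ, p⟩
    rw [hθK w hw, hK]
  · rintro w hw ⟨y₀, y₁, γ, p⟩
    rw [hθB w hw, hB]
  · rintro w hw ⟨y₀, y₁, γ, p⟩
    rw [hθB w hw, hB]
    simp
  · rintro w hw ⟨y₀, y₁, γ, p⟩ h
    rw [hθK w hw, hK] at h
    exact hmove θ₀ g₀ ρ₀ (fun d hd => (hρ d hd).1) w y₀ γ h
  · rintro w hw ⟨y₀, y₁, γ, p⟩ h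
    rw [hθB w hw, hB] at h
    exact hmove θ₁ g₁ ρ₁ (fun d hd => (hρ d hd).2.1) w y₁ γ h
  · rintro f hf ⟨y₀, y₁, γ, p⟩ h
    rw [hθK f (hWF₀ f hf), hK, hT₀ f hf] at h
    have h1 : ψ f * γ = γ := congrArg (fun a => a.2.2.1) h
    have h2 : ψ f = 1 := by simpa using h1
    rw [← (hρ f hf).2.2, h2, map_one]
  · intro L hL
    rw [two_mul]
    rcases hL with hL | hL
    · have hw := mk_mem_wd L (hR₀ L hL)
      refine (((r₀ L hL).comp_triv htriv₀).or ((hg₀s L hL).comp_triv htriv₀)).mono ?_ le_rfl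
      rintro ⟨y₀, y₁, γ, p⟩ hne
      by_contra hcon
      push Not at hcon
      refine hne ?_
      rw [hθK _ hw, hK, asmT_apply, cval_mk]
      simp only at hcon
      rw [hcon.1, hcon.2]
      simp
    · have hw := mk_mem_wd L (hR₁ L hL)
      refine (((r₁ L hL).comp_triv htriv₁).or ((hg₁s L hL).comp_triv htriv₁)).mono ?_ le_rfl
      rintro ⟨y₀, y₁, γ, p⟩ hne
      by_contra hcon
      push Not at hcon
      refine hne ?_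
      rw [hθB _ hw, hB, asmT_apply, cval_mk]
      simp only at hcon
      rw [hcon.1, hcon.2]
      simp

end ORel
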