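import Pool.Agent.Lib_MP_051624_or.OSkew
import Pool.Agent.Lib_MP_051624_or.OWd

/-!
# Solvability for the glued model

Proof of `glued_csolv`. Let `Ω', θ', p'` be a cover of the glued model (`p' : Ω' → Ω`), equivariant
for the letters of `S₀ ∪ S₁`, and let `g` be a cocycle on `Ω'` with values in `Γ`. The composition
`G.p₁ ∘ p'` is `Triv` (`Triv.comp`) and equivariant for the letters of `S₁` (`G.eq₁` for
`w = of x`). By `c₁` there is `g'` which agrees with `g` on the letters outside of `U₁` and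
solves `R₁` up to `δ`. Similarly, by `c₀` applied to `G.p₀ ∘ p'` and `g'`, there is `g''` which
agrees with `g'` outside of `U₀` and solves `R₀` up to `δ`. The letters of the words in `R₁` are
in `S₁`, hence not in `U₀`, so that `val θ' g'' L = val θ' g' L` for `L ∈ R₁`
(`val_congr_letters`). So `g''` solves `R₀ ∪ R₁`.
-/

open Equiv

namespace ORel

theorem glued_csolv {X : Type} (S₀ S₁ : Set X) (R₀ R₁ : Set (List (X × Bool)))
    (hR₁ : ∀ L ∈ R₁, ∀ y ∈ L, y.1 ∈ S₁) (U₀ U₁ : Set X) (hU₀ : Disjoint U₀ S₁)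
    {Z₀ Z₁ Q P : Type} [Group Q] [Group P]
    (θ₀ : FreeGroup X →* Perm Z₀) (θ₁ : FreeGroup X →* Perm Z₁) (q : FreeGroup X →* Q)
    (π : Z₀ × Z₁ → P) (δ : ℝ) (c₀ : CSolv S₀ θ₀ R₀ U₀ δ) (c₁ : CSolv S₁ θ₁ R₁ U₁ δ)
    (Ω : Type) (θ : FreeGroup X →* Perm Ω) (G : Glued S₀ S₁ θ₀ θ₁ q π Ω θ) :
    CSolv (S₀ ∪ S₁) θ (R₀ ∪ R₁) (U₀ ∪ U₁) δ := by
  intro Ω' _ θ' p' hp' heq Γ _ g
  obtain ⟨g', hg', hR₁'⟩ := c₁ Ω' θ' (G.p₁ ∘ p') (G.triv₁.comp hp') (fun x hx ω => by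
    change G.p₁ (p' (θ' (FreeGroup.of x) ω)) = _
    rw [heq x (Or.inr hx), G.eq₁ _ (of_mem_wd hx)]
    rfl) Γ g
  obtain ⟨g'', hg'', hR₀'⟩ := c₀ Ω' θ' (G.p₀ ∘ p') (G.triv₀.comp hp') (fun x hx ω => by
    change G.p₀ (p' (θ' (FreeGroup.of x) ω)) = _
    rw [heq x (Or.inl hx), G.eq₀ _ (of_mem_wd hx)]
    rfl) Γ g'
  refine ⟨g'', fun x hx => ?_, ?_⟩
  · rw [hg'' x fun h => hx (Or.inl h), hg' x fun h => hx (Or.inr h)]
  · rintro L (hL | hL)
    · exact hR₀' L hL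
    · have h1 : ∀ ω, val θ' g'' L ω = val θ' g' L ω := fun ω =>
        val_congr_letters θ' g'' g' L (fun y hy =>
          hg'' y.1 fun h => Set.disjoint_left.1 hU₀ h (hR₁ L hL y hy)) ω
      have h2 := hR₁' L hL
      simp only [h1]
      exact h2

end ORel
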