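import Pool.Agent.Lib_MP_051624_or.ODefs

/-!
# Skew products

`skew θ g`: the action of the free group on `Z × Γ` given by the cocycle `g`.
`cval θ g w z`: the value of the cocycle along `w`, starting at `z`.
-/

open Equiv

namespace ORel

variable {X Z Γ : Type} [Group Γ]

/-- The permutation `(z, γ) ↦ (σ z, c z * γ)`. -/
def skL (σ : Perm Z) (c : Z → Γ) : Perm (Z × Γ) where
  toFun a := (σ a.1, c a.1 * a.2)
  invFun a := (σ⁻¹ a.1, (c (σ⁻¹ a.1))⁻¹ * a.2)
  left_inv a := by
    rcases a with ⟨z, γ⟩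
    simp
  right_inv a := by
    rcases a with ⟨z, γ⟩
    simp

/-- The skew product. -/
def skew (θ : FreeGroup X →* Perm Z) (g : X → Z → Γ) : FreeGroup X →* Perm (Z × Γ) :=
  FreeGroup.lift fun x => skL (θ (FreeGroup.of x)) (g x)

/-- The value of the cocycle along `w` starting at `z`. -/
def cval (θ : FreeGroup X →* Perm Z) (g : X → Z → Γ) (w : FreeGroup X) (z : Z) : Γ :=
  (skew θ g w (z, 1)).2

theorem skL_apply (σ : Perm Z) (c : Z → Γ) (z : Z) (γ : Γ) : skL σ c (z, γ) = (σ z, c z * γ) := rfl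

theorem skL_inv_apply (σ : Perm Z) (c : Z → Γ) (z : Z) (γ : Γ) :
    (skL σ c)⁻¹ (z, γ) = (σ⁻¹ z, (c (σ⁻¹ z))⁻¹ * γ) := rfl

theorem skew_of (θ : FreeGroup X →* Perm Z) (g : X → Z → Γ) (x : X) (z : Z) (γ : Γ) :
    skew θ g (FreeGroup.of x) (z, γ) = (θ (FreeGroup.of x) z, g x z * γ) := by
  simp [skew, skL_apply]

theorem skew_mk (θ : FreeGroup X →* Perm Z) (g : X → Z → Γ) (L : List (X × Bool)) (z : Z) (γ : Γ) :
    skew θ g (FreeGroup.mk L) (z, γ) = (θ (FreeGroup.mk L) z, val θ g L z * γ) := by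
  induction L with
  | nil =>
    have h : (FreeGroup.mk [] : FreeGroup X) = 1 := rfl
    simp [h, val]
  | cons y L ih =>
    rcases y with ⟨x, b⟩
    have h : (FreeGroup.mk ((x, b) :: L) : FreeGroup X) = FreeGroup.mk [(x, b)] * FreeGroup.mk L := by
      rw [FreeGroup.mul_mk]; rfl
    rw [h, map_mul, map_mul, Perm.mul_apply, ih, Perm.mul_apply]
    cases b
    · have h1 : (FreeGroup.mk [(x, false)] : FreeGroup X) = (FreeGroup.of x)⁻¹ := rfl
      rw [h1, map_inv, map_inv]
      have h2 : (skew θ g (FreeGroup.of x))⁻¹ (θ (FreeGroup.mk L) z, val θ g L z * γ) =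
          ((θ (FreeGroup.of x))⁻¹ (θ (FreeGroup.mk L) z),
            (g x ((θ (FreeGroup.of x))⁻¹ (θ (FreeGroup.mk L) z)))⁻¹ * (val θ g L z * γ)) := by
        rw [Perm.inv_eq_iff_eq, skew_of]
        simp
      rw [h2]
      simp only [val, mul_assoc]
      rw [h, h1, map_mul, map_inv, Perm.mul_apply]
    · have h1 : (FreeGroup.mk [(x, true)] : FreeGroup X) = FreeGroup.of x := rfl
      rw [h1, skew_of]
      simp only [val, mul_assoc]

theorem cval_mk (θ : FreeGroup X →* Perm Z) (g : X → Z → Γ) (L : List (X × Bool)) (z : Z) :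
    cval θ g (FreeGroup.mk L) z = val θ g L z := by
  rw [cval, skew_mk, mul_one]

theorem skew_apply (θ : FreeGroup X →* Perm Z) (g : X → Z → Γ) (w : FreeGroup X) (z : Z) (γ : Γ) :
    skew θ g w (z, γ) = (θ w z, cval θ g w z * γ) := by
  classical
  obtain ⟨L, rfl⟩ : ∃ L, w = FreeGroup.mk L := ⟨w.toWord, FreeGroup.mk_toWord.symm⟩
  rw [skew_mk, cval_mk]

theorem cval_of (θ : FreeGroup X →* Perm Z) (g : X → Z → Γ) (x : X) (z : Z) :
    cval θ g (FreeGroup.of x) z = g x z := by
  rw [cval, skew_of, mul_one]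

theorem cval_one (θ : FreeGroup X →* Perm Z) (g : X → Z → Γ) (z : Z) :
    cval θ g 1 z = 1 := by
  simp [cval]

theorem cval_mul (θ : FreeGroup X →* Perm Z) (g : X → Z → Γ) (u v : FreeGroup X) (z : Z) :
    cval θ g (u * v) z = cval θ g u (θ v z) * cval θ g v z := by
  have h : skew θ g (u * v) (z, 1) = skew θ g u (skew θ g v (z, 1)) := by
    rw [map_mul, Perm.mul_apply]
  rw [skew_apply, skew_apply, skew_apply, mul_one, mul_one] at h
  exact congrArg Prod.snd h

theorem cval_inv (θ : FreeGroup X →* Perm Z) (g : X → Z → Γ) (u : FreeGroup X) (z : Z) :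
    cval θ g u⁻¹ z = (cval θ g u (θ u⁻¹ z))⁻¹ := by
  have h := cval_mul θ g u u⁻¹ z
  rw [mul_inv_cancel, cval_one] at h
  exact (inv_eq_of_mul_eq_one_right h.symm).symm

/-- Two cocycles which agree on the letters of `V` agree on the words in these letters. -/
theorem cval_congr (θ : FreeGroup X →* Perm Z) (g g' : X → Z → Γ) (V : Set X)
    (h : ∀ x ∈ V, g x = g' x) (w : FreeGroup X) (hw : w ∈ Wd V) (z : Z) :
    cval θ g w z = cval θ g' w z := by
  induction hw using Subgroup.closure_induction generalizing z with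
  | mem w hw =>
    obtain ⟨x, hx, rfl⟩ := hw
    rw [cval_of, cval_of, h x hx]
  | one => rw [cval_one, cval_one]
  | mul u v _ _ hu hv => rw [cval_mul, cval_mul, hu, hv]
  | inv u _ hu => rw [cval_inv, cval_inv, hu]

/-- A cocycle which is constant on the letters of `V`. -/
theorem cval_const (θ : FreeGroup X →* Perm Z) (g : X → Z → Γ) (V : Set X) (ψ : FreeGroup X →* Γ)
    (h : ∀ x ∈ V, ∀ z, g x z = ψ (FreeGroup.of x)) (w : FreeGroup X) (hw : w ∈ Wd V) (z : Z) :
    cval θ g w z = ψ w := by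
  induction hw using Subgroup.closure_induction generalizing z with
  | mem w hw =>
    obtain ⟨x, hx, rfl⟩ := hw
    rw [cval_of, h x hx]
  | one => rw [cval_one, map_one]
  | mul u v _ _ hu hv => rw [cval_mul, hu, hv, map_mul]
  | inv u _ hu => rw [cval_inv, hu, map_inv]

/-- `val` only depends on the cocycle at the letters of the word. -/
theorem val_congr_letters (θ : FreeGroup X →* Perm Z) (g g' : X → Z → Γ) (L : List (X × Bool))
    (h : ∀ y ∈ L, g y.1 = g' y.1) (z : Z) : val θ g L z = val θ g' L z := by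
  induction L with
  | nil => rfl
  | cons y L ih =>
    rcases y with ⟨x, b⟩
    have h1 : g x = g' x := h (x, b) (by simp)
    have h2 := ih fun y hy => h y (by simp [hy])
    cases b
    · simp only [val, h1, h2]
    · simp only [val, h1, h2]

theorem val_append (θ : FreeGroup X →* Perm Z) (g : X → Z → Γ) (L L' : List (X × Bool)) (z : Z) :
    val θ g (L ++ L') z = val θ g L (θ (FreeGroup.mk L') z) * val θ g L' z := by
  have h : (FreeGroup.mk (L ++ L') : FreeGroup X) = FreeGroup.mk L * FreeGroup.mk L' := by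
    rw [FreeGroup.mul_mk]
  rw [← cval_mk, ← cval_mk, ← cval_mk, h, cval_mul]

end ORel
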