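import Pool.Agent.Lib_MP_051624_or.OWrB

/-!
# Right-ordered groups with Følner sets separate the words of free groups

Proof of `wr_sep`. Let `L = [y_1, …, y_l]` be a reduced word with `1 ≤ l ≤ k + 1` and suppose
`lamS lam (mk L) = 1`. Let `v_i = lam (mk (L.take i))`, `0 ≤ i ≤ l`. For `y_i = (x, true)` put
`e_i = (v_{i-1}, x)`, and for `y_i = (x, false)` put `e_i = (v_i, x)`; then
`(lamS lam (mk L)).a` is the sum of `± single e_i 1`, with the sign `+` iff `y_i.2 = true`
(induction on the word from the right: `mk (L ++ [y]) = mk L * mk [y]`, and `wr_mul_a`,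
`act_single`; for `y = (x, false)`: `(lamS lam (of x)⁻¹).a = - act (lam x)⁻¹ (single (1, x) 1)`).

If `i < j` and `v_i = v_j` then `lam` is `1` on the subword `(L.take j).drop i` of `L`, which is a
reduced word of length `j - i`. By the hypothesis on `lam` this implies `j - i > k`, i.e. `i = 0`
and `j = l = k + 1`. So the only possible coincidence among `v_0, …, v_l` is `v_0 = v_l`.

The edges `e_1, …, e_l` are distinct: suppose `e_i = e_j`, `i < j`, with the letter `x`. If both
have the sign `+`, then `v_{i-1} = v_{j-1}`, impossible since `j - 1 < l`. If both have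
the sign `-`, then `v_i = v_j`, impossible as `i > 0`. If `y_i = (x, true)`, `y_j = (x, false)`
then `v_{i-1} = v_j` and `v_i = v_{i-1} * x = v_j * x = v_{j-1}`; the second equation
forces `i = j - 1` (as `0 < i`), and then `y_i, y_{i+1}` cancel, a contradiction.
If `y_i = (x, false)`, `y_j = (x, true)` then `v_i = v_{j-1}`, so `i = j - 1` and
again `y_i, y_{i+1}` cancel.

So the coefficient of `(lamS lam (mk L)).a` at `e_1` is `1` or `-1`, a contradiction to
`(lamS lam (mk L)).a = 0`.

Proof of `exists_ordered`: induction on `k`; for `k = 0` take the trivial group (`Unit`, which is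
ordered, with `Folner Unit`); for the step take `WR N X` and `lamS lam`, with `wr_order`,
`wr_folner` and `wr_sep`.
-/

namespace ORel

private theorem sub_aux {X : Type} {L A C D : List (X × Bool)} (h : C ++ A ++ D = L)
    (hr : FreeGroup.IsReduced L) : FreeGroup.IsReduced A := by
  unfold FreeGroup.IsReduced at hr ⊢
  rw [← h] at hr
  exact hr.left_of_append.right_of_append

/-- `mk (y :: M) = mk [y] * mk M`. -/
private theorem mk_cons_aux {X : Type} (y : X × Bool) (M : List (X × Bool)) :
    FreeGroup.mk (y :: M) = FreeGroup.mk [y] * FreeGroup.mk M := by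
  rw [FreeGroup.mul_mk]
  rfl

private theorem lamS_true {N X : Type} [Group N] (lam : FreeGroup X →* N) (x : X) :
    (lamS lam (FreeGroup.mk [(x, true)])).a = Finsupp.single (1, x) 1 := by
  have h : FreeGroup.mk [(x, true)] = FreeGroup.of x := rfl
  rw [h]
  simp [lamS]

private theorem lam_false {N X : Type} [Group N] (lam : FreeGroup X →* N) (x : X) :
    lam (FreeGroup.mk [(x, false)]) = (lam (FreeGroup.of x))⁻¹ := by
  have h : FreeGroup.mk [(x, false)] = (FreeGroup.of x)⁻¹ := rfl
  rw [h, map_inv]

private theorem lam_true {N X : Type} [Group N] (lam : FreeGroup X →* N) (x : X) :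
    lam (FreeGroup.mk [(x, true)]) = lam (FreeGroup.of x) := rfl

private theorem lamS_false {N X : Type} [Group N] (lam : FreeGroup X →* N) (x : X) :
    (lamS lam (FreeGroup.mk [(x, false)])).a =
      -Finsupp.single ((lam (FreeGroup.of x))⁻¹, x) 1 := by
  have h : FreeGroup.mk [(x, false)] = (FreeGroup.mk [(x, true)])⁻¹ := rfl
  rw [h, map_inv, wr_inv_a, lamS_true, lamS_q, act_single, lam_true, mul_one]

private theorem lamS_cons {N X : Type} [Group N] (lam : FreeGroup X →* N) (y : X × Bool)
    (M : List (X × Bool)) :
    (lamS lam (FreeGroup.mk (y :: M))).a = (lamS lam (FreeGroup.mk [y])).a +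
      act (lam (FreeGroup.mk [y])) (lamS lam (FreeGroup.mk M)).a := by
  rw [mk_cons_aux, map_mul, wr_mul_a, lamS_q]

private theorem supp_aux {N X : Type} [Group N] (lam : FreeGroup X →* N) :
    ∀ (M : List (X × Bool)) (g : N) (e : N × X), act g (lamS lam (FreeGroup.mk M)).a e ≠ 0 →
      ∃ (A : List (X × Bool)) (y : X × Bool) (B : List (X × Bool)), M = A ++ y :: B ∧
        ((y.2 = true ∧ e = (g * lam (FreeGroup.mk A), y.1)) ∨
          (y.2 = false ∧ e = (g * lam (FreeGroup.mk (A ++ [y])), y.1))) := by
  classical
  intro M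
  induction M with
  | nil =>
    intro g e he
    exfalso
    apply he
    have h : FreeGroup.mk ([] : List (X × Bool)) = 1 := rfl
    rw [h, map_one, wr_one_a, map_zero]
    rfl
  | cons y M ih =>
    intro g e he
    rw [lamS_cons, map_add, ← act_mul, Finsupp.add_apply] at he
    by_cases h1 : act g (lamS lam (FreeGroup.mk [y])).a e = 0
    · rw [h1, zero_add] at he
      obtain ⟨A, z, B, hM, hz⟩ := ih _ _ he
      refine ⟨y :: A, z, B, by rw [hM]; rfl, ?_⟩
      rcases hz with ⟨hz, hz'⟩ | ⟨hz, hz'⟩
      · left
        refine ⟨hz, ?_⟩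
        rw [mk_cons_aux, map_mul, ← mul_assoc]
        exact hz'
      · right
        refine ⟨hz, ?_⟩
        rw [List.cons_append, mk_cons_aux, map_mul, ← mul_assoc]
        exact hz'
    · refine ⟨[], y, M, rfl, ?_⟩
      obtain ⟨x, b⟩ := y
      cases b with
      | true =>
        left
        refine ⟨rfl, ?_⟩
        rw [lamS_true, act_single, mul_one, Finsupp.single_apply] at h1
        have h2 : (g, x) = e := by
          by_contra hh
          exact h1 (if_neg hh)
        have h : FreeGroup.mk ([] : List (X × Bool)) = 1 := rfl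
        rw [h, map_one, mul_one]
        exact h2.symm
      | false =>
        right
        refine ⟨rfl, ?_⟩
        rw [lamS_false, map_neg, act_single, Finsupp.neg_apply, Finsupp.single_apply] at h1
        have h2 : (g * (lam (FreeGroup.of x))⁻¹, x) = e := by
          by_contra hh
          apply h1
          rw [if_neg hh, neg_zero]
        rw [List.nil_append, lam_false]
        exact h2.symm

/-- The homomorphism `lamS lam` separates the reduced words of length at most `k + 1` from `1` if
`lam` does so for length at most `k`. -/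
theorem wr_sep {N X : Type} [Group N] (lam : FreeGroup X →* N) (k : ℕ)
    (h : ∀ L : List (X × Bool), L.length ≤ k → FreeGroup.IsReduced L → L ≠ [] →
      lam (FreeGroup.mk L) ≠ 1)
    (L : List (X × Bool)) (hL : L.length ≤ k + 1) (hr : FreeGroup.IsReduced L) (hne : L ≠ []) :
    lamS lam (FreeGroup.mk L) ≠ 1 := by
  intro h0
  obtain ⟨y, M, rfl⟩ : ∃ y M, L = y :: M := by
    cases L with
    | nil => exact absurd rfl hne
    | cons y M => exact ⟨y, M, rfl⟩
  have hlen : M.length ≤ k := by
    rw [List.length_cons] at hL
    omega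
  have ha : (lamS lam (FreeGroup.mk (y :: M))).a = 0 := by
    rw [h0, wr_one_a]
  rw [lamS_cons] at ha
  have key : ∀ e : N × X, (lamS lam (FreeGroup.mk [y])).a e ≠ 0 →
      act (lam (FreeGroup.mk [y])) (lamS lam (FreeGroup.mk M)).a e ≠ 0 := by
    intro e he h1
    have h2 := DFunLike.congr_fun ha e
    rw [Finsupp.add_apply, h1, add_zero] at h2
    exact he h2
  have hne1 : ∀ (A : List (X × Bool)) (z : X × Bool) (B : List (X × Bool)),
      M = A ++ z :: B → z.1 = y.1 → z.2 ≠ y.2 → lam (FreeGroup.mk A) ≠ 1 := by
    intro A z B hM h1 h2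
    by_cases hA : A = []
    · exfalso
      subst hA
      rw [hM, List.nil_append, FreeGroup.isReduced_cons_cons] at hr
      exact h2 (hr.1 h1.symm).symm
    · refine h A ?_ ?_ hA
      · have := congrArg List.length hM
        rw [List.length_append, List.length_cons] at this
        omega
      · refine sub_aux (C := [y]) (D := z :: B) ?_ hr
        rw [hM]
        rfl
  obtain ⟨x, b⟩ := y
  cases b with
  | true =>
    obtain ⟨A, z, B, hM, hz⟩ := supp_aux lam M _ (1, x) (key (1, x) (by
      rw [lamS_true, Finsupp.single_eq_same]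
      exact one_ne_zero))
    rcases hz with ⟨hz, hz'⟩ | ⟨hz, hz'⟩
    · have h1 := (Prod.ext_iff.1 hz').1
      have h2 : lam (FreeGroup.mk ((x, true) :: A)) = 1 := by
        rw [mk_cons_aux, map_mul]
        exact h1.symm
      refine h ((x, true) :: A) ?_ ?_ (List.cons_ne_nil _ _) h2
      · have := congrArg List.length hM
        rw [List.length_append, List.length_cons] at this
        rw [List.length_cons]
        omega
      · refine sub_aux (C := []) (D := z :: B) ?_ hr
        rw [hM]
        rfl
    · have h1 := (Prod.ext_iff.1 hz').1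
      have h3 := (Prod.ext_iff.1 hz').2
      have h3' : x = z.1 := h3
      refine hne1 A z B hM h3'.symm (by rw [hz]; exact Bool.false_ne_true) ?_
      have hz2 : z = (x, false) := Prod.ext h3'.symm hz
      have h4 : (1 : N) = lam (FreeGroup.mk [(x, true)]) * lam (FreeGroup.mk (A ++ [z])) := h1
      rw [hz2, ← FreeGroup.mul_mk, map_mul, lam_false, lam_true] at h4
      have h5 : lam (FreeGroup.mk A) = (lam (FreeGroup.of x))⁻¹ *
          (lam (FreeGroup.of x) * (lam (FreeGroup.mk A) * (lam (FreeGroup.of x))⁻¹)) *
            lam (FreeGroup.of x) := by group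
      rw [h5, ← h4]
      group
  | false =>
    obtain ⟨A, z, B, hM, hz⟩ := supp_aux lam M _ ((lam (FreeGroup.of x))⁻¹, x)
      (key ((lam (FreeGroup.of x))⁻¹, x) (by
        rw [lamS_false, Finsupp.neg_apply, Finsupp.single_eq_same]
        exact neg_ne_zero.2 one_ne_zero))
    rw [lam_false] at hz
    rcases hz with ⟨hz, hz'⟩ | ⟨hz, hz'⟩
    · have h1 := (Prod.ext_iff.1 hz').1
      have h3' : x = z.1 := (Prod.ext_iff.1 hz').2
      refine hne1 A z B hM h3'.symm (by rw [hz]; exact Bool.false_ne_true.symm) ?_
      have h4 : (lam (FreeGroup.of x))⁻¹ = (lam (FreeGroup.of x))⁻¹ * lam (FreeGroup.mk A) := h1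
      exact (left_eq_mul.1 h4)
    · have h1 := (Prod.ext_iff.1 hz').1
      have h4 : (lam (FreeGroup.of x))⁻¹ =
        (lam (FreeGroup.of x))⁻¹ * lam (FreeGroup.mk (A ++ [z])) := h1
      refine h (A ++ [z]) ?_ ?_ (List.append_ne_nil_of_right_ne_nil _ (List.cons_ne_nil _ _))
        (left_eq_mul.1 h4)
      · have := congrArg List.length hM
        rw [List.length_append, List.length_cons] at this
        rw [List.length_append, List.length_singleton]
        omega
      · refine sub_aux (C := [(x, false)]) (D := B) ?_ hr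
        rw [hM]
        simp

theorem exists_ordered (X : Type) (k : ℕ) :
    ∃ (N : Type) (_ : Group N) (_ : LinearOrder N) (lam : FreeGroup X →* N),
      (∀ a b c : N, a < b → a * c < b * c) ∧ Folner N ∧
      ∀ L : List (X × Bool), L.length ≤ k → FreeGroup.IsReduced L → L ≠ [] →
        lam (FreeGroup.mk L) ≠ 1 := by
  induction k with
  | zero =>
    refine ⟨Unit, inferInstance, inferInstance, 1, ?_, ?_, ?_⟩
    · intro a b c hab
      exact absurd hab (lt_irrefl _)
    · intro S ε hε
      refine ⟨{()}, Finset.singleton_nonempty _, ?_⟩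
      have h : {τ : Unit | τ ∈ ({()} : Finset Unit) ∧
          ¬ ∀ s ∈ S, s * τ ∈ ({()} : Finset Unit)} = ∅ := by
        ext τ
        simp
      rw [h, Set.ncard_empty, Finset.card_singleton]
      push_cast
      rw [mul_one]
      exact hε.le
    · intro L hL _ hne
      exact absurd (List.length_eq_zero_iff.1 (Nat.le_zero.1 hL)) hne
  | succ k ih =>
    obtain ⟨N, iG, iO, lam, hord, hfol, hsep⟩ := ih
    obtain ⟨iO', hord'⟩ := wr_order N X hord
    exact ⟨WR N X, inferInstance, iO', lamS lam, hord', wr_folner N X hfol,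
      fun L hL hr hne => wr_sep lam k hsep L hL hr hne⟩

end ORel
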