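import Pool.Agent.Lib_MP_051624_or.OThm
import Pool.Agent.Lib_MP_051624_or.OWrC

/-!
# Corollary F

`corF₀`: the case where the heights of `x` and of the letters of `W` are in `[0, m]` and both
`0` and `m` occur as heights of `x` or of a letter of `W`. Proof: let `W' = W.toWord`
(classically decidable equality), `L = (x, false) :: W'`, so that `mk L = (of x)⁻¹ * W`. Let
`κ : FreeGroup (ι × ℤ) →* FreeGroup (ι × ℤ)` be the homomorphism with `κ x = W` and `κ y = of y`
for the letters `y ≠ x`. Then `κ W = W` (`x` does not occur in `W`), `κ (mk L) = 1`, and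
`u⁻¹ * κ u ∈ NC := normalClosure {mk L}` for all `u` (check on letters; `NC` is normal).
* `hV`: the windows `V` are finite sets (`ι` is finite). If `e ∉ Wd V ⊔ NC` then
  `κ e ∉ (Wd V).map κ = Subgroup.closure (κ '' (of '' V))`: if `κ e = κ d`, `d ∈ Wd V`, then
  `d⁻¹ * e ∈ NC`. By `mhall` there is a finite quotient `q'` of `FreeGroup (ι × ℤ)` with
  `q' (κ e) ∉ ((Wd V).map κ).map q'`. Take `q = q'.comp κ`.
* `N, lam'` from `exists_ordered` with `k = W'.length`; `lam = lam'.comp κ`.
* `hU`: for `k = 0` or `k = m` there is an index `i` with `(L.get i).1.2 = k`. Let `j ≠ j'` be two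
  indices with `(L.get j).1 = (L.get j').1 = (L.get i).1`. If this letter is `x`, then
  `j = j' = 0`, as `x` does not occur in `W'`. Otherwise `j, j' ≥ 1`, and `bp L j = mk T`,
  `bp L j' = mk T'` with `T, T'` tails of `W'`, of different lengths: the length of `T` is
  `L.length - j - 1` for `(L.get j).2 = true` and `L.length - j` for `(L.get j).2 = false`. If
  the lengths are equal then (say `j < j'`) `j' = j + 1`, `(L.get j).2 = true` and
  `(L.get j').2 = false` or (`j` with `false`, `j'` with `true`: then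
  `L.length - j > L.length - j' - 1`, not equal), so two adjacent letters of the reduced word `W'`
  cancel, a contradiction. So, say, `T = T₁ ++ T'` with `T₁` nonempty, reduced (a factor of
  `W'`), of length at most `W'.length`, and `lam (bp L j) = lam' (mk T₁) * lam (bp L j')` with
  `lam' (mk T₁) ≠ 1` (note that `κ (mk T) = mk T`).

`corollaryF`: let `a` be the minimum and `b` the maximum of the heights of `x` and of the letters of
`W`. Put `x' = sh (-a) x`, `W₁ = map (sh (-a)) W`, `m = b - a`. By `corF₀`, the group with the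
relator `(rho x')⁻¹ * rho W₁ = t ^ (-a) * ((rho x)⁻¹ * rho W) * t ^ a` (`rho_sh`) is
sofic. The normal closures of `{r}` and `{t ^ (-a) * r * t ^ a}` are equal, so the presented groups
are isomorphic, and soficity is invariant under isomorphisms.
-/

open Equiv

namespace ORel

theorem IsSofic.of_mulEquiv {G H : Type} [Group G] [Group H] (e : G ≃* H) (h : IsSofic G) :
    IsSofic H := by
  classical
  intro F hF ε hε
  have h1 : (1 : G) ∉ F.image e.symm := by
    intro h1
    obtain ⟨y, hy, hy'⟩ := Finset.mem_image.1 h1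
    have : y = 1 := by
      have h2 := congrArg e hy'
      simpa using h2
    exact hF (this ▸ hy)
  obtain ⟨n, hn, Φ, hΦ1, hΦ⟩ := h (F.image e.symm) h1 ε hε
  refine ⟨n, hn, fun y => Φ (e.symm y), ?_, ?_⟩
  · show Φ (e.symm 1) = 1
    rw [map_one, hΦ1]
  · intro g hg k hk
    have h2 := hΦ (e.symm g) (Finset.mem_image_of_mem _ hg) (e.symm k) (Finset.mem_image_of_mem _ hk)
    rw [← map_mul] at h2
    exact h2

/-- The substitution `x ↦ W`. -/
private noncomputable def cκ {X : Type} [DecidableEq X] (x : X) (W : FreeGroup X) :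
    FreeGroup X →* FreeGroup X :=
  FreeGroup.lift fun y => if y = x then W else FreeGroup.of y

private theorem cκ_of_ne {X : Type} [DecidableEq X] (x : X) (W : FreeGroup X) {y : X}
    (h : y ≠ x) : cκ x W (FreeGroup.of y) = FreeGroup.of y := by
  simp [cκ, h]

private theorem cκ_of {X : Type} [DecidableEq X] (x : X) (W : FreeGroup X) :
    cκ x W (FreeGroup.of x) = W := by
  simp [cκ]

private theorem cκ_mk {X : Type} [DecidableEq X] (x : X) (W : FreeGroup X)
    (T : List (X × Bool)) (hT : ∀ y ∈ T, y.1 ≠ x) : cκ x W (FreeGroup.mk T) = FreeGroup.mk T := by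
  have h1 : (FreeGroup.mk T : FreeGroup X) ∈ Wd {y : X | y ≠ x} := mk_mem_wd T hT
  have h2 := hom_congr (f := cκ x W) (g := MonoidHom.id _) (V := {y : X | y ≠ x})
    (fun y hy => cκ_of_ne x W hy) h1
  simpa using h2

private theorem cmk_cons {X : Type} [DecidableEq X] (x : X) (W : FreeGroup X) :
    (FreeGroup.mk ((x, false) :: W.toWord) : FreeGroup X) = (FreeGroup.of x)⁻¹ * W := by
  have h1 : (FreeGroup.mk ((x, false) :: W.toWord) : FreeGroup X) =
      FreeGroup.mk [(x, false)] * FreeGroup.mk W.toWord := by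
    rw [FreeGroup.mul_mk]; rfl
  rw [h1, FreeGroup.mk_toWord]
  rfl

private theorem cκ_quot {X : Type} [DecidableEq X] (x : X) (W : FreeGroup X)
    (NC : Subgroup (FreeGroup X)) [NC.Normal] (h : (FreeGroup.of x)⁻¹ * W ∈ NC) (u : FreeGroup X) :
    (QuotientGroup.mk' NC) (cκ x W u) = QuotientGroup.mk' NC u := by
  have h1 : (QuotientGroup.mk' NC).comp (cκ x W) = QuotientGroup.mk' NC := by
    apply FreeGroup.ext_hom
    intro y
    rw [MonoidHom.comp_apply]
    by_cases hy : y = x
    · subst hy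
      rw [cκ_of]
      exact (QuotientGroup.eq.2 h).symm
    · rw [cκ_of_ne x W hy]
  exact DFunLike.congr_fun h1 u

private theorem clvl_finite {ι : Type} [Finite ι] (a b : ℤ) : (lvl ι a b).Finite := by
  have h1 : lvl ι a b ⊆ (Set.univ : Set ι) ×ˢ Set.Icc a b := fun y hy => ⟨trivial, hy⟩
  exact (Set.finite_univ.prod (Set.finite_Icc a b)).subset h1

private theorem chV {X : Type} [DecidableEq X] (x : X) (W : FreeGroup X)
    (hκ : cκ x W ((FreeGroup.of x)⁻¹ * W) = 1) (V : Set X) (hV : V.Finite) (e : FreeGroup X)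
    (he : e ∉ Wd V ⊔ Subgroup.normalClosure {(FreeGroup.of x)⁻¹ * W}) :
    ∃ (Q : Type) (_ : Group Q) (_ : Finite Q) (q : FreeGroup X →* Q),
      q ((FreeGroup.of x)⁻¹ * W) = 1 ∧ q e ∉ (Wd V).map q := by
  classical
  have hfin : ((cκ x W) '' (FreeGroup.of '' V)).Finite := (hV.image _).image _
  have hmap : (Wd V).map (cκ x W) =
      Subgroup.closure ((hfin.toFinset : Finset (FreeGroup X)) : Set (FreeGroup X)) := by
    rw [Set.Finite.coe_toFinset, Wd, MonoidHom.map_closure]
  have hb : cκ x W e ∉ Subgroup.closure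
      ((hfin.toFinset : Finset (FreeGroup X)) : Set (FreeGroup X)) := by
    rw [← hmap]
    rintro ⟨d, hd, hde⟩
    apply he
    have h1 := cκ_quot x W (Subgroup.normalClosure {(FreeGroup.of x)⁻¹ * W})
      (Subgroup.subset_normalClosure rfl) e
    have h2 := cκ_quot x W (Subgroup.normalClosure {(FreeGroup.of x)⁻¹ * W})
      (Subgroup.subset_normalClosure rfl) d
    have hde' : cκ x W d = cκ x W e := hde
    rw [hde', h1] at h2
    have h3 : d⁻¹ * e ∈ Subgroup.normalClosure {(FreeGroup.of x)⁻¹ * W} :=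
      QuotientGroup.eq.1 h2.symm
    have h4 : e = d * (d⁻¹ * e) := by group
    rw [h4]
    exact Subgroup.mul_mem_sup hd h3
  obtain ⟨Q, hQ, hQf, q, hq⟩ := mhall hfin.toFinset (cκ x W e) hb
  refine ⟨Q, hQ, hQf, q.comp (cκ x W), ?_, ?_⟩
  · rw [MonoidHom.comp_apply, hκ, map_one]
  · rw [MonoidHom.comp_apply, ← Subgroup.map_map, hmap]
    exact hq

/-- The base points of two occurrences of a letter are separated. -/
private theorem csep {X N : Type} [DecidableEq X] [Group N] (x : X) (W' : List (X × Bool))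
    (hr : FreeGroup.IsReduced W') (hW : ∀ y ∈ W', y.1 ≠ x) (lam : FreeGroup X →* N)
    (hlam : ∀ T : List (X × Bool), T.length ≤ W'.length → FreeGroup.IsReduced T → T ≠ [] →
      (∀ y ∈ T, y.1 ≠ x) → lam (FreeGroup.mk T) ≠ 1)
    (j j' : ℕ) (hj : j < ((x, false) :: W').length) (hj' : j' < ((x, false) :: W').length)
    (hjj : j < j') (hlet : (((x, false) :: W').get ⟨j, hj⟩).1 = (((x, false) :: W').get ⟨j', hj'⟩).1) :
    lam (bp ((x, false) :: W') ⟨j, hj⟩) ≠ lam (bp ((x, false) :: W') ⟨j', hj'⟩) := by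
  obtain ⟨i', rfl⟩ : ∃ i', j' = i' + 1 := ⟨j' - 1, by omega⟩
  have hi' : i' < W'.length := by simpa using hj'
  have hg' : ((x, false) :: W').get ⟨i' + 1, hj'⟩ = W'[i'] := rfl
  rcases Nat.eq_zero_or_pos j with rfl | hj0
  · exfalso
    have h1 : ((x, false) :: W').get ⟨0, hj⟩ = (x, false) := rfl
    rw [h1, hg'] at hlet
    exact hW _ (List.getElem_mem hi') hlet.symm
  · obtain ⟨i, rfl⟩ : ∃ i, j = i + 1 := ⟨j - 1, by omega⟩
    have hi : i < W'.length := by simpa using hj
    have hg : ((x, false) :: W').get ⟨i + 1, hj⟩ = W'[i] := rfl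
    rw [hg, hg'] at hlet
    set p : ℕ := if (W'[i]).2 then i + 1 else i with hp
    set p' : ℕ := if (W'[i']).2 then i' + 1 else i' with hp'
    have hb : bp ((x, false) :: W') ⟨i + 1, hj⟩ = FreeGroup.mk (W'.drop p) := by
      unfold bp
      rw [hg, hp]
      split_ifs <;> rfl
    have hb' : bp ((x, false) :: W') ⟨i' + 1, hj'⟩ = FreeGroup.mk (W'.drop p') := by
      unfold bp
      rw [hg', hp']
      split_ifs <;> rfl
    have hpp : p < p' := by
      rcases lt_or_ge p p' with h | h
      · exact h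
      · exfalso
        have h1 : (W'[i]).2 = true ∧ (W'[i']).2 = false ∧ i' = i + 1 := by
          rw [hp, hp'] at h
          cases h2 : (W'[i]).2 <;> cases h3 : (W'[i']).2 <;> simp only [h2, h3] at h <;>
            simp at h ⊢ <;> omega
        obtain ⟨h2, h3, h4⟩ := h1
        subst h4
        have h5 := (List.isChain_iff_getElem.1 hr) i hi'
        have h6 := h5 hlet
        rw [h2, h3] at h6
        exact Bool.noConfusion h6
    have hp'len : p' ≤ W'.length := by
      rw [hp']
      split_ifs <;> omega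
    set T₁ : List (X × Bool) := (W'.drop p).take (p' - p) with hT₁
    have hsplit : W'.drop p = T₁ ++ W'.drop p' := by
      have h1 := List.take_append_drop (p' - p) (W'.drop p)
      rw [List.drop_drop] at h1
      rw [show p + (p' - p) = p' by omega] at h1
      exact h1.symm
    have hsubl : T₁.Sublist W' := (List.take_sublist _ _).trans (List.drop_sublist _ _)
    have hredT : FreeGroup.IsReduced T₁ := List.IsChain.take (List.IsChain.drop hr p) (p' - p)
    have hlen : T₁.length = p' - p := by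
      rw [hT₁, List.length_take, List.length_drop]
      omega
    have hne : T₁ ≠ [] := by
      intro h
      rw [h] at hlen
      simp at hlen
      omega
    have hT₁x : ∀ y ∈ T₁, y.1 ≠ x := fun y hy => hW y (hsubl.subset hy)
    have h7 := hlam T₁ hsubl.length_le hredT hne hT₁x
    rw [hb, hb', hsplit, ← FreeGroup.mul_mk, map_mul]
    intro h8
    apply h7
    exact mul_eq_right.1 h8

theorem corF₀ {ι : Type} [Finite ι] [DecidableEq ι] (m : ℕ) (x : ι × ℤ) (W : FreeGroup (ι × ℤ))
    (hW : ∀ y ∈ W.toWord, y.1 ≠ x)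
    (hL : ∀ y ∈ (x, false) :: W.toWord, y.1 ∈ lvl ι 0 m)
    (h0 : ∃ y ∈ (x, false) :: W.toWord, y.1.2 = 0)
    (hm : ∃ y ∈ (x, false) :: W.toWord, y.1.2 = m) :
    IsSofic (PresentedGroup {rho ι ((FreeGroup.of x)⁻¹ * W)}) := by
  have hκW : cκ x W W = W := by
    have h1 := cκ_mk x W W.toWord hW
    rwa [FreeGroup.mk_toWord] at h1
  have hκ : cκ x W ((FreeGroup.of x)⁻¹ * W) = 1 := by
    rw [map_mul, map_inv, cκ_of, hκW, inv_mul_cancel]
  obtain ⟨N, hN1, hN2, lam', hN, hF, hlam'⟩ := exists_ordered (ι × ℤ) W.toWord.length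
  have hmk := cmk_cons x W
  have key := theoremG m ((x, false) :: W.toWord) hL ?_ N hN hF (lam'.comp (cκ x W)) ?_ ?_
  · rw [hmk] at key
    exact key
  · intro V hV e _ he
    rw [hmk] at he ⊢
    have hVf : V.Finite := by
      rcases hV with rfl | rfl | rfl
      · exact Set.finite_empty
      · exact clvl_finite _ _
      · exact clvl_finite _ _
    exact chV x W hκ V hVf e he
  · rw [hmk, MonoidHom.comp_apply, hκ, map_one]
  · intro k hk
    have hex : ∃ y ∈ (x, false) :: W.toWord, y.1.2 = k := by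
      rcases hk with rfl | rfl
      · exact h0
      · exact hm
    obtain ⟨y, hy, hyk⟩ := hex
    obtain ⟨i, hi⟩ := List.get_of_mem hy
    refine ⟨i, by rw [hi]; exact hyk, ?_⟩
    intro j j' hj hj' heq
    have hlam : ∀ T : List ((ι × ℤ) × Bool), T.length ≤ W.toWord.length →
        FreeGroup.IsReduced T → T ≠ [] → (∀ y ∈ T, y.1 ≠ x) →
        (lam'.comp (cκ x W)) (FreeGroup.mk T) ≠ 1 := by
      intro T h1 h2 h3 h4
      rw [MonoidHom.comp_apply, cκ_mk x W T h4]
      exact hlam' T h1 h2 h3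
    have hred : FreeGroup.IsReduced W.toWord := FreeGroup.isReduced_toWord
    rcases lt_trichotomy (j : ℕ) (j' : ℕ) with h | h | h
    · exact absurd heq (csep x W.toWord hred hW _ hlam j j' j.2 j'.2 h (hj.trans hj'.symm))
    · exact Fin.ext h
    · exact absurd heq.symm (csep x W.toWord hred hW _ hlam j' j j'.2 j.2 h (hj'.trans hj.symm))

private theorem cnc_conj {G : Type} [Group G] (c r : G) :
    Subgroup.normalClosure {c * r * c⁻¹} = Subgroup.normalClosure {r} := by
  have hr : r ∈ Subgroup.normalClosure ({r} : Set G) :=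
    Subgroup.subset_normalClosure (Set.mem_singleton r)
  have hc : c * r * c⁻¹ ∈ Subgroup.normalClosure ({c * r * c⁻¹} : Set G) :=
    Subgroup.subset_normalClosure (Set.mem_singleton _)
  apply le_antisymm
  · apply Subgroup.normalClosure_le_normal
    rw [Set.singleton_subset_iff]
    exact Subgroup.normalClosure_normal.conj_mem r hr c
  · apply Subgroup.normalClosure_le_normal
    rw [Set.singleton_subset_iff]
    have h1 := Subgroup.normalClosure_normal.conj_mem (c * r * c⁻¹) hc c⁻¹
    have h2 : c⁻¹ * (c * r * c⁻¹) * c⁻¹⁻¹ = r := by group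
    rw [h2] at h1
    exact h1

private theorem ctoWord_map {X Y : Type} [DecidableEq X] [DecidableEq Y] (f : X → Y)
    (hf : Function.Injective f) (W : FreeGroup X) :
    (FreeGroup.map f W).toWord = wmap f W.toWord := by
  have h1 : FreeGroup.map f W = FreeGroup.mk (wmap f W.toWord) := by
    rw [mk_wmap, FreeGroup.mk_toWord]
  have h2 : FreeGroup.IsReduced (wmap f W.toWord) := by
    unfold wmap FreeGroup.IsReduced
    rw [List.isChain_map]
    refine List.IsChain.imp ?_ (FreeGroup.isReduced_toWord (x := W))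
    intro a b hab h
    exact hab (hf h)
  rw [h1, FreeGroup.toWord_mk]
  exact h2.reduce_eq

theorem corollaryF {ι : Type} [Finite ι] [DecidableEq ι] (x : ι × ℤ) (W : FreeGroup (ι × ℤ))
    (hW : ∀ y ∈ W.toWord, y.1 ≠ x) :
    IsSofic (PresentedGroup {rho ι ((FreeGroup.of x)⁻¹ * W)}) := by
  have hne : ((x, false) :: W.toWord).toFinset.Nonempty := ⟨(x, false), by simp⟩
  obtain ⟨ya, hya, hmin⟩ := Finset.exists_min_image _ (fun y : (ι × ℤ) × Bool => y.1.2) hne
  obtain ⟨yb, hyb, hmax⟩ := Finset.exists_max_image _ (fun y : (ι × ℤ) × Bool => y.1.2) hne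
  rw [List.mem_toFinset] at hya hyb
  set a : ℤ := ya.1.2 with ha
  set b : ℤ := yb.1.2 with hb
  have hab : a ≤ b := hmin yb (List.mem_toFinset.2 hyb)
  have hmin' : ∀ y ∈ (x, false) :: W.toWord, a ≤ y.1.2 := fun y hy => hmin y (List.mem_toFinset.2 hy)
  have hmax' : ∀ y ∈ (x, false) :: W.toWord, y.1.2 ≤ b := fun y hy => hmax y (List.mem_toFinset.2 hy)
  obtain ⟨m, hm⟩ : ∃ m : ℕ, (m : ℤ) = b - a := ⟨(b - a).toNat, Int.toNat_of_nonneg (by omega)⟩
  have hinj : Function.Injective (sh ι (-a)) := (sh ι (-a)).injective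
  have hword := ctoWord_map (sh ι (-a)) hinj W
  have hlist : (sh ι (-a) x, false) :: (FreeGroup.map (sh ι (-a)) W).toWord =
      wmap (sh ι (-a)) ((x, false) :: W.toWord) := by
    rw [hword]
    rfl
  have hmem : ∀ y, y ∈ wmap (sh ι (-a)) ((x, false) :: W.toWord) →
      ∃ y₀ ∈ (x, false) :: W.toWord, y = (sh ι (-a) y₀.1, y₀.2) := by
    intro y hy
    unfold wmap at hy
    obtain ⟨y₀, hy₀, rfl⟩ := List.mem_map.1 hy
    exact ⟨y₀, hy₀, rfl⟩
  have hmem' : ∀ y₀ ∈ (x, false) :: W.toWord,
      (sh ι (-a) y₀.1, y₀.2) ∈ wmap (sh ι (-a)) ((x, false) :: W.toWord) := by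
    intro y₀ hy₀
    unfold wmap
    exact List.mem_map.2 ⟨y₀, hy₀, rfl⟩
  have hsh : ∀ y : ι × ℤ, (sh ι (-a) y).2 = y.2 - a := by
    intro y
    simp [sh, sub_eq_add_neg]
  have key := corF₀ m (sh ι (-a) x) (FreeGroup.map (sh ι (-a)) W) ?_ ?_ ?_ ?_
  · have h1 : (FreeGroup.of (sh ι (-a) x))⁻¹ * FreeGroup.map (sh ι (-a)) W =
        FreeGroup.map (sh ι (-a)) ((FreeGroup.of x)⁻¹ * W) := by
      rw [map_mul, map_inv, FreeGroup.map.of]
    rw [h1, rho_sh] at key
    have h2 := cnc_conj ((FreeGroup.of none : FreeGroup (Option ι)) ^ (-a))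
      (rho ι ((FreeGroup.of x)⁻¹ * W))
    exact key.of_mulEquiv (QuotientGroup.quotientMulEquivOfEq h2)
  · intro y hy
    rw [hword] at hy
    unfold wmap at hy
    obtain ⟨y₀, hy₀, rfl⟩ := List.mem_map.1 hy
    intro h
    exact hW y₀ hy₀ (hinj h)
  · intro y hy
    rw [hlist] at hy
    obtain ⟨y₀, hy₀, rfl⟩ := hmem y hy
    have h1 := hmin' y₀ hy₀
    have h2 := hmax' y₀ hy₀
    show (0 : ℤ) ≤ (sh ι (-a) y₀.1).2 ∧ (sh ι (-a) y₀.1).2 ≤ m
    rw [hsh, hm]
    constructor <;> omega
  · refine ⟨(sh ι (-a) ya.1, ya.2), ?_, ?_⟩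
    · rw [hlist]
      exact hmem' ya hya
    · show (sh ι (-a) ya.1).2 = 0
      rw [hsh]
      omega
  · refine ⟨(sh ι (-a) yb.1, yb.2), ?_, ?_⟩
    · rw [hlist]
      exact hmem' yb hyb
    · show (sh ι (-a) yb.1).2 = m
      rw [hsh, hm]

end ORel
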