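import Pool.Agent.Lib_MP_051624_or.OWd

/-!
# A criterion for soficity

Proof of `sofic_of_models`. Let `G = PresentedGroup (mk '' R)`, `F` a finite subset with `1 ∉ F`
and `ε > 0`. For `g ∈ G` choose a representative `r g` in the free group, with `r 1 = 1`. For
`g, h ∈ F` the element `r (g * h) * (r h)⁻¹ * (r g)⁻¹` belongs to the normal closure of `mk '' R`;
let `C` be at least all the constants of `nc_bound` for these elements. Let `δ > 0` with
`C * δ < ε`, `δ < ε`. Let `Z, θ` be given by the hypothesis for the finite set `r '' F` and `δ`.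
Transport `θ` to `Fin n`, `n = Nat.card Z`, along a bijection `Z ≃ Fin n`, and let `Φ g` be the
permutation corresponding to `θ (r g)`. The support of a permutation is the set of the moved
points; its cardinality is the `ncard` in `Small`. For `g ∈ F`, `r g` is not in the normal
closure (`g ≠ 1`), so the proportion of the fixed points of `θ (r g)` is at most `δ < ε`.
-/

open Equiv

namespace ORel

private theorem osof_supp {Z : Type} [Finite Z] {n : ℕ} (e : Z ≃ Fin n) (σ : Perm Z) :
    (e.permCongrHom σ).support.card = {z | σ z ≠ z}.ncard := by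
  rw [← Set.ncard_image_of_injective {z | σ z ≠ z} e.injective, ← Set.ncard_coe_finset]
  congr 1
  ext y
  rw [Finset.mem_coe, Perm.mem_support]
  have h1 : e.permCongrHom σ y = e (σ (e.symm y)) := rfl
  rw [h1]
  constructor
  · intro h
    refine ⟨e.symm y, fun h2 => h ?_, e.apply_symm_apply y⟩
    rw [h2, e.apply_symm_apply]
  · rintro ⟨z, hz, rfl⟩ h2
    rw [e.symm_apply_apply] at h2
    exact hz (e.injective h2)

theorem sofic_of_models {Y : Type} (R : Set (List (Y × Bool)))
    (h : ∀ (E : Finset (FreeGroup Y)) (ε : ℝ), 0 < ε →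
      ∃ (Z : Type) (_ : Finite Z) (_ : Nonempty Z) (θ : FreeGroup Y →* Perm Z),
        (∀ L ∈ R, Small (fun z => θ (FreeGroup.mk L) z ≠ z) ε) ∧
        ∀ e ∈ E, e ∉ Subgroup.normalClosure (FreeGroup.mk '' R) →
          Small (fun z => θ e z = z) ε) :
    IsSofic (PresentedGroup (FreeGroup.mk '' R)) := by
  classical
  intro F hF ε hε
  -- representatives
  have hex : ∀ g : PresentedGroup (FreeGroup.mk '' R), ∃ w : FreeGroup Y,
      PresentedGroup.mk (FreeGroup.mk '' R) w = g ∧ (g = 1 → w = 1) := by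
    intro g
    by_cases hg : g = 1
    · exact ⟨1, by rw [map_one, hg], fun _ => rfl⟩
    · obtain ⟨w, hw⟩ := PresentedGroup.mk_surjective (FreeGroup.mk '' R) g
      exact ⟨w, hw, fun h => absurd h hg⟩
  choose r hr hr1 using hex
  have hone : ∀ w : FreeGroup Y, PresentedGroup.mk (FreeGroup.mk '' R) w = 1 →
      w ∈ Subgroup.normalClosure (FreeGroup.mk '' R) := fun w hw => (QuotientGroup.eq_one_iff w).1 hw
  have hmem : ∀ g h' : PresentedGroup (FreeGroup.mk '' R),
      r (g * h') * (r h')⁻¹ * (r g)⁻¹ ∈ Subgroup.normalClosure (FreeGroup.mk '' R) := by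
    intro g h'
    apply hone
    rw [map_mul, map_mul, map_inv, map_inv, hr, hr, hr]
    group
  choose C hC using fun g h' => nc_bound R _ (hmem g h')
  set D : ℕ := ∑ g ∈ F, ∑ h' ∈ F, C g h' with hD
  have hCD : ∀ g ∈ F, ∀ h' ∈ F, C g h' ≤ D := by
    intro g hg h' hh'
    calc C g h' ≤ ∑ h' ∈ F, C g h' := Finset.single_le_sum (fun _ _ => Nat.zero_le _) hh'
      _ ≤ D := Finset.single_le_sum (f := fun g => ∑ h' ∈ F, C g h') (fun _ _ => Nat.zero_le _) hg
  have hD2 : (0 : ℝ) < (D : ℝ) + 2 := by positivity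
  set δ : ℝ := ε / (D + 2) with hδ
  have hδ0 : 0 < δ := div_pos hε hD2
  have hδε : δ < ε := by
    rw [hδ, div_lt_iff₀ hD2]
    have h1 : (0 : ℝ) ≤ (D : ℝ) := Nat.cast_nonneg _
    nlinarith
  have hDδ : D * δ < ε := by
    rw [hδ, mul_div_assoc', div_lt_iff₀ hD2]
    nlinarith
  obtain ⟨Z, hZ, hZ', θ, hR, hE⟩ := h (F.image r) δ hδ0
  have hn : 0 < Nat.card Z := Nat.card_pos
  have hn' : (0 : ℝ) < (Nat.card Z : ℝ) := by exact_mod_cast hn
  let e : Z ≃ Fin (Nat.card Z) := Finite.equivFin Z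
  refine ⟨Nat.card Z, hn, fun g => e.permCongrHom (θ (r g)), ?_, ?_⟩
  · show e.permCongrHom (θ (r 1)) = 1
    rw [hr1 1 rfl, map_one, map_one]
  · intro g hg h' hh'
    constructor
    · have h1 : e.permCongrHom (θ (r (g * h'))) * (e.permCongrHom (θ (r h')))⁻¹ * (e.permCongrHom (θ (r g)))⁻¹ =
          e.permCongrHom (θ (r (g * h') * (r h')⁻¹ * (r g)⁻¹)) := by
        rw [map_mul, map_mul, map_mul, map_mul, map_inv, map_inv, map_inv, map_inv]
      show ((e.permCongrHom (θ (r (g * h'))) * (e.permCongrHom (θ (r h')))⁻¹ *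
        (e.permCongrHom (θ (r g)))⁻¹).support.card : ℝ) / (Nat.card Z : ℝ) < ε
      rw [h1, osof_supp, div_lt_iff₀ hn']
      have h2 := hC g h' Z θ δ hδ0.le hR
      unfold Small at h2
      refine h2.trans_lt ?_
      refine mul_lt_mul_of_pos_right ?_ hn'
      have h3 : ((C g h' : ℕ) : ℝ) ≤ D := by exact_mod_cast hCD g hg h' hh'
      calc ((C g h' : ℕ) : ℝ) * δ ≤ D * δ := mul_le_mul_of_nonneg_right h3 hδ0.le
        _ < ε := hDδ
    · show 1 - ε < ((e.permCongrHom (θ (r g))).support.card : ℝ) / (Nat.card Z : ℝ)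
      rw [osof_supp, lt_div_iff₀ hn']
      have h2 := hE (r g) (Finset.mem_image_of_mem r hg) (by
        intro h3
        have h4 : PresentedGroup.mk (FreeGroup.mk '' R) (r g) = 1 := (QuotientGroup.eq_one_iff (r g)).2 h3
        rw [hr] at h4
        exact hF (h4 ▸ hg))
      unfold Small at h2
      have h5 := Set.ncard_add_ncard_compl {z | θ (r g) z = z}
      have h6 : {z | θ (r g) z = z}ᶜ = {z | θ (r g) z ≠ z} := rfl
      rw [h6] at h5
      have h7 : ({z | θ (r g) z = z}.ncard : ℝ) + ({z | θ (r g) z ≠ z}.ncard : ℝ) = (Nat.card Z : ℝ) := by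
        exact_mod_cast h5
      have h8 : δ * (Nat.card Z : ℝ) < ε * (Nat.card Z : ℝ) := mul_lt_mul_of_pos_right hδε hn'
      nlinarith

end ORel
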