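import Pool.Agent.Lib_MP_051624_or.OWd

/-!
# Alternating decompositions

Write `F = S₀ ∩ S₁`, `NC` for the normal closure of the relators `R₀ ∪ R₁`, and `u ≡ v` for
`u⁻¹ * v ∈ NC`. Let `A true = Fac S₀ R₀ F`, `A false = Fac S₁ R₁ F`.

Proof of `decomp`. Let `D e` be the statement: there is `f ∈ Wd F` with `e ≡ f`, or there is
a nonempty alternating list `fs` (for `A`) with `e ≡ fprod fs`. Clearly `D 1`. We show
`D e → D (s * e)` for `s ∈ Wd S₀` and for `s ∈ Wd S₁`; the claim follows by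
`Subgroup.closure_induction_left` (or a similar induction), as `Wd (S₀ ∪ S₁)` is generated by
the letters of `S₀` and `S₁`.

Facts: (i) if `u ∈ Wd F ⊔ normalClosure (mk '' R₀)` (or `R₁`) then `u ≡ f` for some
`f ∈ Wd F` (`Subgroup.mem_sup_of_normal_right` or `Subgroup.mul_normal`; the normal closure of the
smaller set is contained in `NC`); (ii) if `f ∈ Wd F` and `v ∈ A b` then `f * v ∈ A b`;
(iii) `≡` is compatible with products, as `NC` is normal.

Let `b` be the label with `s ∈ Wd (S_b)` (`true` for `S₀`), and let `D e` be given.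
* `e ≡ f ∈ Wd F`: then `s * e ≡ s * f ∈ Wd (S_b)`. If `s * f ∈ A b`, take the list `[(b, s * f)]`;
  otherwise use (i).
* `e ≡ fprod ((b', u) :: rest)`.
  If `b' = b`: `s * u ∈ Wd (S_b)`. If `s * u ∈ A b`, take `(b, s * u) :: rest`. Otherwise
  `s * u ≡ f ∈ Wd F`; if `rest = []` then `s * e ≡ f`; if `rest = (b'', v) :: rest'` then take
  `(b'', f * v) :: rest'` (fact (ii)).
  If `b' ≠ b`: if `s ∈ A b` take `(b, s) :: (b', u) :: rest`. Otherwise `s ≡ f ∈ Wd F`, and take
  `(b', f * u) :: rest`.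
-/

namespace ORel

private theorem chain_head {X : Type} {b : Bool} {u v : FreeGroup X}
    {l : List (Bool × FreeGroup X)}
    (h : ((b, u) :: l).IsChain (fun a b => a.1 ≠ b.1)) :
    ((b, v) :: l).IsChain (fun a b => a.1 ≠ b.1) := by
  cases l with
  | nil => exact List.isChain_singleton _
  | cons c l =>
    rw [List.isChain_cons_cons] at h ⊢
    exact h

private theorem alt_head {X : Type} {A : Bool → Set (FreeGroup X)} {b : Bool}
    {u v : FreeGroup X} {l : List (Bool × FreeGroup X)} (h : Alt A ((b, u) :: l))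
    (hv : v ∈ A b) : Alt A ((b, v) :: l) := by
  refine ⟨chain_head h.1, ?_⟩
  intro a ha
  rcases List.mem_cons.1 ha with rfl | ha
  · exact hv
  · exact h.2 a (List.mem_cons_of_mem _ ha)

private theorem alt_tail {X : Type} {A : Bool → Set (FreeGroup X)}
    {a : Bool × FreeGroup X} {l : List (Bool × FreeGroup X)} (h : Alt A (a :: l)) :
    Alt A l := by
  refine ⟨?_, fun c hc => h.2 c (List.mem_cons_of_mem _ hc)⟩
  cases l with
  | nil => exact List.isChain_nil
  | cons c l =>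
    have h1 := h.1
    rw [List.isChain_cons_cons] at h1
    exact h1.2

private theorem alt_cons {X : Type} {A : Bool → Set (FreeGroup X)} {b b' : Bool}
    {u v : FreeGroup X} {l : List (Bool × FreeGroup X)} (h : Alt A ((b', u) :: l))
    (hb : b ≠ b') (hv : v ∈ A b) : Alt A ((b, v) :: (b', u) :: l) := by
  refine ⟨?_, ?_⟩
  · rw [List.isChain_cons_cons]
    exact ⟨hb, h.1⟩
  · intro a ha
    rcases List.mem_cons.1 ha with rfl | ha
    · exact hv
    · exact h.2 a ha

private theorem fprod_cons {X : Type} (a : Bool × FreeGroup X) (l : List (Bool × FreeGroup X)) :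
    fprod (a :: l) = a.2 * fprod l := by
  simp [fprod]

/-- The induction step. -/
private theorem step {X G : Type} [Group G] (π : FreeGroup X →* G) (W : Bool → Subgroup (FreeGroup X))
    (A : Bool → Set (FreeGroup X)) (H : Subgroup (FreeGroup X))
    (hHW : ∀ b, H ≤ W b) (hA : ∀ b, ∀ u ∈ A b, u ∈ W b)
    (hA' : ∀ b, ∀ u ∈ W b, u ∉ A b → ∃ f ∈ H, π u = π f)
    (hf : ∀ b, ∀ f ∈ H, ∀ u ∈ A b, f * u ∈ A b)
    {b : Bool} {s : FreeGroup X} (hs : s ∈ W b) {e : FreeGroup X}
    (he : (∃ f ∈ H, π e = π f) ∨ ∃ fs : List (Bool × FreeGroup X), fs ≠ [] ∧ Alt A fs ∧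
      π e = π (fprod fs)) :
    (∃ f ∈ H, π (s * e) = π f) ∨ ∃ fs : List (Bool × FreeGroup X), fs ≠ [] ∧ Alt A fs ∧
      π (s * e) = π (fprod fs) := by
  rcases he with ⟨f, hfH, hef⟩ | ⟨fs, hne, halt, hefs⟩
  · have h1 : s * f ∈ W b := (W b).mul_mem hs (hHW b hfH)
    by_cases h2 : s * f ∈ A b
    · refine Or.inr ⟨[(b, s * f)], by simp, ⟨List.isChain_singleton _, ?_⟩, ?_⟩
      · intro a ha
        rw [List.mem_singleton.1 ha]
        exact h2
      · rw [map_mul, hef, ← map_mul]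
        simp [fprod]
    · obtain ⟨f', hf', hf''⟩ := hA' b _ h1 h2
      refine Or.inl ⟨f', hf', ?_⟩
      rw [map_mul, hef, ← map_mul, hf'']
  · cases fs with
    | nil => exact absurd rfl hne
    | cons a rest =>
      obtain ⟨b', u⟩ := a
      rw [fprod_cons] at hefs
      have hu : u ∈ A b' := halt.2 (b', u) (by simp)
      have hse : π (s * e) = π (s * u) * π (fprod rest) := by
        rw [map_mul, hefs, map_mul, map_mul]
        simp only
        rw [mul_assoc]
      by_cases hb : b' = b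
      · subst hb
        have h1 : s * u ∈ W b' := (W b').mul_mem hs (hA b' u hu)
        by_cases h2 : s * u ∈ A b'
        · refine Or.inr ⟨(b', s * u) :: rest, by simp, alt_head halt h2, ?_⟩
          rw [fprod_cons, hse]
          exact (map_mul π _ _).symm
        · obtain ⟨f, hfH, hff⟩ := hA' b' _ h1 h2
          cases rest with
          | nil =>
            refine Or.inl ⟨f, hfH, ?_⟩
            rw [hse, hff]
            simp [fprod]
          | cons c rest' =>
            obtain ⟨b'', v⟩ := c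
            have hv : v ∈ A b'' := halt.2 (b'', v) (by simp)
            refine Or.inr ⟨(b'', f * v) :: rest', by simp,
              alt_head (alt_tail halt) (hf b'' f hfH v hv), ?_⟩
            rw [fprod_cons, hse, hff, fprod_cons]
            simp only [map_mul]
            rw [mul_assoc]
      · by_cases h2 : s ∈ A b
        · refine Or.inr ⟨(b, s) :: (b', u) :: rest, by simp,
            alt_cons halt (fun h => hb h.symm) h2, ?_⟩
          rw [fprod_cons, fprod_cons, hse]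
          simp only [map_mul]
          rw [mul_assoc]
        · obtain ⟨f, hfH, hff⟩ := hA' b _ hs h2
          refine Or.inr ⟨(b', f * u) :: rest, by simp, alt_head halt (hf b' f hfH u hu), ?_⟩
          rw [fprod_cons, hse]
          simp only [map_mul]
          rw [hff]

theorem decomp {X : Type} (S₀ S₁ : Set X) (R₀ R₁ : Set (List (X × Bool))) (e : FreeGroup X)
    (he : e ∈ Wd (S₀ ∪ S₁)) :
    (∃ f ∈ Wd (S₀ ∩ S₁), e⁻¹ * f ∈ Subgroup.normalClosure (FreeGroup.mk '' (R₀ ∪ R₁))) ∨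
    ∃ fs : List (Bool × FreeGroup X), fs ≠ [] ∧
      Alt (fun b => if b then Fac S₀ R₀ (S₀ ∩ S₁) else Fac S₁ R₁ (S₀ ∩ S₁)) fs ∧
      e⁻¹ * fprod fs ∈ Subgroup.normalClosure (FreeGroup.mk '' (R₀ ∪ R₁)) := by
  let NC : Subgroup (FreeGroup X) := Subgroup.normalClosure (FreeGroup.mk '' (R₀ ∪ R₁))
  let π : FreeGroup X →* FreeGroup X ⧸ NC := QuotientGroup.mk' NC
  let W : Bool → Subgroup (FreeGroup X) := fun b => if b then Wd S₀ else Wd S₁
  let A : Bool → Set (FreeGroup X) :=
    fun b => if b then Fac S₀ R₀ (S₀ ∩ S₁) else Fac S₁ R₁ (S₀ ∩ S₁)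
  have hπ : ∀ u v : FreeGroup X, π u = π v ↔ u⁻¹ * v ∈ NC := fun u v => QuotientGroup.eq
  have hsup : ∀ (R : Set (List (X × Bool))), R ⊆ R₀ ∪ R₁ → ∀ u : FreeGroup X,
      u ∈ Wd (S₀ ∩ S₁) ⊔ Subgroup.normalClosure (FreeGroup.mk '' R) →
      ∃ f ∈ Wd (S₀ ∩ S₁), π u = π f := by
    intro R hR u hu
    obtain ⟨y, hy, z, hz, rfl⟩ := Subgroup.mem_sup_of_normal_right.1 hu
    refine ⟨y, hy, ?_⟩
    have hz' : z ∈ NC := Subgroup.normalClosure_mono (Set.image_mono hR) hz
    have h1 : π z = 1 := (QuotientGroup.eq_one_iff z).2 hz'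
    rw [map_mul, h1, mul_one]
  have hFac : ∀ (S : Set X) (R : Set (List (X × Bool))), S₀ ∩ S₁ ⊆ S →
      ∀ f ∈ Wd (S₀ ∩ S₁), ∀ u ∈ Fac S R (S₀ ∩ S₁), f * u ∈ Fac S R (S₀ ∩ S₁) := by
    intro S R hS f hf u hu
    refine ⟨(Wd S).mul_mem (wd_mono hS hf) hu.1, fun h => hu.2 ?_⟩
    have h1 : f ∈ Wd (S₀ ∩ S₁) ⊔ Subgroup.normalClosure (FreeGroup.mk '' R) :=
      Subgroup.mem_sup_left hf
    have h2 := Subgroup.mul_mem _ (Subgroup.inv_mem _ h1) h
    rwa [inv_mul_cancel_left] at h2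
  have hstep : ∀ (b : Bool) (s : FreeGroup X), s ∈ W b → ∀ e : FreeGroup X,
      ((∃ f ∈ Wd (S₀ ∩ S₁), π e = π f) ∨ ∃ fs : List (Bool × FreeGroup X), fs ≠ [] ∧ Alt A fs ∧
        π e = π (fprod fs)) →
      ((∃ f ∈ Wd (S₀ ∩ S₁), π (s * e) = π f) ∨ ∃ fs : List (Bool × FreeGroup X), fs ≠ [] ∧
        Alt A fs ∧ π (s * e) = π (fprod fs)) := by
    intro b s hs e he
    refine step π W A (Wd (S₀ ∩ S₁)) ?_ ?_ ?_ ?_ hs he
    · intro b
      cases b
      · exact wd_mono Set.inter_subset_right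
      · exact wd_mono Set.inter_subset_left
    · intro b u hu
      cases b
      · exact hu.1
      · exact hu.1
    · intro b u hu hu'
      cases b
      · refine hsup R₁ Set.subset_union_right u ?_
        by_contra hcon
        exact hu' ⟨hu, hcon⟩
      · refine hsup R₀ Set.subset_union_left u ?_
        by_contra hcon
        exact hu' ⟨hu, hcon⟩
    · intro b f hf u hu
      cases b
      · exact hFac S₁ R₁ Set.inter_subset_right f hf u hu
      · exact hFac S₀ R₀ Set.inter_subset_left f hf u hu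
  have hmain : (∃ f ∈ Wd (S₀ ∩ S₁), π e = π f) ∨ ∃ fs : List (Bool × FreeGroup X), fs ≠ [] ∧
      Alt A fs ∧ π e = π (fprod fs) := by
    have hx : ∀ x ∈ S₀ ∪ S₁, ∃ b, FreeGroup.of x ∈ W b := by
      intro x hx
      rcases hx with hx | hx
      · exact ⟨true, of_mem_wd hx⟩
      · exact ⟨false, of_mem_wd hx⟩
    refine Subgroup.closure_induction_left (s := FreeGroup.of '' (S₀ ∪ S₁))
      (p := fun e _ => (∃ f ∈ Wd (S₀ ∩ S₁), π e = π f) ∨ ∃ fs : List (Bool × FreeGroup X),
        fs ≠ [] ∧ Alt A fs ∧ π e = π (fprod fs)) ?_ ?_ ?_ he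
    · exact Or.inl ⟨1, (Wd (S₀ ∩ S₁)).one_mem, rfl⟩
    · rintro _ ⟨x, hxS, rfl⟩ y _ hy
      obtain ⟨b, hb⟩ := hx x hxS
      exact hstep b _ hb y hy
    · rintro _ ⟨x, hxS, rfl⟩ y _ hy
      obtain ⟨b, hb⟩ := hx x hxS
      exact hstep b _ ((W b).inv_mem hb) y hy
  rcases hmain with ⟨f, hf, h⟩ | ⟨fs, hne, halt, h⟩
  · exact Or.inl ⟨f, hf, (hπ e f).1 h⟩
  · exact Or.inr ⟨fs, hne, halt, (hπ e (fprod fs)).1 h⟩

end ORel
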