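import Pool.Agent.Lib_MP_051624_or.ODefs

/-!
# Marshall Hall's theorem, and finite quotients of free groups

Proof of `mhall`. Let `H = Subgroup.closure C` and consider the left action of `FreeGroup X` on
`FreeGroup X ⧸ H`. Let `A` be the finite set of the cosets `mk L' • H` where `L'` runs over the
tails (`List.tails`) of the words `c.toWord`, `c ∈ C`, and of `b.toWord`; it contains `o = H`
(`L' = []`). For every letter `x`, the partial injection `a ↦ of x • a` of `A` (defined for the
`a ∈ A` with `of x • a ∈ A`) extends to a permutation `σ x` of the finite type `A`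
(for instance `Equiv.extendSubtype`, or `Fintype` cardinalities). Let `Q = Perm A` and
`q = FreeGroup.lift σ`. By induction on the tail `L'` of `c.toWord` (or of `b.toWord`) one has
`q (mk L') o = mk L' • o`: for `L' = (x, true) :: L''`, both `mk L'' • o` and
`mk L' • o = of x • (mk L'' • o)` are in `A`; for `L' = (x, false) :: L''`,
`mk L'' • o = of x • (mk L' • o)`, so that `σ x` maps `mk L' • o` to `mk L'' • o`, and
`(σ x)⁻¹` maps `mk L'' • o` to `mk L' • o`. Hence `q c o = c • o = o` for `c ∈ C`, and so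
`q h o = o` for all `h ∈ H`, whereas `q b o = b • o ≠ o` since `b ∉ H`. Hence
`q b ∉ H.map q`.

The other statements follow: `fin_sep` is the finite product of the quotients given by `hq`
(the elements without the property `hq` are irrelevant), by induction on the finite set;
`free_rf` is `mhall` with `C = ∅` together with a finite product.
-/

open Equiv

namespace ORel

section perm

variable {X : Type} {G : Type} [Group G] {Y : Type} [MulAction G Y] (A : Set Y)

/-- The partial injection of `A` given by `g`. -/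
private def OHall_e (g : G) :
    {a : A // g • (a : Y) ∈ A} ≃ {a : A // g⁻¹ • (a : Y) ∈ A} where
  toFun a := ⟨⟨g • (a.1 : Y), a.2⟩, by
    show g⁻¹ • (g • (a.1 : Y)) ∈ A
    rw [inv_smul_smul]
    exact a.1.2⟩
  invFun a := ⟨⟨g⁻¹ • (a.1 : Y), a.2⟩, by
    show g • (g⁻¹ • (a.1 : Y)) ∈ A
    rw [smul_inv_smul]
    exact a.1.2⟩
  left_inv a := by
    apply Subtype.ext
    apply Subtype.ext
    exact inv_smul_smul g _
  right_inv a := by
    apply Subtype.ext
    apply Subtype.ext
    exact smul_inv_smul g _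

private theorem OHall_perm [Finite A] (g : G) :
    ∃ σ : Perm A, ∀ a : A, g • (a : Y) ∈ A → ((σ a : A) : Y) = g • (a : Y) := by
  classical
  have : Fintype A := Fintype.ofFinite A
  refine ⟨(OHall_e A g).extendSubtype, fun a ha => ?_⟩
  rw [Equiv.extendSubtype_apply_of_mem _ a ha]
  rfl

end perm

/-- Marshall Hall's theorem: finitely generated subgroups of free groups are closed in the
profinite topology. -/
theorem mhall {X : Type} (C : Finset (FreeGroup X)) (b : FreeGroup X)
    (hb : b ∉ Subgroup.closure (C : Set (FreeGroup X))) :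
    ∃ (Q : Type) (_ : Group Q) (_ : Finite Q) (q : FreeGroup X →* Q),
      q b ∉ (Subgroup.closure (C : Set (FreeGroup X))).map q := by
  classical
  set H : Subgroup (FreeGroup X) := Subgroup.closure (C : Set (FreeGroup X)) with hH
  let P : List (X × Bool) → FreeGroup X ⧸ H := fun L => ((FreeGroup.mk L : FreeGroup X) : FreeGroup X ⧸ H)
  let A : Set (FreeGroup X ⧸ H) :=
    {a | ∃ w ∈ insert b C, ∃ L, L <:+ FreeGroup.toWord w ∧ P L = a}
  have hAfin : A.Finite := by
    have h1 : A ⊆ ⋃ w ∈ insert b C, P '' {L | L ∈ (FreeGroup.toWord w).tails} := by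
      rintro a ⟨w, hw, L, hL, rfl⟩
      refine Set.mem_biUnion (x := w) (by exact_mod_cast hw) ?_
      exact ⟨L, (List.mem_tails _ _).2 hL, rfl⟩
    refine Set.Finite.subset (Set.Finite.biUnion (Finset.finite_toSet _) fun w _ => ?_) h1
    exact Set.Finite.image _ (List.finite_toSet _)
  have : Finite A := hAfin.to_subtype
  choose σ hσ using fun x : X => OHall_perm A (FreeGroup.of x)
  have ho : P [] ∈ A := ⟨b, Finset.mem_insert_self b C, [], List.nil_suffix, rfl⟩
  let q : FreeGroup X →* Perm A := FreeGroup.lift σ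
  have key : ∀ L : List (X × Bool), (∀ L', L' <:+ L → P L' ∈ A) →
      ((q (FreeGroup.mk L) ⟨P [], ho⟩ : A) : FreeGroup X ⧸ H) = P L := by
    intro L
    induction L with
    | nil =>
      intro _
      have h1 : (FreeGroup.mk [] : FreeGroup X) = 1 := rfl
      rw [h1, map_one]
      rfl
    | cons y L ih =>
      intro hL
      have hL1 : ∀ L', L' <:+ L → P L' ∈ A := fun L' h => hL L' (h.trans (List.suffix_cons y L))
      have ih1 := ih hL1
      have hPL : P L ∈ A := hL1 L (List.suffix_refl L)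
      have hPy : P (y :: L) ∈ A := hL _ (List.suffix_refl _)
      have ih2 : q (FreeGroup.mk L) ⟨P [], ho⟩ = ⟨P L, hPL⟩ := Subtype.ext ih1
      obtain ⟨x, c⟩ := y
      have h2 : (FreeGroup.mk ((x, c) :: L) : FreeGroup X) = FreeGroup.mk [(x, c)] * FreeGroup.mk L := by
        rw [FreeGroup.mul_mk]
        rfl
      have h3 : P ((x, c) :: L) = (FreeGroup.mk [(x, c)] : FreeGroup X) • P L := by
        show ((FreeGroup.mk ((x, c) :: L) : FreeGroup X) : FreeGroup X ⧸ H) = _
        rw [h2]
        rfl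
      rw [h2, map_mul, Perm.mul_apply, ih2]
      cases c with
      | true =>
        have h4 : (FreeGroup.mk [(x, true)] : FreeGroup X) = FreeGroup.of x := rfl
        have h5 : q (FreeGroup.mk [(x, true)]) = σ x := by
          rw [h4]
          exact FreeGroup.lift_apply_of
        rw [h5, h3, h4]
        apply hσ x ⟨P L, hPL⟩
        rw [h3, h4] at hPy
        exact hPy
      | false =>
        have h4 : (FreeGroup.mk [(x, false)] : FreeGroup X) = (FreeGroup.of x)⁻¹ := rfl
        have h5 : q (FreeGroup.mk [(x, false)]) = (σ x)⁻¹ := by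
          rw [h4, map_inv, FreeGroup.lift_apply_of]
        have h6 : FreeGroup.of x • P ((x, false) :: L) = P L := by
          rw [h3, h4, smul_inv_smul]
        have h7 : σ x ⟨P ((x, false) :: L), hPy⟩ = ⟨P L, hPL⟩ := by
          apply Subtype.ext
          rw [hσ x ⟨P ((x, false) :: L), hPy⟩ (by rw [h6]; exact hPL)]
          exact h6
        rw [h5, ← h7]
        exact congrArg Subtype.val ((σ x).symm_apply_apply _)
  have key2 : ∀ w ∈ insert b C, ((q w ⟨P [], ho⟩ : A) : FreeGroup X ⧸ H) = (w : FreeGroup X ⧸ H) := by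
    intro w hw
    have h1 := key (FreeGroup.toWord w) fun L' hL' => ⟨w, hw, L', hL', rfl⟩
    rw [FreeGroup.mk_toWord] at h1
    rw [h1]
    show ((FreeGroup.mk (FreeGroup.toWord w) : FreeGroup X) : FreeGroup X ⧸ H) = _
    rw [FreeGroup.mk_toWord]
  have hstab : H ≤ (MulAction.stabilizer (Perm A) (⟨P [], ho⟩ : A)).comap q := by
    refine (Subgroup.closure_le _).2 ?_
    intro c hc
    have hc' : c ∈ C := by exact_mod_cast hc
    show q c ∈ MulAction.stabilizer (Perm A) (⟨P [], ho⟩ : A)
    rw [MulAction.mem_stabilizer_iff]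
    apply Subtype.ext
    have h1 := key2 c (Finset.mem_insert_of_mem hc')
    have h2 : (c : FreeGroup X ⧸ H) = P [] := by
      show (c : FreeGroup X ⧸ H) = ((1 : FreeGroup X) : FreeGroup X ⧸ H)
      rw [eq_comm, QuotientGroup.eq]
      simpa using Subgroup.subset_closure hc
    rw [h2] at h1
    exact h1
  refine ⟨Perm A, inferInstance, inferInstance, q, ?_⟩
  rintro ⟨h, hh, hhq⟩
  have h1 : q h ∈ MulAction.stabilizer (Perm A) (⟨P [], ho⟩ : A) := hstab hh
  rw [MulAction.mem_stabilizer_iff, hhq] at h1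
  have h2 := key2 b (Finset.mem_insert_self b C)
  have h3 : ((q b ⟨P [], ho⟩ : A) : FreeGroup X ⧸ H) = P [] := congrArg Subtype.val h1
  rw [h3] at h2
  have h4 : ((1 : FreeGroup X) : FreeGroup X ⧸ H) = (b : FreeGroup X ⧸ H) := h2
  rw [QuotientGroup.eq] at h4
  apply hb
  simpa using h4

/-- Finitely many separation properties can be achieved by one finite quotient. -/
theorem fin_sep {X : Type} (K : Set (FreeGroup X)) (E : Set (FreeGroup X × Subgroup (FreeGroup X)))
    (hE : E.Finite)
    (hq : ∀ e ∈ E, ∃ (Q : Type) (_ : Group Q) (_ : Finite Q) (q : FreeGroup X →* Q),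
      (∀ k ∈ K, q k = 1) ∧ q e.1 ∉ e.2.map q) :
    ∃ (Q : Type) (_ : Group Q) (_ : Finite Q) (q : FreeGroup X →* Q),
      (∀ k ∈ K, q k = 1) ∧ ∀ e ∈ E, q e.1 ∉ e.2.map q := by
  induction E, hE using Set.Finite.induction_on with
  | empty =>
    exact ⟨PUnit, inferInstance, inferInstance, 1, fun _ _ => rfl, fun e he => absurd he (by simp)⟩
  | @insert a s _ _ ih =>
    obtain ⟨Q₁, _, _, q₁, h1, h2⟩ := ih fun e he => hq e (Set.mem_insert_of_mem a he)
    obtain ⟨Q₂, _, _, q₂, h3, h4⟩ := hq a (Set.mem_insert a s)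
    refine ⟨Q₁ × Q₂, inferInstance, inferInstance, q₁.prod q₂, ?_, ?_⟩
    · intro k hk
      show (q₁ k, q₂ k) = 1
      rw [h1 k hk, h3 k hk]
      rfl
    · rintro e he ⟨h, hh, hh'⟩
      have h5 : (q₁ h, q₂ h) = (q₁ e.1, q₂ e.1) := hh'
      rw [Prod.mk.injEq] at h5
      rcases Set.mem_insert_iff.1 he with rfl | he
      · exact h4 ⟨h, hh, h5.2⟩
      · exact h2 e he ⟨h, hh, h5.1⟩

/-- Free groups are residually finite. -/
theorem free_rf {Y : Type} (E : Set (FreeGroup Y)) (hE : E.Finite) :
    ∃ (Q : Type) (_ : Group Q) (_ : Finite Q) (q : FreeGroup Y →* Q),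
      ∀ e ∈ E, e ≠ 1 → q e ≠ 1 := by
  obtain ⟨Q, _, _, q, _, h2⟩ := fin_sep (∅ : Set (FreeGroup Y))
    ((fun e : FreeGroup Y => (e, (⊥ : Subgroup (FreeGroup Y)))) '' {e | e ∈ E ∧ e ≠ 1})
    ((hE.subset fun e he => he.1).image _) (by
      rintro _ ⟨e, ⟨_, he⟩, rfl⟩
      obtain ⟨Q, hQ1, hQ2, q, hq⟩ := mhall (∅ : Finset (FreeGroup Y)) e (by
        simpa using he)
      refine ⟨Q, hQ1, hQ2, q, fun k hk => absurd hk (by simp), ?_⟩
      have h3 : Subgroup.closure ((∅ : Finset (FreeGroup Y)) : Set (FreeGroup Y)) = ⊥ := by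
        simp
      rw [h3] at hq
      exact hq)
  refine ⟨Q, inferInstance, inferInstance, q, fun e he he1 h0 => ?_⟩
  exact h2 _ ⟨e, ⟨he, he1⟩, rfl⟩ ⟨1, Subgroup.one_mem _, by rw [map_one]; exact h0.symm⟩

/-- For a finite alphabet, there is a finite quotient in which all nontrivial elements of length
at most `k` survive. -/
theorem free_rf_ball (Y : Type) [Finite Y] (k : ℕ) :
    ∃ (P : Type) (_ : Group P) (_ : Finite P) (f : FreeGroup Y →* P),
      ∀ L : List (Y × Bool), L.length ≤ k → FreeGroup.IsReduced L → L ≠ [] →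
        f (FreeGroup.mk L) ≠ 1 := by
  classical
  obtain ⟨Q, h1, h2, q, h3⟩ := free_rf (Y := Y) (FreeGroup.mk '' {L : List (Y × Bool) | L.length ≤ k})
    ((List.finite_length_le _ k).image _)
  refine ⟨Q, h1, h2, q, fun L hL hred hne => h3 _ ⟨L, hL, rfl⟩ fun h4 => hne ?_⟩
  have h5 : FreeGroup.Red L [] := by
    have h6 := FreeGroup.Red.exact.1 (show (FreeGroup.mk L : FreeGroup Y) = FreeGroup.mk [] from h4)
    obtain ⟨L', h7, h8⟩ := h6
    rw [FreeGroup.Red.nil_iff] at h8
    rw [← h8]
    exact h7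
  exact ((hred.red_iff_eq).1 h5).symm

end ORel
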