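import Pool.Agent.Lib_MP_051624_or.OWd

/-!
# Alternating products act nontrivially in the glued model

Label `true`: factors in `Wd S₀`; label `false`: factors in `Wd S₁`.

Proof of `alt_moves`. For a list `fs` of factors and `ω : Ω`, say that `fs` is good at `ω` if,
recursively, `rest` is good at `ω` and, for `ω' = θ (fprod rest) ω`, the step
`ω' ↦ θ u ω'` changes `y₀` if `b = true`, and changes `y₁` if `b = false`
(`fs = (b, u) :: rest`).

(1) The proportion of the `ω` at which `fs` is not good is at most `fs.length * δ`: by induction,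
for `fs = (b, u) :: rest` and `b = true`, the new bad `ω` satisfy
`G.y₀ (θ u ω') = G.y₀ ω'`, hence (`G.move₀`) there is `d ∈ Wd (S₀ ∩ S₁)` with
`θ₀ d (G.p₀ ω') = θ₀ u (G.p₀ ω')`. Use `w₀`, `Small.comp_triv` (with `G.triv₀`) and
`Small.comp_perm` (with `θ (fprod rest)`). Similarly for `b = false`.

(2) Define the list `wl fs ω : List ((Z₀ × Z₁) × Bool)` by
`wl ((true, u) :: rest) ω = ((y₀', y₁), false) :: ((y₀, y₁), true) :: wl rest ω`, where
`ω' = θ (fprod rest) ω`, `y₀ = G.y₀ ω'`, `y₁ = G.y₁ ω'`, `y₀' = G.y₀ (θ u ω')`, and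
`wl ((false, u) :: rest) ω = wl rest ω`. Its length is at most `2 * fs.length`. With
`Qc ω = (π (G.y₀ ω, G.y₁ ω))⁻¹ * G.p ω` one has
`Qc (θ (fprod fs) ω) = FreeGroup.lift π (mk (wl fs ω)) * Qc ω`, by induction: for `b = true`
use `G.k₁`, `G.kp`: `Qc (θ u ω') = (π (y₀', y₁))⁻¹ * G.p ω' =
(π (y₀', y₁))⁻¹ * π (y₀, y₁) * Qc ω'`; for `b = false` use `G.b₀`, `G.bp`: `Qc (θ u ω') = Qc ω'`.

(3) If `fs` is alternating and good at `ω` then `wl fs ω` is reduced. By induction, together with: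
if `wl fs ω` is nonempty, with the head `((a, b), false)`, then (with
`ω'' = θ (fprod fs) ω`) `G.y₀ ω'' = a`, and `G.y₁ ω'' = b` if the head of `fs` has the label
`true`, and `G.y₁ ω'' ≠ b` if it has the label `false` (then the next factor has the label
`true`, as `fs` is alternating; a step with the label `false` changes `y₁` and keeps `y₀`).
When `(true, u)` is prepended, the symbols `(y₀', y₁)` and `(y₀, y₁)` differ since `y₀' ≠ y₀`, and
the symbols `(y₀, y₁)` and `(a, b)` differ since `y₁ ≠ b` (the head of `rest` has the label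
`false`).

(4) If some factor has the label `true`, then `wl fs ω ≠ []`, hence by `hP`
(length at most `2 * K`) `FreeGroup.lift π (mk (wl fs ω)) ≠ 1`, so that
`Qc (θ (fprod fs) ω) ≠ Qc ω` whenever `fs` is good at `ω`. The claim follows from (1).
-/

open Equiv

namespace ORel

section helpers

variable {X : Type} {S₀ S₁ : Set X} {Z₀ Z₁ Q P : Type} [Group Q] [Group P]
  {θ₀ : FreeGroup X →* Perm Z₀} {θ₁ : FreeGroup X →* Perm Z₁} {q : FreeGroup X →* Q}
  {π : Z₀ × Z₁ → P} {Ω : Type} {θ : FreeGroup X →* Perm Ω}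

private theorem OPath_fprod (b : Bool) (u : FreeGroup X) (rest : List (Bool × FreeGroup X)) (ω : Ω) :
    θ (fprod ((b, u) :: rest)) ω = θ u (θ (fprod rest) ω) := by
  simp only [fprod, List.map_cons, List.prod_cons, map_mul, Perm.mul_apply]

/-- good lists of factors -/
private def OPath_good (G : Glued S₀ S₁ θ₀ θ₁ q π Ω θ) : List (Bool × FreeGroup X) → Ω → Prop
  | [], _ => True
  | (true, u) :: rest, ω => OPath_good G rest ω ∧
      G.y₀ (θ u (θ (fprod rest) ω)) ≠ G.y₀ (θ (fprod rest) ω)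
  | (false, u) :: rest, ω => OPath_good G rest ω ∧
      G.y₁ (θ u (θ (fprod rest) ω)) ≠ G.y₁ (θ (fprod rest) ω)

/-- the word of symbols -/
private def OPath_wl (G : Glued S₀ S₁ θ₀ θ₁ q π Ω θ) :
    List (Bool × FreeGroup X) → Ω → List ((Z₀ × Z₁) × Bool)
  | [], _ => []
  | (true, u) :: rest, ω => ((G.y₀ (θ u (θ (fprod rest) ω)), G.y₁ (θ (fprod rest) ω)), false) ::
      ((G.y₀ (θ (fprod rest) ω), G.y₁ (θ (fprod rest) ω)), true) :: OPath_wl G rest ω
  | (false, _) :: rest, ω => OPath_wl G rest ω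

private theorem OPath_len (G : Glued S₀ S₁ θ₀ θ₁ q π Ω θ) (fs : List (Bool × FreeGroup X)) (ω : Ω) :
    (OPath_wl G fs ω).length ≤ 2 * fs.length := by
  induction fs with
  | nil => simp [OPath_wl]
  | cons a rest ih =>
    obtain ⟨b, u⟩ := a
    cases b
    · simp only [OPath_wl, List.length_cons]
      omega
    · simp only [OPath_wl, List.length_cons]
      omega

private theorem OPath_ne_nil (G : Glued S₀ S₁ θ₀ θ₁ q π Ω θ) (fs : List (Bool × FreeGroup X)) (ω : Ω)
    (h : ∃ u, (true, u) ∈ fs) : OPath_wl G fs ω ≠ [] := by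
  induction fs with
  | nil => simp at h
  | cons a rest ih =>
    obtain ⟨b, u⟩ := a
    cases b
    · simp only [OPath_wl]
      apply ih
      obtain ⟨v, hv⟩ := h
      refine ⟨v, ?_⟩
      simpa using hv
    · simp only [OPath_wl]
      exact List.cons_ne_nil _ _

private theorem OPath_eq (G : Glued S₀ S₁ θ₀ θ₁ q π Ω θ) (fs : List (Bool × FreeGroup X)) (ω : Ω)
    (h₀ : ∀ u, (true, u) ∈ fs → u ∈ Wd S₀) (h₁ : ∀ u, (false, u) ∈ fs → u ∈ Wd S₁) :
    (π (G.y₀ (θ (fprod fs) ω), G.y₁ (θ (fprod fs) ω)))⁻¹ * G.p (θ (fprod fs) ω) =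
      FreeGroup.lift π (FreeGroup.mk (OPath_wl G fs ω)) * ((π (G.y₀ ω, G.y₁ ω))⁻¹ * G.p ω) := by
  induction fs with
  | nil =>
    simp only [OPath_wl, fprod, List.map_nil, List.prod_nil, map_one, Perm.one_apply]
    rw [← FreeGroup.one_eq_mk, map_one, one_mul]
  | cons a rest ih =>
    obtain ⟨b, u⟩ := a
    have ih' := ih (fun v hv => h₀ v (List.mem_cons_of_mem _ hv))
      (fun v hv => h₁ v (List.mem_cons_of_mem _ hv))
    rw [OPath_fprod]
    cases b
    · have hu : u ∈ Wd S₁ := h₁ u (by simp)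
      rw [G.b₀ u hu, G.bp u hu]
      simp only [OPath_wl]
      exact ih'
    · have hu : u ∈ Wd S₀ := h₀ u (by simp)
      rw [G.k₁ u hu, G.kp u hu]
      simp only [OPath_wl]
      have e1 : ∀ (a b : Z₀ × Z₁) (L : List ((Z₀ × Z₁) × Bool)),
          FreeGroup.lift π (FreeGroup.mk ((a, false) :: (b, true) :: L)) =
            (π a)⁻¹ * (π b * FreeGroup.lift π (FreeGroup.mk L)) := by
        intro a b L
        rw [FreeGroup.lift_mk, FreeGroup.lift_mk]
        simp
      rw [e1, mul_assoc, mul_assoc, ← ih', mul_inv_cancel_left]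

private theorem OPath_reduced (G : Glued S₀ S₁ θ₀ θ₁ q π Ω θ) (ω : Ω) :
    ∀ fs : List (Bool × FreeGroup X), (∀ u, (true, u) ∈ fs → u ∈ Wd S₀) →
      (∀ u, (false, u) ∈ fs → u ∈ Wd S₁) →
      fs.IsChain (fun a b => a.1 ≠ b.1) → OPath_good G fs ω →
      FreeGroup.IsReduced (OPath_wl G fs ω) ∧
        ∀ b u rest, fs = (b, u) :: rest → ∀ c L, OPath_wl G fs ω = c :: L →
          c.2 = false ∧ (b = true → G.y₁ (θ (fprod fs) ω) = c.1.2) ∧
            (b = false → G.y₁ (θ (fprod fs) ω) ≠ c.1.2) := by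
  intro fs
  induction fs with
  | nil =>
    intro _ _ _ _
    refine ⟨by simp [OPath_wl, FreeGroup.IsReduced], ?_⟩
    intro b u rest h
    exact absurd h (by simp)
  | cons a rest ih =>
    intro h₀ h₁ hch hg
    obtain ⟨b, u⟩ := a
    have h₀' : ∀ v, (true, v) ∈ rest → v ∈ Wd S₀ := fun v hv => h₀ v (List.mem_cons_of_mem _ hv)
    have h₁' : ∀ v, (false, v) ∈ rest → v ∈ Wd S₁ := fun v hv => h₁ v (List.mem_cons_of_mem _ hv)
    rw [List.isChain_cons] at hch
    obtain ⟨hhead, hch'⟩ := hch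
    cases b
    · simp only [OPath_good] at hg
      obtain ⟨hg', hne⟩ := hg
      obtain ⟨hr, hinv⟩ := ih h₀' h₁' hch' hg'
      simp only [OPath_wl]
      refine ⟨hr, ?_⟩
      intro b' u' rest' he c L hL
      rw [List.cons.injEq, Prod.mk.injEq] at he
      obtain ⟨⟨rfl, rfl⟩, rfl⟩ := he
      -- the head of `rest` has the label `true`
      rcases rest with _ | ⟨⟨b₁, u₁⟩, rest₁⟩
      · simp [OPath_wl] at hL
      · have hb₁ : b₁ = true := by
          have := hhead (b₁, u₁) (by simp)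
          simpa using this
        obtain ⟨hc1, hc2, _⟩ := hinv b₁ u₁ rest₁ rfl c L hL
        refine ⟨hc1, fun h => absurd h (by simp), fun _ => ?_⟩
        rw [OPath_fprod, ← hc2 hb₁]
        exact hne
    · simp only [OPath_good] at hg
      obtain ⟨hg', hne⟩ := hg
      obtain ⟨hr, hinv⟩ := ih h₀' h₁' hch' hg'
      simp only [OPath_wl]
      constructor
      · unfold FreeGroup.IsReduced at hr ⊢
        rw [List.isChain_cons_cons]
        refine ⟨fun h => absurd (congrArg Prod.fst h) hne, ?_⟩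
        rw [List.isChain_cons]
        refine ⟨?_, hr⟩
        intro c hc h
        exfalso
        rcases rest with _ | ⟨⟨b₁, u₁⟩, rest₁⟩
        · simp [OPath_wl] at hc
        · have hb₁ : b₁ = false := by
            have := hhead (b₁, u₁) (by simp)
            simpa using this
          obtain ⟨L, hL⟩ : ∃ L, OPath_wl G ((b₁, u₁) :: rest₁) ω = c :: L := by
            rcases hw : OPath_wl G ((b₁, u₁) :: rest₁) ω with _ | ⟨c', L⟩
            · rw [hw] at hc
              simp at hc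
            · rw [hw] at hc
              refine ⟨L, ?_⟩
              simp only [List.head?_cons, Option.mem_def, Option.some.injEq] at hc
              rw [hc]
          obtain ⟨_, _, hc3⟩ := hinv b₁ u₁ rest₁ rfl c L hL
          exact hc3 hb₁ (congrArg Prod.snd h)
      · intro b' u' rest' he c L hL
        rw [List.cons.injEq, Prod.mk.injEq] at he
        obtain ⟨⟨rfl, rfl⟩, rfl⟩ := he
        rw [List.cons.injEq] at hL
        obtain ⟨rfl, _⟩ := hL
        refine ⟨rfl, fun _ => ?_, fun h => absurd h (by simp)⟩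
        rw [OPath_fprod, G.k₁ u (h₀ u (by simp))]

private theorem OPath_small [Finite Z₀] [Finite Z₁] [Finite Ω] (G : Glued S₀ S₁ θ₀ θ₁ q π Ω θ)
    {δ : ℝ} : ∀ fs : List (Bool × FreeGroup X),
      (∀ u, (true, u) ∈ fs → u ∈ Wd S₀ ∧ Small (fun z => ∃ d ∈ Wd (S₀ ∩ S₁), θ₀ d z = θ₀ u z) δ) →
      (∀ u, (false, u) ∈ fs → u ∈ Wd S₁ ∧ Small (fun z => ∃ d ∈ Wd (S₀ ∩ S₁), θ₁ d z = θ₁ u z) δ) →
      Small (fun ω => ¬ OPath_good G fs ω) (fs.length * δ) := by
  intro fs
  induction fs with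
  | nil =>
    intro _ _
    refine (small_false (Z := Ω) (le_refl (0 : ℝ))).mono ?_ (by simp)
    intro ω hω
    exact hω trivial
  | cons a rest ih =>
    intro h₀ h₁
    obtain ⟨b, u⟩ := a
    have ih' := ih (fun v hv => h₀ v (List.mem_cons_of_mem _ hv))
      (fun v hv => h₁ v (List.mem_cons_of_mem _ hv))
    have hlen : ((((b, u) :: rest).length : ℕ) : ℝ) * δ = (rest.length : ℝ) * δ + δ := by
      rw [List.length_cons]
      push_cast
      ring
    rw [hlen]
    cases b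
    · obtain ⟨hu, hs⟩ := h₁ u (by simp)
      have h2 := (hs.comp_triv G.triv₁).comp_perm (θ (fprod rest))
      refine (ih'.or h2).mono ?_ le_rfl
      intro ω hω
      by_contra h3
      push Not at h3
      apply hω
      simp only [OPath_good]
      refine ⟨h3.1, fun h4 => ?_⟩
      obtain ⟨d, hd, hd'⟩ := G.move₁ u hu _ h4
      exact h3.2 d hd hd'
    · obtain ⟨hu, hs⟩ := h₀ u (by simp)
      have h2 := (hs.comp_triv G.triv₀).comp_perm (θ (fprod rest))
      refine (ih'.or h2).mono ?_ le_rfl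
      intro ω hω
      by_contra h3
      push Not at h3
      apply hω
      simp only [OPath_good]
      refine ⟨h3.1, fun h4 => ?_⟩
      obtain ⟨d, hd, hd'⟩ := G.move₀ u hu _ h4
      exact h3.2 d hd hd'

end helpers

theorem alt_moves {X : Type} (S₀ S₁ : Set X) {Z₀ Z₁ Q P : Type} [Finite Z₀] [Finite Z₁]
    [Group Q] [Group P]
    (θ₀ : FreeGroup X →* Perm Z₀) (θ₁ : FreeGroup X →* Perm Z₁) (q : FreeGroup X →* Q)
    (π : Z₀ × Z₁ → P) (δ : ℝ) (hδ : 0 ≤ δ) (Ω : Type) [Finite Ω] (θ : FreeGroup X →* Perm Ω)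
    (G : Glued S₀ S₁ θ₀ θ₁ q π Ω θ) (K : ℕ)
    (hP : ∀ L : List ((Z₀ × Z₁) × Bool), L.length ≤ 2 * K → FreeGroup.IsReduced L → L ≠ [] →
      FreeGroup.lift π (FreeGroup.mk L) ≠ 1)
    (fs : List (Bool × FreeGroup X)) (hK : fs.length ≤ K)
    (hch : fs.IsChain (fun a b => a.1 ≠ b.1))
    (h₀ : ∀ u, (true, u) ∈ fs → u ∈ Wd S₀ ∧
      Small (fun z => ∃ d ∈ Wd (S₀ ∩ S₁), θ₀ d z = θ₀ u z) δ)
    (h₁ : ∀ u, (false, u) ∈ fs → u ∈ Wd S₁ ∧
      Small (fun z => ∃ d ∈ Wd (S₀ ∩ S₁), θ₁ d z = θ₁ u z) δ)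
    (ht : ∃ u, (true, u) ∈ fs) :
    Small (fun ω => (π (G.y₀ (θ (fprod fs) ω), G.y₁ (θ (fprod fs) ω)))⁻¹ * G.p (θ (fprod fs) ω) =
      (π (G.y₀ ω, G.y₁ ω))⁻¹ * G.p ω) (K * δ) := by
  refine (OPath_small G fs h₀ h₁).mono ?_ ?_
  · intro ω hω hg
    have h2 := OPath_eq G fs ω (fun u hu => (h₀ u hu).1) (fun u hu => (h₁ u hu).1)
    rw [hω] at h2
    have h3 : FreeGroup.lift π (FreeGroup.mk (OPath_wl G fs ω)) = 1 := by
      have h4 := h2.symm
      rwa [mul_eq_right] at h4
    exact hP _ ((OPath_len G fs ω).trans (by omega))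
      (OPath_reduced G ω fs (fun u hu => (h₀ u hu).1) (fun u hu => (h₁ u hu).1) hch hg).1
      (OPath_ne_nil G fs ω ht) h3
  · have : (fs.length : ℝ) ≤ K := by exact_mod_cast hK
    exact mul_le_mul_of_nonneg_right this hδ

end ORel
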