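import Mathlib

/-!
# Periodic reduced sequences and the Magnus rewriting

`Cyc s n`: the sequence `s : ℕ → X × Bool` of letters is reduced and has the least period `n`.
`lev φ s v`: the level (exponent sum with the weights `φ`) of the first `v` letters.
`bpos s i`: the base position of the `i`-th edge.
`mrw b φ s t`: the rewritten sequence: the letters different from `b`, each with the height
`t + (level of its base position)`.
-/

namespace OMag

variable {X : Type}

/-- The weight of a signed letter. -/
def sg (φ : X → ℤ) (y : X × Bool) : ℤ := if y.2 then φ y.1 else -φ y.1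

/-- Reduced sequences with the least period `n`. -/
structure Cyc (s : ℕ → X × Bool) (n : ℕ) : Prop where
  pos : 0 < n
  per : ∀ i, s (i + n) = s i
  least : ∀ m : ℕ, 0 < m → (∀ i, s (i + m) = s i) → n ≤ m
  red : ∀ i, (s i).1 = (s (i + 1)).1 → (s i).2 = (s (i + 1)).2

/-- The level after `v` letters. -/
def lev (φ : X → ℤ) (s : ℕ → X × Bool) (v : ℕ) : ℤ := ∑ k ∈ Finset.range v, sg φ (s k)

/-- The base position of the `i`-th edge. -/
def bpos (s : ℕ → X × Bool) (i : ℕ) : ℕ := if (s i).2 then i else i + 1

/-- The number of the letters different from `b` among the first `v` letters. -/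
noncomputable def cnt (b : X) (s : ℕ → X × Bool) (v : ℕ) : ℕ :=
  open Classical in Nat.count (fun i => (s i).1 ≠ b) v

/-- The position of the `k`-th letter different from `b`. -/
noncomputable def nthp (b : X) (s : ℕ → X × Bool) (k : ℕ) : ℕ := Nat.nth (fun i => (s i).1 ≠ b) k

/-- The rewritten sequence. -/
noncomputable def mrw (b : X) (φ : X → ℤ) (s : ℕ → X × Bool) (t : ℤ) (k : ℕ) : (X × ℤ) × Bool :=
  (((s (nthp b s k)).1, t + lev φ s (bpos s (nthp b s k))), (s (nthp b s k)).2)

/-! ### Levels -/

@[simp] theorem lev_zero (φ : X → ℤ) (s : ℕ → X × Bool) : lev φ s 0 = 0 := by simp [lev]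

theorem lev_succ (φ : X → ℤ) (s : ℕ → X × Bool) (v : ℕ) : lev φ s (v + 1) = lev φ s v + sg φ (s v) := by
  simp [lev, Finset.sum_range_succ]

theorem lev_add_per {φ : X → ℤ} {s : ℕ → X × Bool} {n : ℕ} (hper : ∀ i, s (i + n) = s i)
    (h0 : lev φ s n = 0) (v : ℕ) : lev φ s (v + n) = lev φ s v := by
  induction v with
  | zero => simpa using h0
  | succ v ih =>
    rw [Nat.add_right_comm, lev_succ, lev_succ, ih, hper]

theorem bpos_add_per {s : ℕ → X × Bool} {n : ℕ} (hper : ∀ i, s (i + n) = s i) (i : ℕ) :
    bpos s (i + n) = bpos s i + n := by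
  unfold bpos
  rw [hper]
  split_ifs <;> omega

/-- A run of `b`s of a reduced sequence has constant sign. -/
theorem run_sign {s : ℕ → X × Bool} (hred : ∀ i, (s i).1 = (s (i + 1)).1 → (s i).2 = (s (i + 1)).2)
    {b : X} {v w : ℕ} (h : ∀ i, v ≤ i → i < w → (s i).1 = b) :
    ∀ i, v ≤ i → i < w → s i = s v := by
  intro i hi hiw
  induction i, hi using Nat.le_induction with
  | base => rfl
  | succ i hi ih =>
    have h1 := ih (by omega)
    rw [← h1]
    have h2 := h i hi (by omega)
    have h3 := h (i + 1) (by omega) hiw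
    exact (Prod.ext (h2.trans h3.symm) (hred i (h2.trans h3.symm))).symm

theorem lev_run {s : ℕ → X × Bool} {φ : X → ℤ} {v w : ℕ} (hvw : v ≤ w) {y : X × Bool}
    (h : ∀ i, v ≤ i → i < w → s i = y) :
    lev φ s w = lev φ s v + (w - v : ℕ) * sg φ y := by
  induction w, hvw using Nat.le_induction with
  | base => simp
  | succ w hw ih =>
    rw [lev_succ, ih (fun i hi hi' => h i hi (by omega)), h w hw (by omega)]
    have : w + 1 - v = (w - v) + 1 := by omega
    rw [this]
    push_cast
    ring

/-- Between two different positions on the same level there is a letter different from `b`. -/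
theorem exists_ne_of_lev {s : ℕ → X × Bool}
    (hred : ∀ i, (s i).1 = (s (i + 1)).1 → (s i).2 = (s (i + 1)).2)
    {φ : X → ℤ} {b : X} (hb : φ b ≠ 0) {v w : ℕ} (hvw : v < w) (hl : lev φ s v = lev φ s w) :
    ∃ i, v ≤ i ∧ i < w ∧ (s i).1 ≠ b := by
  by_contra hcon
  push Not at hcon
  have h1 := run_sign hred hcon
  have h2 := lev_run (φ := φ) hvw.le h1
  have h3 : (s v).1 = b := hcon v le_rfl hvw
  have h4 : sg φ (s v) ≠ 0 := by
    unfold sg
    rw [h3]
    split_ifs
    · exact hb
    · simpa using hb
  have h5 : ((w - v : ℕ) : ℤ) * sg φ (s v) ≠ 0 := by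
    refine mul_ne_zero ?_ h4
    have : 0 < w - v := by omega
    exact_mod_cast this.ne'
  apply h5
  linarith

/-! ### Counting -/

theorem cnt_succ_of_eq {b : X} {s : ℕ → X × Bool} {v : ℕ} (h : (s v).1 = b) :
    cnt b s (v + 1) = cnt b s v := by
  classical
  unfold cnt
  rw [Nat.count_succ]
  simp [h]

theorem cnt_succ_of_ne {b : X} {s : ℕ → X × Bool} {v : ℕ} (h : (s v).1 ≠ b) :
    cnt b s (v + 1) = cnt b s v + 1 := by
  classical
  unfold cnt
  rw [Nat.count_succ]
  simp [h]

@[simp] theorem cnt_zero (b : X) (s : ℕ → X × Bool) : cnt b s 0 = 0 := by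
  classical
  simp [cnt]

theorem cnt_mono (b : X) (s : ℕ → X × Bool) : Monotone (cnt b s) := by
  classical
  exact Nat.count_monotone _

theorem cnt_add_per {b : X} {s : ℕ → X × Bool} {n : ℕ} (hper : ∀ i, s (i + n) = s i) (v : ℕ) :
    cnt b s (v + n) = cnt b s v + cnt b s n := by
  induction v with
  | zero => simp
  | succ v ih =>
    rw [Nat.add_right_comm]
    by_cases h : (s v).1 = b
    · rw [cnt_succ_of_eq h, cnt_succ_of_eq (by rw [hper]; exact h), ih]
    · rw [cnt_succ_of_ne h, cnt_succ_of_ne (by rw [hper]; exact h), ih]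
      omega

theorem per_mul {s : ℕ → X × Bool} {n : ℕ} (hper : ∀ i, s (i + n) = s i) (k i : ℕ) :
    s (i + k * n) = s i := by
  induction k with
  | zero => simp
  | succ k ih =>
    rw [Nat.succ_mul, ← Nat.add_assoc, hper, ih]

theorem infinite_ne {b : X} {s : ℕ → X × Bool} {n : ℕ} (hn : 0 < n) (hper : ∀ i, s (i + n) = s i)
    (hne : ∃ i, (s i).1 ≠ b) : {i | (s i).1 ≠ b}.Infinite := by
  obtain ⟨i, hi⟩ := hne
  rw [Set.infinite_iff_exists_gt]
  intro a
  refine ⟨i + (a + 1) * n, ?_, ?_⟩
  · change (s (i + (a + 1) * n)).1 ≠ b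
    rw [per_mul hper]
    exact hi
  · have : a + 1 ≤ (a + 1) * n := Nat.le_mul_of_pos_right _ hn
    omega

section nth

variable {b : X} {s : ℕ → X × Bool} (hinf : {i | (s i).1 ≠ b}.Infinite)

include hinf

theorem nthp_ne (k : ℕ) : (s (nthp b s k)).1 ≠ b := Nat.nth_mem_of_infinite hinf k

theorem cnt_nthp (k : ℕ) : cnt b s (nthp b s k) = k := by
  classical
  unfold cnt nthp
  exact Nat.count_nth_of_infinite hinf k

omit hinf in
theorem nthp_cnt {v : ℕ} (h : (s v).1 ≠ b) : nthp b s (cnt b s v) = v := by
  classical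
  unfold cnt nthp
  exact Nat.nth_count (p := fun i => (s i).1 ≠ b) h

theorem nthp_strictMono : StrictMono (nthp b s) := Nat.nth_strictMono hinf

/-- Between consecutive positions of the letters different from `b` there are only `b`s. -/
theorem between (k : ℕ) {i : ℕ} (h1 : nthp b s k < i) (h2 : i < nthp b s (k + 1)) :
    (s i).1 = b := by
  by_contra h
  have h3 := nthp_cnt h
  rw [← h3] at h1 h2
  have h4 := (nthp_strictMono hinf).lt_iff_lt.1 h1
  have h5 := (nthp_strictMono hinf).lt_iff_lt.1 h2
  omega

end nth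

theorem nthp_add_per {b : X} {s : ℕ → X × Bool} {n : ℕ} (hn : 0 < n) (hper : ∀ i, s (i + n) = s i)
    (hne : ∃ i, (s i).1 ≠ b) (k : ℕ) : nthp b s (k + cnt b s n) = nthp b s k + n := by
  have hinf := infinite_ne hn hper hne
  have h1 : (s (nthp b s k + n)).1 ≠ b := by
    rw [hper]
    exact nthp_ne hinf k
  have h2 := nthp_cnt h1
  rw [cnt_add_per hper, cnt_nthp hinf] at h2
  exact h2

theorem cnt_pos {b : X} {s : ℕ → X × Bool} {n : ℕ} (hn : 0 < n) (hper : ∀ i, s (i + n) = s i)
    (hne : ∃ i, (s i).1 ≠ b) : 0 < cnt b s n := by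
  by_contra h
  have h0 : cnt b s n = 0 := by omega
  have h1 := nthp_add_per hn hper hne 0
  rw [h0] at h1
  simp only [Nat.add_zero] at h1
  omega

theorem cnt_lt {b : X} {s : ℕ → X × Bool} {n : ℕ} (hn : 0 < n) (hper : ∀ i, s (i + n) = s i)
    (hb : ∃ i, (s i).1 = b) : cnt b s n < n := by
  classical
  obtain ⟨i, hi⟩ := hb
  have h1 : (s (i % n)).1 = b := by
    rw [← hi]
    congr 1
    have h2 := per_mul hper (i / n) (i % n)
    rw [← h2]
    congr 1
    rw [Nat.mul_comm]
    exact (Nat.mod_add_div i n)
  have h2 : i % n < n := Nat.mod_lt _ hn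
  unfold cnt
  rw [Nat.count_eq_card_filter_range]
  calc ((Finset.range n).filter fun i => (s i).1 ≠ b).card < (Finset.range n).card := by
        refine Finset.card_lt_card ?_
        refine Finset.filter_ssubset.2 ⟨i % n, Finset.mem_range.2 h2, ?_⟩
        simpa using h1
    _ = n := Finset.card_range n

/-- Positions on the same level which are incongruent modulo `n` are mapped to positions which
are incongruent modulo the new period. -/
theorem cnt_incong {s : ℕ → X × Bool} {n : ℕ} (hs : Cyc s n) {φ : X → ℤ} {b : X} (hb : φ b ≠ 0)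
    (h0 : lev φ s n = 0) (hne : ∃ i, (s i).1 ≠ b) {v w : ℕ} (hl : lev φ s v = lev φ s w)
    (hvw : ¬ v ≡ w [MOD n]) : ¬ cnt b s v ≡ cnt b s w [MOD cnt b s n] := by
  have key : ∀ v w : ℕ, lev φ s v = lev φ s w → cnt b s v = cnt b s w → v = w := by
    have key' : ∀ v w : ℕ, v < w → lev φ s v = lev φ s w → cnt b s v = cnt b s w → False := by
      intro v w hvw hl hc
      obtain ⟨i, h1, h2, h3⟩ := exists_ne_of_lev hs.red hb hvw hl
      have h4 := cnt_mono b s h1
      have h5 := cnt_mono b s (show i + 1 ≤ w from h2)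
      rw [cnt_succ_of_ne h3] at h5
      omega
    intro v w hl hc
    rcases lt_trichotomy v w with h | h | h
    · exact (key' v w h hl hc).elim
    · exact h
    · exact (key' w v h hl.symm hc.symm).elim
  have hpos := cnt_pos hs.pos hs.per hne
  have hmul : ∀ (k v : ℕ), cnt b s (v + k * n) = cnt b s v + k * cnt b s n := by
    intro k v
    induction k with
    | zero => simp
    | succ k ih => rw [Nat.succ_mul, ← Nat.add_assoc, cnt_add_per hs.per, ih]; ring
  have hmul' : ∀ (k v : ℕ), lev φ s (v + k * n) = lev φ s v := by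
    intro k v
    induction k with
    | zero => simp
    | succ k ih => rw [Nat.succ_mul, ← Nat.add_assoc, lev_add_per hs.per h0, ih]
  intro hmod
  have key2 : ∀ v w : ℕ, lev φ s v = lev φ s w → cnt b s v ≤ cnt b s w →
      cnt b s v ≡ cnt b s w [MOD cnt b s n] → v ≡ w [MOD n] := by
    intro v w hl hle hmod
    obtain ⟨k, hk⟩ := (Nat.modEq_iff_dvd' hle).1 hmod
    have h1 : cnt b s (v + k * n) = cnt b s w := by
      rw [hmul]
      have : cnt b s n * k = k * cnt b s n := Nat.mul_comm _ _
      omega
    have h2 := key (v + k * n) w (by rw [hmul', hl]) h1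
    rw [← h2]
    simp [Nat.ModEq]
  rcases le_total (cnt b s v) (cnt b s w) with h | h
  · exact hvw (key2 v w hl h hmod)
  · exact hvw (key2 w v hl.symm h hmod.symm).symm

/-! ### The rewritten sequence -/

/-- The level at the end of the `k`-th letter different from `b` (with the shift `t`). -/
theorem lev_after (φ : X → ℤ) (s : ℕ → X × Bool) (i : ℕ) :
    lev φ s (i + 1) = lev φ s (bpos s i) + (if (s i).2 then φ (s i).1 else 0) := by
  unfold bpos
  cases h : (s i).2
  · simp
  · rw [if_pos rfl, if_pos rfl, lev_succ]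
    simp [sg, h]

theorem lev_before (φ : X → ℤ) (s : ℕ → X × Bool) (i : ℕ) :
    lev φ s i = lev φ s (bpos s i) + (if (s i).2 then 0 else φ (s i).1) := by
  unfold bpos
  cases h : (s i).2
  · simp only [Bool.false_eq_true, if_false]
    rw [lev_succ]
    simp [sg, h]
  · simp

/-- The number and the sign of the `b`s between consecutive letters is determined by the
rewritten letters. -/
theorem gap_det {s : ℕ → X × Bool} {φ : X → ℤ} {b : X}
    (hred : ∀ i, (s i).1 = (s (i + 1)).1 → (s i).2 = (s (i + 1)).2) (hb : φ b ≠ 0)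
    (hinf : {i | (s i).1 ≠ b}.Infinite) {t : ℤ} {k l : ℕ}
    (h1 : mrw b φ s t k = mrw b φ s t l) (h2 : mrw b φ s t (k + 1) = mrw b φ s t (l + 1)) :
    nthp b s (k + 1) - nthp b s k = nthp b s (l + 1) - nthp b s l ∧
      ∀ i, nthp b s k + i < nthp b s (k + 1) → s (nthp b s k + i) = s (nthp b s l + i) := by
  have e1 : s (nthp b s k) = s (nthp b s l) := by
    have h3 := congrArg (fun y => y.1.1) h1
    have h4 := congrArg (fun y => y.2) h1
    exact Prod.ext h3 h4
  have e2 : s (nthp b s (k + 1)) = s (nthp b s (l + 1)) := by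
    have h3 := congrArg (fun y => y.1.1) h2
    have h4 := congrArg (fun y => y.2) h2
    exact Prod.ext h3 h4
  have l1 : lev φ s (bpos s (nthp b s k)) = lev φ s (bpos s (nthp b s l)) := by
    have h3 := congrArg (fun y => y.1.2) h1
    simpa [mrw] using h3
  have l2 : lev φ s (bpos s (nthp b s (k + 1))) = lev φ s (bpos s (nthp b s (l + 1))) := by
    have h3 := congrArg (fun y => y.1.2) h2
    simpa [mrw] using h3
  have a1 : lev φ s (nthp b s k + 1) = lev φ s (nthp b s l + 1) := by
    rw [lev_after, lev_after, l1, e1]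
  have a2 : lev φ s (nthp b s (k + 1)) = lev φ s (nthp b s (l + 1)) := by
    rw [lev_before, lev_before φ s (nthp b s (l + 1)), l2, e2]
  have k1 : nthp b s k < nthp b s (k + 1) := nthp_strictMono hinf (Nat.lt_succ_self k)
  have k2 : nthp b s l < nthp b s (l + 1) := nthp_strictMono hinf (Nat.lt_succ_self l)
  -- the runs
  have r : ∀ k, ∃ c : Bool, ∀ i, nthp b s k + 1 ≤ i → i < nthp b s (k + 1) → s i = (b, c) := by
    intro k
    refine ⟨(s (nthp b s k + 1)).2, fun i hi hi' => ?_⟩
    have h3 : ∀ i, nthp b s k + 1 ≤ i → i < nthp b s (k + 1) → (s i).1 = b :=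
      fun i hi hi' => between hinf k (by omega) hi'
    have h4 := run_sign hred h3 i hi hi'
    rw [h4]
    exact Prod.ext (h3 _ le_rfl (by omega)) rfl
  obtain ⟨c, hc⟩ := r k
  obtain ⟨d, hd⟩ := r l
  have g1 := lev_run (φ := φ) (show nthp b s k + 1 ≤ nthp b s (k + 1) from k1) hc
  have g2 := lev_run (φ := φ) (show nthp b s l + 1 ≤ nthp b s (l + 1) from k2) hd
  have g3 : ((nthp b s (k + 1) - (nthp b s k + 1) : ℕ) : ℤ) * sg φ (b, c) =
      ((nthp b s (l + 1) - (nthp b s l + 1) : ℕ) : ℤ) * sg φ (b, d) := by
    linarith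
  set p := nthp b s (k + 1) - (nthp b s k + 1) with hp
  set r := nthp b s (l + 1) - (nthp b s l + 1) with hr
  have g4 : p = r ∧ (0 < p → c = d) := by
    have hb' : φ b ≠ 0 := hb
    cases c <;> cases d <;> simp only [sg, Bool.false_eq_true, if_false, if_true] at g3
    · have : ((p : ℤ) - r) * φ b = 0 := by linarith
      rcases mul_eq_zero.1 this with h | h
      · exact ⟨by omega, fun _ => rfl⟩
      · exact absurd h hb'
    · have : ((p : ℤ) + r) * φ b = 0 := by linarith
      rcases mul_eq_zero.1 this with h | h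
      · exact ⟨by omega, fun _ => by omega⟩
      · exact absurd h hb'
    · have : ((p : ℤ) + r) * φ b = 0 := by linarith
      rcases mul_eq_zero.1 this with h | h
      · exact ⟨by omega, fun _ => by omega⟩
      · exact absurd h hb'
    · have : ((p : ℤ) - r) * φ b = 0 := by linarith
      rcases mul_eq_zero.1 this with h | h
      · exact ⟨by omega, fun _ => rfl⟩
      · exact absurd h hb'
  obtain ⟨g5, g6⟩ := g4
  refine ⟨by omega, fun i hi => ?_⟩
  rcases Nat.eq_zero_or_pos i with rfl | hi0
  · simpa using e1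
  · have hp0 : 0 < p := by omega
    rw [hc _ (by omega) hi, hd _ (by omega) (by omega), g6 hp0]

theorem mrw_per {s : ℕ → X × Bool} {n : ℕ} (hs : Cyc s n) {φ : X → ℤ} {b : X}
    (h0 : lev φ s n = 0) (hne : ∃ i, (s i).1 ≠ b) (t : ℤ) (k : ℕ) :
    mrw b φ s t (k + cnt b s n) = mrw b φ s t k := by
  unfold mrw
  rw [nthp_add_per hs.pos hs.per hne, hs.per, bpos_add_per hs.per, lev_add_per hs.per h0]

/-- The rewritten sequence is again reduced and its least period is the number of the letters
different from `b`. -/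
theorem mrw_cyc {s : ℕ → X × Bool} {n : ℕ} (hs : Cyc s n) {φ : X → ℤ} {b : X} (hb : φ b ≠ 0)
    (h0 : lev φ s n = 0) (hne : ∃ i, (s i).1 ≠ b) (t : ℤ) :
    Cyc (mrw b φ s t) (cnt b s n) := by
  have hinf := infinite_ne hs.pos hs.per hne
  refine ⟨cnt_pos hs.pos hs.per hne, mrw_per hs h0 hne t, ?_, ?_⟩
  · intro m hm hper
    -- `nthp (k + m) = nthp k + M` with `M = nthp m - nthp 0`
    have hmono := nthp_strictMono hinf
    have hgap : ∀ k, nthp b s (k + m + 1) - nthp b s (k + m) = nthp b s (k + 1) - nthp b s k ∧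
        ∀ i, nthp b s k + i < nthp b s (k + 1) → s (nthp b s (k + m) + i) = s (nthp b s k + i) := by
      intro k
      have h1 := gap_det hs.red hb hinf (t := t) (k := k) (l := k + m) (hper k).symm (by
        rw [Nat.add_right_comm]
        exact (hper (k + 1)).symm)
      exact ⟨h1.1.symm, fun i hi => (h1.2 i hi).symm⟩
    have hM : ∀ k, nthp b s (k + m) = nthp b s k + (nthp b s m - nthp b s 0) := by
      intro k
      induction k with
      | zero =>
        have := hmono.monotone (Nat.zero_le m)
        rw [Nat.zero_add]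
        omega
      | succ k ih =>
        have h1 := (hgap k).1
        have h2 := hmono (Nat.lt_succ_self k)
        have h3 := hmono (Nat.lt_succ_self (k + m))
        have h4 : k + 1 + m = k + m + 1 := by omega
        rw [h4]
        simp only [Nat.succ_eq_add_one] at h2 h3
        omega
    set M := nthp b s m - nthp b s 0 with hMdef
    have hMpos : 0 < M := by
      have := hmono hm
      omega
    -- `s` has the period `M` from `nthp 0` on
    have hsM : ∀ v, nthp b s 0 ≤ v → s (v + M) = s v := by
      intro v hv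
      -- find `k` with `nthp k ≤ v < nthp (k+1)`
      obtain ⟨k, hk1, hk2⟩ : ∃ k, nthp b s k ≤ v ∧ v < nthp b s (k + 1) := by
        by_contra hcon
        push Not at hcon
        have h1 : ∀ k, nthp b s k ≤ v := by
          intro k
          induction k with
          | zero => exact hv
          | succ k ih => exact hcon k ih
        have h2 := hmono.id_le (v + 1)
        have h3 := h1 (v + 1)
        simp only [id] at h2
        omega
      have h1 := (hgap k).2 (v - nthp b s k) (by omega)
      rw [hM k] at h1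
      have h2 : nthp b s k + M + (v - nthp b s k) = v + M := by omega
      have h3 : nthp b s k + (v - nthp b s k) = v := by omega
      rw [h2, h3] at h1
      exact h1
    have hsM' : ∀ v, s (v + M) = s v := by
      intro v
      have h1 := hsM (v + nthp b s 0 * n) (by
        have : nthp b s 0 ≤ nthp b s 0 * n := Nat.le_mul_of_pos_right _ hs.pos
        omega)
      rw [per_mul hs.per, Nat.add_right_comm, per_mul hs.per] at h1
      exact h1
    have hle := hs.least M hMpos hsM'
    -- `nthp (cnt n) = nthp 0 + n ≤ nthp 0 + M = nthp m`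
    have h1 := nthp_add_per hs.pos hs.per hne 0
    rw [Nat.zero_add] at h1
    have h2 := hM 0
    rw [Nat.zero_add] at h2
    have h3 : nthp b s (cnt b s n) ≤ nthp b s m := by omega
    exact hmono.le_iff_le.1 h3
  · intro k hk
    have e1 : (s (nthp b s k)).1 = (s (nthp b s (k + 1))).1 :=
      congrArg (fun y : X × ℤ => y.1) hk
    have l1 : lev φ s (bpos s (nthp b s k)) = lev φ s (bpos s (nthp b s (k + 1))) := by
      have := congrArg Prod.snd hk
      simpa [mrw] using this
    change (s (nthp b s k)).2 = (s (nthp b s (k + 1))).2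
    by_contra hne2
    have hlt : nthp b s k < nthp b s (k + 1) := nthp_strictMono hinf (Nat.lt_succ_self k)
    -- the levels at the ends of the gap agree
    have a1 : lev φ s (nthp b s k + 1) = lev φ s (nthp b s (k + 1)) := by
      rw [lev_after, lev_before φ s (nthp b s (k + 1)), l1, e1]
      cases h1 : (s (nthp b s k)).2 <;> cases h2 : (s (nthp b s (k + 1))).2 <;> simp_all
    rcases Nat.lt_or_ge (nthp b s k + 1) (nthp b s (k + 1)) with h | h
    · obtain ⟨i, h1, h2, h3⟩ := exists_ne_of_lev hs.red hb h a1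
      exact h3 (between hinf k (by omega) h2)
    · have h1 : nthp b s (k + 1) = nthp b s k + 1 := by omega
      rw [h1] at e1 hne2
      exact hne2 (hs.red _ e1)

end OMag
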