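import Pool.Agent.Lib_MP_051624_or.MSeq

/-!
# Words of the rewriting

`exm φ e`: the exponent sum of `e` with the weights `φ`.
`kw b φ e l`: the word `e`, read from the right and starting on the level `l`, as a word in the
letters `(i, l)`, `i ≠ b`.
`pw s v`: the product of the first `v` letters of the sequence `s` (the first letter is the
rightmost one).
-/

open Equiv

namespace OMag

variable {X : Type}

/-- The exponent sum with the weights `φ`. -/
noncomputable def exm (φ : X → ℤ) (e : FreeGroup X) : ℤ :=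
  Multiplicative.toAdd (FreeGroup.lift (fun x => Multiplicative.ofAdd (φ x)) e)

@[simp] theorem exm_one (φ : X → ℤ) : exm φ 1 = 0 := by simp [exm]
@[simp] theorem exm_mul (φ : X → ℤ) (e f : FreeGroup X) : exm φ (e * f) = exm φ e + exm φ f := by
  simp [exm]
@[simp] theorem exm_inv (φ : X → ℤ) (e : FreeGroup X) : exm φ e⁻¹ = -exm φ e := by simp [exm]
@[simp] theorem exm_of (φ : X → ℤ) (x : X) : exm φ (FreeGroup.of x) = φ x := by simp [exm]

/-- The letter `x` on the level `l` (`1` for `x = b`). -/
noncomputable def lb (b : X) (x : X) (l : ℤ) : FreeGroup (X × ℤ) :=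
  open Classical in if x = b then 1 else FreeGroup.of (x, l)

@[simp] theorem lb_self (b : X) (l : ℤ) : lb b b l = 1 := by simp [lb]

theorem lb_ne {b x : X} (h : x ≠ b) (l : ℤ) : lb b x l = FreeGroup.of (x, l) := by simp [lb, h]

/-- The action of the words on the cylinder. -/
noncomputable def actw (b : X) (φ : X → ℤ) : FreeGroup X →* Perm (FreeGroup (X × ℤ) × ℤ) :=
  FreeGroup.lift fun x =>
    { toFun := fun p => (lb b x p.2 * p.1, p.2 + φ x)
      invFun := fun p => ((lb b x (p.2 - φ x))⁻¹ * p.1, p.2 - φ x)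
      left_inv := fun p => by ext <;> simp
      right_inv := fun p => by ext <;> simp }

theorem actw_of (b : X) (φ : X → ℤ) (x : X) (w : FreeGroup (X × ℤ)) (l : ℤ) :
    actw b φ (FreeGroup.of x) (w, l) = (lb b x l * w, l + φ x) := by
  simp only [actw, FreeGroup.lift_apply_of]
  rfl

/-- The word `e` on the level `l`. -/
noncomputable def kw (b : X) (φ : X → ℤ) (e : FreeGroup X) (l : ℤ) : FreeGroup (X × ℤ) :=
  (actw b φ e (1, l)).1

theorem actw_apply (b : X) (φ : X → ℤ) (e : FreeGroup X) :
    ∀ (w : FreeGroup (X × ℤ)) (l : ℤ), actw b φ e (w, l) = (kw b φ e l * w, l + exm φ e) := by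
  have key : ∀ e : FreeGroup X, ∀ (w : FreeGroup (X × ℤ)) (l : ℤ),
      (actw b φ e (w, l)).2 = l + exm φ e ∧ ∀ u : FreeGroup (X × ℤ),
        (actw b φ e (w * u, l)).1 = (actw b φ e (w, l)).1 * u := by
    intro e
    induction e using FreeGroup.induction_on with
    | C1 => intro w l; simp
    | of x =>
      intro w l
      have h := actw_of b φ x
      refine ⟨?_, fun u => ?_⟩
      · rw [h]; simp
      · rw [h, h, mul_assoc]
    | inv_of x _ =>
      intro w l
      have h : ∀ (w : FreeGroup (X × ℤ)) (l : ℤ), actw b φ (FreeGroup.of x)⁻¹ (w, l) =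
          ((lb b x (l - φ x))⁻¹ * w, l - φ x) := by
        intro w l
        rw [map_inv, Perm.inv_eq_iff_eq, actw_of]
        simp
      refine ⟨?_, fun u => ?_⟩
      · rw [h]; simp; ring
      · rw [h, h, mul_assoc]
    | mul e f he hf =>
      intro w l
      have h2 : (actw b φ f (w, l)) = ((actw b φ f (w, l)).1, l + exm φ f) :=
        Prod.ext rfl (hf w l).1
      refine ⟨?_, fun u => ?_⟩
      · rw [map_mul, Perm.mul_apply, h2, (he _ _).1, exm_mul]
        ring
      · rw [map_mul, Perm.mul_apply, Perm.mul_apply]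
        have h3 : (actw b φ f (w * u, l)) = ((actw b φ f (w, l)).1 * u, l + exm φ f) :=
          Prod.ext ((hf w l).2 u) (hf (w * u) l).1
        rw [h3, h2]
        exact (he _ _).2 u
  intro w l
  refine Prod.ext ?_ (key e w l).1
  have := (key e 1 l).2 w
  rw [one_mul] at this
  exact this

@[simp] theorem kw_one (b : X) (φ : X → ℤ) (l : ℤ) : kw b φ 1 l = 1 := by simp [kw]

theorem kw_of (b : X) (φ : X → ℤ) (x : X) (l : ℤ) : kw b φ (FreeGroup.of x) l = lb b x l := by
  unfold kw
  rw [actw_of]
  simp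

theorem kw_mul (b : X) (φ : X → ℤ) (e f : FreeGroup X) (l : ℤ) :
    kw b φ (e * f) l = kw b φ e (l + exm φ f) * kw b φ f l := by
  have h : kw b φ (e * f) l = (actw b φ (e * f) (1, l)).1 := rfl
  rw [h, map_mul, Perm.mul_apply, actw_apply b φ f, mul_one, actw_apply]

theorem kw_inv (b : X) (φ : X → ℤ) (e : FreeGroup X) (l : ℤ) :
    kw b φ e⁻¹ l = (kw b φ e (l - exm φ e))⁻¹ := by
  have h := kw_mul b φ e e⁻¹ l
  rw [mul_inv_cancel, kw_one, exm_inv, ← sub_eq_add_neg] at h
  exact eq_inv_of_mul_eq_one_right h.symm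

/-- The path words. -/
def pw (s : ℕ → X × Bool) : ℕ → FreeGroup X
  | 0 => 1
  | v + 1 => FreeGroup.mk [s v] * pw s v

@[simp] theorem pw_zero (s : ℕ → X × Bool) : pw s 0 = 1 := rfl

theorem pw_succ (s : ℕ → X × Bool) (v : ℕ) : pw s (v + 1) = FreeGroup.mk [s v] * pw s v := rfl

theorem mk_true (x : X) : FreeGroup.mk [(x, true)] = FreeGroup.of x := rfl

theorem mk_false (x : X) : FreeGroup.mk [(x, false)] = (FreeGroup.of x)⁻¹ := by
  simp [FreeGroup.of, FreeGroup.inv_mk, FreeGroup.invRev]

theorem exm_pw (φ : X → ℤ) (s : ℕ → X × Bool) (v : ℕ) : exm φ (pw s v) = lev φ s v := by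
  induction v with
  | zero => simp
  | succ v ih =>
    rw [pw_succ, exm_mul, ih, lev_succ, add_comm]
    congr 1
    rcases h : s v with ⟨x, c⟩
    cases c
    · rw [mk_false, exm_inv, exm_of]; simp [sg]
    · rw [mk_true, exm_of]; simp [sg]

theorem kw_pw {s : ℕ → X × Bool} {b : X} (φ : X → ℤ)
    (l : ℤ) (v : ℕ) : kw b φ (pw s v) l = pw (mrw b φ s l) (cnt b s v) := by
  induction v with
  | zero => simp
  | succ v ih =>
    rw [pw_succ, kw_mul, ih, exm_pw]
    by_cases hb : (s v).1 = b
    · rw [cnt_succ_of_eq hb]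
      have : kw b φ (FreeGroup.mk [s v]) (l + lev φ s v) = 1 := by
        rcases h : s v with ⟨x, c⟩
        rw [h] at hb
        simp only at hb
        subst hb
        cases c
        · rw [mk_false, kw_inv, kw_of]; simp
        · rw [mk_true, kw_of]; simp
      rw [this, one_mul]
    · rw [cnt_succ_of_ne hb, pw_succ]
      congr 1
      have h1 : mrw b φ s l (cnt b s v) = (((s v).1, l + lev φ s (bpos s v)), (s v).2) := by
        unfold mrw
        rw [nthp_cnt hb]
      rw [h1]
      have h2 := lev_before φ s v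
      rcases h : s v with ⟨x, c⟩
      rw [h] at hb h2
      simp only at hb h2 ⊢
      cases c
      · rw [mk_false, mk_false, kw_inv, kw_of, lb_ne hb, exm_of]
        simp only [Bool.false_eq_true, if_false] at h2
        rw [h2]
        congr 3
        ring
      · rw [mk_true, mk_true, kw_of, lb_ne hb]
        simp only [if_true, add_zero] at h2
        rw [h2]

/-- Telescoping in an arbitrary group: `τ` acts as a root of `b`. -/
theorem rho_kw {H : Type*} [Group H] (b : X) (φ : X → ℤ) (y : X → H) (τ : H) (hb : y b = τ ^ φ b)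
    (e : FreeGroup X) : ∀ l : ℤ,
    FreeGroup.lift y e * τ ^ l = τ ^ (l + exm φ e) *
      FreeGroup.lift (fun p : X × ℤ => τ ^ (-p.2 - φ p.1) * y p.1 * τ ^ p.2) (kw b φ e l) := by
  induction e using FreeGroup.induction_on with
  | C1 => intro l; simp
  | of x =>
    intro l
    rw [kw_of, exm_of]
    by_cases hx : x = b
    · subst hx
      rw [lb_self, map_one, mul_one, FreeGroup.lift_apply_of, hb, ← zpow_add, add_comm]
    · rw [lb_ne hx, FreeGroup.lift_apply_of, FreeGroup.lift_apply_of]
      simp only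
      rw [← mul_assoc, ← mul_assoc, ← zpow_add]
      have : l + φ x + (-l - φ x) = 0 := by ring
      rw [this, zpow_zero, one_mul]
  | inv_of x ih =>
    intro l
    change FreeGroup.lift y (FreeGroup.of x)⁻¹ * τ ^ l = τ ^ (l + exm φ (FreeGroup.of x)⁻¹) *
      FreeGroup.lift _ (kw b φ (FreeGroup.of x)⁻¹ l)
    have h := ih (l - φ x)
    rw [exm_of, sub_add_cancel] at h
    rw [kw_inv, exm_inv, exm_of, map_inv, map_inv, ← sub_eq_add_neg]
    rw [eq_mul_inv_iff_mul_eq, mul_assoc, inv_mul_eq_iff_eq_mul]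
    exact h.symm
  | mul e f he hf =>
    intro l
    rw [kw_mul, map_mul, map_mul, mul_assoc, hf l, ← mul_assoc, he (l + exm φ f), exm_mul, mul_assoc]
    congr 2
    ring

end OMag
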