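import Pool.Agent.Lib_MP_051624_or.OWd

/-!
# Finite models from Følner sets in right-ordered groups

Proof of `folner_model`. Let `PS` be the finite set of the elements `lam (mk L')`, where `L'` runs
over the tails (`List.tails`) of the word `L`. By `Folner N` choose a nonempty finite `T ⊆ N` such
that the proportion of the `τ ∈ T` with `s * τ ∉ T` for some `s ∈ PS` is at most `ε`. For every
letter `x` the partial injection `τ ↦ lam (of x) * τ` of `T`, defined on the `τ ∈ T` with
`lam (of x) * τ ∈ T`, extends to a permutation `σ x` of the finite type `T`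
(`Equiv.extendSubtype`). Put `th = FreeGroup.lift σ` on the type `T`, `em : T → N` the inclusion,
and let `bad τ` mean that `lam (mk L') * τ ∉ T` for some tail `L'` of `L`. If `τ` is not bad, then
`em (th (mk L') τ) = lam (mk L') * em τ` for all tails `L'` of `L`, by induction on the tail: for
`L' = (x, true) :: L''` we have `lam (mk L'') * τ ∈ T` and
`lam (of x) * (lam (mk L'') * τ) = lam (mk L') * τ ∈ T`; for `L' = (x, false) :: L''`,
`lam (of x)` maps `lam (mk L') * τ ∈ T` to `lam (mk L'') * τ ∈ T`, so that `σ x` maps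
`th`-point `lam (mk L') * τ` to `lam (mk L'') * τ`, and `(σ x)⁻¹` maps the latter to the former.
The elements `bp L j` are of the form `mk L'` with `L'` a tail of `L`.

The function `h τ = card {s ∈ T | s < τ}` is strictly monotone on `T`
(`em τ < em τ'` implies `h τ < h τ'`).
-/

open Equiv

namespace ORel

/-- The left translation by `a` on a finite set extends to a permutation. -/
private theorem OPerm_ext {N : Type} [Group N] (T : Finset N) (a : N) :
    ∃ σ : Perm {τ // τ ∈ T}, ∀ τ : {τ // τ ∈ T}, a * (τ : N) ∈ T → (σ τ : N) = a * (τ : N) := by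
  classical
  let e : {τ : {τ // τ ∈ T} // a * (τ : N) ∈ T} ≃ {τ : {τ // τ ∈ T} // a⁻¹ * (τ : N) ∈ T} :=
    { toFun := fun τ => ⟨⟨a * (τ.1 : N), τ.2⟩, by simp⟩
      invFun := fun τ => ⟨⟨a⁻¹ * (τ.1 : N), τ.2⟩, by simp⟩
      left_inv := fun τ => by
        apply Subtype.ext
        apply Subtype.ext
        simp
      right_inv := fun τ => by
        apply Subtype.ext
        apply Subtype.ext
        simp }
  refine ⟨e.extendSubtype, fun τ hτ => ?_⟩
  rw [Equiv.extendSubtype_apply_of_mem e τ hτ]
  rfl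

private theorem OPerm_cons_true {X : Type} (x : X) (L : List (X × Bool)) :
    (FreeGroup.mk ((x, true) :: L) : FreeGroup X) = FreeGroup.of x * FreeGroup.mk L := by
  rw [FreeGroup.of, FreeGroup.mul_mk]
  rfl

private theorem OPerm_cons_false {X : Type} (x : X) (L : List (X × Bool)) :
    (FreeGroup.mk ((x, false) :: L) : FreeGroup X) = (FreeGroup.of x)⁻¹ * FreeGroup.mk L := by
  have h : (FreeGroup.of x)⁻¹ = (FreeGroup.mk [(x, false)] : FreeGroup X) := rfl
  rw [h, FreeGroup.mul_mk]
  rfl

private theorem OPerm_path {X : Type} {N : Type} [Group N] (lam : FreeGroup X →* N)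
    (T : Finset N) (th : FreeGroup X →* Perm {τ // τ ∈ T})
    (hth : ∀ (x : X) (τ : {τ // τ ∈ T}), lam (FreeGroup.of x) * (τ : N) ∈ T →
      (th (FreeGroup.of x) τ : N) = lam (FreeGroup.of x) * (τ : N)) (τ : {τ // τ ∈ T})
    (L : List (X × Bool)) :
    (∀ L' : List (X × Bool), L' <:+ L → lam (FreeGroup.mk L') * (τ : N) ∈ T) →
      (th (FreeGroup.mk L) τ : N) = lam (FreeGroup.mk L) * (τ : N) := by
  induction L with
  | nil =>
    intro _
    have h : (FreeGroup.mk [] : FreeGroup X) = 1 := rfl
    rw [h, map_one, map_one]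
    simp
  | cons y L ih =>
    intro h
    have h1 := ih fun L' hL' => h L' (hL'.trans (List.suffix_cons y L))
    have h2 := h L (List.suffix_cons y L)
    have h3 := h (y :: L) (List.suffix_refl _)
    rcases y with ⟨x, b⟩
    cases b
    · obtain ⟨w, hw⟩ : ∃ w : {τ // τ ∈ T},
          (w : N) = lam (FreeGroup.mk ((x, false) :: L)) * (τ : N) := ⟨⟨_, h3⟩, rfl⟩
      have h6 : lam (FreeGroup.of x) * (w : N) = lam (FreeGroup.mk L) * (τ : N) := by
        rw [hw, OPerm_cons_false]
        simp [mul_assoc]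
      have h4 : th (FreeGroup.of x) w = th (FreeGroup.mk L) τ := by
        apply Subtype.ext
        rw [h1, hth x w (by rw [h6]; exact h2), h6]
      have h5 : th (FreeGroup.mk ((x, false) :: L)) τ = w := by
        rw [OPerm_cons_false, map_mul, map_inv, Perm.mul_apply, Perm.inv_eq_iff_eq]
        exact h4.symm
      rw [h5, hw]
    · rw [OPerm_cons_true, map_mul, map_mul, Perm.mul_apply, hth, h1, mul_assoc]
      rw [h1, ← mul_assoc, ← map_mul, ← OPerm_cons_true]
      exact h3

/-- Models of finitely generated subgroups of groups with Følner sets: a finite type with an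
injective (equivariant outside of the small set `bad`) map to `N`, and a strictly monotone
function to `ℕ`. -/
theorem folner_model {X : Type} (N : Type) [Group N] [LinearOrder N] (hF : Folner N)
    (lam : FreeGroup X →* N) (L : List (X × Bool)) (ε : ℝ) (hε : 0 < ε) :
    ∃ (T : Type) (_ : Finite T) (_ : Nonempty T) (th : FreeGroup X →* Perm T) (em : T → N)
      (bad : T → Prop) (h : T → ℕ),
      Function.Injective em ∧ Small bad ε ∧ (∀ τ τ', em τ < em τ' → h τ < h τ') ∧
      (∀ τ, ¬ bad τ → em (th (FreeGroup.mk L) τ) = lam (FreeGroup.mk L) * em τ) ∧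
      ∀ τ, ¬ bad τ → ∀ j : Fin L.length, em (th (bp L j) τ) = lam (bp L j) * em τ := by
  classical
  obtain ⟨T, hT, hsmall⟩ := hF ((L.tails.map fun L' => lam (FreeGroup.mk L')).toFinset) ε hε
  set PS := (L.tails.map fun L' => lam (FreeGroup.mk L')).toFinset with hPS
  choose σ hσ using fun a : N => OPerm_ext T a
  let th : FreeGroup X →* Perm {τ // τ ∈ T} := FreeGroup.lift fun x => σ (lam (FreeGroup.of x))
  have hth : ∀ (x : X) (τ : {τ // τ ∈ T}), lam (FreeGroup.of x) * (τ : N) ∈ T →
      (th (FreeGroup.of x) τ : N) = lam (FreeGroup.of x) * (τ : N) := by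
    intro x τ hτ
    have h1 : th (FreeGroup.of x) = σ (lam (FreeGroup.of x)) := FreeGroup.lift_apply_of
    rw [h1]
    exact hσ _ τ hτ
  have hmem : ∀ L' : List (X × Bool), L' <:+ L → lam (FreeGroup.mk L') ∈ PS := by
    intro L' hL'
    rw [hPS, List.mem_toFinset, List.mem_map]
    exact ⟨L', (List.mem_tails _ _).2 hL', rfl⟩
  have hpath : ∀ τ : {τ // τ ∈ T}, ¬ (¬ ∀ s ∈ PS, s * (τ : N) ∈ T) → ∀ L' : List (X × Bool),
      L' <:+ L → (th (FreeGroup.mk L') τ : N) = lam (FreeGroup.mk L') * (τ : N) := by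
    intro τ hτ L' hL'
    rw [not_not] at hτ
    exact OPerm_path lam T th hth τ L' fun L'' hL'' => hτ _ (hmem L'' (hL''.trans hL'))
  refine ⟨{τ // τ ∈ T}, inferInstance, hT.to_subtype, th, Subtype.val,
    fun τ => ¬ ∀ s ∈ PS, s * (τ : N) ∈ T, fun τ => (T.filter fun s => s < (τ : N)).card,
    Subtype.val_injective, ?_, ?_, ?_, ?_⟩
  · unfold Small
    have h1 : {z : {τ // τ ∈ T} | ¬ ∀ s ∈ PS, s * (z : N) ∈ T}.ncard =
        {τ : N | τ ∈ T ∧ ¬ ∀ s ∈ PS, s * τ ∈ T}.ncard := by
      rw [← Set.ncard_image_of_injective {z : {τ // τ ∈ T} | ¬ ∀ s ∈ PS, s * (z : N) ∈ T}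
        Subtype.val_injective]
      congr 1
      ext τ
      constructor
      · rintro ⟨z, hz, rfl⟩
        exact ⟨z.2, hz⟩
      · rintro ⟨hτ, hz⟩
        exact ⟨⟨τ, hτ⟩, hz, rfl⟩
    have h2 : Nat.card {τ // τ ∈ T} = T.card := by simp
    rw [h1, h2]
    exact hsmall
  · intro τ τ' h
    refine Finset.card_lt_card ?_
    rw [Finset.ssubset_iff_of_subset]
    · refine ⟨τ, ?_, ?_⟩
      · rw [Finset.mem_filter]
        exact ⟨τ.2, h⟩
      · rw [Finset.mem_filter]
        exact fun h' => lt_irrefl _ h'.2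
    · intro s hs
      rw [Finset.mem_filter] at hs ⊢
      exact ⟨hs.1, hs.2.trans h⟩
  · intro τ hτ
    exact hpath τ hτ L (List.suffix_refl _)
  · intro τ hτ j
    exact hpath τ hτ _ (List.drop_suffix _ _)

end ORel
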