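import Pool.Agent.Lib_MP_051624_or.OSolv
import Pool.Agent.Lib_MP_051624_or.OHall
import Pool.Agent.Lib_MP_051624_or.OPerm

/-!
# The models of the base group

Proof of `base`. Let `E`, `ε` be given (`Models`). By `fin_sep`, applied to `K = {mk L}` and the
finite set of the pairs `(e, Wd V)` with `V ∈ Vs`, `e ∈ E`, `e ∈ Wd S`,
`e ∉ Wd V ⊔ normalClosure {mk L}` (`Vs` is finite; hypothesis `hV`), there is a finite quotient
`q : FreeGroup X →* Q` with `q (mk L) = 1` and `q e ∉ (Wd V).map q` for all these pairs. Let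
`T, th, em, bad, h` be given by `folner_model` (for `L` and `ε`). Let `Z = Q × T` and let
`θ w (a, τ) = (q w * a, th w τ)` (a homomorphism `FreeGroup X →* Perm (Q × T)`).

* Relator: `q (mk L) = 1`, and if `¬ bad τ` then `em (th (mk L) τ) = lam (mk L) * em τ = em τ`,
  hence `th (mk L) τ = τ` as `em` is injective. Hence `θ (mk L)` moves only points `(a, τ)` with
  `bad τ`, whose proportion is at most `ε` (`Small.comp_triv` for the projection
  `Q × T → T`, which is `Triv`).
* Windows: if `θ d (a, τ) = θ e (a, τ)` with `d ∈ Wd V` then `q d * a = q e * a`, hence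
  `q e = q d ∈ (Wd V).map q`, a contradiction: no point at all is in the set.
* Solvability: let `U ∈ Us` and `i` the index given by `hUs`. Among the indices `j` with
  `(L.get j).1 = (L.get i).1` let `i'` be the one for which `lam (bp L j)` is maximal (unique by
  `hUs`). Apply `solv_of_cert` with `i'`, the set of the `(a, τ)` with `bad τ`, and the function
  `(a, τ) ↦ h τ`: for `j ≠ i'` with the same letter, `lam (bp L j) < lam (bp L i')`, hence, by
  the right invariance of the order, `em (th (bp L j) τ) = lam (bp L j) * em τ <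
  lam (bp L i') * em τ = em (th (bp L i') τ)`.
-/

open Equiv

namespace ORel

/-- The models of the base group. -/
theorem base {X : Type} (S : Set X) (L : List (X × Bool)) (hL : ∀ y ∈ L, y.1 ∈ S)
    (N : Type) [Group N] [LinearOrder N] (hN : ∀ a b c : N, a < b → a * c < b * c)
    (hF : Folner N) (lam : FreeGroup X →* N) (hlam : lam (FreeGroup.mk L) = 1)
    (Vs Us : Set (Set X)) (hVs : Vs.Finite)
    (hV : ∀ V ∈ Vs, ∀ e ∈ Wd S, e ∉ Wd V ⊔ Subgroup.normalClosure {FreeGroup.mk L} →
      ∃ (Q : Type) (_ : Group Q) (_ : Finite Q) (q : FreeGroup X →* Q),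
        q (FreeGroup.mk L) = 1 ∧ q e ∉ (Wd V).map q)
    (hUs : ∀ U ∈ Us, ∃ i : Fin L.length, (L.get i).1 ∈ U ∧
      ∀ j k : Fin L.length, (L.get j).1 = (L.get i).1 → (L.get k).1 = (L.get i).1 →
        lam (bp L j) = lam (bp L k) → j = k) :
    Models S {L} Vs Us := by
  classical
  intro E ε hε
  -- the finite quotient
  set Es : Set (FreeGroup X × Subgroup (FreeGroup X)) :=
    {x | ∃ e ∈ E, ∃ V ∈ Vs, x = (e, Wd V) ∧ e ∈ Wd S ∧
      e ∉ Wd V ⊔ Subgroup.normalClosure {FreeGroup.mk L}} with hEs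
  have hfin : Es.Finite := by
    refine ((E.finite_toSet.prod hVs).image fun y => (y.1, Wd y.2)).subset ?_
    rintro x ⟨e, he, V, hVV, rfl, -, -⟩
    exact ⟨(e, V), ⟨he, hVV⟩, rfl⟩
  obtain ⟨Q, hQ, hQf, q, hq1, hq2⟩ := fin_sep {FreeGroup.mk L} Es hfin (by
    rintro x ⟨e, he, V, hVV, rfl, h1, h2⟩
    obtain ⟨Q, hQ, hQf, q, h3, h4⟩ := hV V hVV e h1 h2
    exact ⟨Q, hQ, hQf, q, fun k hk => by rw [Set.mem_singleton_iff.1 hk]; exact h3, h4⟩)
  have hqL : q (FreeGroup.mk L) = 1 := hq1 _ rfl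
  obtain ⟨T, hT, hTn, th, em, bad, h, hem, hbad, hmono, hrel, hbp⟩ := folner_model N hF lam L ε hε
  let θ : FreeGroup X →* Perm (Q × T) :=
    { toFun := fun w => (Equiv.mulLeft (q w)).prodCongr (th w)
      map_one' := by
        ext ⟨a, τ⟩ <;> simp
      map_mul' := fun v w => by
        ext ⟨a, τ⟩ <;> simp [mul_assoc] }
  have hθ : ∀ w (z : Q × T), θ w z = (q w * z.1, th w z.2) := fun w z => rfl
  have htriv : Triv (Prod.snd : Q × T → T) :=
    ⟨Q, hQf, ⟨1⟩, Equiv.prodComm Q T, fun _ => rfl⟩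
  have hbad' : Small (fun z : Q × T => bad z.2) ε := hbad.comp_triv htriv
  refine ⟨Q × T, inferInstance, inferInstance, θ, ?_, ?_, ?_⟩
  · intro L' hL'
    rw [Set.mem_singleton_iff.1 hL']
    refine hbad'.mono (fun z hz => ?_) le_rfl
    by_contra hb
    apply hz
    rw [hθ, hqL, one_mul]
    refine Prod.ext rfl ?_
    refine hem ?_
    change em (th (FreeGroup.mk L) z.2) = em z.2
    rw [hrel z.2 hb, hlam, one_mul]
  · intro V hVV e he heS heV
    refine (small_false (Z := Q × T) hε.le).mono ?_ le_rfl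
    rintro z ⟨d, hd, hdz⟩
    rw [Set.image_singleton] at heV
    refine hq2 (e, Wd V) ⟨e, he, V, hVV, rfl, heS, heV⟩ ?_
    rw [hθ, hθ] at hdz
    have h1 : q d = q e := mul_right_cancel (congrArg Prod.fst hdz)
    exact ⟨d, hd, h1⟩
  · intro U hU
    obtain ⟨i, hiU, hdist⟩ := hUs U hU
    obtain ⟨i', hi', hmax⟩ := Finset.exists_max_image
      (Finset.univ.filter fun j : Fin L.length => (L.get j).1 = (L.get i).1)
      (fun j => lam (bp L j)) ⟨i, by simp⟩
    have hi1 : (L.get i').1 = (L.get i).1 := (Finset.mem_filter.1 hi').2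
    refine solv_of_cert S θ L hL U i' (by rw [hi1]; exact hiU) (fun z => bad z.2) ε hbad'
      (fun z => h z.2) ?_
    intro z hz j hj hji
    rw [hθ, hθ]
    refine hmono _ _ ?_
    rw [hbp z.2 hz j, hbp z.2 hz i']
    refine hN _ _ _ (lt_of_le_of_ne (hmax j (Finset.mem_filter.2 ⟨Finset.mem_univ _, hji.trans hi1⟩))
      fun heq => hj (hdist j i' (hji.trans hi1) hi1 heq))

end ORel
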