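import Pool.Agent.Lib_MP_051624_or.OWd

/-!
# Magnus rewriting

`rho_sh`: `rho (FreeGroup.map (sh k) w) = t ^ k * rho w * t ^ (-k)` (check on letters).

`rho_decomp`: by induction on the word: the set of the elements of the form `rho w * t ^ d` is
closed under multiplication, since `rho w * t ^ d * (rho w' * t ^ d') =
rho (w * map (sh d) w') * t ^ (d + d')`, and under inverses, and contains `t = none` and
`x_c = rho (x_{c,0})`.

`exists_height`: every element of `FreeGroup (ι × ℤ)` only involves letters of bounded height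
(induction, `wd_mono`).

`not_mem_of_shift`: if `map (sh k) w` is in the normal closure of `relK L N` then, applying `rho`
(`Subgroup.map_normalClosure`-style: the image of the normal closure is contained in the normal
closure of the image; here the image of `mk (wmap (sh j) L)` is `t ^ j * rho (mk L) * t ^ (-j)`),
`t ^ k * rho w * t ^ (-k)` is in the normal closure of `{rho (mk L)}`, hence so is `rho w`.
-/

namespace ORel

theorem mk_wmap {X Y : Type} (f : X → Y) (L : List (X × Bool)) :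
    (FreeGroup.mk (wmap f L) : FreeGroup Y) = FreeGroup.map f (FreeGroup.mk L) := by
  simp [wmap]

private theorem OCylA_rho_of (ι : Type) (x : ι × ℤ) : rho ι (FreeGroup.of x) =
    FreeGroup.of none ^ x.2 * FreeGroup.of (some x.1) * (FreeGroup.of none ^ x.2)⁻¹ := by
  simp [rho]

theorem rho_sh (ι : Type) (k : ℤ) (w : FreeGroup (ι × ℤ)) :
    rho ι (FreeGroup.map (sh ι k) w) =
      FreeGroup.of none ^ k * rho ι w * (FreeGroup.of none ^ k)⁻¹ := by
  have h : (rho ι).comp (FreeGroup.map (sh ι k)) =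
      (MulAut.conj (FreeGroup.of none ^ k : FreeGroup (Option ι))).toMonoidHom.comp (rho ι) := by
    apply FreeGroup.ext_hom
    intro x
    have h1 : FreeGroup.map (sh ι k) (FreeGroup.of x) = FreeGroup.of (x.1, x.2 + k) := by
      rw [FreeGroup.map.of]
      rfl
    rw [MonoidHom.comp_apply, h1, OCylA_rho_of, MonoidHom.comp_apply, OCylA_rho_of]
    simp only [MulEquiv.toMonoidHom_eq_coe, MonoidHom.coe_coe, MulAut.conj_apply]
    rw [add_comm, zpow_add]
    group
  have h2 := DFunLike.congr_fun h w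
  simp only [MonoidHom.comp_apply, MulEquiv.toMonoidHom_eq_coe, MonoidHom.coe_coe,
    MulAut.conj_apply] at h2
  exact h2

theorem rho_decomp (ι : Type) (e : FreeGroup (Option ι)) :
    ∃ (w : FreeGroup (ι × ℤ)) (d : ℤ), e = rho ι w * FreeGroup.of none ^ d := by
  have hinv : ∀ e : FreeGroup (Option ι),
      (∃ (w : FreeGroup (ι × ℤ)) (d : ℤ), e = rho ι w * FreeGroup.of none ^ d) →
      ∃ (w : FreeGroup (ι × ℤ)) (d : ℤ), e⁻¹ = rho ι w * FreeGroup.of none ^ d := by
    rintro e ⟨w, d, rfl⟩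
    refine ⟨FreeGroup.map (sh ι (-d)) w⁻¹, -d, ?_⟩
    rw [rho_sh, map_inv]
    group
  induction e using FreeGroup.induction_on with
  | C1 => exact ⟨1, 0, by simp⟩
  | of x =>
    rcases x with _ | c
    · refine ⟨1, 1, ?_⟩
      simp
    · refine ⟨FreeGroup.of (c, 0), 0, ?_⟩
      rw [OCylA_rho_of]
      simp
  | inv_of x hx => exact hinv _ hx
  | mul x y hx hy =>
    obtain ⟨w, d, rfl⟩ := hx
    obtain ⟨w', d', rfl⟩ := hy
    refine ⟨w * FreeGroup.map (sh ι d) w', d + d', ?_⟩
    rw [map_mul, rho_sh, zpow_add]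
    group

theorem exists_height (ι : Type) (w : FreeGroup (ι × ℤ)) :
    ∃ a : ℕ, w ∈ Wd (lvl ι (-a) a) := by
  have hmono : ∀ a b : ℕ, a ≤ b → Wd (lvl ι (-a) a) ≤ Wd (lvl ι (-b) b) := by
    intro a b h
    apply wd_mono
    rintro x ⟨h1, h2⟩
    exact ⟨by omega, by omega⟩
  induction w using FreeGroup.induction_on with
  | C1 => exact ⟨0, Subgroup.one_mem _⟩
  | of x =>
    refine ⟨x.2.natAbs, of_mem_wd ⟨?_, ?_⟩⟩
    · omega
    · omega
  | inv_of x hx =>
    obtain ⟨a, ha⟩ := hx
    exact ⟨a, Subgroup.inv_mem _ ha⟩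
  | mul x y hx hy =>
    obtain ⟨a, ha⟩ := hx
    obtain ⟨b, hb⟩ := hy
    exact ⟨max a b, Subgroup.mul_mem _ (hmono a _ (le_max_left _ _) ha)
      (hmono b _ (le_max_right _ _) hb)⟩

theorem not_mem_of_shift {ι : Type} (L : List ((ι × ℤ) × Bool)) (N : ℕ) (k : ℤ)
    (w : FreeGroup (ι × ℤ))
    (hw : rho ι w ∉ Subgroup.normalClosure {rho ι (FreeGroup.mk L)}) :
    FreeGroup.map (sh ι k) w ∉ Subgroup.normalClosure (FreeGroup.mk '' relK L N) := by
  intro h
  apply hw
  set T := Subgroup.normalClosure {rho ι (FreeGroup.mk L)} with hT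
  have hTn : T.Normal := Subgroup.normalClosure_normal
  have hle : Subgroup.normalClosure (FreeGroup.mk '' relK L N) ≤ T.comap (rho ι) := by
    have : (T.comap (rho ι)).Normal := hTn.comap (rho ι)
    apply Subgroup.normalClosure_le_normal
    rintro _ ⟨L', ⟨j, hj, rfl⟩, rfl⟩
    rw [SetLike.mem_coe, Subgroup.mem_comap, mk_wmap, rho_sh]
    exact hTn.conj_mem _ (Subgroup.subset_normalClosure rfl) _
  have h1 := hle h
  rw [Subgroup.mem_comap, rho_sh] at h1
  have h2 := hTn.conj_mem _ h1 (FreeGroup.of none ^ k)⁻¹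
  have h3 : (FreeGroup.of none ^ k)⁻¹ * (FreeGroup.of none ^ k * rho ι w *
      (FreeGroup.of none ^ k)⁻¹) * ((FreeGroup.of none ^ k)⁻¹)⁻¹ = rho ι w := by
    group
  rwa [h3] at h2

end ORel
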