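import Pool.Agent.Lib_MP_051624_or.OSof
import Pool.Agent.Lib_MP_051624_or.OCylA

/-!
# The cylinder: soficity of the one-relator group

Notation: for a model `θ : FreeGroup (ι × ℤ) →* Perm Z` and `M ≥ 1`, the cylinder is
`cyl θ M : FreeGroup (Option ι) →* Perm (Z × ZMod M)` with
`x_c (z, i) = (θ x_{c, i.val} z, i)`, `t (z, i) = (z, i - 1)`.

`cyl_t`: `t ^ d (z, i) = (z, i - d)`.

`cyl_rho`: if `w ∈ Wd (lvl ι (-a) a)`, `0 ≤ k - a` and `k + a < M` then
`cyl θ M (rho w) (z, k) = (θ (map (sh k) w) z, k)` (`k : ℤ`, cast to `ZMod M`). For a letter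
`x_{c,j}`, `|j| ≤ a`: `rho x_{c,j} = t ^ j * x_c * t ^ (-j)` acts as
`(z, k) ↦ (z, k + j) ↦ (θ x_{c, k + j} z, k + j) ↦ (θ x_{c, k + j} z, k)`, as the value of
`(k + j : ZMod M)` is `k + j` (`0 ≤ k + j < M`). The general case follows by
`Subgroup.closure_induction`. The version `cyl_rho'` for intervals `lvl ι a b` is the same.

Proof of `sofic_of_ind`. Apply `sofic_of_models` with `Y = Option ι` and
`R = {(rho (mk L)).toWord}` (classically decidable; `mk (toWord _) = _`), so that
`mk '' R = {rho (mk L)}`. Let `E, ε` be given. For every `e ∈ E` choose `w_e, d_e` (`rho_decomp`)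
and a common `a` with `w_e ∈ Wd (lvl ι (-a) a)` (`exists_height`, `wd_mono`), and
`|d_e| ≤ a`. Choose `N` so large that `2 * a + m + 2 ≤ (ε / 2) * (N + m + 1)`, `N > 2 * a`. Put
`M = N + m + 1`. Apply the hypothesis `h N` to the finite set of the `map (sh k) w_e`,
`k ∈ [a, M - 1 - a]`, and to `ε / 2`. Let `Z, θ` be the model and use `cyl θ M` on `Z × ZMod M`.
* Relator: for the levels `k ∈ [0, N]`, `rho (mk L)` acts on `Z × {k}` as `θ` of the relator
  `mk (wmap (sh k) L) ∈ mk '' relK L N` (`cyl_rho'` with `0 ≤ k + j ≤ k + m < M` for the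
  letters of `L`). So the moved points are at most `(ε / 2) * card Z` on each of these
  levels, together with the `m` other levels: in total at most
  `((ε / 2) * M + m) * card Z ≤ ε * M * card Z`.
* Let `e ∈ E` not be in the normal closure of `rho (mk L)`. If `d_e ≠ 0` then `e` acts on the
  levels by `i ↦ i - d_e` and `M > |d_e|`, so no point is fixed. If `d_e = 0` then `e = rho w_e`,
  and on the levels `k ∈ [a, M - 1 - a]` it acts as `θ (map (sh k) w_e)`. This element belongs to
  `Wd (lvl ι 0 (M - 1))`, and is not in the normal closure of `mk '' relK L N` by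
  `not_mem_of_shift`; so by the window `∅` of the model (`wd_empty`, `d = 1`), the proportion of
  the fixed points is at most `ε / 2` on each of these levels; the other levels are at most
  `2 * a` many.
-/

open Equiv

namespace ORel

/-- The cylinder over a model. -/
def cyl {ι Z : Type} (θ : FreeGroup (ι × ℤ) →* Perm Z) (M : ℕ) :
    FreeGroup (Option ι) →* Perm (Z × ZMod M) :=
  FreeGroup.lift fun y => match y with
    | none => Equiv.prodCongr (Equiv.refl Z) (Equiv.subRight 1)
    | some c =>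
      { toFun := fun a => (θ (FreeGroup.of (c, (a.2.val : ℤ))) a.1, a.2)
        invFun := fun a => ((θ (FreeGroup.of (c, (a.2.val : ℤ))))⁻¹ a.1, a.2)
        left_inv := fun a => by simp
        right_inv := fun a => by simp }

private theorem OCylB_none {ι Z : Type} (θ : FreeGroup (ι × ℤ) →* Perm Z) (M : ℕ) (z : Z)
    (i : ZMod M) : cyl θ M (FreeGroup.of none) (z, i) = (z, i - 1) := by
  rw [cyl, FreeGroup.lift_apply_of]
  rfl

private theorem OCylB_some {ι Z : Type} (θ : FreeGroup (ι × ℤ) →* Perm Z) (M : ℕ) (c : ι) (z : Z)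
    (i : ZMod M) : cyl θ M (FreeGroup.of (some c)) (z, i) =
      (θ (FreeGroup.of (c, (i.val : ℤ))) z, i) := by
  rw [cyl, FreeGroup.lift_apply_of]
  rfl

theorem cyl_t {ι Z : Type} (θ : FreeGroup (ι × ℤ) →* Perm Z) (M : ℕ) (d : ℤ) (z : Z)
    (i : ZMod M) : cyl θ M (FreeGroup.of none ^ d) (z, i) = (z, i - d) := by
  rw [map_zpow]
  induction d using Int.induction_on generalizing i with
  | zero => simp
  | succ n ih =>
    rw [zpow_add_one, Perm.mul_apply, OCylB_none, ih]
    push_cast
    congr 1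
    ring
  | pred n ih =>
    have h1 : (cyl θ M (FreeGroup.of none))⁻¹ (z, i) = (z, i + 1) := by
      rw [Perm.inv_eq_iff_eq, OCylB_none, add_sub_cancel_right]
    rw [zpow_sub_one, Perm.mul_apply, h1, ih]
    push_cast
    congr 1
    ring

private theorem OCylB_letter {ι Z : Type} (θ : FreeGroup (ι × ℤ) →* Perm Z) (M : ℕ)
    (x : ι × ℤ) (z : Z) (i : ZMod M) :
    cyl θ M (rho ι (FreeGroup.of x)) (z, i) =
      (θ (FreeGroup.of (x.1, ((i + (x.2 : ZMod M)).val : ℤ))) z, i) := by
  have h1 : rho ι (FreeGroup.of x) = FreeGroup.of none ^ x.2 * FreeGroup.of (some x.1) *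
      FreeGroup.of none ^ (-x.2) := by
    rw [rho, FreeGroup.lift_apply_of, zpow_neg]
  rw [h1, map_mul, map_mul, Perm.mul_apply, Perm.mul_apply, cyl_t, OCylB_some, cyl_t]
  have h2 : i - ((-x.2 : ℤ) : ZMod M) = i + (x.2 : ZMod M) := by
    push_cast
    ring
  rw [h2, add_sub_cancel_right]

theorem cyl_rho {ι Z : Type} (θ : FreeGroup (ι × ℤ) →* Perm Z) (M : ℕ) (a b k : ℤ)
    (hM : 0 < M) (ha : 0 ≤ a + k) (hb : b + k < M) (w : FreeGroup (ι × ℤ))
    (hw : w ∈ Wd (lvl ι a b)) (z : Z) :
    cyl θ M (rho ι w) (z, (k : ZMod M)) = (θ (FreeGroup.map (sh ι k) w) z, (k : ZMod M)) := by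
  have : NeZero M := ⟨hM.ne'⟩
  induction hw using Subgroup.closure_induction generalizing z with
  | mem w hw =>
    obtain ⟨x, hx, rfl⟩ := hw
    rw [OCylB_letter, FreeGroup.map.of]
    have h1 : (((k : ZMod M) + (x.2 : ZMod M)).val : ℤ) = x.2 + k := by
      have h2 : (k : ZMod M) + (x.2 : ZMod M) = ((x.2 + k : ℤ) : ZMod M) := by
        push_cast
        ring
      rw [h2, ZMod.val_intCast]
      have h3 : a ≤ x.2 := hx.1
      have h4 : x.2 ≤ b := hx.2
      exact Int.emod_eq_of_lt (by linarith) (by linarith)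
    rw [h1]
    rfl
  | one => simp
  | mul u v _ _ hu hv =>
    rw [map_mul, map_mul, Perm.mul_apply, hv, hu, map_mul, map_mul, Perm.mul_apply]
  | inv u _ hu =>
    rw [map_inv, map_inv, Perm.inv_eq_iff_eq, hu, map_inv, map_inv]
    simp

/-- the second coordinate -/
private theorem OCylB_snd {ι Z : Type} (θ : FreeGroup (ι × ℤ) →* Perm Z) (M : ℕ)
    (w : FreeGroup (ι × ℤ)) (x : Z × ZMod M) : (cyl θ M (rho ι w) x).2 = x.2 := by
  obtain ⟨a, ha⟩ := exists_height ι w
  have h1 := equivariant_wd (θ' := (cyl θ M).comp (rho ι))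
    (θ := (1 : FreeGroup (ι × ℤ) →* Perm (ZMod M))) (p := (Prod.snd : Z × ZMod M → ZMod M))
    (V := lvl ι (-a) a) (fun y _ ω => ?_) ha x
  · simpa using h1
  · rcases ω with ⟨z, i⟩
    rw [MonoidHom.comp_apply, OCylB_letter]
    rfl

private theorem OCylB_sum {Z : Type} [Finite Z] {M : ℕ} [NeZero M] (P : Z × ZMod M → Prop)
    {δ : ℝ} (h : ∀ i : ZMod M, Small (fun z => P (z, i)) δ) : Small P δ := by
  classical
  have : Fintype Z := Fintype.ofFinite Z
  unfold Small at *
  have h1 : {x | P x}.ncard = ∑ i : ZMod M, {z | P (z, i)}.ncard := by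
    rw [Set.ncard_eq_toFinset_card']
    rw [Finset.card_eq_sum_card_fiberwise (f := Prod.snd) (t := Finset.univ)
      (fun _ _ => Finset.mem_coe.2 (Finset.mem_univ _))]
    refine Finset.sum_congr rfl fun i _ => ?_
    rw [Set.ncard_eq_toFinset_card']
    refine Finset.card_bij' (fun x _ => x.1) (fun z _ => (z, i)) ?_ ?_ ?_ ?_
    · rintro ⟨z, j⟩ hx
      simp only [Finset.mem_filter, Set.mem_toFinset, Set.mem_ofPred_eq] at hx ⊢
      obtain ⟨hx1, rfl⟩ := hx
      exact hx1
    · intro z hz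
      simp only [Finset.mem_filter, Set.mem_toFinset, Set.mem_ofPred_eq] at hz ⊢
      exact ⟨hz, trivial⟩
    · rintro ⟨z, j⟩ hx
      simp only [Finset.mem_filter, Set.mem_toFinset, Set.mem_ofPred_eq] at hx
      obtain ⟨-, rfl⟩ := hx
      rfl
    · intro z _
      rfl
  rw [h1, Nat.card_prod, Nat.card_zmod]
  push_cast
  calc (∑ i : ZMod M, ({z | P (z, i)}.ncard : ℝ)) ≤ ∑ _i : ZMod M, δ * (Nat.card Z : ℝ) :=
        Finset.sum_le_sum fun i _ => h i
    _ = δ * ((Nat.card Z : ℝ) * M) := by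
        rw [Finset.sum_const, Finset.card_univ, ZMod.card, nsmul_eq_mul]
        ring

private theorem OCylB_bad {Z : Type} [Finite Z] {M : ℕ} [NeZero M] (B : Finset (ZMod M))
    {β : ℝ} (h : (B.card : ℝ) ≤ β * M) : Small (fun x : Z × ZMod M => x.2 ∈ B) β := by
  classical
  have h1 : {x : Z × ZMod M | x.2 ∈ B} = (Set.univ : Set Z) ×ˢ (B : Set (ZMod M)) := by
    ext x
    simp
  unfold Small
  rw [h1, Set.ncard_prod, Set.ncard_univ, Set.ncard_coe_finset, Nat.card_prod, Nat.card_zmod]
  push_cast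
  have h2 : (0 : ℝ) ≤ Nat.card Z := Nat.cast_nonneg _
  have h3 := mul_le_mul_of_nonneg_left h h2
  linarith

private theorem OCylB_levels {Z : Type} [Finite Z] {M : ℕ} [NeZero M] (P : Z × ZMod M → Prop)
    (B : Finset (ZMod M)) {δ β : ℝ} (hδ : 0 ≤ δ) (hB : (B.card : ℝ) ≤ β * M)
    (h : ∀ i : ZMod M, i ∉ B → Small (fun z => P (z, i)) δ) : Small P (δ + β) := by
  classical
  have h1 : Small (fun x : Z × ZMod M => x.2 ∉ B ∧ P x) δ := by
    refine OCylB_sum _ fun i => ?_
    by_cases hi : i ∈ B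
    · exact (small_false (Z := Z) hδ).mono (fun z hz => hz.1 hi) le_rfl
    · exact (h i hi).mono (fun z hz => hz.2) le_rfl
  refine (h1.or (OCylB_bad (Z := Z) B hB)).mono (fun x hx => ?_) le_rfl
  by_cases hi : x.2 ∈ B
  · exact Or.inr hi
  · exact Or.inl ⟨hi, hx⟩

theorem sofic_of_ind {ι : Type} (m : ℕ) (L : List ((ι × ℤ) × Bool))
    (hL : ∀ y ∈ L, y.1 ∈ lvl ι 0 m)
    (h : ∀ (N : ℕ) (E : Finset (FreeGroup (ι × ℤ))) (ε : ℝ), 0 < ε →
      ∃ (Z : Type) (_ : Finite Z) (_ : Nonempty Z) (θ : FreeGroup (ι × ℤ) →* Perm Z),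
        (∀ L' ∈ relK L N, Small (fun z => θ (FreeGroup.mk L') z ≠ z) ε) ∧
        ∀ e ∈ E, e ∈ Wd (lvl ι 0 (N + m)) →
          e ∉ Subgroup.normalClosure (FreeGroup.mk '' relK L N) →
          Small (fun z => θ e z = z) ε) :
    IsSofic (PresentedGroup {rho ι (FreeGroup.mk L)}) := by
  classical
  have hR : (FreeGroup.mk '' {(rho ι (FreeGroup.mk L)).toWord} : Set (FreeGroup (Option ι))) =
      {rho ι (FreeGroup.mk L)} := by
    rw [Set.image_singleton, FreeGroup.mk_toWord]
  rw [← hR]
  refine sofic_of_models _ fun E ε hε => ?_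
  rw [hR]
  choose W D hWD using rho_decomp ι
  choose H hH using exists_height ι
  obtain ⟨a, ha⟩ : ∃ a : ℕ, ∀ e ∈ E, H (W e) + (D e).natAbs ≤ a :=
    ⟨E.sup fun e => H (W e) + (D e).natAbs, fun e he =>
      Finset.le_sup (f := fun e => H (W e) + (D e).natAbs) he⟩
  obtain ⟨N, hN⟩ : ∃ N : ℕ, (2 * a + m + 2 : ℝ) / (ε / 2) + 2 * a + 1 ≤ N :=
    ⟨⌈(2 * a + m + 2 : ℝ) / (ε / 2) + 2 * a + 1⌉₊, Nat.le_ceil _⟩
  have hq : 0 ≤ (2 * a + m + 2 : ℝ) / (ε / 2) := by positivity
  have hNa : 2 * a + 1 ≤ N := by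
    have : (2 * a + 1 : ℝ) ≤ N := by linarith
    exact_mod_cast this
  have hNε : (2 * a + m + 2 : ℝ) ≤ ε / 2 * ((N + m + 1 : ℕ) : ℝ) := by
    have h1 : (2 * a + m + 2 : ℝ) / (ε / 2) ≤ ((N + m + 1 : ℕ) : ℝ) := by
      push_cast
      have h2 : (0 : ℝ) ≤ a := Nat.cast_nonneg _
      have h3 : (0 : ℝ) ≤ m := Nat.cast_nonneg _
      linarith
    rw [div_le_iff₀ (by positivity)] at h1
    linarith
  set M : ℕ := N + m + 1 with hM
  have hM0 : NeZero M := ⟨by omega⟩
  obtain ⟨Z, hfin, hne, θ, hrel, hfix⟩ := h N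
    ((E ×ˢ Finset.range M).image fun p => FreeGroup.map (sh ι (p.2 : ℤ)) (W p.1)) (ε / 2)
    (by positivity)
  have hval : ∀ i : ZMod M, (((i.val : ℕ) : ℤ) : ZMod M) = i := by
    intro i
    rw [Int.cast_natCast, ZMod.natCast_zmod_val]
  refine ⟨Z × ZMod M, inferInstance, inferInstance, cyl θ M, ?_, ?_⟩
  · -- the relator
    intro L' hL'
    rw [Set.mem_singleton_iff] at hL'
    subst hL'
    rw [FreeGroup.mk_toWord]
    refine (OCylB_levels (fun x => cyl θ M (rho ι (FreeGroup.mk L)) x ≠ x)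
      (Finset.univ.filter fun i : ZMod M => ¬ i.val ≤ N) (δ := ε / 2) (β := ε / 2)
      (by positivity) ?_ ?_).mono (fun x hx => hx) (by linarith)
    · have h1 : (Finset.univ.filter fun i : ZMod M => ¬ i.val ≤ N).card ≤
          (Finset.Icc (N + 1) (N + m)).card := by
        refine Finset.card_le_card_of_injOn ZMod.val ?_ (ZMod.val_injective M).injOn
        intro i hi
        have hi' : ¬ i.val ≤ N := by simpa using hi
        have h2 := ZMod.val_lt i
        simp only [Finset.coe_Icc, Set.mem_Icc]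
        omega
      rw [Nat.card_Icc] at h1
      have h2 : (Finset.univ.filter fun i : ZMod M => ¬ i.val ≤ N).card ≤ m := by omega
      have h3 : ((Finset.univ.filter fun i : ZMod M => ¬ i.val ≤ N).card : ℝ) ≤ m := by
        exact_mod_cast h2
      have h4 : (0 : ℝ) ≤ a := Nat.cast_nonneg _
      linarith
    · intro i hi
      have hi' : i.val ≤ N := by simpa using hi
      have h1 := hrel (wmap (sh ι (i.val : ℤ)) L) ⟨i.val, hi', rfl⟩
      refine h1.mono (fun z hz => ?_) le_rfl
      intro h2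
      apply hz
      have h3 := cyl_rho θ M 0 m (i.val : ℤ) (NeZero.pos M) (by positivity)
        (by omega) (FreeGroup.mk L) (mk_mem_wd L hL) z
      rw [hval i, ← mk_wmap, h2] at h3
      exact h3
  · -- the separation
    intro e he hnc
    have hWe := hWD e
    have hae := ha e he
    by_cases hd : D e = 0
    · rw [hd, zpow_zero, mul_one] at hWe
      have hnc' : rho ι (W e) ∉ Subgroup.normalClosure {rho ι (FreeGroup.mk L)} := by
        rwa [← hWe]
      have hwd : W e ∈ Wd (lvl ι (-(a : ℤ)) a) := by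
        refine wd_mono ?_ (hH (W e))
        rintro x ⟨hx1, hx2⟩
        constructor
        · omega
        · omega
      refine (OCylB_levels (fun x => cyl θ M e x = x)
        (Finset.univ.filter fun i : ZMod M => ¬ (a ≤ i.val ∧ i.val + a < M))
        (δ := ε / 2) (β := ε / 2) (by positivity) ?_ ?_).mono (fun x hx => hx) (by linarith)
      · have h1 : (Finset.univ.filter fun i : ZMod M => ¬ (a ≤ i.val ∧ i.val + a < M)).card ≤
            (Finset.range a ∪ Finset.Ico (M - a) M).card := by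
          refine Finset.card_le_card_of_injOn ZMod.val ?_ (ZMod.val_injective M).injOn
          intro i hi
          have hi' : ¬ (a ≤ i.val ∧ i.val + a < M) := by simpa using hi
          have h2 := ZMod.val_lt i
          simp only [Finset.coe_union, Finset.coe_range, Finset.coe_Ico, Set.mem_union,
            Set.mem_Iio, Set.mem_Ico]
          omega
        have h2 := Finset.card_union_le (Finset.range a) (Finset.Ico (M - a) M)
        rw [Finset.card_range, Nat.card_Ico] at h2
        have h3 : (Finset.univ.filter fun i : ZMod M => ¬ (a ≤ i.val ∧ i.val + a < M)).card ≤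
            2 * a := by omega
        have h4 : ((Finset.univ.filter fun i : ZMod M => ¬ (a ≤ i.val ∧ i.val + a < M)).card : ℝ)
            ≤ 2 * a := by exact_mod_cast h3
        have h5 : (0 : ℝ) ≤ m := Nat.cast_nonneg _
        linarith
      · intro i hi
        have hi' : a ≤ i.val ∧ i.val + a < M := by simpa using hi
        have hiM := ZMod.val_lt i
        have h1 := hfix (FreeGroup.map (sh ι (i.val : ℤ)) (W e)) ?_ ?_ ?_
        · refine h1.mono (fun z hz => ?_) le_rfl
          have h3 := cyl_rho θ M (-(a : ℤ)) a (i.val : ℤ) (NeZero.pos M) (by omega) (by omega)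
            (W e) hwd z
          rw [hval i, ← hWe] at h3
          have h4 : cyl θ M e (z, i) = (z, i) := hz
          rw [h4] at h3
          exact (congrArg Prod.fst h3).symm
        · exact Finset.mem_image.2 ⟨(e, i.val), Finset.mem_product.2
            ⟨he, Finset.mem_range.2 hiM⟩, rfl⟩
        · have h2 : FreeGroup.map (sh ι (i.val : ℤ)) (W e) ∈
              (Wd (lvl ι (-(a : ℤ)) a)).map (FreeGroup.map (sh ι (i.val : ℤ))) :=
            ⟨_, hwd, rfl⟩
          rw [map_wd] at h2
          refine wd_mono ?_ h2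
          rintro _ ⟨x, ⟨hx1, hx2⟩, rfl⟩
          have h3 : (sh ι (i.val : ℤ) x).2 = x.2 + i.val := rfl
          constructor
          · rw [h3]; omega
          · rw [h3]; omega
        · exact not_mem_of_shift L N _ (W e) hnc'
    · -- `t` has a nonzero exponent
      refine (small_false (Z := Z × ZMod M) hε.le).mono (fun x hx => ?_) le_rfl
      rcases x with ⟨z, i⟩
      have h1 : (cyl θ M e (z, i)).2 = i - (D e : ZMod M) := by
        conv_lhs => rw [hWe]
        rw [map_mul, Perm.mul_apply, cyl_t, OCylB_snd]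
      have h2 : i - (D e : ZMod M) = i := by
        rw [← h1, hx]
      have h3 : (D e : ZMod M) = 0 := by
        have := sub_eq_self.1 h2
        exact this
      rw [ZMod.intCast_zmod_eq_zero_iff_dvd] at h3
      have h4 := Int.natAbs_le_of_dvd_ne_zero h3 hd
      rw [Int.natAbs_natCast] at h4
      omega

end ORel
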