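import Mathlib

/-!
# Soficity of one-relator groups with free Magnus base: definitions

`Small P ε`: the proportion of points satisfying `P` is at most `ε`.
`Wd V`: the words in the letters of `V`.
`val θ g L z`: the value of the cocycle `g` along the word `L` (read from the right) starting at `z`.
`CSolv S θ R U ε`: on every cover of the model `θ`, the relators `R` can be solved for the values of
the cocycle on the letters of `U`, up to proportion `ε`.
`Models S R Vs Us`: existence of finite models.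
-/

open Equiv

namespace ORel

/-- The proportion of points with `P` is at most `ε`. -/
def Small {Z : Type} (P : Z → Prop) (ε : ℝ) : Prop := ({z | P z}.ncard : ℝ) ≤ ε * Nat.card Z

/-- The words in the letters of `V`. -/
def Wd {X : Type} (V : Set X) : Subgroup (FreeGroup X) := Subgroup.closure (FreeGroup.of '' V)

/-- `p` is (isomorphic to) the projection of a product. -/
def Triv {Ω Z : Type} (p : Ω → Z) : Prop :=
  ∃ (K : Type) (_ : Finite K) (_ : Nonempty K) (e : Ω ≃ Z × K), ∀ ω, (e ω).1 = p ω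

/-- The value of the cocycle `g` along the word `L`, applied from the right to the left, starting
at `z`. -/
def val {X Z Γ : Type} [Group Γ] (θ : FreeGroup X →* Perm Z) (g : X → Z → Γ) :
    List (X × Bool) → Z → Γ
  | [], _ => 1
  | (x, true) :: L, z => g x (θ (FreeGroup.mk L) z) * val θ g L z
  | (x, false) :: L, z => (g x (θ (FreeGroup.mk ((x, false) :: L)) z))⁻¹ * val θ g L z

/-- The relators `R` can be solved, on all covers of `θ`, for the letters of `U`, up to `ε`. -/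
def CSolv {X Z : Type} (S : Set X) (θ : FreeGroup X →* Perm Z) (R : Set (List (X × Bool)))
    (U : Set X) (ε : ℝ) : Prop :=
  ∀ (Ω : Type) [Finite Ω] (θ' : FreeGroup X →* Perm Ω) (p : Ω → Z), Triv p →
    (∀ x ∈ S, ∀ ω, p (θ' (FreeGroup.of x) ω) = θ (FreeGroup.of x) (p ω)) →
    ∀ (Γ : Type) [Group Γ] (g₀ : X → Ω → Γ), ∃ g : X → Ω → Γ, (∀ x, x ∉ U → g x = g₀ x) ∧
      ∀ L ∈ R, Small (fun ω => val θ' g L ω ≠ 1) ε

/-- Existence of finite models for the group `⟨S | R⟩`, separated from the subgroups generated by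
the windows `V ∈ Vs`, and solvable for the letters of `U`, for every `U ∈ Us`. -/
def Models {X : Type} (S : Set X) (R : Set (List (X × Bool))) (Vs Us : Set (Set X)) : Prop :=
  ∀ (E : Finset (FreeGroup X)) (ε : ℝ), 0 < ε →
    ∃ (Z : Type) (_ : Finite Z) (_ : Nonempty Z) (θ : FreeGroup X →* Perm Z),
      (∀ L ∈ R, Small (fun z => θ (FreeGroup.mk L) z ≠ z) ε) ∧
      (∀ V ∈ Vs, ∀ e ∈ E, e ∈ Wd S →
        e ∉ Wd V ⊔ Subgroup.normalClosure (FreeGroup.mk '' R) →
        Small (fun z => ∃ d ∈ Wd V, θ d z = θ e z) ε) ∧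
      (∀ U ∈ Us, CSolv S θ R U ε)

/-- The base point of the edge traversed by the `i`-th letter of `L` (the word is applied from
the right to the left). -/
def bp {X : Type} (L : List (X × Bool)) (i : Fin L.length) : FreeGroup X :=
  FreeGroup.mk (L.drop (if (L.get i).2 then (i : ℕ) + 1 else (i : ℕ)))

/-- The (left) Følner condition. -/
def Folner (N : Type) [Group N] : Prop :=
  ∀ (S : Finset N) (ε : ℝ), 0 < ε → ∃ T : Finset N, T.Nonempty ∧
    (({τ : N | τ ∈ T ∧ ¬ ∀ s ∈ S, s * τ ∈ T}.ncard : ℝ)) ≤ ε * T.card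

/-- Soficity (as in the problem). -/
def IsSofic (G : Type) [Group G] : Prop :=
  ∀ F : Finset G, (1 : G) ∉ F → ∀ ε : ℝ, 0 < ε →
    ∃ n : ℕ, 1 ≤ n ∧ ∃ Φ : G → Equiv.Perm (Fin n), Φ 1 = 1 ∧
      ∀ g ∈ F, ∀ h ∈ F,
        ((Φ (g * h) * (Φ h)⁻¹ * (Φ g)⁻¹).support.card : ℝ) / (n : ℝ) < ε ∧
        1 - ε < ((Φ g).support.card : ℝ) / (n : ℝ)

/-- The words `FreeGroup.mk L` for the lists with relabelled letters. -/
def wmap {X Y : Type} (f : X → Y) (L : List (X × Bool)) : List (Y × Bool) :=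
  L.map fun y => (f y.1, y.2)

/-- The letters `x_{c,i}` with `a ≤ i ≤ b`. -/
def lvl (ι : Type) (a b : ℤ) : Set (ι × ℤ) := {x | a ≤ x.2 ∧ x.2 ≤ b}

/-- The shift `x_{c,i} ↦ x_{c,i+k}`. -/
def sh (ι : Type) (k : ℤ) : ι × ℤ ≃ ι × ℤ := Equiv.prodCongr (Equiv.refl ι) (Equiv.addRight k)

/-- The homomorphism `x_{c,i} ↦ t^i x_c t^{-i}` (the letter `t` is `none`). -/
def rho (ι : Type) : FreeGroup (ι × ℤ) →* FreeGroup (Option ι) :=
  FreeGroup.lift fun x =>
    FreeGroup.of none ^ x.2 * FreeGroup.of (some x.1) * (FreeGroup.of none ^ x.2)⁻¹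

/-- The relators `shift^k L`, for `0 ≤ k ≤ N`. -/
def relK {ι : Type} (L : List ((ι × ℤ) × Bool)) (N : ℕ) : Set (List ((ι × ℤ) × Bool)) :=
  {L' | ∃ k : ℕ, k ≤ N ∧ L' = wmap (sh ι k) L}

/-- The glued model. -/
structure Glued {X : Type} (S₀ S₁ : Set X) {Z₀ Z₁ Q P : Type} [Group Q] [Group P]
    (θ₀ : FreeGroup X →* Perm Z₀) (θ₁ : FreeGroup X →* Perm Z₁) (q : FreeGroup X →* Q)
    (π : Z₀ × Z₁ → P) (Ω : Type) (θ : FreeGroup X →* Perm Ω) where
  /-- the projection to `Z₀` -/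
  p₀ : Ω → Z₀
  /-- the projection to `Z₁` -/
  p₁ : Ω → Z₁
  /-- the trivialised coordinate in `Z₀` -/
  y₀ : Ω → Z₀
  /-- the trivialised coordinate in `Z₁` -/
  y₁ : Ω → Z₁
  /-- the coordinate in `P` -/
  p : Ω → P
  triv₀ : Triv p₀
  triv₁ : Triv p₁
  eq₀ : ∀ w ∈ Wd S₀, ∀ ω, p₀ (θ w ω) = θ₀ w (p₀ ω)
  eq₁ : ∀ w ∈ Wd S₁, ∀ ω, p₁ (θ w ω) = θ₁ w (p₁ ω)
  k₁ : ∀ w ∈ Wd S₀, ∀ ω, y₁ (θ w ω) = y₁ ω
  kp : ∀ w ∈ Wd S₀, ∀ ω, p (θ w ω) = p ω
  b₀ : ∀ w ∈ Wd S₁, ∀ ω, y₀ (θ w ω) = y₀ ω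
  bp : ∀ w ∈ Wd S₁, ∀ ω,
    (π (y₀ ω, y₁ (θ w ω)))⁻¹ * p (θ w ω) = (π (y₀ ω, y₁ ω))⁻¹ * p ω
  move₀ : ∀ w ∈ Wd S₀, ∀ ω, y₀ (θ w ω) = y₀ ω → ∃ d ∈ Wd (S₀ ∩ S₁), θ₀ d (p₀ ω) = θ₀ w (p₀ ω)
  move₁ : ∀ w ∈ Wd S₁, ∀ ω, y₁ (θ w ω) = y₁ ω → ∃ d ∈ Wd (S₀ ∩ S₁), θ₁ d (p₁ ω) = θ₁ w (p₁ ω)
  free : ∀ f ∈ Wd (S₀ ∩ S₁), ∀ ω, θ f ω = ω → q f = 1

/-- The product of a list of factors (the rightmost factor acts first). -/
def fprod {X : Type} (fs : List (Bool × FreeGroup X)) : FreeGroup X := (fs.map Prod.snd).prod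

/-- Alternating lists of factors; the factors with the label `b` belong to `A b`. -/
def Alt {X : Type} (A : Bool → Set (FreeGroup X)) (fs : List (Bool × FreeGroup X)) : Prop :=
  fs.IsChain (fun a b => a.1 ≠ b.1) ∧ ∀ a ∈ fs, a.2 ∈ A a.1

/-- The factors: words in the letters of `S`, not congruent to a word in the letters of `F`
modulo the relators `R`. -/
def Fac {X : Type} (S : Set X) (R : Set (List (X × Bool))) (F : Set X) : Set (FreeGroup X) :=
  {u | u ∈ Wd S ∧ u ∉ Wd F ⊔ Subgroup.normalClosure (FreeGroup.mk '' R)}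

/-! ### Elementary facts about `Small` -/

section small

variable {Z : Type} [Finite Z]

theorem Small.mono {P Q : Z → Prop} {ε δ : ℝ} (h : Small P ε) (hQ : ∀ z, Q z → P z) (hδ : ε ≤ δ) :
    Small Q δ := by
  have h1 : {z | Q z}.ncard ≤ {z | P z}.ncard := Set.ncard_le_ncard hQ (Set.toFinite _)
  have h2 : ({z | Q z}.ncard : ℝ) ≤ ({z | P z}.ncard : ℝ) := by exact_mod_cast h1
  have h3 : ε * (Nat.card Z : ℝ) ≤ δ * (Nat.card Z : ℝ) :=
    mul_le_mul_of_nonneg_right hδ (Nat.cast_nonneg _)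
  exact (h2.trans h).trans h3

theorem small_false {ε : ℝ} (hε : 0 ≤ ε) : Small (fun _ : Z => False) ε := by
  unfold Small
  simp only [Set.setOf_false, Set.ncard_empty, Nat.cast_zero]
  positivity

theorem Small.or {P Q : Z → Prop} {ε δ : ℝ} (h : Small P ε) (h' : Small Q δ) :
    Small (fun z => P z ∨ Q z) (ε + δ) := by
  have h1 : {z | P z ∨ Q z}.ncard ≤ {z | P z}.ncard + {z | Q z}.ncard :=
    Set.ncard_union_le {z | P z} {z | Q z}
  have h2 : ({z | P z ∨ Q z}.ncard : ℝ) ≤ ({z | P z}.ncard : ℝ) + ({z | Q z}.ncard : ℝ) := by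
    exact_mod_cast h1
  unfold Small at *
  rw [add_mul]
  exact h2.trans (add_le_add h h')

theorem Small.comp_perm {P : Z → Prop} {ε : ℝ} (h : Small P ε) (σ : Perm Z) :
    Small (fun z => P (σ z)) ε := by
  have h1 : {z | P (σ z)}.ncard = {z | P z}.ncard := by
    rw [← Set.ncard_image_of_injective {z | P (σ z)} σ.injective]
    congr 1
    ext z
    constructor
    · rintro ⟨w, hw, rfl⟩
      exact hw
    · intro hz
      exact ⟨σ.symm z, by simpa using hz, by simp⟩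
  unfold Small at *
  rw [h1]
  exact h

theorem Small.exists_finset {ι : Type*} (s : Finset ι) {P : ι → Z → Prop} {ε : ℝ}
    (h : ∀ i ∈ s, Small (P i) ε) : Small (fun z => ∃ i ∈ s, P i z) (s.card * ε) := by
  classical
  induction s using Finset.induction_on with
  | empty =>
    simpa using small_false (Z := Z) (le_refl (0 : ℝ))
  | insert a s ha ih =>
    rw [Finset.card_insert_of_notMem ha]
    have h1 := (h a (Finset.mem_insert_self a s)).or
      (ih fun i hi => h i (Finset.mem_insert_of_mem hi))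
    refine h1.mono ?_ ?_
    · rintro z ⟨i, hi, hz⟩
      rcases Finset.mem_insert.1 hi with rfl | hi
      · exact Or.inl hz
      · exact Or.inr ⟨i, hi, hz⟩
    · push_cast
      linarith

theorem Small.comp_triv {Ω : Type} [Finite Ω] {P : Z → Prop} {ε : ℝ} (h : Small P ε) {p : Ω → Z}
    (hp : Triv p) : Small (fun ω => P (p ω)) ε := by
  obtain ⟨K, hK, hK', e, he⟩ := hp
  have h1 : {ω | P (p ω)}.ncard = {z | P z}.ncard * Nat.card K := by
    rw [← Set.ncard_image_of_injective {ω | P (p ω)} e.injective]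
    have : e '' {ω | P (p ω)} = {z | P z} ×ˢ (Set.univ : Set K) := by
      ext ⟨z, k⟩
      constructor
      · rintro ⟨w, hw, hw'⟩
        refine ⟨?_, trivial⟩
        have := he w
        rw [hw'] at this
        change z = p w at this
        change P z
        rw [this]
        exact hw
      · rintro ⟨hz, -⟩
        refine ⟨e.symm (z, k), ?_, by simp⟩
        have := he (e.symm (z, k))
        rw [Equiv.apply_symm_apply] at this
        change P (p (e.symm (z, k)))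
        rw [← this]
        exact hz
    rw [this, Set.ncard_prod, Set.ncard_univ]
  have h2 : Nat.card Ω = Nat.card Z * Nat.card K := by
    rw [Nat.card_congr e, Nat.card_prod]
  unfold Small at *
  rw [h1, h2]
  push_cast
  have h3 := mul_le_mul_of_nonneg_right h (Nat.cast_nonneg (α := ℝ) (Nat.card K))
  linarith

end small

theorem triv_id (Z : Type) : Triv (id : Z → Z) :=
  ⟨Unit, inferInstance, inferInstance, (Equiv.prodPUnit Z).symm, fun _ => rfl⟩

theorem Triv.comp {Ω Ω' Z : Type} {p : Ω → Z} {p' : Ω' → Ω} (hp : Triv p) (hp' : Triv p') :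
    Triv (p ∘ p') := by
  obtain ⟨K, hK, hK1, e, he⟩ := hp
  obtain ⟨K', hK', hK1', e', he'⟩ := hp'
  refine ⟨K × K', inferInstance, inferInstance,
    (e'.trans (Equiv.prodCongr e (Equiv.refl K'))).trans (Equiv.prodAssoc Z K K'), fun ω => ?_⟩
  have h1 := he' ω
  have h2 := he (p' ω)
  simp only [Equiv.trans_apply, Function.comp_apply]
  rw [← h2, ← h1]
  rfl

end ORel
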