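import Pool.Agent.Lib_MP_051624_or.OHall
import Pool.Agent.Lib_MP_051624_or.OAsm
import Pool.Agent.Lib_MP_051624_or.OAsmS
import Pool.Agent.Lib_MP_051624_or.OPath
import Pool.Agent.Lib_MP_051624_or.ODecomp

/-!
# Gluing of models

Proof of `glue`. Write `F = S₀ ∩ S₁`, `R = R₀ ∪ R₁`, `NC` for the normal closure of `mk '' R`. Let
`E` and `ε > 0` be given. For every `e ∈ E` with `e ∈ Wd (S₀ ∪ S₁)` choose a decomposition
(`decomp`): either `f ∈ Wd F` or an alternating list `fs`; let `e'` be `f` or `fprod fs`, so that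
`e⁻¹ * e' ∈ NC`. Let `C_e` be the constant of `nc_bound` for `e⁻¹ * e'`. Let `K` be
at least `1` and at least the lengths of all the lists, and `C` at least all the `C_e`. Let `δ > 0`
with `(2 * C + K + 1) * δ ≤ ε` (and `2 * δ ≤ ε`). Let `E₀` be the finite set of the factors with
the label `true` in the lists, and `E₁` the finite set of the factors with the label `false`,
of the elements `f`, and of the products `fprod fs`. Take the models `Z₀, θ₀` (from `h₀`, with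
`E₀, δ`) and `Z₁, θ₁` (from `h₁`, with `E₁, δ`), the finite quotient `q : FreeGroup X →* Q` with
`q f ≠ 1` for all the `f ≠ 1` (`free_rf`), and the finite group `P` and
`π₀ : FreeGroup (Z₀ × Z₁) →* P` of `free_rf_ball` with `k = 2 * K`; let `π s = π₀ (of s)`, so that
`FreeGroup.lift π = π₀`. Let `Ω, θ, G` be given by `assemble`.

* Relators: by `assemble`, `2 * δ ≤ ε`.
* Solvability for `U₀ ∪ U₁'`: by `glued_csolv` and `CSolv` being monotone in `ε`.
* Windows `∅` and `V`. Let `W` be `∅` or `V`; in both cases `W ⊆ S₁`. Let `e ∈ E`,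
  `e ∈ Wd (S₀ ∪ S₁)`, `e ∉ Wd W ⊔ NC`, with the decomposition `e'`; then
  `e' ∉ Wd W ⊔ NC`. Outside of a set of proportion at most `C * (2 * δ)`,
  `θ e ω = θ e' ω` (`nc_bound` for `e⁻¹ * e'`). Let `d ∈ Wd W` with `θ d ω = θ e ω = θ e' ω`.
  - `e' = fprod fs` and some factor has the label `true`: as `d ∈ Wd S₁`, `G.b₀` and `G.bp` show
    `(π (y₀, y₁))⁻¹ * p` has at `θ d ω` the same value as at `ω`; so `ω` belongs to the
    set of `alt_moves`, of proportion at most `K * δ`. (The hypotheses of `alt_moves` on the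
    factors: `u ∈ Fac S₀ R₀ F` and the window `F` of the model `Z₀`; `u ∈ Fac S₁ R₁ F` and the
    window `F` of `Z₁`.)
  - `e' = fprod fs` and no factor has the label `true`: as the list is alternating and nonempty,
    `fs = [(false, u)]`, `e' = u ∈ Wd S₁`, `u ∉ Wd F ⊔ normalClosure (mk '' R₁)`. For `W = V`:
    `u ∉ Wd V ⊔ normalClosure (mk '' R₁)`, and `θ₁ d (G.p₁ ω) = θ₁ u (G.p₁ ω)`
    (`G.eq₁`), a set of proportion at most `δ`, by the window `V` of `Z₁`, `Small.comp_triv`.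
    For `W = ∅`: the same with the window `F` of `Z₁` (`d ∈ Wd ∅ ≤ Wd F`).
  - `e' = f ∈ Wd F`: for `W = V`, as before with the window `V` of `Z₁` (`f ∈ Wd S₁`). For
    `W = ∅`: `d = 1` (`wd_empty`), `θ f ω = ω`, so `q f = 1` by `G.free`, hence `f = 1`,
    a contradiction to `e' ∉ Wd ∅ ⊔ NC`; the set is empty.
-/

open Equiv

namespace ORel

/-- The data of a decomposition of an element, with the constant of `nc_bound`. -/
private theorem OGlue_data {X : Type} (S₀ S₁ : Set X) (R₀ R₁ : Set (List (X × Bool)))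
    (e : FreeGroup X) :
    ∃ (e' : FreeGroup X) (C : ℕ) (fs : List (Bool × FreeGroup X)), e ∈ Wd (S₀ ∪ S₁) →
      (e⁻¹ * e' ∈ Subgroup.normalClosure (FreeGroup.mk '' (R₀ ∪ R₁)) ∧
      (∀ (Z : Type) [Finite Z] (θ : FreeGroup X →* Perm Z) (δ : ℝ), 0 ≤ δ →
        (∀ L ∈ R₀ ∪ R₁, Small (fun z => θ (FreeGroup.mk L) z ≠ z) δ) →
          Small (fun z => θ (e⁻¹ * e') z ≠ z) (C * δ)) ∧
      ((fs = [] ∧ e' ∈ Wd (S₀ ∩ S₁)) ∨ (fs ≠ [] ∧
        Alt (fun b => if b then Fac S₀ R₀ (S₀ ∩ S₁) else Fac S₁ R₁ (S₀ ∩ S₁)) fs ∧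
        e' = fprod fs))) := by
  by_cases he : e ∈ Wd (S₀ ∪ S₁)
  · rcases decomp S₀ S₁ R₀ R₁ e he with ⟨f, hf, hef⟩ | ⟨fs, hne, halt, hef⟩
    · obtain ⟨C, hC⟩ := nc_bound (R₀ ∪ R₁) _ hef
      exact ⟨f, C, [], fun _ => ⟨hef, hC, Or.inl ⟨rfl, hf⟩⟩⟩
    · obtain ⟨C, hC⟩ := nc_bound (R₀ ∪ R₁) _ hef
      exact ⟨fprod fs, C, fs, fun _ => ⟨hef, hC, Or.inr ⟨hne, halt, rfl⟩⟩⟩
  · exact ⟨1, 0, [], fun h => absurd h he⟩

/-- An alternating nonempty list without the label `true` has one element. -/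
private theorem OGlue_single {X : Type} (fs : List (Bool × FreeGroup X)) (hne : fs ≠ [])
    (hch : fs.IsChain (fun a b => a.1 ≠ b.1)) (ht : ¬ ∃ u, (true, u) ∈ fs) :
    ∃ u, fs = [(false, u)] := by
  rcases fs with _ | ⟨⟨b, u⟩, rest⟩
  · exact absurd rfl hne
  · cases b
    · rcases rest with _ | ⟨⟨b', u'⟩, rest'⟩
      · exact ⟨u, rfl⟩
      · rw [List.isChain_cons_cons] at hch
        cases b'
        · exact absurd rfl hch.1
        · exact absurd ⟨u', by simp⟩ ht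
    · exact absurd ⟨u, by simp⟩ ht

theorem glue {X : Type} (S₀ S₁ : Set X) (R₀ R₁ : Set (List (X × Bool)))
    (V U₀ U₁ U₁' : Set X)
    (hR₀ : ∀ L ∈ R₀, ∀ y ∈ L, y.1 ∈ S₀) (hR₁ : ∀ L ∈ R₁, ∀ y ∈ L, y.1 ∈ S₁)
    (hV : V ⊆ S₁) (hU₀ : Disjoint U₀ S₁) (hU₁ : Disjoint U₁ S₀)
    (h₀ : Models S₀ R₀ {S₀ ∩ S₁} {U₀}) (h₁ : Models S₁ R₁ {S₀ ∩ S₁, V} {U₁, U₁'}) :
    Models (S₀ ∪ S₁) (R₀ ∪ R₁) {∅, V} {U₀ ∪ U₁'} := by
  classical
  intro E ε hε
  choose e' C fs hdat using OGlue_data S₀ S₁ R₀ R₁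
  -- the constants
  obtain ⟨K, hK1, hK⟩ : ∃ K : ℕ, 1 ≤ K ∧ ∀ e ∈ E, (fs e).length ≤ K :=
    ⟨1 + ∑ e ∈ E, (fs e).length, by omega, fun e he => by
      have := Finset.single_le_sum (f := fun e => (fs e).length) (fun _ _ => Nat.zero_le _) he
      omega⟩
  obtain ⟨C₀, hC₀⟩ : ∃ C₀ : ℕ, ∀ e ∈ E, C e ≤ C₀ :=
    ⟨∑ e ∈ E, C e, fun e he =>
      Finset.single_le_sum (f := C) (fun _ _ => Nat.zero_le _) he⟩
  obtain ⟨δ, hδ, hδε, hδ2⟩ : ∃ δ : ℝ, 0 < δ ∧ (2 * C₀ + K) * δ ≤ ε ∧ 2 * δ ≤ ε := by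
    have h1 : (0 : ℝ) < 2 * C₀ + K + 2 := by positivity
    refine ⟨ε / (2 * C₀ + K + 2), div_pos hε h1, ?_, ?_⟩
    · rw [mul_div_assoc', div_le_iff₀ h1]
      nlinarith
    · rw [mul_div_assoc', div_le_iff₀ h1]
      have h2 : (0 : ℝ) ≤ 2 * C₀ + K := by positivity
      nlinarith
  -- the finite set of test elements
  set E' : Finset (FreeGroup X) :=
    (E.biUnion fun e => ((fs e).map Prod.snd).toFinset) ∪ E.image e' with hE'
  have hEf : ∀ e ∈ E, ∀ b u, (b, u) ∈ fs e → u ∈ E' := by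
    intro e he b u hu
    rw [hE', Finset.mem_union, Finset.mem_biUnion]
    refine Or.inl ⟨e, he, ?_⟩
    rw [List.mem_toFinset, List.mem_map]
    exact ⟨(b, u), hu, rfl⟩
  have hEe : ∀ e ∈ E, e' e ∈ E' := by
    intro e he
    rw [hE', Finset.mem_union]
    exact Or.inr (Finset.mem_image_of_mem _ he)
  obtain ⟨Z₀, fZ₀, nZ₀, θ₀, r₀, w₀, c₀⟩ := h₀ E' δ hδ
  obtain ⟨Z₁, fZ₁, nZ₁, θ₁, r₁, w₁, c₁⟩ := h₁ E' δ hδ
  obtain ⟨Q, gQ, fQ, q, hq⟩ := free_rf (E' : Set (FreeGroup X)) E'.finite_toSet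
  obtain ⟨P, gP, fP, π₀, hπ₀⟩ := free_rf_ball (Z₀ × Z₁) (2 * K)
  set π : Z₀ × Z₁ → P := fun s => π₀ (FreeGroup.of s) with hπ
  have hlift : FreeGroup.lift π = π₀ := by
    ext s
    simp [hπ]
  have hP : ∀ L : List ((Z₀ × Z₁) × Bool), L.length ≤ 2 * K → FreeGroup.IsReduced L → L ≠ [] →
      FreeGroup.lift π (FreeGroup.mk L) ≠ 1 := by
    intro L h1 h2 h3
    rw [hlift]
    exact hπ₀ L h1 h2 h3
  obtain ⟨Ω, fΩ, nΩ, θ, G, hrel⟩ := assemble S₀ S₁ R₀ R₁ hR₀ hR₁ U₀ U₁ hU₀ hU₁ θ₀ θ₁ q π δ r₀ r₁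
    (c₀ U₀ rfl) (c₁ U₁ (Or.inl rfl))
  -- the windows of the second model
  have hwin : ∀ W W' : Set X, W' ∈ ({S₀ ∩ S₁, V} : Set (Set X)) → W ⊆ W' → W' ⊆ S₁ →
      ∀ u ∈ E', u ∈ Wd S₁ →
      u ∉ Wd W' ⊔ Subgroup.normalClosure (FreeGroup.mk '' R₁) →
      Small (fun ω => ∃ d ∈ Wd W, θ d ω = θ u ω) δ := by
    intro W W' hW' hWW' hW'S u huE huS hu
    refine ((w₁ W' hW' u huE huS hu).comp_triv G.triv₁).mono ?_ le_rfl
    rintro ω ⟨d, hd, hdω⟩
    refine ⟨d, wd_mono hWW' hd, ?_⟩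
    rw [← G.eq₁ d (wd_mono (hWW'.trans hW'S) hd) ω, ← G.eq₁ u huS ω, hdω]
  have hsub : Subgroup.normalClosure (FreeGroup.mk '' R₁) ≤
      Subgroup.normalClosure (FreeGroup.mk '' (R₀ ∪ R₁)) :=
    Subgroup.normalClosure_mono (Set.image_mono Set.subset_union_right)
  have hKδ : δ ≤ K * δ := by
    have : (1 : ℝ) ≤ K := by exact_mod_cast hK1
    nlinarith
  have main : ∀ W : Set X, (W = ∅ ∨ W = V) → ∀ e ∈ E, e ∈ Wd (S₀ ∪ S₁) →
      e ∉ Wd W ⊔ Subgroup.normalClosure (FreeGroup.mk '' (R₀ ∪ R₁)) →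
      Small (fun ω => ∃ d ∈ Wd W, θ d ω = θ (e' e) ω) (K * δ) := by
    intro W hW e he heS heW
    obtain ⟨hnc, -, hcase⟩ := hdat e heS
    have hWS : W ⊆ S₁ := by
      rcases hW with rfl | rfl
      · exact Set.empty_subset _
      · exact hV
    have he'W : e' e ∉ Wd W ⊔ Subgroup.normalClosure (FreeGroup.mk '' (R₀ ∪ R₁)) := by
      intro h
      apply heW
      have h1 : e = e' e * (e⁻¹ * e' e)⁻¹ := by group
      rw [h1]
      exact Subgroup.mul_mem _ h (Subgroup.mem_sup_right (Subgroup.inv_mem _ hnc))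
    rcases hcase with ⟨-, hf⟩ | ⟨hne, halt, heq⟩
    · -- `e'` is a word in the letters of `S₀ ∩ S₁`
      have hfS : e' e ∈ Wd S₁ := wd_mono Set.inter_subset_right hf
      rcases hW with rfl | rfl
      · refine (small_false (Z := Ω) (show (0 : ℝ) ≤ K * δ by positivity)).mono ?_ le_rfl
        rintro ω ⟨d, hd, hdω⟩
        rw [wd_empty, Subgroup.mem_bot] at hd
        rw [hd, map_one, Perm.one_apply] at hdω
        have h1 := G.free (e' e) hf ω hdω.symm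
        refine hq (e' e) (hEe e he) ?_ h1
        intro h2
        apply he'W
        rw [h2]
        exact Subgroup.one_mem _
      · refine (hwin W W (Or.inr rfl) (Set.Subset.refl _) hV (e' e) (hEe e he) hfS ?_).mono
          (fun _ h => h) hKδ
        intro h
        exact he'W (sup_le_sup_left hsub _ h)
    · by_cases ht : ∃ u, (true, u) ∈ fs e
      · have h1 := alt_moves S₀ S₁ θ₀ θ₁ q π δ hδ.le Ω θ G K hP (fs e) (hK e he) halt.1
          (fun u hu => by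
            have h2 : u ∈ Fac S₀ R₀ (S₀ ∩ S₁) := halt.2 (true, u) hu
            exact ⟨h2.1, w₀ _ rfl u (hEf e he _ _ hu) h2.1 h2.2⟩)
          (fun u hu => by
            have h2 : u ∈ Fac S₁ R₁ (S₀ ∩ S₁) := halt.2 (false, u) hu
            exact ⟨h2.1, w₁ _ (Or.inl rfl) u (hEf e he _ _ hu) h2.1 h2.2⟩) ht
        refine h1.mono ?_ le_rfl
        rintro ω ⟨d, hd, hdω⟩
        rw [heq] at hdω
        have hdS : d ∈ Wd S₁ := wd_mono hWS hd
        have h2 := G.bp d hdS ω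
        rw [← hdω, G.b₀ d hdS ω]
        exact h2
      · obtain ⟨u, hu⟩ := OGlue_single (fs e) hne halt.1 ht
        have hmem : (false, u) ∈ fs e := by rw [hu]; simp
        have h2 : u ∈ Fac S₁ R₁ (S₀ ∩ S₁) := halt.2 (false, u) hmem
        have h3 : e' e = u := by
          rw [heq, hu]
          simp [fprod]
        have huE : u ∈ E' := hEf e he _ _ hmem
        rw [h3]
        rw [h3] at he'W
        rcases hW with rfl | rfl
        · exact (hwin ∅ (S₀ ∩ S₁) (Or.inl rfl) (Set.empty_subset _) Set.inter_subset_right u huE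
            h2.1 h2.2).mono (fun _ h => h) hKδ
        · refine (hwin W W (Or.inr rfl) (Set.Subset.refl _) hV u huE h2.1 ?_).mono
            (fun _ h => h) hKδ
          intro h
          exact he'W (sup_le_sup_left hsub _ h)
  refine ⟨Ω, fΩ, nΩ, θ, ?_, ?_, ?_⟩
  · intro L hL
    exact (hrel L hL).mono (fun _ h => h) hδ2
  · intro W hW e he heS heW
    have h1 := (hdat e heS).2.1 Ω θ (2 * δ) (by positivity) hrel
    have h2 := main W hW e he heS heW
    refine (h1.or h2).mono ?_ ?_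
    · rintro ω ⟨d, hd, hdω⟩
      by_cases h3 : θ (e⁻¹ * e' e) ω = ω
      · right
        refine ⟨d, hd, ?_⟩
        rw [map_mul, map_inv, Perm.mul_apply, Perm.inv_eq_iff_eq] at h3
        rw [hdω, h3]
      · exact Or.inl h3
    · have h3 : (C e : ℝ) ≤ C₀ := by exact_mod_cast hC₀ e he
      nlinarith
  · intro U hU
    rw [Set.mem_singleton_iff] at hU
    subst hU
    have h1 := glued_csolv S₀ S₁ R₀ R₁ hR₁ U₀ U₁' hU₀ θ₀ θ₁ q π δ (c₀ U₀ rfl)
      (c₁ U₁' (Or.inr rfl)) Ω θ G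
    intro Ω' _ θ' p' hp' heq Γ _ g
    obtain ⟨g', hg', hg''⟩ := h1 Ω' θ' p' hp' heq Γ g
    exact ⟨g', hg', fun L hL => (hg'' L hL).mono (fun _ h => h) (by linarith)⟩

end ORel
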