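import Pool.Agent.Lib_MP_051624_or.OSkew
import Pool.Agent.Lib_MP_051624_or.OWd

/-!
# Relabelling the letters of models

Proof of `Models.map`. Given `E` and `ε`, apply the hypothesis to the image `E'` of `E` under
`FreeGroup.map f.symm` and `ε`; let `Z, θ'` be the model. Put
`θ = θ'.comp (FreeGroup.map f.symm)`. Then `θ (mk (wmap f L)) = θ' (mk L)`, `Wd (f '' V)` is the
image of `Wd V` under `FreeGroup.map f` (`map_wd`), the normal closure of the relabelled relators
is the image of the normal closure of the relators (`Subgroup.map_normalClosure` for the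
surjection `FreeGroup.map f`, or via the isomorphism `FreeGroup.freeGroupCongr`), and all the
properties are transported. For `CSolv`: a cover `θ''` of `θ` gives the cover
`θ''.comp (FreeGroup.map f)` of `θ'`; the cocycles `g` on the former correspond to the cocycles
`fun x => g (f x)` on the latter, and
`val θ'' g (wmap f L) ω = val (θ''.comp (FreeGroup.map f)) (fun x => g (f x)) L ω`.
-/

open Equiv

namespace ORel

private theorem OShift_mk {X Y : Type} (f : X → Y) (L : List (X × Bool)) :
    FreeGroup.map f (FreeGroup.mk L) = FreeGroup.mk (wmap f L) := FreeGroup.map.mk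

private theorem OShift_wmap {X : Type} (f : X ≃ X) (L : List (X × Bool)) :
    wmap f.symm (wmap f L) = L := by
  unfold wmap
  rw [List.map_map]
  refine (List.map_congr_left fun y _ => ?_).trans (List.map_id L)
  simp

private theorem OShift_symm_map {X : Type} (f : X ≃ X) (w : FreeGroup X) :
    FreeGroup.map f.symm (FreeGroup.map f w) = w := by
  rw [FreeGroup.map.comp]
  have : (f.symm ∘ f : X → X) = id := by
    funext x
    simp
  rw [this, FreeGroup.map.id]

private theorem OShift_map_symm {X : Type} (f : X ≃ X) (w : FreeGroup X) :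
    FreeGroup.map f (FreeGroup.map f.symm w) = w := by
  rw [FreeGroup.map.comp]
  have : (f ∘ f.symm : X → X) = id := by
    funext x
    simp
  rw [this, FreeGroup.map.id]

private theorem OShift_val {X Z Γ : Type} [Group Γ] (f : X → X) (θ : FreeGroup X →* Perm Z)
    (g : X → Z → Γ) (L : List (X × Bool)) (z : Z) :
    val θ g (wmap f L) z = val (θ.comp (FreeGroup.map f)) (fun x => g (f x)) L z := by
  induction L with
  | nil => rfl
  | cons y L ih =>
    rcases y with ⟨x, b⟩
    have e1 : ∀ L' : List (X × Bool), (θ.comp (FreeGroup.map f)) (FreeGroup.mk L') =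
        θ (FreeGroup.mk (wmap f L')) := by
      intro L'
      rw [MonoidHom.comp_apply, OShift_mk]
    have e2 : wmap f ((x, b) :: L) = (f x, b) :: wmap f L := rfl
    rw [e2]
    cases b
    · simp only [val]
      rw [ih, e1, e2]
    · simp only [val]
      rw [ih, e1]

theorem Models.map {X : Type} (f : X ≃ X) {S : Set X} {R : Set (List (X × Bool))}
    {Vs Us : Set (Set X)} (h : Models S R Vs Us) :
    Models (f '' S) (wmap f '' R) ((fun V => f '' V) '' Vs) ((fun U => f '' U) '' Us) := by
  classical
  intro E ε hε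
  obtain ⟨Z, hZ, hZ', θ', h1, h2, h3⟩ := h (E.image (FreeGroup.map f.symm)) ε hε
  refine ⟨Z, hZ, hZ', θ'.comp (FreeGroup.map f.symm), ?_, ?_, ?_⟩
  · rintro _ ⟨L, hL, rfl⟩
    have e1 : (θ'.comp (FreeGroup.map f.symm)) (FreeGroup.mk (wmap f L)) = θ' (FreeGroup.mk L) := by
      rw [MonoidHom.comp_apply, ← OShift_mk, OShift_symm_map]
    rw [e1]
    exact h1 L hL
  · rintro _ ⟨V, hV, rfl⟩ e he heS heV
    have h4 := h2 V hV (FreeGroup.map f.symm e) (Finset.mem_image_of_mem _ he) ?_ ?_
    · refine h4.mono ?_ le_rfl
      rintro z ⟨d, hd, hdz⟩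
      have hd' : d ∈ (Wd V).map (FreeGroup.map f) := by
        rw [map_wd]
        exact hd
      obtain ⟨d', hd', rfl⟩ := hd'
      refine ⟨d', hd', ?_⟩
      rw [MonoidHom.comp_apply, MonoidHom.comp_apply, OShift_symm_map] at hdz
      exact hdz
    · have heS' : e ∈ (Wd S).map (FreeGroup.map f) := by
        rw [map_wd]
        exact heS
      obtain ⟨e', he', rfl⟩ := heS'
      rw [OShift_symm_map]
      exact he'
    · intro hcon
      apply heV
      have h5 : e ∈ (Wd V ⊔ Subgroup.normalClosure (FreeGroup.mk '' R)).map (FreeGroup.map f) :=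
        ⟨_, hcon, OShift_map_symm f e⟩
      have hsurj : Function.Surjective (FreeGroup.map f : FreeGroup X →* FreeGroup X) :=
        fun w => ⟨_, OShift_map_symm f w⟩
      rw [Subgroup.map_sup, map_wd, Subgroup.map_normalClosure _ _ hsurj] at h5
      have h6 : (FreeGroup.map f : FreeGroup X →* FreeGroup X) '' (FreeGroup.mk '' R) =
          FreeGroup.mk '' (wmap f '' R) := by
        rw [Set.image_image, Set.image_image]
        refine Set.image_congr fun L _ => ?_
        exact OShift_mk f L
      rw [h6] at h5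
      exact h5
  · rintro _ ⟨U, hU, rfl⟩ Ω hΩ θ'' p hp heq Γ hΓ g₀
    have heq' : ∀ x ∈ S, ∀ ω, p ((θ''.comp (FreeGroup.map f)) (FreeGroup.of x) ω) =
        θ' (FreeGroup.of x) (p ω) := by
      intro x hx ω
      have h4 := heq (f x) ⟨x, hx, rfl⟩ ω
      rw [MonoidHom.comp_apply] at h4 ⊢
      have e1 : FreeGroup.map f (FreeGroup.of x) = FreeGroup.of (f x) := by simp
      have e2 : FreeGroup.map f.symm (FreeGroup.of (f x)) = FreeGroup.of x := by simp
      rw [e1, h4, e2]
    obtain ⟨g', hg1, hg2⟩ := h3 U hU Ω (θ''.comp (FreeGroup.map f)) p hp heq' Γ (fun x => g₀ (f x))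
    · refine ⟨fun x => g' (f.symm x), ?_, ?_⟩
      · intro x hx
        have hx' : f.symm x ∉ U := by
          intro hc
          exact hx ⟨f.symm x, hc, by simp⟩
        show g' (f.symm x) = g₀ x
        rw [hg1 _ hx']
        simp
      · rintro _ ⟨L, hL, rfl⟩
        refine (hg2 L hL).mono ?_ le_rfl
        intro ω hω
        rw [OShift_val] at hω
        simpa using hω

/-- The models of a group are models for smaller sets of windows and of unknowns. -/
theorem Models.mono {X : Type} {S : Set X} {R : Set (List (X × Bool))} {Vs Us Vs' Us' : Set (Set X)}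
    (h : Models S R Vs Us) (hV : Vs' ⊆ Vs) (hU : Us' ⊆ Us) : Models S R Vs' Us' := by
  intro E ε hε
  obtain ⟨Z, h1, h2, θ, h3, h4, h5⟩ := h E ε hε
  exact ⟨Z, h1, h2, θ, h3, fun V hV' => h4 V (hV hV'), fun U hU' => h5 U (hU hU')⟩

end ORel
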