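import Pool.Agent.Lib_MP_051624_or.OGlue
import Pool.Agent.Lib_MP_051624_or.OShift

/-!
# The induction along the heights

Proof of `ind`. By induction on `N`. For `N = 0` use `h` with fewer windows and
unknowns (`Models.mono`): `relK L 0 = {L}` (`sh ι 0` is the identity).

Step: let `S₀ = lvl ι 0 (N + m)`, `R₀ = relK L N`, `S₁ = lvl ι (N + 1) (N + 1 + m)`,
`R₁ = {wmap (sh ι (N + 1)) L}`, `V = lvl ι (N + 2) (N + 1 + m)`, `U₀ = lvl ι 0 N`,
`U₁ = lvl ι (N + 1 + m) (N + 1 + m)`, `U₁' = lvl ι (N + 1) (N + 1)`. Then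
`S₀ ∩ S₁ = lvl ι (N + 1) (N + m)`, `S₀ ∪ S₁ = lvl ι 0 (N + 1 + m)`, `R₀ ∪ R₁ = relK L (N + 1)`,
`U₀ ∪ U₁' = lvl ι 0 (N + 1)`. By `Models.map` with `f = sh ι (N + 1)` and `Models.mono`, the
hypothesis `h` gives `Models S₁ R₁ {S₀ ∩ S₁, V} {U₁, U₁'}` (the images of the `lvl ι a b` are the
`lvl ι (a + N + 1) (b + N + 1)`). Now use `glue` (and `Models.mono` for the induction hypothesis).
-/

open Equiv

namespace ORel

theorem sh_image_lvl (ι : Type) (k a b : ℤ) : sh ι k '' lvl ι a b = lvl ι (a + k) (b + k) := by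
  ext x
  constructor
  · rintro ⟨y, hy, rfl⟩
    have h1 : (sh ι k y).2 = y.2 + k := rfl
    constructor
    · rw [h1]
      exact Int.add_le_add_right hy.1 k
    · rw [h1]
      exact Int.add_le_add_right hy.2 k
  · intro hx
    refine ⟨(x.1, x.2 - k), ⟨?_, ?_⟩, ?_⟩
    · have := hx.1
      change a ≤ x.2 - k
      linarith
    · have := hx.2
      change x.2 - k ≤ b
      linarith
    · change (x.1, x.2 - k + k) = x
      rw [sub_add_cancel]

theorem ind {ι : Type} (m : ℕ) (L : List ((ι × ℤ) × Bool))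
    (hL : ∀ y ∈ L, y.1 ∈ lvl ι 0 m)
    (h : Models (lvl ι 0 m) {L} {∅, lvl ι 0 (m - 1), lvl ι 1 m} {lvl ι m m, lvl ι 0 0}) (N : ℕ) :
    Models (lvl ι 0 (N + m)) (relK L N) {∅, lvl ι (N + 1) (N + m)} {lvl ι 0 N} := by
  induction N with
  | zero =>
    have h1 : relK L 0 = {L} := by
      ext L'
      constructor
      · rintro ⟨k, hk, rfl⟩
        have hk0 : k = 0 := Nat.le_zero.1 hk
        subst hk0
        have h2 : wmap (sh ι ((0 : ℕ) : ℤ)) L = L := by
          unfold wmap
          conv_rhs => rw [← List.map_id L]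
          refine List.map_congr_left fun y _ => ?_
          change ((y.1.1, y.1.2 + ((0 : ℕ) : ℤ)), y.2) = y
          simp
        exact h2
      · intro h2
        have h2' : L' = L := h2
        refine ⟨0, le_rfl, ?_⟩
        rw [h2']
        unfold wmap
        conv_lhs => rw [← List.map_id L]
        refine List.map_congr_left fun y _ => ?_
        change y = ((y.1.1, y.1.2 + ((0 : ℕ) : ℤ)), y.2)
        simp
    rw [h1]
    have h2 : ((0 : ℕ) : ℤ) + (m : ℤ) = m := by simp
    have h3 : ((0 : ℕ) : ℤ) + 1 = 1 := by simp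
    rw [h2, h3]
    refine h.mono ?_ ?_
    · intro V hV
      rcases hV with rfl | rfl
      · exact Or.inl rfl
      · exact Or.inr (Or.inr rfl)
    · intro U hU
      have hU' : U = lvl ι 0 ((0 : ℕ) : ℤ) := hU
      rw [hU']
      exact Or.inr (by simp)
  | succ N ih =>
    have hS : lvl ι 0 (N + m) ∩ lvl ι (N + 1) (N + 1 + m) = lvl ι (N + 1) (N + m) := by
      ext x
      simp only [lvl, Set.mem_inter_iff, Set.mem_setOf_eq]
      constructor
      · rintro ⟨⟨h1, h2⟩, h3, h4⟩
        exact ⟨h3, h2⟩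
      · rintro ⟨h1, h2⟩
        exact ⟨⟨by omega, h2⟩, h1, by omega⟩
    have hSu : lvl ι 0 (N + m) ∪ lvl ι (N + 1) (N + 1 + m) =
        lvl ι 0 (((N + 1 : ℕ) : ℤ) + m) := by
      ext x
      simp only [lvl, Set.mem_union, Set.mem_setOf_eq]
      push_cast
      omega
    have hUu : lvl ι 0 (N : ℤ) ∪ lvl ι (N + 1) (N + 1) = lvl ι 0 ((N + 1 : ℕ) : ℤ) := by
      ext x
      simp only [lvl, Set.mem_union, Set.mem_setOf_eq]
      push_cast
      omega
    have hRu : relK L N ∪ {wmap (sh ι ((N : ℤ) + 1)) L} = relK L (N + 1) := by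
      ext L'
      simp only [relK, Set.mem_union, Set.mem_setOf_eq, Set.mem_singleton_iff]
      constructor
      · rintro (⟨k, hk, rfl⟩ | rfl)
        · exact ⟨k, by omega, rfl⟩
        · exact ⟨N + 1, le_rfl, by push_cast; rfl⟩
      · rintro ⟨k, hk, rfl⟩
        rcases Nat.lt_or_ge N k with h1 | h1
        · have : k = N + 1 := by omega
          subst this
          right
          push_cast
          rfl
        · exact Or.inl ⟨k, h1, rfl⟩
    have h₁ : Models (lvl ι (N + 1) (N + 1 + m)) {wmap (sh ι ((N : ℤ) + 1)) L}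
        {lvl ι 0 (N + m) ∩ lvl ι (N + 1) (N + 1 + m), lvl ι (N + 2) (N + 1 + m)}
        {lvl ι (N + 1 + m) (N + 1 + m), lvl ι (N + 1) (N + 1)} := by
      have h2 := Models.map (sh ι ((N : ℤ) + 1)) h
      rw [sh_image_lvl] at h2
      have e1 : (0 : ℤ) + ((N : ℤ) + 1) = N + 1 := by ring
      have e2 : (m : ℤ) + ((N : ℤ) + 1) = N + 1 + m := by ring
      rw [e1, e2, Set.image_singleton] at h2
      refine h2.mono ?_ ?_
      · intro V hV
        rcases hV with rfl | hV
        · refine ⟨lvl ι 0 (m - 1), Or.inr (Or.inl rfl), ?_⟩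
          change sh ι ((N : ℤ) + 1) '' lvl ι 0 (m - 1) = _
          rw [sh_image_lvl, hS, e1]
          congr 1
          ring
        · refine ⟨lvl ι 1 m, Or.inr (Or.inr rfl), ?_⟩
          change sh ι ((N : ℤ) + 1) '' lvl ι 1 m = _
          have hV' : V = lvl ι (N + 2) (N + 1 + m) := hV
          rw [sh_image_lvl, hV', e2]
          congr 1
          ring
      · intro U hU
        rcases hU with rfl | hU
        · refine ⟨lvl ι m m, Or.inl rfl, ?_⟩
          change sh ι ((N : ℤ) + 1) '' lvl ι m m = _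
          rw [sh_image_lvl, e2]
        · refine ⟨lvl ι 0 0, Or.inr rfl, ?_⟩
          change sh ι ((N : ℤ) + 1) '' lvl ι 0 0 = _
          have hU' : U = lvl ι (N + 1) (N + 1) := hU
          rw [sh_image_lvl, hU', e1]
    have h₀ : Models (lvl ι 0 (N + m)) (relK L N)
        {lvl ι 0 (N + m) ∩ lvl ι (N + 1) (N + 1 + m)} {lvl ι 0 N} := by
      refine ih.mono ?_ le_rfl
      intro V hV
      have hV' : V = lvl ι 0 (N + m) ∩ lvl ι (N + 1) (N + 1 + m) := hV
      rw [hV', hS]
      exact Or.inr rfl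
    have hsh : ∀ k : ℤ, ∀ y ∈ wmap (sh ι k) L, y.1 ∈ lvl ι k (m + k) := by
      intro k y hy
      obtain ⟨z, hz, rfl⟩ := List.mem_map.1 hy
      have h1 := hL z hz
      have h2 : (sh ι k z.1).2 = z.1.2 + k := rfl
      constructor
      · change k ≤ (sh ι k z.1).2
        rw [h2]
        have := h1.1
        omega
      · change (sh ι k z.1).2 ≤ m + k
        rw [h2]
        have := h1.2
        omega
    have hg := glue (lvl ι 0 (N + m)) (lvl ι (N + 1) (N + 1 + m)) (relK L N)
      {wmap (sh ι ((N : ℤ) + 1)) L} (lvl ι (N + 2) (N + 1 + m)) (lvl ι 0 N)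
      (lvl ι (N + 1 + m) (N + 1 + m)) (lvl ι (N + 1) (N + 1)) ?_ ?_ ?_ ?_ ?_ h₀ h₁
    · rw [hSu, hUu, hRu] at hg
      have e3 : ((N + 1 : ℕ) : ℤ) + 1 = N + 2 := by push_cast; ring
      have e4 : ((N + 1 : ℕ) : ℤ) + m = N + 1 + m := by push_cast; ring
      rw [e3, e4]
      rw [e4] at hg
      exact hg
    · rintro L' ⟨k, hk, rfl⟩ y hy
      have h1 := hsh k y hy
      have h2 := h1.1
      have h3 := h1.2
      constructor <;> omega
    · intro L' hL' y hy
      have hL'' : L' = wmap (sh ι ((N : ℤ) + 1)) L := hL'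
      rw [hL''] at hy
      have h1 := hsh _ y hy
      have h2 := h1.1
      have h3 := h1.2
      constructor <;> omega
    · intro x hx
      have h2 := hx.1
      have h3 := hx.2
      constructor <;> omega
    · rw [Set.disjoint_left]
      intro x hx hx'
      have h2 := hx.2
      have h3 := hx'.1
      omega
    · rw [Set.disjoint_left]
      intro x hx hx'
      have h2 := hx.1
      have h3 := hx'.2
      omega

end ORel
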