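import Pool.Agent.Lib_MP_051624_or.OSkew
import Pool.Agent.Lib_MP_051624_or.OWd

/-!
# Solving a relator on all covers, from a certificate

The certificate: a function `h : Z → ℕ` and an index `i` of the word `L` such that, for every `z`
outside the small set `bad`, among the base points (in `Z`) of the edges with the letter
`(L.get i).1` of the loop `L` at `z`, the base point of the `i`-th edge has the strictly largest
value of `h`.

Proof of `solv_of_cert`. Write `x₀ = (L.get i).1`. Let `Ω, θ', p` be a cover of the model and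
`g₀` a cocycle with values in `Γ`. Call `ω ∈ Ω` good if `¬ bad (p ω)`. Since all letters of `L`
belong to `S`, `p (θ' (mk L') ω) = θ (mk L') (p ω)` for all tails `L'` of `L`
(`equivariant_wd` and `mk_mem_wd`). Put `pt j ω = θ' (bp L j) ω`.

By induction on `k`, there is `g : X → Ω → Γ` with `g x = g₀ x` for `x ≠ x₀` and
`val θ' g L ω = 1` for all good `ω` with `h (p (pt i ω)) < k`. For the step from `k` to `k + 1`,
change `g x₀` only at the points `ω' = pt i ω`, `ω` good, `h (p ω') = k`; note that
`ω = (θ' (bp L i))⁻¹ ω'` is determined by `ω'`. The value of `g x₀` at `ω'` is chosen such that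
`val θ' g L ω = 1`; this is possible since `val θ' g L ω` is (a product of values not involving
`g x₀ ω'`) times `(g x₀ ω')^{±1}` times (a product of values not involving `g x₀ ω'`): the values
involved in `val θ' g L ω` are those of `g (L.get j).1` at `pt j ω`, and for `j ≠ i` with
`(L.get j).1 = x₀` the value of `h ∘ p` at `pt j ω` is smaller than `k`, so that `pt j ω ≠ ω'` and
moreover `g x₀` is not changed at `pt j ω`. For the good `ω` with `h (p (pt i ω)) < k`, the
equation remains true, since the values of `g x₀` involved in it are at points with `h ∘ p` smaller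
than `k`, where `g x₀` is not changed.

For `k` larger than all values of `h` (`Z` is finite) this gives `g` with `val θ' g L ω = 1` for
all good `ω`, and the proportion of the other points is at most `ε` by `Small.comp_triv`.
-/

open Equiv

namespace ORel

variable {X Z Γ : Type} [Group Γ]

private theorem bp_succ (y : X × Bool) (L : List (X × Bool)) (j : Fin L.length) :
    bp (y :: L) j.succ = bp L j := by
  unfold bp
  have h1 : (y :: L).get j.succ = L.get j := rfl
  rw [h1]
  cases (L.get j).2 <;> simp

private theorem bp_zero_true (x : X) (L : List (X × Bool)) :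
    bp ((x, true) :: L) ⟨0, Nat.succ_pos _⟩ = FreeGroup.mk L := by
  simp [bp]

private theorem bp_zero_false (x : X) (L : List (X × Bool)) :
    bp ((x, false) :: L) ⟨0, Nat.succ_pos _⟩ = FreeGroup.mk ((x, false) :: L) := by
  simp [bp]

/-- The value depends only on the first factor and on the value of the tail. -/
private theorem val_cons_eq (θ : FreeGroup X →* Perm Z) (y : X × Bool) (L : List (X × Bool))
    (z : Z) (g : X → Z → Γ) :
    val θ g (y :: L) z = (if y.2 then g y.1 (θ (bp (y :: L) ⟨0, Nat.succ_pos _⟩) z)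
      else (g y.1 (θ (bp (y :: L) ⟨0, Nat.succ_pos _⟩) z))⁻¹) * val θ g L z := by
  rcases y with ⟨x, b⟩
  cases b
  · rw [bp_zero_false]
    simp [val]
  · rw [bp_zero_true]
    simp [val]

/-- The value along a word depends only on the values of the cocycle at the base points of the
traversed edges. -/
theorem val_congr_bp (θ : FreeGroup X →* Perm Z) (g g' : X → Z → Γ) (L : List (X × Bool)) (z : Z)
    (h : ∀ j : Fin L.length, g (L.get j).1 (θ (bp L j) z) = g' (L.get j).1 (θ (bp L j) z)) :
    val θ g L z = val θ g' L z := by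
  induction L with
  | nil => rfl
  | cons y L ih =>
    have h0 : g y.1 (θ (bp (y :: L) ⟨0, Nat.succ_pos _⟩) z) =
        g' y.1 (θ (bp (y :: L) ⟨0, Nat.succ_pos _⟩) z) := h ⟨0, Nat.succ_pos _⟩
    have h1 : val θ g L z = val θ g' L z := by
      refine ih fun j => ?_
      have h2 := h j.succ
      rw [bp_succ] at h2
      exact h2
    rw [val_cons_eq, val_cons_eq, h0, h1]

private theorem val_factor (θ : FreeGroup X →* Perm Z) (g : X → Z → Γ) (L : List (X × Bool))
    (z : Z) (i : Fin L.length) :
    ∃ P Q : Γ, ∀ g' : X → Z → Γ,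
      (∀ j : Fin L.length, j ≠ i →
        g' (L.get j).1 (θ (bp L j) z) = g (L.get j).1 (θ (bp L j) z)) →
      val θ g' L z = P * (if (L.get i).2 then g' (L.get i).1 (θ (bp L i) z)
        else (g' (L.get i).1 (θ (bp L i) z))⁻¹) * Q := by
  induction L with
  | nil => exact i.elim0
  | cons y L ih =>
    refine Fin.cases ?_ (fun k => ?_) i
    · refine ⟨1, val θ g L z, fun g' hg' => ?_⟩
      have h1 : val θ g' L z = val θ g L z := by
        refine val_congr_bp θ g' g L z fun j => ?_
        have h2 := hg' j.succ (Fin.succ_ne_zero j)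
        rw [bp_succ] at h2
        exact h2
      rw [val_cons_eq, h1, one_mul]
      rfl
    · obtain ⟨P, Q, hPQ⟩ := ih k
      refine ⟨(if y.2 then g y.1 (θ (bp (y :: L) ⟨0, Nat.succ_pos _⟩) z)
        else (g y.1 (θ (bp (y :: L) ⟨0, Nat.succ_pos _⟩) z))⁻¹) * P, Q, fun g' hg' => ?_⟩
      have h0 : g' y.1 (θ (bp (y :: L) ⟨0, Nat.succ_pos _⟩) z) =
          g y.1 (θ (bp (y :: L) ⟨0, Nat.succ_pos _⟩) z) :=
        hg' ⟨0, Nat.succ_pos _⟩ (Ne.symm (Fin.succ_ne_zero k))
      have h1 := hPQ g' (fun j hj => by
        have h2 := hg' j.succ (fun h3 => hj (Fin.succ_injective _ h3))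
        rw [bp_succ] at h2
        exact h2)
      rw [val_cons_eq, h0, h1, bp_succ]
      simp only [mul_assoc]
      rfl

/-- The value of `g` at one edge can be chosen such that the value along the word is `1`, if the
other edges of the word are different from it. -/
theorem val_solve (θ : FreeGroup X →* Perm Z) (g : X → Z → Γ) (L : List (X × Bool)) (z : Z)
    (i : Fin L.length)
    (h : ∀ j : Fin L.length, j ≠ i → (L.get j).1 = (L.get i).1 →
      θ (bp L j) z ≠ θ (bp L i) z) :
    ∃ c : Γ, ∀ g' : X → Z → Γ, g' (L.get i).1 (θ (bp L i) z) = c →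
      (∀ j : Fin L.length, j ≠ i →
        g' (L.get j).1 (θ (bp L j) z) = g (L.get j).1 (θ (bp L j) z)) →
      val θ g' L z = 1 := by
  obtain ⟨P, Q, hPQ⟩ := val_factor θ g L z i
  cases hb : (L.get i).2 with
  | false =>
    refine ⟨Q * P, fun g' hc hg' => ?_⟩
    rw [hPQ g' hg', hb, hc]
    simp
  | true =>
    refine ⟨P⁻¹ * Q⁻¹, fun g' hc hg' => ?_⟩
    rw [hPQ g' hg', hb, hc]
    simp

/-- A certificate gives solvability on all covers. -/
theorem solv_of_cert {X Z : Type} [Finite Z] (S : Set X) (θ : FreeGroup X →* Perm Z)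
    (L : List (X × Bool)) (hL : ∀ y ∈ L, y.1 ∈ S) (U : Set X) (i : Fin L.length)
    (hi : (L.get i).1 ∈ U) (bad : Z → Prop) (ε : ℝ) (hbad : Small bad ε) (h : Z → ℕ)
    (hlt : ∀ z, ¬ bad z → ∀ j : Fin L.length, j ≠ i → (L.get j).1 = (L.get i).1 →
      h (θ (bp L j) z) < h (θ (bp L i) z)) :
    CSolv S θ {L} U ε := by
  classical
  intro Ω _ θ' p hp heq Γ _ g₀
  have hbp : ∀ (j : Fin L.length) (ω : Ω), p (θ' (bp L j) ω) = θ (bp L j) (p ω) := by
    intro j ω
    refine equivariant_wd heq ?_ ω
    unfold bp
    exact mk_mem_wd _ fun y hy => hL y (List.mem_of_mem_drop hy)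
  have hlt' : ∀ ω, ¬ bad (p ω) → ∀ j : Fin L.length, j ≠ i → (L.get j).1 = (L.get i).1 →
      h (p (θ' (bp L j) ω)) < h (p (θ' (bp L i) ω)) := by
    intro ω hω j hj hj'
    rw [hbp, hbp]
    exact hlt (p ω) hω j hj hj'
  have key : ∀ k : ℕ, ∃ g : X → Ω → Γ, (∀ x, x ≠ (L.get i).1 → g x = g₀ x) ∧
      ∀ ω, ¬ bad (p ω) → h (p (θ' (bp L i) ω)) < k → val θ' g L ω = 1 := by
    intro k
    induction k with
    | zero => exact ⟨g₀, fun _ _ => rfl, fun ω _ hω => absurd hω (Nat.not_lt_zero _)⟩
    | succ k ih =>
      obtain ⟨g, hg1, hg2⟩ := ih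
      have hex : ∀ ω, ∃ c : Γ, ¬ bad (p ω) → ∀ g' : X → Ω → Γ,
          g' (L.get i).1 (θ' (bp L i) ω) = c →
          (∀ j : Fin L.length, j ≠ i →
            g' (L.get j).1 (θ' (bp L j) ω) = g (L.get j).1 (θ' (bp L j) ω)) →
          val θ' g' L ω = 1 := by
        intro ω
        by_cases hω : bad (p ω)
        · exact ⟨1, fun h1 => absurd hω h1⟩
        · obtain ⟨c, hc⟩ := val_solve θ' g L ω i (fun j hj hj' h1 => by
            have h2 := hlt' ω hω j hj hj'
            rw [h1] at h2
            exact lt_irrefl _ h2)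
          exact ⟨c, fun _ => hc⟩
      choose c hc using hex
      let g' : X → Ω → Γ := fun x ω' =>
        if x = (L.get i).1 ∧ ¬ bad (p ((θ' (bp L i))⁻¹ ω')) ∧ h (p ω') = k then
          c ((θ' (bp L i))⁻¹ ω') else g x ω'
      have hne : ∀ x ω', h (p ω') ≠ k → g' x ω' = g x ω' := by
        intro x ω' h1
        exact if_neg fun h2 => h1 h2.2.2
      have hne' : ∀ x ω', x ≠ (L.get i).1 → g' x ω' = g x ω' := by
        intro x ω' h1
        exact if_neg fun h2 => h1 h2.1
      refine ⟨g', fun x hx => ?_, fun ω hω hlt2 => ?_⟩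
      · rw [← hg1 x hx]
        funext ω'
        exact hne' x ω' hx
      · rcases Nat.lt_succ_iff_lt_or_eq.1 hlt2 with h1 | h1
        · rw [← hg2 ω hω h1]
          refine val_congr_bp θ' g' g L ω fun j => ?_
          by_cases hj : (L.get j).1 = (L.get i).1
          · refine hne _ _ ?_
            by_cases hji : j = i
            · rw [hji]
              exact ne_of_lt h1
            · exact ne_of_lt ((hlt' ω hω j hji hj).trans h1)
          · exact hne' _ _ hj
        · refine hc ω hω g' ?_ ?_
          · have h2 : (θ' (bp L i))⁻¹ (θ' (bp L i) ω) = ω := by simp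
            have h3 : g' (L.get i).1 (θ' (bp L i) ω) =
                c ((θ' (bp L i))⁻¹ (θ' (bp L i) ω)) := by
              refine if_pos ⟨rfl, ?_, h1⟩
              rw [h2]
              exact hω
            rw [h3, h2]
          · intro j hji
            by_cases hj : (L.get j).1 = (L.get i).1
            · refine hne _ _ ?_
              have h2 := hlt' ω hω j hji hj
              rw [h1] at h2
              exact ne_of_lt h2
            · exact hne' _ _ hj
  obtain ⟨M, hM⟩ := (Set.finite_range h).bddAbove
  obtain ⟨g, hg1, hg2⟩ := key (M + 1)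
  refine ⟨g, fun x hx => hg1 x fun h1 => hx (h1 ▸ hi), fun L' hL' => ?_⟩
  have hLL : L' = L := hL'
  subst hLL
  refine (hbad.comp_triv hp).mono ?_ le_rfl
  intro ω hω
  by_contra h1
  exact hω (hg2 ω h1 (Nat.lt_succ_of_le (hM ⟨_, rfl⟩)))

end ORel
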