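import Pool.Agent.Lib_MP_051624_or.OBase
import Pool.Agent.Lib_MP_051624_or.OInd
import Pool.Agent.Lib_MP_051624_or.OCylB

/-!
# Theorem G

Proof of `theoremG`: `base` with `S = lvl ι 0 m`, `Vs = {∅, lvl ι 0 (m - 1), lvl ι 1 m}`,
`Us = {lvl ι m m, lvl ι 0 0}`; then `ind`, and `sofic_of_ind` (the window `∅` of the models of
`ind` with `d = 1`, `wd_empty`).
-/

open Equiv

namespace ORel

theorem theoremG {ι : Type} (m : ℕ) (L : List ((ι × ℤ) × Bool))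
    (hL : ∀ y ∈ L, y.1 ∈ lvl ι 0 m)
    (hV : ∀ V : Set (ι × ℤ), V = ∅ ∨ V = lvl ι 0 (m - 1) ∨ V = lvl ι 1 m →
      ∀ e ∈ Wd (lvl ι 0 m), e ∉ Wd V ⊔ Subgroup.normalClosure {FreeGroup.mk L} →
      ∃ (Q : Type) (_ : Group Q) (_ : Finite Q) (q : FreeGroup (ι × ℤ) →* Q),
        q (FreeGroup.mk L) = 1 ∧ q e ∉ (Wd V).map q)
    (N : Type) [Group N] [LinearOrder N] (hN : ∀ a b c : N, a < b → a * c < b * c)
    (hF : Folner N) (lam : FreeGroup (ι × ℤ) →* N) (hlam : lam (FreeGroup.mk L) = 1)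
    (hU : ∀ k : ℤ, k = 0 ∨ k = m → ∃ i : Fin L.length, (L.get i).1.2 = k ∧
      ∀ j j' : Fin L.length, (L.get j).1 = (L.get i).1 → (L.get j').1 = (L.get i).1 →
        lam (bp L j) = lam (bp L j') → j = j') :
    IsSofic (PresentedGroup {rho ι (FreeGroup.mk L)}) := by
  have h1 : Models (lvl ι 0 m) {L} {∅, lvl ι 0 (m - 1), lvl ι 1 m} {lvl ι m m, lvl ι 0 0} := by
    refine base (lvl ι 0 m) L hL N hN hF lam hlam _ _ ?_ ?_ ?_
    · exact Set.toFinite _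
    · rintro V (rfl | rfl | hV')
      · exact hV _ (Or.inl rfl)
      · exact hV _ (Or.inr (Or.inl rfl))
      · exact hV _ (Or.inr (Or.inr hV'))
    · rintro U (rfl | hU')
      · obtain ⟨i, hi, h2⟩ := hU m (Or.inr rfl)
        exact ⟨i, ⟨hi.symm.le, hi.le⟩, h2⟩
      · obtain ⟨i, hi, h2⟩ := hU 0 (Or.inl rfl)
        have hU'' : U = lvl ι 0 0 := hU'
        rw [hU'']
        exact ⟨i, ⟨hi.symm.le, hi.le⟩, h2⟩
  refine sofic_of_ind m L hL fun K E ε hε => ?_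
  obtain ⟨Z, hZ, hZ', θ, h2, h3, -⟩ := ind m L hL h1 K E ε hε
  refine ⟨Z, hZ, hZ', θ, h2, fun e he heS hne => ?_⟩
  have h4 := h3 ∅ (Or.inl rfl) e he heS (by
    rw [wd_empty, bot_sup_eq]
    exact hne)
  refine h4.mono ?_ le_rfl
  intro z hz
  exact ⟨1, Subgroup.one_mem _, by rw [map_one, hz]; rfl⟩

end ORel
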