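import Pool.Agent.Lib_MP_051624_or.ODefs

/-!
# The groups `(N × X →₀ ℤ) ⋊ N`: definition and order

Proof of `wr_order`. Choose any linear order on `X`, take the lexicographic linear order on
`N × X` (any linear order on this set would do), and the linear order on
`Lex (N × X →₀ ℤ)` (`Finsupp.Lex`), which is invariant under translations
(`a < b → a + c < b + c`). Order `WR N X` by comparing first the components `q`, then the
components `a` (for instance `LinearOrder.lift'` along the injective map
`u ↦ toLex (u.q, toLex u.a)` to `N ×ₗ Lex (N × X →₀ ℤ)`). Right invariance: let `u < v` and let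
`w` be arbitrary. If `u.q < v.q` then `(u * w).q = u.q * w.q < v.q * w.q = (v * w).q`. If
`u.q = v.q` and `u.a < v.a` then `(u * w).q = (v * w).q` and
`(u * w).a = u.a + act u.q w.a < v.a + act u.q w.a = (v * w).a`.
-/

namespace ORel

/-- The group `(N × X →₀ ℤ) ⋊ N`. -/
@[ext]
structure WR (N X : Type) where
  /-- the component in the free abelian group -/
  a : N × X →₀ ℤ
  /-- the component in `N` -/
  q : N

variable {N X : Type} [Group N]

/-- The left translation by `s`. -/
noncomputable def act (s : N) : (N × X →₀ ℤ) →+ (N × X →₀ ℤ) :=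
  Finsupp.mapDomain.addMonoidHom fun p => (s * p.1, p.2)

theorem act_single (s : N) (p : N × X) (k : ℤ) :
    act s (Finsupp.single p k) = Finsupp.single (s * p.1, p.2) k := by
  simp [act, Finsupp.mapDomain_single]

theorem act_one (v : N × X →₀ ℤ) : act (1 : N) v = v := by
  have : (fun p : N × X => ((1 : N) * p.1, p.2)) = id := by
    funext p
    simp
  simp only [act, Finsupp.mapDomain.addMonoidHom_apply, this, Finsupp.mapDomain_id]

theorem act_mul (s t : N) (v : N × X →₀ ℤ) : act (s * t) v = act s (act t v) := by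
  have : (fun p : N × X => ((s * t) * p.1, p.2)) =
      (fun p : N × X => (s * p.1, p.2)) ∘ (fun p : N × X => (t * p.1, p.2)) := by
    funext p
    simp [mul_assoc]
  simp only [act, Finsupp.mapDomain.addMonoidHom_apply, this, Finsupp.mapDomain_comp]

noncomputable instance : Mul (WR N X) := ⟨fun u v => ⟨u.a + act u.q v.a, u.q * v.q⟩⟩

noncomputable instance : One (WR N X) := ⟨⟨0, 1⟩⟩

noncomputable instance : Inv (WR N X) := ⟨fun u => ⟨-act u.q⁻¹ u.a, u.q⁻¹⟩⟩

theorem wr_mul_a (u v : WR N X) : (u * v).a = u.a + act u.q v.a := rfl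

theorem wr_mul_q (u v : WR N X) : (u * v).q = u.q * v.q := rfl

theorem wr_one_a : (1 : WR N X).a = 0 := rfl

theorem wr_one_q : (1 : WR N X).q = 1 := rfl

theorem wr_inv_a (u : WR N X) : (u⁻¹).a = -act u.q⁻¹ u.a := rfl

theorem wr_inv_q (u : WR N X) : (u⁻¹).q = u.q⁻¹ := rfl

noncomputable instance : Group (WR N X) :=
  Group.ofLeftAxioms
    (fun u v w => by
      ext1
      · simp only [wr_mul_a, wr_mul_q, map_add, act_mul, add_assoc]
      · simp only [wr_mul_q, mul_assoc])
    (fun u => by
      ext1
      · simp only [wr_mul_a, wr_one_a, wr_one_q, act_one, zero_add]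
      · simp only [wr_mul_q, wr_one_q, one_mul])
    (fun u => by
      ext1
      · simp only [wr_mul_a, wr_inv_a, wr_inv_q, wr_one_a, neg_add_cancel]
      · simp only [wr_mul_q, wr_inv_q, wr_one_q, inv_mul_cancel])

/-- The homomorphism `x ↦ (δ_{(1, x)}, lam x)`. -/
noncomputable def lamS (lam : FreeGroup X →* N) : FreeGroup X →* WR N X :=
  FreeGroup.lift fun x => ⟨Finsupp.single (1, x) 1, lam (FreeGroup.of x)⟩

theorem lamS_q (lam : FreeGroup X →* N) (w : FreeGroup X) : (lamS lam w).q = lam w := by
  refine FreeGroup.induction_on w ?_ ?_ ?_ ?_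
  · rw [map_one, map_one, wr_one_q]
  · intro x
    simp [lamS]
  · intro x ih
    rw [map_inv, map_inv, wr_inv_q]
    exact congrArg _ ih
  · intro u v hu hv
    rw [map_mul, map_mul, wr_mul_q, hu, hv]

private theorem wrA_fin (Y : Type) :
    ∃ _ : LinearOrder (Lex (Y →₀ ℤ)), ∀ a b c : Y →₀ ℤ, toLex a < toLex b → toLex (a + c) < toLex (b + c) := by
  classical
  let _ : LinearOrder Y := linearOrderOfSTO WellOrderingRel
  exact ⟨inferInstance, fun a b c h => add_lt_add_left h (toLex c)⟩

/-- The right-invariant order on `WR N X`. -/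
theorem wr_order (N X : Type) [Group N] [LinearOrder N]
    (hN : ∀ a b c : N, a < b → a * c < b * c) :
    ∃ _ : LinearOrder (WR N X), ∀ a b c : WR N X, a < b → a * c < b * c := by
  classical
  obtain ⟨oA, hA⟩ := wrA_fin (N × X)
  let g : WR N X → N ×ₗ Lex (N × X →₀ ℤ) := fun u => toLex (u.q, toLex u.a)
  have hg : Function.Injective g := by
    intro u v h
    have h1 : (u.q, toLex u.a) = (v.q, toLex v.a) := toLex.injective h
    have h2 := Prod.ext_iff.1 h1
    exact WR.ext (toLex.injective h2.2) h2.1
  refine ⟨LinearOrder.lift' g hg, fun a b c h => ?_⟩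
  have h' : g a < g b := h
  change g (a * c) < g (b * c)
  rw [Prod.Lex.toLex_lt_toLex] at h' ⊢
  rcases h' with h1 | ⟨h1, h2⟩
  · exact Or.inl (hN _ _ _ h1)
  · right
    have h3 : a.q = b.q := h1
    refine ⟨?_, ?_⟩
    · show a.q * c.q = b.q * c.q
      rw [h3]
    · show toLex (a.a + act a.q c.a) < toLex (b.a + act b.q c.a)
      rw [h3]
      exact hA _ _ _ h2

end ORel
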