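import Pool.Agent.Lib_MP_051624_or.OWrA

/-!
# The Følner property of `(N × X →₀ ℤ) ⋊ N`

Proof of `wr_folner`. Let `S` be a finite subset of `WR N X` and `ε > 0`. Let `S'` be the image of
`S` in `N` and let `T'` be a nonempty finite subset of `N` such that the `t ∈ T'` with
`s * t ∉ T'` for some `s ∈ S'` are at most `(ε / 2) * card T'` many. For `s ∈ S` and `t ∈ T'` put
`c s t = act (s.q * t)⁻¹ s.a`, an element of `N × X →₀ ℤ`. Let `F` be the finite union of the
supports of the `c s t` (`s ∈ S`, `t ∈ T'`), and let `B` be a natural number larger than all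
the absolute values of the coefficients of the `c s t`. Let `M` be a large natural number with
`2 * B * card F ≤ (ε / 2) * M`. Let `Box` be the finite set of the `α : N × X →₀ ℤ` with support
in `F` and with values in `[0, M)`; it has `M ^ card F` elements. Let
`T = {⟨act t α, t⟩ | t ∈ T', α ∈ Box}`. The map `(t, α) ↦ ⟨act t α, t⟩` is injective
(as `act t` is), so `card T = card T' * card Box`.

For `s ∈ S`, `t ∈ T'`, `α`: `s * ⟨act t α, t⟩ = ⟨s.a + act s.q (act t α), s.q * t⟩ =
⟨act (s.q * t) (c s t + α), s.q * t⟩`. Hence it belongs to `T` as soon as `s.q * t ∈ T'` and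
`c s t + α ∈ Box`; the support condition always holds, and the values are in `[0, M)` if
`B ≤ α f < M - B` for all `f ∈ F`. The number of `α ∈ Box` for which this fails for some `f ∈ F`
is at most `card F * 2 * B * M ^ (card F - 1) ≤ (ε / 2) * card Box`. So the number of the
bad elements of `T` is at most
`(ε / 2) * card T' * card Box + card T' * (ε / 2) * card Box = ε * card T`.

(To count, it may be convenient to parametrise `Box` by the functions `F → Fin M`,
`Fintype.piFinset`, or by `Fintype.card (F → Fin M) = M ^ card F`, and to bound, for a fixed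
`f ∈ F`, the number of the functions with a value at `f` outside of `[B, M - B)` by
`2 * B * M ^ (card F - 1)`, or its proportion by `2 * B / M`.)
-/

namespace ORel

theorem wr_folner (N X : Type) [Group N] (hF : Folner N) : Folner (WR N X) := by
  classical
  intro S ε hε
  obtain ⟨T', hT'ne, hT'⟩ := hF (S.image fun u => u.q) (ε / 2) (by positivity)
  set c : WR N X → N → (N × X →₀ ℤ) := fun s t => act (s.q * t)⁻¹ s.a with hc
  set F : Finset (N × X) := S.biUnion fun s => T'.biUnion fun t => (c s t).support with hFd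
  set B : ℕ := S.sup fun s => T'.sup fun t => F.sup fun f => (c s t f).natAbs with hB
  have hcF : ∀ s ∈ S, ∀ t ∈ T', (c s t).support ⊆ F := fun s hs t ht f hf =>
    Finset.mem_biUnion.2 ⟨s, hs, Finset.mem_biUnion.2 ⟨t, ht, hf⟩⟩
  have hcB : ∀ s ∈ S, ∀ t ∈ T', ∀ f ∈ F, (c s t f).natAbs ≤ B := fun s hs t ht f hf => by
    have h1 : (c s t f).natAbs ≤ F.sup fun f => (c s t f).natAbs :=
      Finset.le_sup (f := fun f => (c s t f).natAbs) hf
    have h2 : (F.sup fun f => (c s t f).natAbs) ≤ T'.sup fun t => F.sup fun f => (c s t f).natAbs :=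
      Finset.le_sup (f := fun t => F.sup fun f => (c s t f).natAbs) ht
    have h3 : (T'.sup fun t => F.sup fun f => (c s t f).natAbs) ≤ B :=
      Finset.le_sup (f := fun s => T'.sup fun t => F.sup fun f => (c s t f).natAbs) hs
    exact h1.trans (h2.trans h3)
  obtain ⟨M, hM1, hM2, hM3⟩ : ∃ M : ℕ, 1 ≤ M ∧ 2 * B ≤ M ∧
      2 * (B : ℝ) * F.card ≤ ε / 2 * M := by
    obtain ⟨n, hn⟩ := exists_nat_ge (2 * (B : ℝ) * F.card / (ε / 2))
    refine ⟨n + 2 * B + 1, by omega, by omega, ?_⟩
    rw [div_le_iff₀ (by positivity)] at hn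
    push_cast
    have h1 : 0 ≤ ε / 2 * (2 * (B : ℝ) + 1) := by positivity
    nlinarith
  set Box : Finset (N × X →₀ ℤ) := F.finsupp fun _ => Finset.Ico (0 : ℤ) M with hBox
  set Good : Finset (N × X →₀ ℤ) := F.finsupp fun _ => Finset.Ico (B : ℤ) (M - B) with hGood
  have hcb : Box.card = M ^ F.card := by
    rw [hBox, Finset.card_finsupp, Finset.prod_const, Int.card_Ico]
    simp
  have hcg : Good.card = (M - 2 * B) ^ F.card := by
    rw [hGood, Finset.card_finsupp, Finset.prod_const, Int.card_Ico]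
    congr 1
    omega
  have hGB : Good ⊆ Box := by
    intro α hα
    rw [hGood, Finset.mem_finsupp_iff] at hα
    rw [hBox, Finset.mem_finsupp_iff]
    refine ⟨hα.1, fun f hf => ?_⟩
    have h1 := Finset.mem_Ico.1 (hα.2 f hf)
    rw [Finset.mem_Ico]
    constructor <;> omega
  have hbad : ((Box \ Good).card : ℝ) ≤ ε / 2 * Box.card := by
    have hMr : (0 : ℝ) < M := by exact_mod_cast hM1
    rw [Finset.card_sdiff_of_subset hGB, Nat.cast_sub (Finset.card_le_card hGB), hcb, hcg]
    push_cast [Nat.cast_sub hM2]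
    have h1 : 2 * (B : ℝ) / M ≤ 1 := by
      rw [div_le_one hMr]
      exact_mod_cast hM2
    have h2 := one_add_mul_le_pow (a := -(2 * (B : ℝ) / M)) (by linarith) F.card
    have h3 : ((M : ℝ) - 2 * B) ^ F.card = (1 + -(2 * (B : ℝ) / M)) ^ F.card * (M : ℝ) ^ F.card := by
      rw [← mul_pow]
      congr 1
      field_simp
      ring
    have h4 : (F.card : ℝ) * (2 * (B : ℝ) / M) ≤ ε / 2 := by
      rw [← mul_div_assoc, div_le_iff₀ hMr]
      linarith
    have h5 : (1 - ε / 2) ≤ (1 + -(2 * (B : ℝ) / M)) ^ F.card := by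
      linarith
    have h6 : (0 : ℝ) ≤ (M : ℝ) ^ F.card := by positivity
    have h7 := mul_le_mul_of_nonneg_right h5 h6
    rw [h3]
    linarith
  have hinj : Function.Injective fun p : N × (N × X →₀ ℤ) => (⟨act p.1 p.2, p.1⟩ : WR N X) := by
    rintro ⟨t, α⟩ ⟨t', α'⟩ h
    have h1 : t = t' := congrArg WR.q h
    subst h1
    have h2 : act t α = act t α' := congrArg WR.a h
    have h3 := congrArg (act t⁻¹) h2
    rw [← act_mul, ← act_mul, inv_mul_cancel, act_one, act_one] at h3
    rw [h3]
  set T : Finset (WR N X) := (T' ×ˢ Box).image fun p => (⟨act p.1 p.2, p.1⟩ : WR N X) with hT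
  have hTc : T.card = T'.card * Box.card := by
    rw [hT, Finset.card_image_of_injective _ hinj, Finset.card_product]
  set W : Finset N := T'.filter fun t => ¬ ∀ s ∈ S.image (fun u => u.q), s * t ∈ T' with hW
  have hWc : (W.card : ℝ) ≤ ε / 2 * T'.card := by
    have h1 : {τ : N | τ ∈ T' ∧ ¬ ∀ s ∈ S.image (fun u => u.q), s * τ ∈ T'} = (W : Set N) := by
      ext τ
      rw [hW, Finset.coe_filter]
    rw [h1, Set.ncard_coe_finset] at hT'
    exact hT'
  have hne : T.Nonempty := by
    rw [← Finset.card_pos, hTc, hcb]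
    exact Nat.mul_pos hT'ne.card_pos (pow_pos hM1 _)
  refine ⟨T, hne, ?_⟩
  have hsub : {τ : WR N X | τ ∈ T ∧ ¬ ∀ s ∈ S, s * τ ∈ T} ⊆
      (((W ×ˢ Box) ∪ (T' ×ˢ (Box \ Good))).image fun p => (⟨act p.1 p.2, p.1⟩ : WR N X) :
        Finset (WR N X)) := by
    rintro τ ⟨hτ, hτ'⟩
    rw [hT, Finset.mem_image] at hτ
    obtain ⟨⟨t, α⟩, hp, rfl⟩ := hτ
    rw [Finset.mem_product] at hp
    obtain ⟨ht, hα⟩ := hp
    simp only at ht hα
    rw [Finset.mem_coe, Finset.mem_image]
    refine ⟨(t, α), ?_, rfl⟩
    by_contra hcon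
    rw [Finset.mem_union, Finset.mem_product, Finset.mem_product] at hcon
    simp only [not_or, not_and] at hcon
    obtain ⟨hc1, hc2⟩ := hcon
    have htW : t ∉ W := fun h => hc1 h hα
    have hαG : α ∈ Good := by
      by_contra h
      exact hc2 ht (Finset.mem_sdiff.2 ⟨hα, h⟩)
    have htg : ∀ s ∈ S.image (fun u => u.q), s * t ∈ T' := by
      by_contra h
      exact htW (Finset.mem_filter.2 ⟨ht, h⟩)
    apply hτ'
    intro s hs
    rw [hT, Finset.mem_image]
    refine ⟨(s.q * t, c s t + α), ?_, ?_⟩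
    · rw [Finset.mem_product]
      refine ⟨htg s.q (Finset.mem_image_of_mem _ hs), ?_⟩
      rw [hGood, Finset.mem_finsupp_iff] at hαG
      change c s t + α ∈ Box
      rw [hBox, Finset.mem_finsupp_iff]
      refine ⟨fun f hf => ?_, fun f hf => ?_⟩
      · rcases Finset.mem_union.1 (Finsupp.support_add hf) with h | h
        · exact hcF s hs t ht h
        · exact hαG.1 h
      · have h1 := Finset.mem_Ico.1 (hαG.2 f hf)
        have h2 := hcB s hs t ht f hf
        rw [Finsupp.add_apply, Finset.mem_Ico]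
        constructor <;> omega
    · have h1 : act (s.q * t) (c s t + α) = s.a + act s.q (act t α) := by
        rw [map_add, hc]
        simp only
        rw [← act_mul, mul_inv_cancel, act_one, act_mul]
      apply WR.ext
      · exact h1
      · rfl
  have hfin := Set.ncard_le_ncard hsub (Finset.finite_toSet _)
  rw [Set.ncard_coe_finset, Finset.card_image_of_injective _ hinj] at hfin
  have h1 : ((W ×ˢ Box) ∪ (T' ×ˢ (Box \ Good))).card ≤
      W.card * Box.card + T'.card * (Box \ Good).card := by
    refine (Finset.card_union_le _ _).trans ?_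
    rw [Finset.card_product, Finset.card_product]
  have h2 : ({τ : WR N X | τ ∈ T ∧ ¬ ∀ s ∈ S, s * τ ∈ T}.ncard : ℝ) ≤
      W.card * Box.card + T'.card * (Box \ Good).card := by
    exact_mod_cast hfin.trans h1
  rw [hTc]
  push_cast
  have h3 : (W.card : ℝ) * Box.card ≤ ε / 2 * T'.card * Box.card :=
    mul_le_mul_of_nonneg_right hWc (Nat.cast_nonneg _)
  have h4 : (T'.card : ℝ) * (Box \ Good).card ≤ T'.card * (ε / 2 * Box.card) :=
    mul_le_mul_of_nonneg_left hbad (Nat.cast_nonneg _)
  linarith

end ORel
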