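import Pool.Agent.Lib_MP_051624_or.TRw

/-!
# Bounds for the levels, small sets of the cylinder

* `lev_bound`: every finite set of words has a bound for the levels of all its tails.
* `cyl_small`: a set of points of `Ω × ZMod M` which, for the levels `l` with `B ≤ l < M - B`, has
  proportion at most `δ` on the level, has proportion at most `δ + 2 * B / M`: count the points level
  by level (`Set.ncard`, a sum over `ZMod M`, or over `Finset.range M`).
-/

open Equiv

namespace ORel

variable {X Ω : Type}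

private theorem TCylS_list (φ : X → ℤ) (L : List (X × Bool)) :
    ∃ B : ℕ, ∀ L', L' <:+ L → |lev φ L'| ≤ B := by
  induction L with
  | nil =>
    refine ⟨0, fun L' hL' => ?_⟩
    rw [List.suffix_nil] at hL'
    subst hL'
    simp [lev]
  | cons y L ih =>
    obtain ⟨B, hB⟩ := ih
    refine ⟨max B (lev φ (y :: L)).natAbs, fun L' hL' => ?_⟩
    rw [List.suffix_cons_iff] at hL'
    rcases hL' with rfl | hL'
    · have h1 : |lev φ (y :: L)| = ((lev φ (y :: L)).natAbs : ℤ) := Int.abs_eq_natAbs _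
      rw [h1]
      exact_mod_cast le_max_right _ _
    · refine (hB L' hL').trans ?_
      exact_mod_cast le_max_left _ _

private theorem TCylS_sum {Z : Type} [Finite Z] {M : ℕ} [NeZero M] (P : Z × ZMod M → Prop)
    {δ : ℝ} (h : ∀ i : ZMod M, Small (fun z => P (z, i)) δ) : Small P δ := by
  classical
  have : Fintype Z := Fintype.ofFinite Z
  unfold Small at *
  have h1 : {x | P x}.ncard = ∑ i : ZMod M, {z | P (z, i)}.ncard := by
    rw [Set.ncard_eq_toFinset_card']
    rw [Finset.card_eq_sum_card_fiberwise (f := Prod.snd) (t := Finset.univ)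
      (fun _ _ => Finset.mem_coe.2 (Finset.mem_univ _))]
    refine Finset.sum_congr rfl fun i _ => ?_
    rw [Set.ncard_eq_toFinset_card']
    refine Finset.card_bij' (fun x _ => x.1) (fun z _ => (z, i)) ?_ ?_ ?_ ?_
    · rintro ⟨z, j⟩ hx
      simp only [Finset.mem_filter, Set.mem_toFinset, Set.mem_ofPred_eq] at hx ⊢
      obtain ⟨hx1, rfl⟩ := hx
      exact hx1
    · intro z hz
      simp only [Finset.mem_filter, Set.mem_toFinset, Set.mem_ofPred_eq] at hz ⊢
      exact ⟨hz, trivial⟩
    · rintro ⟨z, j⟩ hx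
      simp only [Finset.mem_filter, Set.mem_toFinset, Set.mem_ofPred_eq] at hx
      obtain ⟨-, rfl⟩ := hx
      rfl
    · intro z _
      rfl
  rw [h1, Nat.card_prod, Nat.card_zmod]
  push_cast
  calc (∑ i : ZMod M, ({z | P (z, i)}.ncard : ℝ)) ≤ ∑ _i : ZMod M, δ * (Nat.card Z : ℝ) :=
        Finset.sum_le_sum fun i _ => h i
    _ = δ * ((Nat.card Z : ℝ) * M) := by
        rw [Finset.sum_const, Finset.card_univ, ZMod.card, nsmul_eq_mul]
        ring

private theorem TCylS_bad {Z : Type} [Finite Z] {M : ℕ} [NeZero M] (B : Finset (ZMod M))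
    {β : ℝ} (h : (B.card : ℝ) ≤ β * M) : Small (fun x : Z × ZMod M => x.2 ∈ B) β := by
  classical
  have h1 : {x : Z × ZMod M | x.2 ∈ B} = (Set.univ : Set Z) ×ˢ (B : Set (ZMod M)) := by
    ext x
    simp
  unfold Small
  rw [h1, Set.ncard_prod, Set.ncard_univ, Set.ncard_coe_finset, Nat.card_prod, Nat.card_zmod]
  push_cast
  have h2 : (0 : ℝ) ≤ Nat.card Z := Nat.cast_nonneg _
  have h3 := mul_le_mul_of_nonneg_left h h2
  linarith

private theorem TCylS_levels {Z : Type} [Finite Z] {M : ℕ} [NeZero M] (P : Z × ZMod M → Prop)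
    (B : Finset (ZMod M)) {δ β : ℝ} (hδ : 0 ≤ δ) (hB : (B.card : ℝ) ≤ β * M)
    (h : ∀ i : ZMod M, i ∉ B → Small (fun z => P (z, i)) δ) : Small P (δ + β) := by
  classical
  have h1 : Small (fun x : Z × ZMod M => x.2 ∉ B ∧ P x) δ := by
    refine TCylS_sum _ fun i => ?_
    by_cases hi : i ∈ B
    · exact (small_false (Z := Z) hδ).mono (fun z hz => hz.1 hi) le_rfl
    · exact (h i hi).mono (fun z hz => hz.2) le_rfl
  refine (h1.or (TCylS_bad (Z := Z) B hB)).mono (fun x hx => ?_) le_rfl
  by_cases hi : x.2 ∈ B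
  · exact Or.inr hi
  · exact Or.inl ⟨hi, hx⟩

theorem lev_bound (φ : X → ℤ) (Ls : Set (List (X × Bool))) (h : Ls.Finite) :
    ∃ B : ℕ, ∀ L ∈ Ls, ∀ L', L' <:+ L → |lev φ L'| ≤ B := by
  classical
  choose b hb using TCylS_list φ
  refine ⟨h.toFinset.sup b, fun L hL L' hL' => (hb L L' hL').trans ?_⟩
  exact_mod_cast Finset.le_sup (f := b) (h.mem_toFinset.2 hL)

theorem cyl_small [Finite Ω] (M B : ℕ) (hM : 0 < M) (δ ε : ℝ) (hδ : 0 ≤ δ)
    (hε : δ + 2 * B / M ≤ ε) (P : Ω × ZMod M → Prop)
    (h : ∀ l : ℤ, (B : ℤ) ≤ l → l + B < M → Small (fun ω => P (ω, (l : ZMod M))) δ) :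
    Small P ε := by
  classical
  have : NeZero M := ⟨hM.ne'⟩
  have hM' : (0 : ℝ) < M := by exact_mod_cast hM
  refine (TCylS_levels P
    (Finset.univ.filter fun i : ZMod M => i.val < B ∨ M ≤ i.val + B) (δ := δ) (β := 2 * B / M)
    hδ ?_ ?_).mono (fun x hx => hx) hε
  · have h1 : (Finset.univ.filter fun i : ZMod M => i.val < B ∨ M ≤ i.val + B).card ≤
        (Finset.range B ∪ Finset.Ico (M - B) M).card := by
      refine Finset.card_le_card_of_injOn ZMod.val ?_ (ZMod.val_injective M).injOn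
      intro i hi
      have hi' : i.val < B ∨ M ≤ i.val + B := by simpa using hi
      have h2 := ZMod.val_lt i
      rw [Finset.mem_coe, Finset.mem_union, Finset.mem_range, Finset.mem_Ico]
      omega
    have h2 := Finset.card_union_le (Finset.range B) (Finset.Ico (M - B) M)
    rw [Finset.card_range, Nat.card_Ico] at h2
    have h3 : (Finset.univ.filter fun i : ZMod M => i.val < B ∨ M ≤ i.val + B).card ≤
        2 * B := by omega
    rw [div_mul_cancel₀ _ hM'.ne']
    exact_mod_cast h3
  · intro i hi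
    have hi' : ¬ (i.val < B ∨ M ≤ i.val + B) := by simpa using hi
    have h1 := h (i.val : ℤ) (by omega) (by omega)
    rw [Int.cast_natCast, ZMod.natCast_zmod_val] at h1
    exact h1

end ORel
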