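import Pool.Agent.Lib_MP_051624_or.TDefs

/-!
# Elementary operations on models

* `Mod.mono`: clear (`wd_mono` for the smaller set of letters).
* `Mod.trivial`: the one-point model.
* `Mod.prod`: given `E, ε`, take the models `Z₁, θ₁` and `Z₂, θ₂` of the hypotheses for `E` and
  `ε / 2`, and the diagonal action on `Z₁ × Z₂`. The projections are `Triv` and equivariant for all
  words; use `Small.comp_triv` and `Small.or`. If `θ d z = θ e z` in the product then also in both
  factors. The function of a certificate is composed with the projection.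
* `Mod.of_finite`: induction on the finite sets (`Set.Finite.induction_on`), with `Mod.prod`; start
  with `Mod.trivial`.
* `Mod.map`: see `OShift` for the plan: for `E` and `ε` apply the hypothesis to the image of `E`
  under `FreeGroup.map f.symm`, and put `θ = θ'.comp (FreeGroup.map f.symm)`. One has
  `mk (wmap f L) = FreeGroup.map f (mk L)`, `wmap f (s.drop i) = (wmap f s).drop i` (`List.map_drop`),
  `(Wd V).map (FreeGroup.map f) = Wd (f '' V)` (`map_wd`), and the normal closure of the relabelled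
  relators is the image of the normal closure under the isomorphism `FreeGroup.map f`.
-/

open Equiv

namespace ORel

variable {X : Type} {S S' : Set X} {R : Set (List (X × Bool))} {Vs Vs' Vs₁ Vs₂ : Set (Set X)}
  {Cs Cs' Cs₁ Cs₂ : Set (CD X)}

theorem Mod.mono (h : Mod S R Vs Cs) (hS : S' ⊆ S) (hV : Vs' ⊆ Vs) (hC : Cs' ⊆ Cs) :
    Mod S' R Vs' Cs' := by
  intro E ε hε
  obtain ⟨Z, h1, h2, θ, h3, h4, h5⟩ := h E ε hε
  exact ⟨Z, h1, h2, θ, h3, fun V hV' e he heS => h4 V (hV hV') e he (wd_mono hS heS),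
    fun c hc => h5 c (hC hc)⟩

theorem Mod.trivial (S : Set X) (R : Set (List (X × Bool))) : Mod S R ∅ ∅ := by
  intro E ε hε
  refine ⟨Unit, inferInstance, inferInstance, 1, fun L _ => ?_, fun V hV => absurd hV (by simp),
    fun c hc => absurd hc (by simp)⟩
  exact (small_false (Z := Unit) hε.le).mono (fun z hz => hz (Subsingleton.elim _ _)) le_rfl

/-- the diagonal action -/
private def TMod_prod {X Z₁ Z₂ : Type} (θ₁ : FreeGroup X →* Perm Z₁) (θ₂ : FreeGroup X →* Perm Z₂) :
    FreeGroup X →* Perm (Z₁ × Z₂) where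
  toFun w := Equiv.prodCongr (θ₁ w) (θ₂ w)
  map_one' := by ext1 z; simp
  map_mul' u v := by ext1 z; simp [Prod.map]

private theorem TMod_prod_apply {X Z₁ Z₂ : Type} (θ₁ : FreeGroup X →* Perm Z₁)
    (θ₂ : FreeGroup X →* Perm Z₂) (w : FreeGroup X) (z : Z₁ × Z₂) :
    TMod_prod θ₁ θ₂ w z = (θ₁ w z.1, θ₂ w z.2) := rfl

private theorem TMod_fst {Z₁ Z₂ : Type} [Finite Z₂] [Nonempty Z₂] :
    Triv (Prod.fst : Z₁ × Z₂ → Z₁) := ⟨Z₂, inferInstance, inferInstance, Equiv.refl _, fun _ => rfl⟩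

private theorem TMod_snd {Z₁ Z₂ : Type} [Finite Z₁] [Nonempty Z₁] :
    Triv (Prod.snd : Z₁ × Z₂ → Z₂) :=
  ⟨Z₁, inferInstance, inferInstance, Equiv.prodComm _ _, fun _ => rfl⟩

theorem Mod.prod (h₁ : Mod S R Vs₁ Cs₁) (h₂ : Mod S R Vs₂ Cs₂) :
    Mod S R (Vs₁ ∪ Vs₂) (Cs₁ ∪ Cs₂) := by
  intro E ε hε
  have hε2 : 0 < ε / 2 := by positivity
  obtain ⟨Z₁, i1, j1, θ₁, a1, b1, c1⟩ := h₁ E (ε / 2) hε2
  obtain ⟨Z₂, i2, j2, θ₂, a2, b2, c2⟩ := h₂ E (ε / 2) hε2
  refine ⟨Z₁ × Z₂, inferInstance, inferInstance, TMod_prod θ₁ θ₂, ?_, ?_, ?_⟩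
  · intro L hL
    have h3 := ((a1 L hL).comp_triv (TMod_fst (Z₁ := Z₁) (Z₂ := Z₂))).or
      ((a2 L hL).comp_triv (TMod_snd (Z₁ := Z₁) (Z₂ := Z₂)))
    refine h3.mono ?_ (by linarith)
    intro z hz
    by_contra hc
    push Not at hc
    apply hz
    rw [TMod_prod_apply, hc.1, hc.2]
  · rintro V (hV | hV) e he heS heV
    · refine ((b1 V hV e he heS heV).comp_triv (TMod_fst (Z₁ := Z₁) (Z₂ := Z₂))).mono ?_
        (by linarith)
      rintro z ⟨d, hd, hdz⟩
      exact ⟨d, hd, congrArg Prod.fst hdz⟩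
    · refine ((b2 V hV e he heS heV).comp_triv (TMod_snd (Z₁ := Z₁) (Z₂ := Z₂))).mono ?_
        (by linarith)
      rintro z ⟨d, hd, hdz⟩
      exact ⟨d, hd, congrArg Prod.snd hdz⟩
  · rintro c (hc | hc)
    · obtain ⟨f, hf⟩ := c1 c hc
      refine ⟨fun z => f z.1, (hf.comp_triv (TMod_fst (Z₁ := Z₁) (Z₂ := Z₂))).mono ?_
        (by linarith)⟩
      exact fun z hz => hz
    · obtain ⟨f, hf⟩ := c2 c hc
      refine ⟨fun z => f z.2, (hf.comp_triv (TMod_snd (Z₁ := Z₁) (Z₂ := Z₂))).mono ?_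
        (by linarith)⟩
      exact fun z hz => hz

theorem Mod.of_finite (hV : Vs.Finite) (hC : Cs.Finite) (h₁ : ∀ V ∈ Vs, Mod S R {V} ∅)
    (h₂ : ∀ c ∈ Cs, Mod S R ∅ {c}) : Mod S R Vs Cs := by
  have e1 : Mod S R Vs ∅ := by
    induction Vs, hV using Set.Finite.induction_on with
    | empty => exact Mod.trivial S R
    | @insert V Vs hVn hVf ih =>
      have h3 := (h₁ V (Set.mem_insert _ _)).prod (ih fun W hW => h₁ W (Set.mem_insert_of_mem _ hW))
      rwa [Set.empty_union, Set.singleton_union] at h3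
  have e2 : Mod S R ∅ Cs := by
    induction Cs, hC using Set.Finite.induction_on with
    | empty => exact Mod.trivial S R
    | @insert c Cs hcn hcf ih =>
      have h3 := (h₂ c (Set.mem_insert _ _)).prod (ih fun W hW => h₂ W (Set.mem_insert_of_mem _ hW))
      rwa [Set.empty_union, Set.singleton_union] at h3
  have h3 := e1.prod e2
  rwa [Set.union_empty, Set.empty_union] at h3

private theorem TMod_mk {X Y : Type} (f : X → Y) (L : List (X × Bool)) :
    FreeGroup.map f (FreeGroup.mk L) = FreeGroup.mk (wmap f L) := FreeGroup.map.mk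

private theorem TMod_symm_map {X Y : Type} (f : X ≃ Y) (w : FreeGroup X) :
    FreeGroup.map f.symm (FreeGroup.map f w) = w := by
  rw [FreeGroup.map.comp]
  have : (f.symm ∘ f : X → X) = id := by
    funext x
    simp
  rw [this, FreeGroup.map.id]

private theorem TMod_map_symm {X Y : Type} (f : X ≃ Y) (w : FreeGroup Y) :
    FreeGroup.map f (FreeGroup.map f.symm w) = w := by
  rw [FreeGroup.map.comp]
  have : (f ∘ f.symm : Y → Y) = id := by
    funext x
    simp
  rw [this, FreeGroup.map.id]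

theorem Mod.map {Y : Type} (f : X ≃ Y) (h : Mod S R Vs Cs) :
    Mod (f '' S) (wmap f '' R) ((fun V => f '' V) '' Vs)
      ((fun c : CD X => ((wmap f c.1, c.2.1, c.2.2) : CD Y)) '' Cs) := by
  classical
  intro E ε hε
  obtain ⟨Z, hZ, hZ', θ', h1, h2, h3⟩ := h (E.image (FreeGroup.map f.symm)) ε hε
  have e0 : ∀ L : List (X × Bool),
      (θ'.comp (FreeGroup.map f.symm)) (FreeGroup.mk (wmap f L)) = θ' (FreeGroup.mk L) := by
    intro L
    rw [MonoidHom.comp_apply, ← TMod_mk, TMod_symm_map]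
  refine ⟨Z, hZ, hZ', θ'.comp (FreeGroup.map f.symm), ?_, ?_, ?_⟩
  · rintro _ ⟨L, hL, rfl⟩
    rw [e0]
    exact h1 L hL
  · rintro _ ⟨V, hV, rfl⟩ e he heS heV
    have h4 := h2 V hV (FreeGroup.map f.symm e) (Finset.mem_image_of_mem _ he) ?_ ?_
    · refine h4.mono ?_ le_rfl
      rintro z ⟨d, hd, hdz⟩
      have hd' : d ∈ (Wd V).map (FreeGroup.map f) := by
        rw [map_wd]
        exact hd
      obtain ⟨d', hd', rfl⟩ := hd'
      refine ⟨d', hd', ?_⟩
      rw [MonoidHom.comp_apply, MonoidHom.comp_apply, TMod_symm_map] at hdz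
      exact hdz
    · have heS' : e ∈ (Wd S).map (FreeGroup.map f) := by
        rw [map_wd]
        exact heS
      obtain ⟨e', he', rfl⟩ := heS'
      rw [TMod_symm_map]
      exact he'
    · intro hcon
      apply heV
      have h5 : e ∈ (Wd V ⊔ Subgroup.normalClosure (FreeGroup.mk '' R)).map (FreeGroup.map f) :=
        ⟨_, hcon, TMod_map_symm f e⟩
      have hsurj : Function.Surjective (FreeGroup.map f : FreeGroup X →* FreeGroup Y) :=
        fun w => ⟨_, TMod_map_symm f w⟩
      rw [Subgroup.map_sup, map_wd, Subgroup.map_normalClosure _ _ hsurj] at h5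
      have h6 : (FreeGroup.map f : FreeGroup X →* FreeGroup Y) '' (FreeGroup.mk '' R) =
          FreeGroup.mk '' (wmap f '' R) := by
        rw [Set.image_image, Set.image_image]
        refine Set.image_congr fun L _ => ?_
        exact TMod_mk f L
      rw [h6] at h5
      exact h5
  · rintro _ ⟨c, hc, rfl⟩
    obtain ⟨g, hg⟩ := h3 c hc
    refine ⟨g, ?_⟩
    have e1 : ∀ i : ℕ, (θ'.comp (FreeGroup.map f.symm)) (FreeGroup.mk ((wmap f c.1).drop i)) =
        θ' (FreeGroup.mk (c.1.drop i)) := by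
      intro i
      rw [← wmap_drop, e0]
    refine hg.mono ?_ le_rfl
    rintro z ⟨i, hi, hip, hz⟩
    refine ⟨i, hi, hip, ?_⟩
    simp only [e1] at hz
    exact hz

end ORel
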