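import Pool.Agent.Lib_MP_051624_or.TCyl
import Pool.Agent.Lib_MP_051624_or.TMod

/-!
# The relator of the cylinder

`cyl_relator`: by `cylT_mk`, `rwr_pw`, `wmap_pw`: on the level `l` the word `pw s j` acts as
`θ` of `pw (wmap (sh l) (rwr s)) j = pw (wmap (sh (l + μ)) (nw s)) j` (`wmap_sh`), which is in
`relT (nw s) j N` for `t = l + μ`; the level does not change (`lev_pw`).
-/

open Equiv

namespace ORel

theorem cyl_relator {X Ω : Type} [Finite Ω] {s : List (X × Bool)} {b c : X} {φ : X → ℤ} {μ : ℤ}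
    {m : ℕ} (D : MData s b c φ μ m) (j N : ℕ) (θ : FreeGroup (X × ℤ) →* Perm Ω) (δ : ℝ)
    (hθ : ∀ L ∈ relT (nw b φ μ s) j N, Small (fun ω => θ (FreeGroup.mk L) ω ≠ ω) δ)
    (B : ℕ) (hB : ∀ L', L' <:+ pw s j → |lev φ L'| ≤ B) (l : ℤ) (h1 : 0 ≤ l + μ) (h2 : l + μ ≤ N)
    (h3 : (B : ℤ) ≤ l) (h4 : l + B < (N + m + 1 : ℕ)) :
    Small (fun ω => cylT b φ θ (N + m + 1) (FreeGroup.mk (pw s j))
      (ω, ((l : ℤ) : ZMod (N + m + 1))) ≠ (ω, ((l : ℤ) : ZMod (N + m + 1)))) δ := by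
  obtain ⟨t, ht⟩ : ∃ t : ℕ, (t : ℤ) = l + μ := ⟨(l + μ).toNat, Int.toNat_of_nonneg h1⟩
  have hrel : pw (wmap (sh X t) (nw b φ μ s)) j ∈ relT (nw b φ μ s) j N := ⟨t, by omega, rfl⟩
  have hw : wmap (sh X l) (rwr b φ (pw s j)) = pw (wmap (sh X t) (nw b φ μ s)) j := by
    rw [rwr_pw b φ s D.lev, wmap_pw, nw, wmap_sh, ht]
    have h5 : -μ + (l + μ) = l := by ring
    rw [h5]
  have hmk : ∀ ω, cylT b φ θ (N + m + 1) (FreeGroup.mk (pw s j))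
      (ω, ((l : ℤ) : ZMod (N + m + 1))) =
      (θ (FreeGroup.mk (pw (wmap (sh X t) (nw b φ μ s)) j)) ω, ((l : ℤ) : ZMod (N + m + 1))) := by
    intro ω
    have h5 := cylT_mk b φ θ (N + m + 1) (pw s j) l (fun L' hL' => by
      have h6 := abs_le.1 (hB L' hL')
      exact ⟨by omega, by omega⟩) ω
    rw [hw, lev_pw φ s D.lev, add_zero] at h5
    exact h5
  refine (hθ _ hrel).mono ?_ le_rfl
  intro ω hω h5
  apply hω
  rw [hmk, h5]

end ORel
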