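import Pool.Agent.Lib_MP_051624_or.TRw

/-!
# Rewriting: reduced words and positions

See the header of `TRw` for the proofs (`lev_run`, `rwr_reduced`, `rwr_cycred`, `pos_lt`, `pos_adm`).
-/

namespace ORel

variable {X : Type}

/-- A reduced word which only has the letter `b` and starts with the sign `true`. -/
private theorem TRwR_run_true (b : X) (φ : X → ℤ) (L : List (X × Bool)) :
    FreeGroup.IsReduced ((b, true) :: L) → (∀ y ∈ L, y.1 = b) →
      lev φ ((b, true) :: L) = (L.length + 1 : ℤ) * φ b := by
  induction L with
  | nil =>
    intro _ _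
    rw [lev, lev, List.length_nil]
    push_cast
    ring
  | cons z L ih =>
    intro hred hb
    obtain ⟨x, e⟩ := z
    have hx : x = b := hb (x, e) List.mem_cons_self
    subst hx
    have h1 := List.isChain_cons_cons.1 hred
    have he : true = e := h1.1 rfl
    subst he
    have h2 := ih h1.2 (fun y hy => hb y (List.mem_cons_of_mem _ hy))
    rw [lev, h2, List.length_cons]
    push_cast
    ring

private theorem TRwR_run_false (b : X) (φ : X → ℤ) (L : List (X × Bool)) :
    FreeGroup.IsReduced ((b, false) :: L) → (∀ y ∈ L, y.1 = b) →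
      lev φ ((b, false) :: L) = -((L.length + 1 : ℤ) * φ b) := by
  induction L with
  | nil =>
    intro _ _
    rw [lev, lev, List.length_nil]
    push_cast
    ring
  | cons z L ih =>
    intro hred hb
    obtain ⟨x, e⟩ := z
    have hx : x = b := hb (x, e) List.mem_cons_self
    subst hx
    have h1 := List.isChain_cons_cons.1 hred
    have he : false = e := h1.1 rfl
    subst he
    have h2 := ih h1.2 (fun y hy => hb y (List.mem_cons_of_mem _ hy))
    rw [lev, h2, List.length_cons]
    push_cast
    ring

/-- A reduced word which only has the letter `b` and has level `0` is empty. -/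
private theorem TRwR_nil (b : X) (φ : X → ℤ) (hφ : φ b ≠ 0) (L : List (X × Bool))
    (hred : FreeGroup.IsReduced L) (hb : ∀ y ∈ L, y.1 = b) (h0 : lev φ L = 0) : L = [] := by
  cases L with
  | nil => rfl
  | cons z L =>
    exfalso
    obtain ⟨x, e⟩ := z
    have hx : x = b := hb (x, e) List.mem_cons_self
    subst hx
    have hpos : (L.length + 1 : ℤ) ≠ 0 := by positivity
    have hb' : ∀ y ∈ L, y.1 = x := fun y hy => hb y (List.mem_cons_of_mem _ hy)
    cases e
    · rw [TRwR_run_false x φ L hred hb'] at h0
      exact mul_ne_zero hpos hφ (neg_eq_zero.1 h0)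
    · rw [TRwR_run_true x φ L hred hb'] at h0
      exact mul_ne_zero hpos hφ h0

private theorem TRwR_all (b : X) (φ : X → ℤ) (L : List (X × Bool)) (h : rwr b φ L = []) :
    ∀ y ∈ L, y.1 = b := by
  intro y hy
  by_contra hne
  obtain ⟨z, hz, -⟩ := exists_rwr b φ L y.1 hne ⟨y, hy, rfl⟩
  rw [h] at hz
  exact absurd hz List.not_mem_nil

/-- The head of the rewritten word. -/
private theorem TRwR_head (b : X) (φ : X → ℤ) (L : List (X × Bool)) (y : (X × ℤ) × Bool)
    (hy : y ∈ (rwr b φ L).head?) :
    ∃ β L' : List (X × Bool), L = β ++ (y.1.1, y.2) :: L' ∧ (∀ z ∈ β, z.1 = b) ∧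
      (y.2 = true → y.1.2 = lev φ L') ∧ (y.2 = false → y.1.2 = lev φ L' - φ y.1.1) := by
  induction L with
  | nil =>
    rw [rwr] at hy
    simp at hy
  | cons z L ih =>
    obtain ⟨x, e⟩ := z
    by_cases hx : x = b
    · have hr : rwr b φ ((x, e) :: L) = rwr b φ L := by
        cases e
        · rw [rwr, if_pos hx]
        · rw [rwr, if_pos hx]
      rw [hr] at hy
      obtain ⟨β, L', h1, h2, h3, h4⟩ := ih hy
      refine ⟨(x, e) :: β, L', ?_, ?_, h3, h4⟩
      · rw [List.cons_append, ← h1]
      · intro w hw
        rcases List.mem_cons.1 hw with h | h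
        · rw [h]
          exact hx
        · exact h2 w h
    · cases e
      · rw [rwr, if_neg hx, List.head?_cons, Option.mem_some_iff] at hy
        subst hy
        refine ⟨[], L, rfl, ?_, ?_, ?_⟩
        · intro w hw
          exact absurd hw List.not_mem_nil
        · intro h
          exact absurd h (by simp)
        · intro _
          rfl
      · rw [rwr, if_neg hx, List.head?_cons, Option.mem_some_iff] at hy
        subst hy
        refine ⟨[], L, rfl, ?_, ?_, ?_⟩
        · intro w hw
          exact absurd hw List.not_mem_nil
        · intro _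
          rfl
        · intro h
          exact absurd h (by simp)

private theorem TRwR_reduced_append {L L' : List (X × Bool)}
    (h : FreeGroup.IsReduced (L ++ L')) : FreeGroup.IsReduced L ∧ FreeGroup.IsReduced L' := by
  unfold FreeGroup.IsReduced at *
  rw [List.isChain_append] at h
  exact ⟨h.1, h.2.1⟩

private theorem TRwR_reduced (b : X) (φ : X → ℤ) (hφ : φ b ≠ 0) (L : List (X × Bool))
    (hred : FreeGroup.IsReduced L) : FreeGroup.IsReduced (rwr b φ L) := by
  induction L with
  | nil =>
    rw [rwr]
    exact List.isChain_nil
  | cons z L ih =>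
    obtain ⟨x, e⟩ := z
    have hc := List.isChain_cons.1 hred
    have hL := ih hc.2
    by_cases hx : x = b
    · cases e
      · rw [rwr, if_pos hx]
        exact hL
      · rw [rwr, if_pos hx]
        exact hL
    · cases e
      · rw [rwr, if_neg hx]
        refine List.isChain_cons.2 ⟨?_, hL⟩
        intro y hy hxy
        obtain ⟨β, L', h1, h2, h3, h4⟩ := TRwR_head b φ L y hy
        change false = y.2
        by_contra hne
        have hy2 : y.2 = true := by
          cases hh : y.2
          · exact absurd hh.symm hne
          · rfl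
        have hx1 : x = y.1.1 := congrArg Prod.fst hxy
        have hx2 : lev φ L - φ x = y.1.2 := congrArg Prod.snd hxy
        have hl := h3 hy2
        have hβ : lev φ β = 0 := by
          rw [h1, lev_append, hy2, lev, ← hx1] at hx2
          rw [hl] at hx2
          linarith
        have hβr : FreeGroup.IsReduced β := by
          have h5 : FreeGroup.IsReduced L := hc.2
          rw [h1] at h5
          exact (TRwR_reduced_append h5).1
        have hβn := TRwR_nil b φ hφ β hβr h2 hβ
        rw [hβn, List.nil_append] at h1
        have h6 := hc.1 (y.1.1, y.2) (by rw [h1]; simp) hx1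
        exact hne h6
      · rw [rwr, if_neg hx]
        refine List.isChain_cons.2 ⟨?_, hL⟩
        intro y hy hxy
        obtain ⟨β, L', h1, h2, h3, h4⟩ := TRwR_head b φ L y hy
        change true = y.2
        by_contra hne
        have hy2 : y.2 = false := by
          cases hh : y.2
          · rfl
          · exact absurd hh.symm hne
        have hx1 : x = y.1.1 := congrArg Prod.fst hxy
        have hx2 : lev φ L = y.1.2 := congrArg Prod.snd hxy
        have hl := h4 hy2
        have hβ : lev φ β = 0 := by
          rw [h1, lev_append, hy2, lev] at hx2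
          rw [hl] at hx2
          linarith
        have hβr : FreeGroup.IsReduced β := by
          have h5 : FreeGroup.IsReduced L := hc.2
          rw [h1] at h5
          exact (TRwR_reduced_append h5).1
        have hβn := TRwR_nil b φ hφ β hβr h2 hβ
        rw [hβn, List.nil_append] at h1
        have h6 := hc.1 (y.1.1, y.2) (by rw [h1]; simp) hx1
        exact hne h6

private theorem TRwR_len (b : X) (φ : X → ℤ) (L L' : List (X × Bool)) :
    (rwr b φ (L ++ L')).length = (rwr b φ L).length + (rwr b φ L').length := by
  rw [rwr_append, List.length_append, wmap_length]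

theorem rwr_cycred (b : X) (φ : X → ℤ) (hφ : φ b ≠ 0) (s : List (X × Bool))
    (hs : FreeGroup.IsCyclicallyReduced s) (hlev : lev φ s = 0) :
    FreeGroup.IsCyclicallyReduced (rwr b φ s) := by
  have h1 : FreeGroup.IsReduced (s ++ s) := by
    unfold FreeGroup.IsReduced
    rw [List.isChain_append]
    exact ⟨hs.1, hs.1, hs.2⟩
  have h2 := TRwR_reduced b φ hφ (s ++ s) h1
  rw [rwr_append, hlev, wmap_sh_zero] at h2
  unfold FreeGroup.IsReduced at h2
  rw [List.isChain_append] at h2
  exact ⟨h2.1, h2.2.2⟩

theorem pos_lt (b : X) (φ : X → ℤ) (hφ : φ b ≠ 0) (s : List (X × Bool))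
    (hs : FreeGroup.IsReduced s) (i k : ℕ) (hik : i < k) (hk : k ≤ s.length)
    (hl : lev φ (s.drop i) = lev φ (s.drop k)) : pos b φ s i < pos b φ s k := by
  have e1 : s.drop i = (s.drop i).take (k - i) ++ s.drop k := by
    conv_lhs => rw [← List.take_append_drop (k - i) (s.drop i)]
    rw [List.drop_drop]
    congr 2
    omega
  have e2 : s = s.take i ++ s.drop i := (List.take_append_drop i s).symm
  have hr1 : FreeGroup.IsReduced (s.drop i) := by
    rw [e2] at hs
    exact (TRwR_reduced_append hs).2
  have hr2 : FreeGroup.IsReduced ((s.drop i).take (k - i)) := by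
    rw [e1] at hr1
    exact (TRwR_reduced_append hr1).1
  have hl2 : lev φ ((s.drop i).take (k - i)) = 0 := by
    have h3 := congrArg (lev φ) e1
    rw [lev_append] at h3
    linarith
  have hlen : ((s.drop i).take (k - i)).length = k - i := by
    rw [List.length_take, List.length_drop]
    omega
  have h4 : (rwr b φ ((s.drop i).take (k - i))).length ≠ 0 := by
    intro h5
    have h6 := TRwR_nil b φ hφ _ hr2 (TRwR_all b φ _ (List.length_eq_zero_iff.1 h5)) hl2
    rw [h6, List.length_nil] at hlen
    omega
  have h7 := congrArg (fun L => (rwr b φ L).length) e1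
  have h8 := congrArg (fun L => (rwr b φ L).length) e2
  beta_reduce at h7 h8
  rw [TRwR_len] at h7 h8
  unfold pos
  omega

theorem pos_adm (b : X) (φ : X → ℤ) (hφ : φ b ≠ 0) (s : List (X × Bool))
    (hs : FreeGroup.IsCyclicallyReduced s) (hlev : lev φ s = 0) (i k : ℕ) (hi : i ≤ s.length)
    (hk : k ≤ s.length) (hl : lev φ (s.drop i) = lev φ (s.drop k)) (h0 : pos b φ s i = 0)
    (h1 : pos b φ s k = (rwr b φ s).length) : i = 0 ∧ k = s.length := by
  have e2 : s = s.take i ++ s.drop i := (List.take_append_drop i s).symm
  have e3 : s = s.take k ++ s.drop k := (List.take_append_drop k s).symm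
  have h7 := congrArg (fun L => (rwr b φ L).length) e2
  have h8 := congrArg (fun L => (rwr b φ L).length) e3
  beta_reduce at h7 h8
  rw [TRwR_len] at h7 h8
  unfold pos at h0 h1
  have h9 : (rwr b φ (s.take i)).length = 0 := by omega
  have h10 : (rwr b φ (s.drop k)).length = 0 := by omega
  have a1 := TRwR_all b φ _ (List.length_eq_zero_iff.1 h9)
  have a2 := TRwR_all b φ _ (List.length_eq_zero_iff.1 h10)
  have r1 : FreeGroup.IsReduced (s.take i) := by
    have h := hs.1
    rw [e2] at h
    exact (TRwR_reduced_append h).1
  have r2 : FreeGroup.IsReduced (s.drop k) := by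
    have h := hs.1
    rw [e3] at h
    exact (TRwR_reduced_append h).2
  have r3 : FreeGroup.IsReduced (s.drop k ++ s.take i) := by
    unfold FreeGroup.IsReduced
    rw [List.isChain_append]
    refine ⟨r2, r1, ?_⟩
    intro x hx y hy
    have hx' : x ∈ s.getLast? := by
      rw [e3, List.getLast?_append]
      rw [Option.mem_def] at hx ⊢
      rw [hx]
      rfl
    have hy' : y ∈ s.head? := by
      rw [e2, List.head?_append]
      rw [Option.mem_def] at hy ⊢
      rw [hy]
      rfl
    exact hs.2 x hx' y hy'
  have hl3 : lev φ (s.drop k ++ s.take i) = 0 := by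
    have h3 := congrArg (lev φ) e2
    rw [lev_append] at h3
    rw [lev_append]
    linarith
  have hn := TRwR_nil b φ hφ _ r3 (by
    intro y hy
    rcases List.mem_append.1 hy with h | h
    · exact a2 y h
    · exact a1 y h) hl3
  have hn' := congrArg List.length hn
  rw [List.length_append, List.length_drop, List.length_take, List.length_nil] at hn'
  omega

end ORel
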