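import Pool.Agent.Lib_MP_051624_or.TInd
import Pool.Agent.Lib_MP_051624_or.TRel
import Pool.Agent.Lib_MP_051624_or.TRwR
import Pool.Agent.Lib_MP_051624_or.TCylS

/-!
# The certificates of the cylinder

Proof of `cer_lift`. Write `s' = nw b φ μ s`, `n' = s'.length = (rwr b φ s).length`,
`lv i = lev φ (s.drop i)`. Let `λ` be the maximum of `lv` on `P`, `Pt = {i ∈ P | lv i = λ}` and
`P' = Pt.image (pos b φ s)`. Then `P'` is nonempty, its elements are `≤ n'` (`pos_le`), and not both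
`0 ∈ P'` and `n' ∈ P'` (`pos_adm`). By `A.cer` there is `p' ∈ P'`, `p' = pos p`, `p ∈ Pt`, with
`Mod univ {pw s' j} ∅ {(s', P', p')}`. On `Pt` the map `pos` is injective (`pos_lt`).

Let `E` (not used: there are no windows) and `ε > 0` be given. Let `B` be a bound for the levels of the
tails of `pw s j` and of `s`, with `2 * (|μ| + m) + |λ| ≤ B`. Choose `N` and `M = N + m + 1` with
`2 * B < M`, `ε / 2 + 2 * B / M ≤ ε`. Let `Ω, θ` be a model of `K_N` (`KMod.mod`), for `ε / 2`, with the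
certificates `(wmap (sh X t) s', P', p')`, `t ≤ N`, with functions `h t : Ω → ℕ`. Let `H` be larger
than all the values `h t ω`. Let
`hh (ω, i) = i.val * H + h ((i.val - λ + μ).toNat) ω` (as an integer `i.val - λ + μ`; take `h 0` if
this is larger than `N`).

Let `B ≤ l`, `l + B < M`; put `t = l + μ` (so `0 ≤ t ≤ N`). For `i ∈ P`, by `cylT_mk` and `rwr_drop`, the
point of the path at the position `i` is `(ω_i, l + lv i)`, where
`ω_i = θ (mk ((wmap (sh X t) s').drop (pos i))) ω`. If `i ∈ Pt` then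
`hh = (l + λ) * H + h t ω_i`. If `i ∉ Pt` then `hh < (l + lv i + 1) * H ≤ (l + λ) * H`. So the point `p`
has the strictly largest value of `hh`, except for the `ω` in the exceptional set of the certificate
`t` (for `i ∈ Pt`, `i ≠ p` one has `pos i ≠ pos p`). Use `cyl_small` with `δ = ε / 2`, and
`cyl_relator` for the relator.
-/

open Equiv

namespace ORel

private theorem TCer_val (M : ℕ) (l : ℤ) (h0 : 0 ≤ l) (h1 : l < M) :
    (((l : ℤ) : ZMod M).val : ℤ) = l := by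
  have hM : M ≠ 0 := by
    rintro rfl
    simp at h1
    omega
  have : NeZero M := ⟨hM⟩
  rw [ZMod.val_intCast, Int.emod_eq_of_lt h0 h1]

private theorem TCer_size (B m : ℕ) (ε : ℝ) (hε : 0 < ε) :
    ∃ N : ℕ, ε / 2 + 2 * (B : ℝ) / ((N + m + 1 : ℕ) : ℝ) ≤ ε := by
  obtain ⟨N, hN⟩ := exists_nat_gt (4 * (B : ℝ) / ε)
  refine ⟨N, ?_⟩
  have h1 : (0 : ℝ) < ((N + m + 1 : ℕ) : ℝ) := by positivity
  have h2 : 2 * (B : ℝ) / ((N + m + 1 : ℕ) : ℝ) ≤ ε / 2 := by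
    rw [div_le_iff₀ h1]
    rw [div_lt_iff₀ hε] at hN
    push_cast
    have h3 : 0 ≤ ε * (m : ℝ) := mul_nonneg hε.le (Nat.cast_nonneg m)
    nlinarith
  linarith

private theorem TCer_cmp (H u v x y : ℕ) (hy : y < H) (huv : v < u) :
    v * H + y < u * H + x := by
  have h1 : (v + 1) * H ≤ u * H := Nat.mul_le_mul_right H huv
  have h2 : (v + 1) * H = v * H + H := by ring
  omega

private theorem TCer_bound {Ω : Type} [Finite Ω] (N : ℕ) (h : ℕ → Ω → ℕ) :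
    ∃ H : ℕ, ∀ t, t ≤ N → ∀ ω, h t ω < H := by
  have : Fintype Ω := Fintype.ofFinite Ω
  refine ⟨(Finset.range (N + 1)).sup (fun t => Finset.univ.sup (h t)) + 1, fun t ht ω => ?_⟩
  have h1 : h t ω ≤ Finset.univ.sup (h t) := Finset.le_sup (Finset.mem_univ ω)
  have h2 : Finset.univ.sup (h t) ≤ (Finset.range (N + 1)).sup (fun t => Finset.univ.sup (h t)) :=
    Finset.le_sup (f := fun t => Finset.univ.sup (h t)) (Finset.mem_range.2 (by omega))
  omega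

/-- The function of the certificate. -/
private noncomputable def TCer_h {Ω : Type} (M N H : ℕ) (lam μ : ℤ) (h : ℕ → Ω → ℕ) (z : Ω × ZMod M) :
    ℕ := z.2.val * H + h (min (((z.2.val : ℤ) - lam + μ).toNat) N) z.1

private theorem TCer_point {X Ω : Type} {s : List (X × Bool)} {b : X} {φ : X → ℤ}
    {μ : ℤ} (θ : FreeGroup (X × ℤ) →* Perm Ω) (M B t : ℕ) (l : ℤ) (i : ℕ)
    (hB : ∀ L', L' <:+ s → |lev φ L'| ≤ B) (h3 : (B : ℤ) ≤ l) (h4 : l + B < M)
    (ht : (t : ℤ) = l + μ) (ω : Ω) :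
    cylT b φ θ M (FreeGroup.mk (s.drop i)) (ω, (l : ZMod M)) =
      (θ (FreeGroup.mk ((wmap (sh X t) (nw b φ μ s)).drop (pos b φ s i))) ω,
        ((l + lev φ (s.drop i) : ℤ) : ZMod M)) := by
  have h5 := cylT_mk b φ θ M (s.drop i) l (fun L' hL' => by
    have h6 := abs_le.1 (hB L' (hL'.trans (List.drop_suffix i s)))
    exact ⟨by omega, by omega⟩) ω
  have hw : wmap (sh X l) (rwr b φ (s.drop i)) =
      (wmap (sh X t) (nw b φ μ s)).drop (pos b φ s i) := by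
    rw [rwr_drop, wmap_drop, nw, wmap_sh, ht]
    have h5 : -μ + (l + μ) = l := by ring
    rw [h5]
  rw [h5, hw]

private theorem TCer_value {Ω : Type} (M N H : ℕ) (lam μ : ℤ) (h : ℕ → Ω → ℕ)
    (ω : Ω) (k : ℤ) (v : ℕ) (hv : (v : ℤ) = k) (h0 : 0 ≤ k) (h1 : k < M) :
    TCer_h M N H lam μ h (ω, (k : ZMod M)) = v * H + h (min (k - lam + μ).toNat N) ω := by
  have h2 := TCer_val M k h0 h1
  have h3 : ((k : ZMod M).val) = v := by
    have : (((k : ZMod M).val : ℕ) : ℤ) = (v : ℤ) := h2.trans hv.symm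
    exact_mod_cast this
  unfold TCer_h
  change ((k : ZMod M).val) * H + h (min (((((k : ZMod M).val : ℕ) : ℤ) - lam + μ).toNat) N) ω = _
  rw [h3, hv]

private theorem TCer_level {X Ω : Type} [Finite Ω] {s : List (X × Bool)} {b : X} {φ : X → ℤ}
    {μ : ℤ} (θ : FreeGroup (X × ℤ) →* Perm Ω) (M N B t H : ℕ) (l lam : ℤ) (p : ℕ)
    (P Pt : Finset ℕ) (δ : ℝ) (h : ℕ → Ω → ℕ)
    (hPt : ∀ i, i ∈ Pt ↔ i ∈ P ∧ lev φ (s.drop i) = lam) (hp : p ∈ Pt)
    (hmax : ∀ i ∈ P, lev φ (s.drop i) ≤ lam)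
    (hinj : ∀ i ∈ Pt, ∀ k ∈ Pt, i ≠ k → pos b φ s i ≠ pos b φ s k)
    (hH : ∀ t, t ≤ N → ∀ ω, h t ω < H)
    (hB : ∀ L', L' <:+ s → |lev φ L'| ≤ B) (h3 : (B : ℤ) ≤ l) (h4 : l + B < M)
    (ht : (t : ℤ) = l + μ) (htN : t ≤ N)
    (hc : Small (fun ω => ∃ i ∈ Pt.image (pos b φ s), i ≠ pos b φ s p ∧
      h t (θ (FreeGroup.mk ((wmap (sh X t) (nw b φ μ s)).drop (pos b φ s p))) ω) ≤
      h t (θ (FreeGroup.mk ((wmap (sh X t) (nw b φ μ s)).drop i)) ω)) δ) :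
    Small (fun ω => ∃ i ∈ P, i ≠ p ∧
      TCer_h M N H lam μ h (cylT b φ θ M (FreeGroup.mk (s.drop p)) (ω, (l : ZMod M))) ≤
      TCer_h M N H lam μ h (cylT b φ θ M (FreeGroup.mk (s.drop i)) (ω, (l : ZMod M)))) δ := by
  refine hc.mono ?_ le_rfl
  rintro ω ⟨i, hi, hip, hle⟩
  have hlv : ∀ k, |lev φ (s.drop k)| ≤ B := fun k => hB _ (List.drop_suffix k s)
  have hval : ∀ k, ∃ v : ℕ, (v : ℤ) = l + lev φ (s.drop k) ∧
      TCer_h M N H lam μ h (cylT b φ θ M (FreeGroup.mk (s.drop k)) (ω, (l : ZMod M))) =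
        v * H + h (min (l + lev φ (s.drop k) - lam + μ).toNat N)
          (θ (FreeGroup.mk ((wmap (sh X t) (nw b φ μ s)).drop (pos b φ s k))) ω) := by
    intro k
    have h6 := abs_le.1 (hlv k)
    have h7 : 0 ≤ l + lev φ (s.drop k) := by omega
    have h8 : l + lev φ (s.drop k) < M := by omega
    refine ⟨(l + lev φ (s.drop k)).toNat, Int.toNat_of_nonneg h7, ?_⟩
    rw [TCer_point θ M B t l k hB h3 h4 ht ω]
    exact TCer_value M N H lam μ h _ _ _ (Int.toNat_of_nonneg h7) h7 h8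
  have htop : ∀ k ∈ Pt, (l + lev φ (s.drop k) - lam + μ).toNat = t := by
    intro k hk
    have h6 := ((hPt k).1 hk).2
    omega
  obtain ⟨v, hv, ev⟩ := hval p
  obtain ⟨w, hw, ew⟩ := hval i
  rw [ev, ew, htop p hp] at hle
  have hpl := ((hPt p).1 hp).2
  by_cases hil : lev φ (s.drop i) = lam
  · have hiPt : i ∈ Pt := (hPt i).2 ⟨hi, hil⟩
    rw [htop i hiPt, min_eq_left htN] at hle
    have hvw : v = w := by omega
    refine ⟨pos b φ s i, Finset.mem_image_of_mem _ hiPt, hinj i hiPt p hp hip, ?_⟩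
    rw [hvw] at hle
    omega
  · exfalso
    have h6 := hmax i hi
    have h7 : lev φ (s.drop i) < lam := lt_of_le_of_ne h6 hil
    have h8 : w < v := by omega
    have h9 := TCer_cmp H v w (h (min t N)
      (θ (FreeGroup.mk ((wmap (sh X t) (nw b φ μ s)).drop (pos b φ s p))) ω))
      (h (min (l + lev φ (s.drop i) - lam + μ).toNat N)
        (θ (FreeGroup.mk ((wmap (sh X t) (nw b φ μ s)).drop (pos b φ s i))) ω))
      (hH _ (min_le_right _ _) _) h8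
    omega

theorem cer_lift {X : Type} {s : List (X × Bool)} (hs : Word s) {b c : X} {φ : X → ℤ} {μ : ℤ}
    {m : ℕ} (D : MData s b c φ μ m) (j : ℕ) (A : ThmA j (nw b φ μ s))
    (K : ∀ N, KMod j c m (nw b φ μ s) N) (P : Finset ℕ) (hP : P.Nonempty)
    (hle : ∀ i ∈ P, i ≤ s.length) (hadm : ¬ (0 ∈ P ∧ s.length ∈ P)) :
    ∃ p ∈ P, Mod Set.univ {pw s j} ∅ {(s, P, p)} := by
  classical
  have hφ : φ b ≠ 0 := ne_of_gt D.pos
  have hlen : (nw b φ μ s).length = (rwr b φ s).length := wmap_length _ _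
  obtain ⟨i₀, hi₀, hmax⟩ := Finset.exists_max_image P (fun i => lev φ (s.drop i)) hP
  obtain ⟨lam, hlam⟩ : ∃ lam : ℤ, lev φ (s.drop i₀) = lam := ⟨_, rfl⟩
  have hmax' : ∀ i ∈ P, lev φ (s.drop i) ≤ lam := fun i hi => by
    rw [← hlam]
    exact hmax i hi
  obtain ⟨Pt, hPt⟩ : ∃ Pt : Finset ℕ, ∀ i, i ∈ Pt ↔ i ∈ P ∧ lev φ (s.drop i) = lam :=
    ⟨P.filter fun i => lev φ (s.drop i) = lam, fun i => Finset.mem_filter⟩
  have hinj : ∀ i ∈ Pt, ∀ k ∈ Pt, i ≠ k → pos b φ s i ≠ pos b φ s k := by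
    intro i hi k hk hik
    have hi' := (hPt i).1 hi
    have hk' := (hPt k).1 hk
    rcases lt_or_gt_of_ne hik with h | h
    · exact (pos_lt b φ hφ s hs.red.1 i k h (hle k hk'.1) (hi'.2.trans hk'.2.symm)).ne
    · exact (pos_lt b φ hφ s hs.red.1 k i h (hle i hi'.1) (hk'.2.trans hi'.2.symm)).ne'
  obtain ⟨p', hp', hA⟩ := A.cer (Pt.image (pos b φ s))
    ⟨_, Finset.mem_image_of_mem _ ((hPt i₀).2 ⟨hi₀, hlam⟩)⟩
    (by
      intro i hi
      obtain ⟨k, hk, rfl⟩ := Finset.mem_image.1 hi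
      rw [hlen]
      exact pos_le b φ s k)
    (by
      rintro ⟨h0, h1⟩
      obtain ⟨i, hi, hi0⟩ := Finset.mem_image.1 h0
      obtain ⟨k, hk, hk0⟩ := Finset.mem_image.1 h1
      have hi' := (hPt i).1 hi
      have hk' := (hPt k).1 hk
      obtain ⟨e1, e2⟩ := pos_adm b φ hφ s hs.red D.lev i k (hle i hi'.1) (hle k hk'.1)
        (hi'.2.trans hk'.2.symm) hi0 (hk0.trans hlen)
      subst e1
      subst e2
      exact hadm ⟨hi'.1, hk'.1⟩)
  obtain ⟨p, hp, rfl⟩ := Finset.mem_image.1 hp'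
  have hp1 := (hPt p).1 hp
  refine ⟨p, hp1.1, ?_⟩
  intro E ε hε
  obtain ⟨B₀, hB₀⟩ := lev_bound φ {pw s j, s} (Set.toFinite _)
  obtain ⟨B, hBd⟩ : ∃ B : ℕ, B = B₀ + 2 * (μ.natAbs + m) := ⟨_, rfl⟩
  have hB1 : ∀ L', L' <:+ pw s j → |lev φ L'| ≤ B := fun L' hL' => by
    have h1 := hB₀ (pw s j) (Set.mem_insert _ _) L' hL'
    omega
  have hB2 : ∀ L', L' <:+ s → |lev φ L'| ≤ B := fun L' hL' => by
    have h1 := hB₀ s (Set.mem_insert_of_mem _ rfl) L' hL'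
    omega
  obtain ⟨N, hN⟩ := TCer_size B m ε hε
  -- the certificates of `K_N`
  obtain ⟨Ω, hΩ, hΩn, θ, hrel, -, hcert⟩ := (K N).mod ∅ Set.finite_empty
    (fun V hV => absurd hV (Set.notMem_empty V))
    ((fun t : ℕ => ((wmap (sh X t) (nw b φ μ s), Pt.image (pos b φ s), pos b φ s p) : CD (X × ℤ)))
      '' Set.Iic N)
    ((Set.finite_Iic N).image _)
    (by
      rintro a ⟨t, ht, rfl⟩
      exact ⟨t, ht, _, _, rfl, hA⟩) ∅ (ε / 2) (half_pos hε)
  have hcert' : ∀ t : ℕ, ∃ h : Ω → ℕ, t ≤ N →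
      Small (fun ω => ∃ i ∈ Pt.image (pos b φ s), i ≠ pos b φ s p ∧
        h (θ (FreeGroup.mk ((wmap (sh X t) (nw b φ μ s)).drop (pos b φ s p))) ω) ≤
        h (θ (FreeGroup.mk ((wmap (sh X t) (nw b φ μ s)).drop i)) ω)) (ε / 2) := by
    intro t
    by_cases ht : t ≤ N
    · obtain ⟨h, hh⟩ := hcert _ ⟨t, ht, rfl⟩
      exact ⟨h, fun _ => hh⟩
    · exact ⟨fun _ => 0, fun h => absurd h ht⟩
  choose h hh using hcert'
  obtain ⟨H, hH⟩ := TCer_bound N h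
  have hlev : ∀ l : ℤ, (B : ℤ) ≤ l → l + B < (N + m + 1 : ℕ) → 0 ≤ l + μ ∧ l + μ ≤ N := by
    intro l h1 h2
    constructor <;> omega
  refine ⟨Ω × ZMod (N + m + 1), inferInstance, inferInstance, cylT b φ θ (N + m + 1), ?_,
    fun V hV => absurd hV (Set.notMem_empty V), ?_⟩
  · rintro L rfl
    refine cyl_small (N + m + 1) B (Nat.succ_pos _) (ε / 2) ε (half_pos hε).le hN _ ?_
    intro l h1 h2
    obtain ⟨h3, h4⟩ := hlev l h1 h2
    exact cyl_relator D j N θ (ε / 2) hrel B hB1 l h3 h4 h1 h2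
  · rintro a rfl
    refine ⟨TCer_h (N + m + 1) N H lam μ h, ?_⟩
    refine cyl_small (N + m + 1) B (Nat.succ_pos _) (ε / 2) ε (half_pos hε).le hN _ ?_
    intro l h1 h2
    obtain ⟨h3, h4⟩ := hlev l h1 h2
    have ht : (((l + μ).toNat : ℕ) : ℤ) = l + μ := Int.toNat_of_nonneg h3
    exact TCer_level θ (N + m + 1) N B (l + μ).toNat H l lam p P Pt (ε / 2) h hPt hp hmax' hinj hH
      hB2 h1 h2 ht (by omega) (hh _ (by omega))

end ORel
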