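import Pool.Agent.Lib_MP_051624_or.TDefs

/-!
# Rewriting: lists

`pos b φ s i`: the position in the rewritten word which corresponds to the position `i` of `s`
(defined such that the tail of `rwr b φ s` at this position is the rewriting of the tail `s.drop i`).

* `lev_append`, `rwr_append`: induction on the first list. `rwr_shift` is the version of `lev` which
  starts at another level: `rwr (L ++ L') = wmap (sh (lev L')) (rwr L) ++ rwr L'`.
* `mem_rwr_height`: the height of a letter is the level of its base point.
* `lev_run` (auxiliary): a reduced word which only has the letter `b` is `(b, ε)` repeated, so its level is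
  `± length * φ b`.
* `rwr_reduced`: Let `L` be reduced, `φ b ≠ 0`; then `rwr b φ L` is reduced. Induction on
  `L`; for `(x, ε) :: L`, `x ≠ b`, write `L = β ++ (y :: L')` with `β` the longest prefix with only
  the letter `b` (if there is no such `y` then `rwr L = []`). If `β = []`, the pair `(x, ε), y`
  does not cancel in `L`, hence not after rewriting. If `β ≠ []`, the level changes along `β` by
  `± β.length * φ b ≠ 0` (`lev_run`). If `y = (x, ε')` with `ε' ≠ ε` then the heights of
  the two letters are `lev L` and `lev (y :: L')` (for `ε = true`), or `lev L - φ x` and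
  `lev (y :: L') - φ x` (for `ε = false`): they are different, so the letters do not cancel.
* `rwr_cycred`: `L` is cyclically reduced iff `L ++ L` is reduced (for `L ≠ []`), and
  `rwr (s ++ s) = rwr s ++ rwr s` if `lev s = 0`.
* `pos_lt`: if `i < k ≤ s.length` and the tails `s.drop i`, `s.drop k` have the same level then the
  part of `s` between `i` and `k` contains a letter different from `b`: otherwise the level changes
  by `± (k - i) * φ b`. So `pos i < pos k`.
* `pos_adm`: if `pos i = 0` and `pos k = (rwr s).length` then `s.take i` and `s.drop k` only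
  have the letter `b`; the word `s.drop k ++ s.take i` is reduced (part of `s ++ s`) and its level is
  `lev (s.drop k) + lev (s.take i) = lev (s.drop k) - lev (s.drop i) = 0` (as `lev s = 0`), so it is
  empty.
-/

namespace ORel

variable {X : Type}

/-- The position in the rewritten word. -/
noncomputable def pos (b : X) (φ : X → ℤ) (s : List (X × Bool)) (i : ℕ) : ℕ :=
  (rwr b φ s).length - (rwr b φ (s.drop i)).length

theorem lev_append (φ : X → ℤ) (L L' : List (X × Bool)) : lev φ (L ++ L') = lev φ L + lev φ L' := by
  induction L with
  | nil => simp [lev]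
  | cons y L ih =>
    obtain ⟨x, e⟩ := y
    cases e
    · rw [List.cons_append, lev, lev, ih]
      ring
    · rw [List.cons_append, lev, lev, ih]
      ring

theorem rwr_append (b : X) (φ : X → ℤ) (L L' : List (X × Bool)) :
    rwr b φ (L ++ L') = wmap (sh X (lev φ L')) (rwr b φ L) ++ rwr b φ L' := by
  induction L with
  | nil => simp [rwr, wmap]
  | cons y L ih =>
    obtain ⟨x, e⟩ := y
    cases e
    · rw [List.cons_append, rwr, rwr, ih, lev_append]
      split_ifs with h
      · rfl
      · unfold wmap
        rw [List.map_cons, List.cons_append]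
        have e1 : (sh X (lev φ L') (x, lev φ L - φ x)) = (x, lev φ L + lev φ L' - φ x) := by
          change (x, lev φ L - φ x + lev φ L') = _
          rw [sub_add_eq_add_sub]
        rw [e1]
    · rw [List.cons_append, rwr, rwr, ih, lev_append]
      split_ifs with h
      · rfl
      · unfold wmap
        rw [List.map_cons, List.cons_append]
        rfl

theorem rwr_length_le (b : X) (φ : X → ℤ) (s : List (X × Bool)) :
    (rwr b φ s).length ≤ s.length := by
  induction s with
  | nil => simp [rwr]
  | cons y L ih =>
    obtain ⟨x, e⟩ := y
    cases e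
    · rw [rwr, List.length_cons]
      split_ifs
      · omega
      · rw [List.length_cons]
        omega
    · rw [rwr, List.length_cons]
      split_ifs
      · omega
      · rw [List.length_cons]
        omega

theorem rwr_length_lt (b : X) (φ : X → ℤ) (s : List (X × Bool)) (hb : ∃ y ∈ s, y.1 = b) :
    (rwr b φ s).length < s.length := by
  induction s with
  | nil =>
    obtain ⟨y, hy, -⟩ := hb
    exact absurd hy List.not_mem_nil
  | cons y L ih =>
    have h1 := rwr_length_le b φ L
    by_cases hL : ∃ z ∈ L, z.1 = b
    · have h2 := ih hL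
      obtain ⟨x, e⟩ := y
      cases e
      · rw [rwr, List.length_cons]
        split_ifs
        · omega
        · rw [List.length_cons]
          omega
      · rw [rwr, List.length_cons]
        split_ifs
        · omega
        · rw [List.length_cons]
          omega
    · obtain ⟨z, hz, hzb⟩ := hb
      rcases List.mem_cons.1 hz with h | h
      · subst h
        obtain ⟨x, e⟩ := z
        have hx : x = b := hzb
        cases e
        · rw [rwr, if_pos hx, List.length_cons]
          omega
        · rw [rwr, if_pos hx, List.length_cons]
          omega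
      · exact absurd ⟨z, h, hzb⟩ hL

/-- The letters of the rewritten word. -/
theorem mem_rwr (b : X) (φ : X → ℤ) (s : List (X × Bool)) (y : (X × ℤ) × Bool)
    (hy : y ∈ rwr b φ s) : y.1.1 ≠ b ∧ (y.1.1, y.2) ∈ s := by
  induction s with
  | nil =>
    rw [rwr] at hy
    exact absurd hy List.not_mem_nil
  | cons z L ih =>
    obtain ⟨x, e⟩ := z
    cases e
    · rw [rwr] at hy
      split_ifs at hy with h
      · exact ⟨(ih hy).1, List.mem_cons_of_mem _ (ih hy).2⟩
      · rcases List.mem_cons.1 hy with h1 | h1
        · subst h1
          exact ⟨h, List.mem_cons_self⟩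
        · exact ⟨(ih h1).1, List.mem_cons_of_mem _ (ih h1).2⟩
    · rw [rwr] at hy
      split_ifs at hy with h
      · exact ⟨(ih hy).1, List.mem_cons_of_mem _ (ih hy).2⟩
      · rcases List.mem_cons.1 hy with h1 | h1
        · subst h1
          exact ⟨h, List.mem_cons_self⟩
        · exact ⟨(ih h1).1, List.mem_cons_of_mem _ (ih h1).2⟩

/-- The heights are levels of tails. -/
theorem mem_rwr_height (b : X) (φ : X → ℤ) (s : List (X × Bool)) (y : (X × ℤ) × Bool)
    (hy : y ∈ rwr b φ s) : ∃ L', L' <:+ s ∧ y.1.2 = lev φ L' := by
  induction s with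
  | nil =>
    rw [rwr] at hy
    exact absurd hy List.not_mem_nil
  | cons z L ih =>
    have key : y ∈ rwr b φ L → ∃ L', L' <:+ z :: L ∧ y.1.2 = lev φ L' := fun h => by
      obtain ⟨L', h1, h2⟩ := ih h
      exact ⟨L', h1.trans (List.suffix_cons z L), h2⟩
    obtain ⟨x, e⟩ := z
    cases e
    · rw [rwr] at hy
      split_ifs at hy with h
      · exact key hy
      · rcases List.mem_cons.1 hy with h1 | h1
        · subst h1
          refine ⟨(x, false) :: L, List.suffix_refl _, ?_⟩
          rw [lev]
        · exact key h1
    · rw [rwr] at hy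
      split_ifs at hy with h
      · exact key hy
      · rcases List.mem_cons.1 hy with h1 | h1
        · subst h1
          exact ⟨L, List.suffix_cons _ L, rfl⟩
        · exact key h1

theorem lev_pw (φ : X → ℤ) (s : List (X × Bool)) (hlev : lev φ s = 0) (j : ℕ) :
    lev φ (pw s j) = 0 := by
  induction j with
  | zero => rw [pw_zero, lev]
  | succ j ih => rw [pw_succ, lev_append, hlev, ih, add_zero]

theorem rwr_pw (b : X) (φ : X → ℤ) (s : List (X × Bool)) (hlev : lev φ s = 0) (j : ℕ) :
    rwr b φ (pw s j) = pw (rwr b φ s) j := by
  induction j with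
  | zero => rw [pw_zero, pw_zero, rwr]
  | succ j ih => rw [pw_succ, pw_succ, rwr_append, lev_pw φ s hlev j, wmap_sh_zero, ih]

theorem exists_rwr (b : X) (φ : X → ℤ) (s : List (X × Bool)) (x : X) (hx : x ≠ b)
    (h : ∃ y ∈ s, y.1 = x) : ∃ y ∈ rwr b φ s, y.1.1 = x := by
  induction s with
  | nil =>
    obtain ⟨y, hy, -⟩ := h
    exact absurd hy List.not_mem_nil
  | cons z L ih =>
    obtain ⟨y, hy, hyx⟩ := h
    obtain ⟨w, e⟩ := z
    have key : (∃ y ∈ L, y.1 = x) → ∃ y ∈ rwr b φ ((w, e) :: L), y.1.1 = x := fun h => by
      obtain ⟨y, h1, h2⟩ := ih h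
      refine ⟨y, ?_, h2⟩
      cases e
      · rw [rwr]
        split_ifs
        · exact h1
        · exact List.mem_cons_of_mem _ h1
      · rw [rwr]
        split_ifs
        · exact h1
        · exact List.mem_cons_of_mem _ h1
    rcases List.mem_cons.1 hy with h1 | h1
    · subst h1
      have hw : w = x := hyx
      have hwb : w ≠ b := by rw [hw]; exact hx
      cases e
      · rw [rwr, if_neg hwb]
        exact ⟨_, List.mem_cons_self, hw⟩
      · rw [rwr, if_neg hwb]
        exact ⟨_, List.mem_cons_self, hw⟩
    · exact key ⟨y, h1, hyx⟩

theorem pos_le (b : X) (φ : X → ℤ) (s : List (X × Bool)) (i : ℕ) :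
    pos b φ s i ≤ (rwr b φ s).length := Nat.sub_le _ _

theorem rwr_drop (b : X) (φ : X → ℤ) (s : List (X × Bool)) (i : ℕ) :
    rwr b φ (s.drop i) = (rwr b φ s).drop (pos b φ s i) := by
  have h1 : rwr b φ s = wmap (sh X (lev φ (s.drop i))) (rwr b φ (s.take i)) ++ rwr b φ (s.drop i) := by
    rw [← rwr_append, List.take_append_drop]
  have h2 : pos b φ s i = (wmap (sh X (lev φ (s.drop i))) (rwr b φ (s.take i))).length := by
    unfold pos
    have h3 := congrArg List.length h1
    rw [List.length_append] at h3
    omega
  rw [h2]
  conv_rhs => rw [h1]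
  rw [List.drop_left]

end ORel
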