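import Pool.Agent.Lib_MP_051624_or.TMod
import Pool.Agent.Lib_MP_051624_or.TRw

/-!
# The cylinder

`cylT b φ θ M`: the letter `x ≠ b` acts on `Ω × ZMod M` by
`(ω, i) ↦ (θ (x, i.val) ω, i + φ x)`, the letter `b` by `(ω, i) ↦ (ω, i + φ b)`.

* `cylT_mk`: induction on `L`; the levels of all the points of the path are in `[0, M)`, so that
  `((l + lev L' : ℤ) : ZMod M).val = l + lev L'` (`ZMod.val_intCast`, `Int.emod_eq_of_lt`).
* `cylT_snd`: the second coordinate always changes by `lev`.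
* `cylT_wd`: the words in the letters of `V` move the first coordinate within the orbit of the
  letters `(x, l)`, `x ∈ V` (closure induction).
* `cylT_level`: the same if the letters of `V` preserve the levels (`φ x = 0`, `b ∉ V`): only the
  letters `(x, i.val)`.
* `lev_bound`: every finite set of words has a bound for the levels of all its tails.
* `cyl_small`: a set of points of `Ω × ZMod M` which, for the levels `l` with `B ≤ l < M - B`, has
  proportion at most `δ` on the level, has proportion at most `δ + 2 * B / M`.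
-/

open Equiv

namespace ORel

variable {X Ω : Type}

open Classical in
/-- The cylinder. -/
noncomputable def cylT (b : X) (φ : X → ℤ) (θ : FreeGroup (X × ℤ) →* Perm Ω) (M : ℕ) :
    FreeGroup X →* Perm (Ω × ZMod M) :=
  FreeGroup.lift fun x =>
    { toFun := fun a => (if x = b then a.1 else θ (FreeGroup.of (x, (a.2.val : ℤ))) a.1,
        a.2 + ((φ x : ℤ) : ZMod M))
      invFun := fun a => (if x = b then a.1 else
        (θ (FreeGroup.of (x, ((a.2 - ((φ x : ℤ) : ZMod M)).val : ℤ))))⁻¹ a.1,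
        a.2 - ((φ x : ℤ) : ZMod M))
      left_inv := fun a => by by_cases h : x = b <;> simp [h]
      right_inv := fun a => by by_cases h : x = b <;> simp [h] }

private theorem TCyl_of (b : X) (φ : X → ℤ) (θ : FreeGroup (X × ℤ) →* Perm Ω) (M : ℕ) (x : X)
    (a : Ω × ZMod M) : cylT b φ θ M (FreeGroup.of x) a =
      ((open Classical in if x = b then a.1 else θ (FreeGroup.of (x, (a.2.val : ℤ))) a.1),
        a.2 + ((φ x : ℤ) : ZMod M)) := by
  unfold cylT
  rw [FreeGroup.lift_apply_of]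
  rfl

private theorem TCyl_inv (b : X) (φ : X → ℤ) (θ : FreeGroup (X × ℤ) →* Perm Ω) (M : ℕ) (x : X)
    (a : Ω × ZMod M) : cylT b φ θ M (FreeGroup.of x)⁻¹ a =
      ((open Classical in if x = b then a.1 else
        (θ (FreeGroup.of (x, ((a.2 - ((φ x : ℤ) : ZMod M)).val : ℤ))))⁻¹ a.1),
        a.2 - ((φ x : ℤ) : ZMod M)) := by
  unfold cylT
  rw [map_inv, FreeGroup.lift_apply_of]
  rfl

private theorem TCyl_of1 (b : X) (φ : X → ℤ) (θ : FreeGroup (X × ℤ) →* Perm Ω) (M : ℕ) (x : X)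
    (a : Ω × ZMod M) (h : x = b) : (cylT b φ θ M (FreeGroup.of x) a).1 = a.1 :=
  (congrArg Prod.fst (TCyl_of b φ θ M x a)).trans (if_pos h)

private theorem TCyl_of2 (b : X) (φ : X → ℤ) (θ : FreeGroup (X × ℤ) →* Perm Ω) (M : ℕ) (x : X)
    (a : Ω × ZMod M) (h : x ≠ b) :
    (cylT b φ θ M (FreeGroup.of x) a).1 = θ (FreeGroup.of (x, (a.2.val : ℤ))) a.1 :=
  (congrArg Prod.fst (TCyl_of b φ θ M x a)).trans (if_neg h)

private theorem TCyl_of3 (b : X) (φ : X → ℤ) (θ : FreeGroup (X × ℤ) →* Perm Ω) (M : ℕ) (x : X)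
    (a : Ω × ZMod M) :
    (cylT b φ θ M (FreeGroup.of x) a).2 = a.2 + ((φ x : ℤ) : ZMod M) :=
  congrArg Prod.snd (TCyl_of b φ θ M x a)

private theorem TCyl_inv1 (b : X) (φ : X → ℤ) (θ : FreeGroup (X × ℤ) →* Perm Ω) (M : ℕ) (x : X)
    (a : Ω × ZMod M) (h : x = b) : (cylT b φ θ M (FreeGroup.of x)⁻¹ a).1 = a.1 :=
  (congrArg Prod.fst (TCyl_inv b φ θ M x a)).trans (if_pos h)

private theorem TCyl_inv2 (b : X) (φ : X → ℤ) (θ : FreeGroup (X × ℤ) →* Perm Ω) (M : ℕ) (x : X)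
    (a : Ω × ZMod M) (h : x ≠ b) :
    (cylT b φ θ M (FreeGroup.of x)⁻¹ a).1 =
      (θ (FreeGroup.of (x, ((a.2 - ((φ x : ℤ) : ZMod M)).val : ℤ))))⁻¹ a.1 :=
  (congrArg Prod.fst (TCyl_inv b φ θ M x a)).trans (if_neg h)

private theorem TCyl_inv3 (b : X) (φ : X → ℤ) (θ : FreeGroup (X × ℤ) →* Perm Ω) (M : ℕ) (x : X)
    (a : Ω × ZMod M) :
    (cylT b φ θ M (FreeGroup.of x)⁻¹ a).2 = a.2 - ((φ x : ℤ) : ZMod M) :=
  congrArg Prod.snd (TCyl_inv b φ θ M x a)

private theorem TCyl_cons_true {Y : Type} (x : Y) (L : List (Y × Bool)) :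
    (FreeGroup.mk ((x, true) :: L) : FreeGroup Y) = FreeGroup.of x * FreeGroup.mk L := by
  change _ = FreeGroup.mk [(x, true)] * FreeGroup.mk L
  rw [FreeGroup.mul_mk]
  rfl

private theorem TCyl_cons_false {Y : Type} (x : Y) (L : List (Y × Bool)) :
    (FreeGroup.mk ((x, false) :: L) : FreeGroup Y) = (FreeGroup.of x)⁻¹ * FreeGroup.mk L := by
  change _ = FreeGroup.mk [(x, false)] * FreeGroup.mk L
  rw [FreeGroup.mul_mk]
  rfl

private theorem TCyl_val (M : ℕ) (l : ℤ) (h0 : 0 ≤ l) (h1 : l < M) :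
    (((l : ℤ) : ZMod M).val : ℤ) = l := by
  have hM : M ≠ 0 := by
    rintro rfl
    simp at h1
    omega
  have : NeZero M := ⟨hM⟩
  rw [ZMod.val_intCast, Int.emod_eq_of_lt h0 h1]

theorem cylT_mk (b : X) (φ : X → ℤ) (θ : FreeGroup (X × ℤ) →* Perm Ω) (M : ℕ)
    (L : List (X × Bool)) (l : ℤ) (hl : ∀ L', L' <:+ L → 0 ≤ l + lev φ L' ∧ l + lev φ L' < M)
    (ω : Ω) :
    cylT b φ θ M (FreeGroup.mk L) (ω, (l : ZMod M)) =
      (θ (FreeGroup.mk (wmap (sh X l) (rwr b φ L))) ω, ((l + lev φ L : ℤ) : ZMod M)) := by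
  induction L with
  | nil =>
    have h1 : (FreeGroup.mk ([] : List (X × Bool)) : FreeGroup X) = 1 := rfl
    have h2 : (FreeGroup.mk (wmap (sh X l) (rwr b φ [])) : FreeGroup (X × ℤ)) = 1 := rfl
    rw [h1, h2, map_one, map_one]
    simp [lev]
  | cons y L ih =>
    have ih' := ih fun L' hL' => hl L' (hL'.trans (List.suffix_cons y L))
    have hL := hl L (List.suffix_cons y L)
    have hy := hl (y :: L) (List.suffix_refl _)
    rcases y with ⟨x, s⟩
    cases s
    · rw [TCyl_cons_false, map_mul, Perm.mul_apply, ih']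
      have e1 : (((l + lev φ L : ℤ) : ZMod M) - ((φ x : ℤ) : ZMod M)) =
          ((l + (lev φ L - φ x) : ℤ) : ZMod M) := by
        push_cast
        ring
      have e2 : lev φ ((x, false) :: L) = lev φ L - φ x := rfl
      rw [e2] at hy ⊢
      refine Prod.ext ?_ ((TCyl_inv3 b φ θ M x _).trans e1)
      by_cases hx : x = b
      · rw [TCyl_inv1 b φ θ M x _ hx]
        have e3 : rwr b φ ((x, false) :: L) = rwr b φ L := by
          simp only [rwr]
          rw [if_pos hx]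
        rw [e3]
      · rw [TCyl_inv2 b φ θ M x _ hx]
        have e3 : rwr b φ ((x, false) :: L) = ((x, lev φ L - φ x), false) :: rwr b φ L := by
          simp only [rwr]
          rw [if_neg hx]
        have e4 : wmap (sh X l) (((x, lev φ L - φ x), false) :: rwr b φ L) =
            ((x, lev φ L - φ x + l), false) :: wmap (sh X l) (rwr b φ L) := rfl
        have e5 : lev φ L - φ x + l = l + (lev φ L - φ x) := by ring
        have e6 : ((((l + lev φ L : ℤ) : ZMod M) - ((φ x : ℤ) : ZMod M)).val : ℤ) =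
            l + (lev φ L - φ x) := by
          rw [e1]
          exact TCyl_val M _ hy.1 hy.2
        rw [e3, e4, TCyl_cons_false, map_mul, Perm.mul_apply, map_inv, e5]
        change (θ (FreeGroup.of (x, ((((l + lev φ L : ℤ) : ZMod M) - ((φ x : ℤ) : ZMod M)).val : ℤ))))⁻¹ _ = _
        rw [e6]
    · rw [TCyl_cons_true, map_mul, Perm.mul_apply, ih']
      have e1 : (((l + lev φ L : ℤ) : ZMod M) + ((φ x : ℤ) : ZMod M)) =
          ((l + (lev φ L + φ x) : ℤ) : ZMod M) := by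
        push_cast
        ring
      have e2 : lev φ ((x, true) :: L) = lev φ L + φ x := rfl
      rw [e2]
      refine Prod.ext ?_ ((TCyl_of3 b φ θ M x _).trans e1)
      by_cases hx : x = b
      · rw [TCyl_of1 b φ θ M x _ hx]
        have e3 : rwr b φ ((x, true) :: L) = rwr b φ L := by
          simp only [rwr]
          rw [if_pos hx]
        rw [e3]
      · rw [TCyl_of2 b φ θ M x _ hx]
        have e3 : rwr b φ ((x, true) :: L) = ((x, lev φ L), true) :: rwr b φ L := by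
          simp only [rwr]
          rw [if_neg hx]
        have e4 : wmap (sh X l) (((x, lev φ L), true) :: rwr b φ L) =
            ((x, lev φ L + l), true) :: wmap (sh X l) (rwr b φ L) := rfl
        have e5 : lev φ L + l = l + lev φ L := by ring
        have e6 : (((l + lev φ L : ℤ) : ZMod M).val : ℤ) = l + lev φ L := TCyl_val M _ hL.1 hL.2
        rw [e3, e4, TCyl_cons_true, map_mul, Perm.mul_apply, e5]
        change θ (FreeGroup.of (x, (((l + lev φ L : ℤ) : ZMod M).val : ℤ))) _ = _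
        rw [e6]

theorem cylT_snd (b : X) (φ : X → ℤ) (θ : FreeGroup (X × ℤ) →* Perm Ω) (M : ℕ)
    (L : List (X × Bool)) (a : Ω × ZMod M) :
    (cylT b φ θ M (FreeGroup.mk L) a).2 = a.2 + ((lev φ L : ℤ) : ZMod M) := by
  induction L with
  | nil =>
    have h1 : (FreeGroup.mk ([] : List (X × Bool)) : FreeGroup X) = 1 := rfl
    rw [h1, map_one]
    simp [lev]
  | cons y L ih =>
    rcases y with ⟨x, s⟩
    cases s
    · rw [TCyl_cons_false, map_mul, Perm.mul_apply, TCyl_inv]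
      have e2 : lev φ ((x, false) :: L) = lev φ L - φ x := rfl
      rw [e2]
      change (cylT b φ θ M (FreeGroup.mk L) a).2 - ((φ x : ℤ) : ZMod M) = _
      rw [ih]
      push_cast
      ring
    · rw [TCyl_cons_true, map_mul, Perm.mul_apply, TCyl_of]
      have e2 : lev φ ((x, true) :: L) = lev φ L + φ x := rfl
      rw [e2]
      change (cylT b φ θ M (FreeGroup.mk L) a).2 + ((φ x : ℤ) : ZMod M) = _
      rw [ih]
      push_cast
      ring

theorem cylT_wd (b : X) (φ : X → ℤ) (θ : FreeGroup (X × ℤ) →* Perm Ω) (M : ℕ) (V : Set X)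
    (d : FreeGroup X) (hd : d ∈ Wd V) (a : Ω × ZMod M) :
    ∃ d' ∈ Wd {y : X × ℤ | y.1 ∈ V}, (cylT b φ θ M d a).1 = θ d' a.1 := by
  induction hd using Subgroup.closure_induction generalizing a with
  | mem w hw =>
    obtain ⟨x, hx, rfl⟩ := hw
    by_cases hxb : x = b
    · refine ⟨1, Subgroup.one_mem _, ?_⟩
      rw [map_one]
      exact TCyl_of1 b φ θ M x a hxb
    · exact ⟨FreeGroup.of (x, (a.2.val : ℤ)), of_mem_wd hx, TCyl_of2 b φ θ M x a hxb⟩
  | one => exact ⟨1, Subgroup.one_mem _, by rw [map_one, map_one]; rfl⟩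
  | mul u v _ _ hu hv =>
    obtain ⟨d₂, h₂, e₂⟩ := hv a
    obtain ⟨d₁, h₁, e₁⟩ := hu (cylT b φ θ M v a)
    refine ⟨d₁ * d₂, Subgroup.mul_mem _ h₁ h₂, ?_⟩
    rw [map_mul, Perm.mul_apply, e₁, e₂, map_mul, Perm.mul_apply]
  | inv u _ hu =>
    obtain ⟨d', h', e'⟩ := hu (cylT b φ θ M u⁻¹ a)
    have h1 : cylT b φ θ M u (cylT b φ θ M u⁻¹ a) = a := by
      rw [map_inv]
      simp
    rw [h1] at e'
    refine ⟨d'⁻¹, Subgroup.inv_mem _ h', ?_⟩
    rw [e', map_inv]
    simp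

theorem cylT_level (b : X) (φ : X → ℤ) (θ : FreeGroup (X × ℤ) →* Perm Ω) (M : ℕ) (V : Set X)
    (hV : ∀ x ∈ V, φ x = 0) (hb : b ∉ V) (d : FreeGroup X) (hd : d ∈ Wd V) (a : Ω × ZMod M) :
    (cylT b φ θ M d a).2 = a.2 ∧
      ∃ d' ∈ Wd {y : X × ℤ | y.1 ∈ V ∧ y.2 = (a.2.val : ℤ)}, (cylT b φ θ M d a).1 = θ d' a.1 := by
  induction hd using Subgroup.closure_induction generalizing a with
  | mem w hw =>
    obtain ⟨x, hx, rfl⟩ := hw
    have hxb : x ≠ b := fun h => hb (h ▸ hx)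
    refine ⟨?_, FreeGroup.of (x, (a.2.val : ℤ)), of_mem_wd ⟨hx, rfl⟩, TCyl_of2 b φ θ M x a hxb⟩
    rw [TCyl_of3, hV x hx]
    simp
  | one => exact ⟨by rw [map_one]; rfl, 1, Subgroup.one_mem _, by rw [map_one, map_one]; rfl⟩
  | mul u v _ _ hu hv =>
    obtain ⟨s₂, d₂, h₂, e₂⟩ := hv a
    obtain ⟨s₁, d₁, h₁, e₁⟩ := hu (cylT b φ θ M v a)
    rw [s₂] at h₁
    refine ⟨?_, d₁ * d₂, Subgroup.mul_mem _ h₁ h₂, ?_⟩
    · rw [map_mul, Perm.mul_apply, s₁, s₂]
    · rw [map_mul, Perm.mul_apply, e₁, e₂, map_mul, Perm.mul_apply]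
  | inv u _ hu =>
    obtain ⟨s', d', h', e'⟩ := hu (cylT b φ θ M u⁻¹ a)
    have h1 : cylT b φ θ M u (cylT b φ θ M u⁻¹ a) = a := by
      rw [map_inv]
      simp
    rw [h1] at e' s'
    rw [← s'] at h'
    refine ⟨s'.symm, d'⁻¹, Subgroup.inv_mem _ h', ?_⟩
    rw [e', map_inv]
    simp

end ORel
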