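import Pool.Agent.Lib_MP_051624_or.TRwR

/-!
# Existence of the data of a rewriting

`data_of`: given `b, c, φ` with `0 < φ b`, `lev φ s = 0`, `c ≠ b`, both letters in `s`: take for `μ` the
minimum and for `μ + m` the maximum of the heights of the letters `(c, _)` of `rwr b φ s`, which exist
by `exists_rwr`.

`two_letters`: a cyclically reduced word of length at least `2` which is not a proper power has at
least two different letters: if all letters are `x` then, since the word is reduced, all signs are
equal, and `mk s = mk [(x, ε)] ^ s.length`.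

Let `e y` be the exponent sum of `y` in `s`: `e y = lev (fun z => if z = y then 1 else 0) s`. For
`φ = fun z => ∑ ...` with support in two letters `a ≠ a'`: `lev φ s = φ a * e a + φ a' * e a'`
(`lev` is additive in `φ`).

`exists_data`. Let `b ≠ x` be a letter of `s`.
* If `e b = 0`: `φ = 1` at `b`, and `0` otherwise. First case with stable letter `b`.
* If `e b ≠ 0` and `e x ≠ 0`: `φ b = (e x) ^ 2`, `φ x = - e b * e x`, and `0` otherwise. First case.
* If `e b ≠ 0`, `e x = 0` and there is a third letter `b'` in `s`: if `e b' = 0` as in the first item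
  with `b'`; otherwise `φ b = (e b') ^ 2`, `φ b' = - e b * e b'`. First case.
* Otherwise all letters of `s` are `x` or `b` and `e x = 0`: second case with the stable letter `x`,
  `φ x = 1` and `0` otherwise, `c = b`. Here `1 ≤ m`: otherwise all letters `b` have the same height
  `μ`, i.e. all base points of the letters `b` of `s` have the same level; since `s` is reduced, the
  words between two consecutive letters `b` of `s` are powers of `x`, and (as for `rwr_cycred`) their
  exponent is the difference of the levels, so it is `0` and the word is empty; the same for the word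
  between the last and the first letter `b` (cyclically, `lev s = 0`). So `x` does not occur in
  `s`, a contradiction. (One can use `pos_lt` and `pos_adm`, with the stable letter `x`: if `m = 0`, all
  positions of `s` have the same level: the level is constant along the letters `b`, and at the
  ends of the letters `b` it is `μ`. If `(x, ε)` is the letter with the index `i` then the
  positions `i` and `i + 1` have levels which differ by `1`. Consider a maximal block of letters
  `x` containing it: its two ends have the level `μ` (or it is at the end of the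
  word), but the levels of its two ends differ by `± (length of the block)`.)
-/

namespace ORel

theorem data_of {X : Type} (s : List (X × Bool)) (b c : X) (φ : X → ℤ) (hφ : 0 < φ b)
    (hlev : lev φ s = 0) (hne : c ≠ b) (hb : ∃ y ∈ s, y.1 = b) (hc : ∃ y ∈ s, y.1 = c) :
    ∃ (μ : ℤ) (m : ℕ), MData s b c φ μ m := by
  classical
  obtain ⟨y0, hy0, hy0c⟩ := exists_rwr b φ s c hne hc
  let S : Finset ℤ :=
    (((rwr b φ s).filter (fun y => decide (y.1.1 = c))).map (fun y => y.1.2)).toFinset
  have hmem : ∀ l, l ∈ S ↔ ∃ y ∈ rwr b φ s, y.1 = (c, l) := by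
    intro l
    simp only [S, List.mem_toFinset, List.mem_map, List.mem_filter, decide_eq_true_eq]
    constructor
    · rintro ⟨y, ⟨hy, hyc⟩, rfl⟩
      exact ⟨y, hy, Prod.ext hyc rfl⟩
    · rintro ⟨y, hy, he⟩
      exact ⟨y, ⟨hy, by rw [he]⟩, by rw [he]⟩
  have hS : S.Nonempty := ⟨y0.1.2, (hmem _).2 ⟨y0, hy0, Prod.ext hy0c rfl⟩⟩
  have hle : S.min' hS ≤ S.max' hS := Finset.min'_le _ _ (Finset.max'_mem _ _)
  have hcast : S.min' hS + ((S.max' hS - S.min' hS).toNat : ℤ) = S.max' hS := by
    rw [Int.toNat_of_nonneg (by omega)]
    ring
  refine ⟨S.min' hS, (S.max' hS - S.min' hS).toNat, ⟨hφ, hlev, hne, hb, hc, ?_, ?_, ?_⟩⟩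
  · intro y hy hyc
    have h1 : y.1.2 ∈ S := (hmem _).2 ⟨y, hy, Prod.ext hyc rfl⟩
    rw [hcast]
    exact ⟨Finset.min'_le _ _ h1, Finset.le_max' _ _ h1⟩
  · exact (hmem _).1 (Finset.min'_mem _ _)
  · rw [hcast]
    exact (hmem _).1 (Finset.max'_mem _ _)

private theorem TData_replicate {X : Type} (x : X) : ∀ (s : List (X × Bool)),
    FreeGroup.IsReduced s → (∀ y ∈ s, y.1 = x) → ∃ ε : Bool, s = List.replicate s.length (x, ε)
  | [], _, _ => ⟨true, rfl⟩
  | [y], _, h => ⟨y.2, by
      have h1 : y.1 = x := h y List.mem_cons_self
      rw [← h1]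
      rfl⟩
  | y :: z :: L, hr, h => by
    have hr' : y.1 = z.1 → y.2 = z.2 := by
      have := (List.isChain_cons_cons.1 hr).1
      exact this
    have hr2 : FreeGroup.IsReduced (z :: L) := (List.isChain_cons_cons.1 hr).2
    obtain ⟨ε, hε⟩ := TData_replicate x (z :: L) hr2 fun w hw => h w (List.mem_cons_of_mem _ hw)
    have hy : y.1 = x := h y List.mem_cons_self
    have hz : z = (x, ε) := by
      rw [List.length_cons, List.replicate_succ] at hε
      exact (List.cons.inj hε).1
    refine ⟨ε, ?_⟩
    have hy2 : y = (x, ε) := by
      refine Prod.ext hy ?_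
      rw [hr' (by rw [hy, hz]), hz]
    rw [List.length_cons, List.replicate_succ, ← hε, hy2]

theorem two_letters {X : Type} (s : List (X × Bool)) (hs : Word s) (h2 : 2 ≤ s.length) (x : X) :
    ∃ y ∈ s, y.1 ≠ x := by
  by_contra hcon
  have hall : ∀ y ∈ s, y.1 = x := by
    intro y hy
    by_contra hne
    exact hcon ⟨y, hy, hne⟩
  obtain ⟨ε, hε⟩ := TData_replicate x s hs.red.1 hall
  have h3 : (FreeGroup.mk s : FreeGroup X) = FreeGroup.mk [(x, ε)] ^ s.length := by
    rw [← mk_pw]
    congr 1
    unfold pw
    rw [List.flatten_replicate_singleton]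
    exact hε
  have h4 := hs.prim _ _ h3
  omega

end ORel
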