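import Pool.Agent.Lib_MP_051624_or.TData

/-!
# Existence of the data of a rewriting: the choice of the levels

See the header of `TData`. In the last case `1 ≤ m` is proved as follows: if all letters `b` have the
height `μ` then `s` is, as an element of the free group, conjugate to a power of `b`, hence (not a proper
power) to `b` or its inverse; as `s` is cyclically reduced, the norm of `s ^ n` is `n * s.length`, and it is
at most `n + 2 * |μ|`. So `s.length ≤ 1`.
-/

namespace ORel

open Classical in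
/-- The exponent sum. -/
private noncomputable def exs {X : Type} (y : X) (L : List (X × Bool)) : ℤ :=
  lev (fun z => if z = y then (1 : ℤ) else 0) L

private theorem lev_one {X : Type} (φ : X → ℤ) (a : X) (h : ∀ z, z ≠ a → φ z = 0)
    (L : List (X × Bool)) : lev φ L = φ a * exs a L := by
  induction L with
  | nil => simp [lev, exs]
  | cons y L ih =>
    obtain ⟨z, e⟩ := y
    unfold exs at ih ⊢
    by_cases hz : z = a
    · subst hz
      cases e
      · rw [lev, lev, ih, if_pos rfl]; ring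
      · rw [lev, lev, ih, if_pos rfl]; ring
    · cases e
      · rw [lev, lev, ih, h z hz, if_neg hz]; ring
      · rw [lev, lev, ih, h z hz, if_neg hz]; ring

private theorem lev_two {X : Type} (φ : X → ℤ) (a a' : X) (hne : a ≠ a')
    (h : ∀ z, z ≠ a → z ≠ a' → φ z = 0) (L : List (X × Bool)) :
    lev φ L = φ a * exs a L + φ a' * exs a' L := by
  induction L with
  | nil => simp [lev, exs]
  | cons y L ih =>
    obtain ⟨z, e⟩ := y
    unfold exs at ih ⊢
    by_cases hz : z = a
    · subst hz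
      cases e
      · rw [lev, lev, lev, ih, if_pos rfl, if_neg hne]; ring
      · rw [lev, lev, lev, ih, if_pos rfl, if_neg hne]; ring
    · by_cases hz' : z = a'
      · subst hz'
        cases e
        · rw [lev, lev, lev, ih, if_pos rfl, if_neg hz]; ring
        · rw [lev, lev, lev, ih, if_pos rfl, if_neg hz]; ring
      · cases e
        · rw [lev, lev, lev, ih, h z hz hz', if_neg hz, if_neg hz']; ring
        · rw [lev, lev, lev, ih, h z hz hz', if_neg hz, if_neg hz']; ring

private theorem one_letter {X : Type} (s : List (X × Bool)) (b c : X) (hne : c ≠ b)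
    (hb : ∃ y ∈ s, y.1 = b) (hc : ∃ y ∈ s, y.1 = c) (he : exs b s = 0) :
    ∃ (φ : X → ℤ) (μ : ℤ) (m : ℕ), φ b = 1 ∧ (∀ y, y ≠ b → φ y = 0) ∧ MData s b c φ μ m := by
  classical
  obtain ⟨μ, m, h⟩ := data_of s b c (fun z => if z = b then (1 : ℤ) else 0) (by simp)
    (by rw [lev_one _ b (fun z hz => if_neg hz), he, mul_zero]) hne hb hc
  exact ⟨_, μ, m, if_pos rfl, fun y hy => if_neg hy, h⟩

private theorem two_letter {X : Type} (s : List (X × Bool)) (b b' c : X) (hne : c ≠ b)
    (hbb : b ≠ b') (hb : ∃ y ∈ s, y.1 = b) (hc : ∃ y ∈ s, y.1 = c) (he : exs b' s ≠ 0) :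
    ∃ (φ : X → ℤ) (μ : ℤ) (m : ℕ), MData s b c φ μ m := by
  classical
  have hφ : (0 : ℤ) < (fun z => if z = b then exs b' s ^ 2
      else if z = b' then -(exs b s * exs b' s) else 0) b := by
    simp only [if_true]
    positivity
  obtain ⟨μ, m, h⟩ := data_of s b c (fun z => if z = b then exs b' s ^ 2
      else if z = b' then -(exs b s * exs b' s) else 0) hφ
    (by
      rw [lev_two _ b b' hbb (fun z hz hz' => by rw [if_neg hz, if_neg hz'])]
      simp only [if_true, if_neg (Ne.symm hbb)]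
      ring) hne hb hc
  exact ⟨_, μ, m, h⟩

private theorem mk_of_height {X : Type} (x b : X) (φ : X → ℤ) (hxb : b ≠ x) (hx : φ x = 1)
    (h0 : ∀ y, y ≠ x → φ y = 0) (μ : ℤ) (L : List (X × Bool)) (hL : ∀ y ∈ L, y.1 = x ∨ y.1 = b)
    (hμ : ∀ y ∈ rwr x φ L, y.1.1 = b → y.1.2 = μ) :
    ∃ N : ℤ, (FreeGroup.mk L : FreeGroup X) = FreeGroup.of x ^ lev φ L *
      ((FreeGroup.of x ^ μ)⁻¹ * FreeGroup.of b ^ N * FreeGroup.of x ^ μ) := by
  induction L with
  | nil => exact ⟨0, by simp [lev, ← FreeGroup.one_eq_mk]⟩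
  | cons y L ih =>
    obtain ⟨z, e⟩ := y
    have hcons : (FreeGroup.mk ((z, e) :: L) : FreeGroup X) = FreeGroup.mk [(z, e)] * FreeGroup.mk L := by
      rw [FreeGroup.mul_mk]; rfl
    have hL' : ∀ y ∈ L, y.1 = x ∨ y.1 = b := fun y hy => hL y (List.mem_cons_of_mem _ hy)
    rcases hL (z, e) List.mem_cons_self with hz | hz
    · have hz' : z = x := hz
      subst hz'
      cases e
      · have h1 : rwr z φ ((z, false) :: L) = rwr z φ L := by rw [rwr, if_pos rfl]
        obtain ⟨N, hN⟩ := ih hL' (by rw [← h1]; exact hμ)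
        refine ⟨N, ?_⟩
        have h2 : (FreeGroup.mk [(z, false)] : FreeGroup X) = (FreeGroup.of z)⁻¹ := rfl
        rw [hcons, hN, h2, lev, hx, zpow_sub_one]
        have h3 : Commute (FreeGroup.of z)⁻¹ (FreeGroup.of z ^ lev φ L) :=
          ((Commute.refl (FreeGroup.of z)).zpow_right _).inv_left
        rw [← mul_assoc, h3.eq]
      · have h1 : rwr z φ ((z, true) :: L) = rwr z φ L := by rw [rwr, if_pos rfl]
        obtain ⟨N, hN⟩ := ih hL' (by rw [← h1]; exact hμ)
        refine ⟨N, ?_⟩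
        have h2 : (FreeGroup.mk [(z, true)] : FreeGroup X) = FreeGroup.of z := rfl
        rw [hcons, hN, h2, lev, hx, zpow_add_one]
        have h3 : Commute (FreeGroup.of z) (FreeGroup.of z ^ lev φ L) :=
          (Commute.refl (FreeGroup.of z)).zpow_right _
        rw [← mul_assoc, h3.eq]
    · have hz' : z = b := hz
      subst hz'
      cases e
      · have h1 : rwr x φ ((z, false) :: L) = ((z, lev φ L - φ z), false) :: rwr x φ L := by
          rw [rwr, if_neg hxb]
        rw [h1] at hμ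
        obtain ⟨N, hN⟩ := ih hL' fun y hy hy1 => hμ y (List.mem_cons_of_mem _ hy) hy1
        have h4 : lev φ L - φ z = μ := hμ _ List.mem_cons_self rfl
        rw [h0 z hxb, sub_zero] at h4
        refine ⟨N - 1, ?_⟩
        have h2 : (FreeGroup.mk [(z, false)] : FreeGroup X) = (FreeGroup.of z)⁻¹ := rfl
        rw [hcons, hN, h2, lev, h0 z hxb, sub_zero, h4, sub_eq_neg_add, zpow_add, zpow_neg_one]
        group
      · have h1 : rwr x φ ((z, true) :: L) = ((z, lev φ L), true) :: rwr x φ L := by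
          rw [rwr, if_neg hxb]
        rw [h1] at hμ
        obtain ⟨N, hN⟩ := ih hL' fun y hy hy1 => hμ y (List.mem_cons_of_mem _ hy) hy1
        have h4 : lev φ L = μ := hμ _ List.mem_cons_self rfl
        refine ⟨1 + N, ?_⟩
        have h2 : (FreeGroup.mk [(z, true)] : FreeGroup X) = FreeGroup.of z := rfl
        rw [hcons, hN, h2, lev, h0 z hxb, add_zero, h4, zpow_add, zpow_one]
        group

private theorem norm_bound {X : Type} (s : List (X × Bool)) (hs : FreeGroup.IsCyclicallyReduced s)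
    (h g : FreeGroup X) (hg : ∀ n : ℕ, (open Classical in FreeGroup.norm (g ^ n)) ≤ n)
    (e : FreeGroup.mk s = h⁻¹ * g * h) : s.length ≤ 1 := by
  classical
  by_contra hlen
  have hlen : 2 ≤ s.length := by omega
  have key : ∀ n : ℕ, n * s.length ≤ 2 * FreeGroup.norm h + n := by
    intro n
    have h1 : FreeGroup.norm (FreeGroup.mk s ^ n) = n * s.length := by
      rw [← mk_pw, FreeGroup.norm, FreeGroup.toWord_mk]
      have h2 : FreeGroup.IsReduced (pw s n) := (hs.flatten_replicate n).isReduced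
      rw [h2.reduce_eq]
      simp [pw]
    have h3 : FreeGroup.mk s ^ n = h⁻¹ * g ^ n * h := by
      rw [e]
      have := conj_pow (i := n) (a := h⁻¹) (b := g)
      rw [inv_inv] at this
      exact this
    rw [← h1, h3]
    calc FreeGroup.norm (h⁻¹ * g ^ n * h)
        ≤ FreeGroup.norm (h⁻¹ * g ^ n) + FreeGroup.norm h := FreeGroup.norm_mul_le _ _
      _ ≤ FreeGroup.norm h⁻¹ + FreeGroup.norm (g ^ n) + FreeGroup.norm h :=
        Nat.add_le_add_right (FreeGroup.norm_mul_le _ _) _
      _ ≤ 2 * FreeGroup.norm h + n := by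
        rw [FreeGroup.norm_inv_eq]
        have := hg n
        omega
  have h4 := key (2 * FreeGroup.norm h + 1)
  nlinarith [h4, hlen]

private theorem pos_m {X : Type} (s : List (X × Bool)) (hs : Word s) (h2 : 2 ≤ s.length) (x b : X)
    (hL : ∀ y ∈ s, y.1 = x ∨ y.1 = b) (φ : X → ℤ) (hx : φ x = 1) (h0 : ∀ y, y ≠ x → φ y = 0)
    (μ : ℤ) (m : ℕ) (h : MData s x b φ μ m) : 1 ≤ m := by
  classical
  by_contra hm
  have hm0 : m = 0 := by omega
  subst hm0
  obtain ⟨N, hN⟩ := mk_of_height x b φ h.ne hx h0 μ s hL fun y hy hy1 => by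
    have := h.rng y hy hy1
    simp only [Nat.cast_zero, add_zero] at this
    omega
  rw [h.lev, zpow_zero, one_mul] at hN
  have hpow : ∀ (g : FreeGroup X) (n : ℕ), (FreeGroup.of x ^ μ)⁻¹ * g ^ n * FreeGroup.of x ^ μ =
      ((FreeGroup.of x ^ μ)⁻¹ * g * FreeGroup.of x ^ μ) ^ n := by
    intro g n
    have := conj_pow (i := n) (a := (FreeGroup.of x ^ μ)⁻¹) (b := g)
    rw [inv_inv] at this
    exact this.symm
  have hlen : s.length ≤ 1 := by
    rcases le_or_gt 0 N with hN0 | hN0
    · obtain ⟨k, rfl⟩ := Int.eq_ofNat_of_zero_le hN0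
      have e : FreeGroup.mk s = ((FreeGroup.of x ^ μ)⁻¹ * FreeGroup.of b * FreeGroup.of x ^ μ) ^ k := by
        rw [hN, ← hpow]
        simp
      have hk := hs.prim _ _ e
      subst hk
      rw [pow_one] at e
      exact norm_bound s hs.red _ _ (fun n => (FreeGroup.norm_of_pow b n).le) e
    · obtain ⟨k, hk⟩ := Int.eq_ofNat_of_zero_le (show 0 ≤ -N by omega)
      have hNk : N = -(k : ℤ) := by omega
      subst hNk
      have e : FreeGroup.mk s =
          ((FreeGroup.of x ^ μ)⁻¹ * (FreeGroup.of b)⁻¹ * FreeGroup.of x ^ μ) ^ k := by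
        rw [hN, ← hpow]
        simp
      have hk := hs.prim _ _ e
      subst hk
      rw [pow_one] at e
      refine norm_bound s hs.red _ _ (fun n => ?_) e
      rw [inv_pow, FreeGroup.norm_inv_eq]
      exact (FreeGroup.norm_of_pow b n).le
  omega

theorem exists_data {X : Type} (s : List (X × Bool)) (hs : Word s) (h2 : 2 ≤ s.length) (x : X)
    (hx : ∃ y ∈ s, y.1 = x) :
    (∃ (b : X) (φ : X → ℤ) (μ : ℤ) (m : ℕ), MData s b x φ μ m) ∨
    (∃ (c : X) (φ : X → ℤ) (μ : ℤ) (m : ℕ), 1 ≤ m ∧ φ x = 1 ∧ (∀ y, y ≠ x → φ y = 0) ∧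
      MData s x c φ μ m) := by
  obtain ⟨y, hy, hyx⟩ := two_letters s hs h2 x
  have hb : ∃ z ∈ s, z.1 = y.1 := ⟨y, hy, rfl⟩
  by_cases he : exs y.1 s = 0
  · obtain ⟨φ, μ, m, -, -, h⟩ := one_letter s y.1 x (Ne.symm hyx) hb hx he
    exact Or.inl ⟨y.1, φ, μ, m, h⟩
  · by_cases hex : exs x s = 0
    · by_cases h3 : ∃ z ∈ s, z.1 ≠ x ∧ z.1 ≠ y.1
      · obtain ⟨z, hz, hzx, hzy⟩ := h3
        by_cases hez : exs z.1 s = 0
        · obtain ⟨φ, μ, m, -, -, h⟩ := one_letter s z.1 x (Ne.symm hzx) ⟨z, hz, rfl⟩ hx hez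
          exact Or.inl ⟨z.1, φ, μ, m, h⟩
        · obtain ⟨φ, μ, m, h⟩ := two_letter s y.1 z.1 x (Ne.symm hyx) (Ne.symm hzy) hb hx hez
          exact Or.inl ⟨y.1, φ, μ, m, h⟩
      · push Not at h3
        obtain ⟨φ, μ, m, h1, h0, h⟩ := one_letter s x y.1 hyx hx hb hex
        refine Or.inr ⟨y.1, φ, μ, m, ?_, h1, h0, h⟩
        refine pos_m s hs h2 x y.1 (fun z hz => ?_) φ h1 h0 μ m h
        by_cases hzx : z.1 = x
        · exact Or.inl hzx
        · exact Or.inr (h3 z hz hzx)
    · obtain ⟨φ, μ, m, h⟩ := two_letter s y.1 x x (Ne.symm hyx) hyx hb hx hex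
      exact Or.inl ⟨y.1, φ, μ, m, h⟩

end ORel
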