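import Pool.Agent.Lib_MP_051624_or.OSkew
import Pool.Agent.Lib_MP_051624_or.OWd

/-!
# Soficity of all one-relator groups: definitions

Words are lists of letters with signs, applied from the right to the left. The position `i` of the
word `s` (`i ≤ s.length`) is the point reached after the tail `s.drop i`.

* `pw s j`: the word `s ^ j`.
* `Cert θ s P p ε`: a certificate: a function `h : Z → ℕ` which, outside of a set of proportion
  at most `ε`, is strictly larger at the position `p` than at the other positions `i ∈ P`.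
* `Mod S R Vs Cs`: existence of finite models of `⟨S | R⟩`, separated from the windows `V ∈ Vs`,
  with the certificates `c ∈ Cs`.
* `bps s u`: the positions of the base points of the edges labelled `u`.
* `lev φ L`: the level reached after the word `L`.
* `rwr b φ L`: the rewriting of `L` (stable letter `b`, levels `φ`).
* `Word s`: `s` is cyclically reduced and not a proper power.
* `MData`: the data of a Magnus rewriting of `s`: stable letter `b`, main letter `c`, which occurs
  in the rewritten word exactly at heights between `μ` and `μ + m`, both attained.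
* `nw b φ μ s`: the normalised rewritten word.
* `ltr c a b`: the letters `(x, l)` with `a ≤ l ≤ b` if `x = c` (no condition if `x ≠ c`).
* `relT s' j N`: the relators `(shift^t s') ^ j`, `0 ≤ t ≤ N`.
* `ThmA j s`: Theorem A for the group `⟨X | s ^ j⟩`.
* `KMod j c m s' N`: the models of the group `K_N`.
-/

open Equiv

namespace ORel

/-- The `j`-th power of a word. -/
def pw {A : Type} (s : List A) (j : ℕ) : List A := (List.replicate j s).flatten

/-- A certificate. -/
def Cert {X Z : Type} (θ : FreeGroup X →* Perm Z) (s : List (X × Bool)) (P : Finset ℕ) (p : ℕ)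
    (ε : ℝ) : Prop :=
  ∃ h : Z → ℕ, Small (fun z => ∃ i ∈ P, i ≠ p ∧
    h (θ (FreeGroup.mk (s.drop p)) z) ≤ h (θ (FreeGroup.mk (s.drop i)) z)) ε

/-- The data of a certificate: the word, the set of positions, the selected position. -/
abbrev CD (X : Type) : Type := List (X × Bool) × Finset ℕ × ℕ

/-- Existence of finite models of the group `⟨S | R⟩`, separated from the subgroups generated by
the windows `V ∈ Vs`, with the certificates `c ∈ Cs`. -/
def Mod {X : Type} (S : Set X) (R : Set (List (X × Bool))) (Vs : Set (Set X))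
    (Cs : Set (CD X)) : Prop :=
  ∀ (E : Finset (FreeGroup X)) (ε : ℝ), 0 < ε →
    ∃ (Z : Type) (_ : Finite Z) (_ : Nonempty Z) (θ : FreeGroup X →* Perm Z),
      (∀ L ∈ R, Small (fun z => θ (FreeGroup.mk L) z ≠ z) ε) ∧
      (∀ V ∈ Vs, ∀ e ∈ E, e ∈ Wd S →
        e ∉ Wd V ⊔ Subgroup.normalClosure (FreeGroup.mk '' R) →
        Small (fun z => ∃ d ∈ Wd V, θ d z = θ e z) ε) ∧
      (∀ c ∈ Cs, Cert θ c.1 c.2.1 c.2.2 ε)

open Classical in
/-- The positions of the base points of the edges labelled `u`. -/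
noncomputable def bps {X : Type} (s : List (X × Bool)) (u : X) : Finset ℕ :=
  (Finset.univ.filter fun i : Fin s.length => (s.get i).1 = u).image
    fun i => if (s.get i).2 then (i : ℕ) + 1 else (i : ℕ)

/-- The level reached after the word (applied from the right to the left). -/
def lev {X : Type} (φ : X → ℤ) : List (X × Bool) → ℤ
  | [] => 0
  | (x, true) :: L => lev φ L + φ x
  | (x, false) :: L => lev φ L - φ x

open Classical in
/-- The rewriting with the stable letter `b`: the other letters get as height the level of the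
base point of the edge. -/
noncomputable def rwr {X : Type} (b : X) (φ : X → ℤ) : List (X × Bool) → List ((X × ℤ) × Bool)
  | [] => []
  | (x, true) :: L => if x = b then rwr b φ L else ((x, lev φ L), true) :: rwr b φ L
  | (x, false) :: L => if x = b then rwr b φ L else ((x, lev φ L - φ x), false) :: rwr b φ L

/-- Cyclically reduced words which are not proper powers. -/
structure Word {X : Type} (s : List (X × Bool)) : Prop where
  red : FreeGroup.IsCyclicallyReduced s
  prim : ∀ (g : FreeGroup X) (k : ℕ), FreeGroup.mk s = g ^ k → k = 1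

/-- The data of a Magnus rewriting. -/
structure MData {X : Type} (s : List (X × Bool)) (b c : X) (φ : X → ℤ) (μ : ℤ) (m : ℕ) :
    Prop where
  pos : 0 < φ b
  lev : lev φ s = 0
  ne : c ≠ b
  hb : ∃ y ∈ s, y.1 = b
  hc : ∃ y ∈ s, y.1 = c
  rng : ∀ y ∈ rwr b φ s, y.1.1 = c → μ ≤ y.1.2 ∧ y.1.2 ≤ μ + m
  lo : ∃ y ∈ rwr b φ s, y.1 = (c, μ)
  hi : ∃ y ∈ rwr b φ s, y.1 = (c, μ + m)

/-- The normalised rewritten word. -/
noncomputable def nw {X : Type} (b : X) (φ : X → ℤ) (μ : ℤ) (s : List (X × Bool)) :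
    List ((X × ℤ) × Bool) :=
  wmap (sh X (-μ)) (rwr b φ s)

/-- The letters `(x, l)` with `a ≤ l ≤ b` if `x = c`. -/
def ltr {X : Type} (c : X) (a b : ℤ) : Set (X × ℤ) := {y | y.1 = c → a ≤ y.2 ∧ y.2 ≤ b}

/-- The relators of `K_N`. -/
def relT {X : Type} (s : List ((X × ℤ) × Bool)) (j N : ℕ) : Set (List ((X × ℤ) × Bool)) :=
  {L | ∃ t : ℕ, t ≤ N ∧ L = pw (wmap (sh X t) s) j}

/-- Theorem A for the group `⟨X | s ^ j⟩`. -/
structure ThmA {X : Type} (j : ℕ) (s : List (X × Bool)) : Prop where
  win : ∀ Y : Set X, (∃ y ∈ s, y.1 ∉ Y) → Mod Set.univ {pw s j} {Y} ∅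
  cer : ∀ P : Finset ℕ, P.Nonempty → (∀ i ∈ P, i ≤ s.length) → ¬ (0 ∈ P ∧ s.length ∈ P) →
    ∃ p ∈ P, Mod Set.univ {pw s j} ∅ {(s, P, p)}

/-- The models of the group `K_N`. -/
structure KMod {X : Type} (j : ℕ) (c : X) (m : ℕ) (s : List ((X × ℤ) × Bool)) (N : ℕ) :
    Prop where
  win : ∀ t : ℕ, t ≤ N → ∀ Y : Set (X × ℤ), Y ⊆ ltr c t (t + m) →
    (∃ y ∈ wmap (sh X t) s, y.1 ∉ Y) → Mod (ltr c 0 (N + m)) (relT s j N) {Y} ∅
  cer : ∀ (P : Finset ℕ) (p : ℕ), Mod Set.univ {pw s j} ∅ {(s, P, p)} →
    ∀ t : ℕ, t ≤ N → Mod (ltr c 0 (N + m)) (relT s j N) ∅ {(wmap (sh X t) s, P, p)}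

/-! ### First facts -/

theorem pw_zero {A : Type} (s : List A) : pw s 0 = [] := rfl

theorem pw_succ {A : Type} (s : List A) (j : ℕ) : pw s (j + 1) = s ++ pw s j := by
  simp [pw, List.replicate_succ]

theorem mk_pw {X : Type} (s : List (X × Bool)) (j : ℕ) :
    (FreeGroup.mk (pw s j) : FreeGroup X) = FreeGroup.mk s ^ j := by
  induction j with
  | zero => rfl
  | succ j ih => rw [pw_succ, ← FreeGroup.mul_mk, ih, pow_succ']

theorem mem_pw {A : Type} {s : List A} {j : ℕ} {y : A} (h : y ∈ pw s j) : y ∈ s := by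
  unfold pw at h
  obtain ⟨l, hl, hy⟩ := List.mem_flatten.1 h
  rw [(List.mem_replicate.1 hl).2] at hy
  exact hy

theorem wmap_pw {X Y : Type} (f : X → Y) (s : List (X × Bool)) (j : ℕ) :
    wmap f (pw s j) = pw (wmap f s) j := by
  simp [wmap, pw, List.map_flatten]

theorem Cert.mono {X Z : Type} [Finite Z] {θ : FreeGroup X →* Perm Z} {s : List (X × Bool)}
    {P : Finset ℕ} {p : ℕ} {ε δ : ℝ} (h : Cert θ s P p ε) (hδ : ε ≤ δ) : Cert θ s P p δ := by
  obtain ⟨f, hf⟩ := h
  exact ⟨f, hf.mono (fun _ hz => hz) hδ⟩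

theorem Word.ne_nil {X : Type} {s : List (X × Bool)} (h : Word s) : s ≠ [] := by
  rintro rfl
  have := h.prim 1 0 (by simp [FreeGroup.one_eq_mk])
  omega

theorem reduced_wmap {X Y : Type} (f : X → Y) (hf : Function.Injective f)
    {s : List (X × Bool)} (h : FreeGroup.IsReduced s) : FreeGroup.IsReduced (wmap f s) := by
  unfold FreeGroup.IsReduced wmap at *
  rw [List.isChain_map]
  exact h.imp fun a b h1 h2 => h1 (hf h2)

theorem cycred_wmap {X Y : Type} (f : X → Y) (hf : Function.Injective f)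
    {s : List (X × Bool)} (h : FreeGroup.IsCyclicallyReduced s) :
    FreeGroup.IsCyclicallyReduced (wmap f s) := by
  refine ⟨reduced_wmap f hf h.1, ?_⟩
  intro a ha b hb hab
  unfold wmap at ha hb
  rw [List.getLast?_map] at ha
  rw [List.head?_map] at hb
  obtain ⟨a', ha', rfl⟩ := Option.map_eq_some_iff.1 ha
  obtain ⟨b', hb', rfl⟩ := Option.map_eq_some_iff.1 hb
  exact h.2 a' ha' b' hb' (hf hab)

theorem wmap_length {X Y : Type} (f : X → Y) (s : List (X × Bool)) :
    (wmap f s).length = s.length := by simp [wmap]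

theorem wmap_drop {X Y : Type} (f : X → Y) (s : List (X × Bool)) (i : ℕ) :
    wmap f (s.drop i) = (wmap f s).drop i := by simp [wmap, List.map_drop]

theorem wmap_wmap {X Y Z : Type} (f : X → Y) (g : Y → Z) (s : List (X × Bool)) :
    wmap g (wmap f s) = wmap (g ∘ f) s := by simp [wmap]

theorem wmap_sh (X : Type) (a b : ℤ) (s : List ((X × ℤ) × Bool)) :
    wmap (sh X a) (wmap (sh X b) s) = wmap (sh X (b + a)) s := by
  rw [wmap_wmap]
  unfold wmap
  refine List.map_congr_left fun y _ => ?_
  have : ((sh X a) ∘ (sh X b)) y.1 = sh X (b + a) y.1 := by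
    change (y.1.1, y.1.2 + b + a) = (y.1.1, y.1.2 + (b + a))
    rw [add_assoc]
  rw [this]

theorem wmap_sh_zero (X : Type) (s : List ((X × ℤ) × Bool)) : wmap (sh X 0) s = s := by
  unfold wmap
  conv_rhs => rw [← List.map_id s]
  refine List.map_congr_left fun y _ => ?_
  change ((y.1.1, y.1.2 + 0), y.2) = y
  simp

end ORel
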