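import Pool.Agent.Lib_MP_051624_or.TDefs

/-!
# Roots in free groups

Every element `r ≠ 1` of a free group is conjugate to `(mk s) ^ j`, where `s` is a word (cyclically
reduced and not a proper power) and `j ≥ 1`.

Proof (classical decidability). For a reduced word `L` and `k ≥ 1`, `FreeGroup.reduce (pw L k)` is
`conjugator L ++ pw (reduceCyclically L) k ++ invRev (conjugator L)`
(`FreeGroup.reduceCyclically.reduce_flatten_replicate`), of length at least `k` if
`reduceCyclically L ≠ []`. So if `r = g ^ k` with `r ≠ 1`, then `k ≤ r.toWord.length`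
(`L = g.toWord`; `reduceCyclically L = []` would give `g = 1` by
`conj_conjugator_reduceCyclically`). Let `k` be the largest number such that `r = g ^ k` for
some `g` (`Nat.findGreatest`, or `Set.Finite` / `BddAbove`); `k ≥ 1`. Then `g` is not a proper power: if
`g = h ^ l` then `r = h ^ (l * k)`, so `l * k ≤ k`, `l ≤ 1`, and `l ≠ 0` since `g ≠ 1`. Let
`s = reduceCyclically g.toWord` and `c = mk (conjugator g.toWord)`; then `g = c * mk s * c⁻¹`
(`conj_conjugator_reduceCyclically`, `FreeGroup.inv_mk`), `s` is cyclically reduced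
(`FreeGroup.reduceCyclically.isCyclicallyReduced`), and if `mk s = h ^ l` then
`g = (c * h * c⁻¹) ^ l`, so `l = 1`. Take `j = k`.
-/

namespace ORel

open FreeGroup in
private theorem troot_conj {X : Type} [DecidableEq X] (g : FreeGroup X) :
    g = FreeGroup.mk (reduceCyclically.conjugator g.toWord) *
      FreeGroup.mk (reduceCyclically g.toWord) *
      (FreeGroup.mk (reduceCyclically.conjugator g.toWord))⁻¹ := by
  rw [FreeGroup.inv_mk, FreeGroup.mul_mk, FreeGroup.mul_mk,
    reduceCyclically.conj_conjugator_reduceCyclically, FreeGroup.mk_toWord]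

open FreeGroup in
private theorem troot_le {X : Type} [DecidableEq X] (r : FreeGroup X) (hr : r ≠ 1)
    (g : FreeGroup X) (k : ℕ) (h : r = g ^ k) : k ≤ r.toWord.length := by
  rcases Nat.eq_zero_or_pos k with rfl | hk
  · exact Nat.zero_le _
  have hL : FreeGroup.IsReduced g.toWord := FreeGroup.isReduced_toWord
  have h1 := reduceCyclically.reduce_flatten_replicate hL k
  rw [if_neg hk.ne'] at h1
  have h2 : r.toWord = reduce (List.replicate k g.toWord).flatten := by
    rw [h, FreeGroup.toWord_pow]
  have hne : reduceCyclically g.toWord ≠ [] := by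
    intro h0
    apply hr
    have h3 := troot_conj g
    rw [h0] at h3
    have h4 : g = 1 := by
      rw [h3, ← FreeGroup.one_eq_mk]
      group
    rw [h, h4, one_pow]
  have hlen : 1 ≤ (reduceCyclically g.toWord).length := List.length_pos_iff.2 hne
  rw [h2, h1]
  simp only [List.length_append, List.length_flatten, List.map_replicate, List.sum_replicate,
    smul_eq_mul]
  have : k * 1 ≤ k * (reduceCyclically g.toWord).length := Nat.mul_le_mul_left k hlen
  omega

theorem root_decomp {X : Type} (r : FreeGroup X) (hr : r ≠ 1) :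
    ∃ (s : List (X × Bool)) (j : ℕ) (c : FreeGroup X), 1 ≤ j ∧ Word s ∧
      r = c * FreeGroup.mk s ^ j * c⁻¹ := by
  classical
  set N := r.toWord.length with hN
  set k := Nat.findGreatest (fun k => ∃ g : FreeGroup X, r = g ^ k) N with hk
  have h1N : 1 ≤ N := troot_le r hr r 1 (pow_one r).symm
  have hex : ∃ g : FreeGroup X, r = g ^ 1 := ⟨r, (pow_one r).symm⟩
  have hk1 : 1 ≤ k := Nat.le_findGreatest h1N hex
  have hkg : ∃ g : FreeGroup X, r = g ^ k :=
    Nat.findGreatest_spec (P := fun k => ∃ g : FreeGroup X, r = g ^ k) h1N hex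
  have hmax : ∀ (g : FreeGroup X) (l : ℕ), r = g ^ l → l ≤ k := fun g l h =>
    Nat.le_findGreatest (troot_le r hr g l h) ⟨g, h⟩
  obtain ⟨g, hg⟩ := hkg
  have hg1 : g ≠ 1 := by
    rintro rfl
    exact hr (by rw [hg, one_pow])
  have hprim : ∀ (h : FreeGroup X) (l : ℕ), g = h ^ l → l = 1 := by
    intro h l hl
    have h1 : r = h ^ (l * k) := by rw [hg, hl, pow_mul]
    have h2 := hmax h (l * k) h1
    have h3 : l ≠ 0 := by
      rintro rfl
      exact hg1 (by rw [hl, pow_zero])
    have h4 : l ≤ 1 := by
      by_contra h5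
      push Not at h5
      have : 2 * k ≤ l * k := Nat.mul_le_mul_right k h5
      omega
    omega
  have hc := troot_conj g
  refine ⟨FreeGroup.reduceCyclically g.toWord, k,
    FreeGroup.mk (FreeGroup.reduceCyclically.conjugator g.toWord), hk1, ?_, ?_⟩
  · refine ⟨FreeGroup.reduceCyclically.isCyclicallyReduced FreeGroup.isReduced_toWord, ?_⟩
    intro h l hl
    apply hprim (FreeGroup.mk (FreeGroup.reduceCyclically.conjugator g.toWord) * h *
      (FreeGroup.mk (FreeGroup.reduceCyclically.conjugator g.toWord))⁻¹) l
    rw [conj_pow, ← hl]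
    exact hc
  · rw [← conj_pow, ← hc]
    exact hg

end ORel
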