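import Pool.Agent.Lib_MP_051624_or.TMain
import Pool.Agent.Lib_MP_051624_or.TRoot
import Pool.Agent.Lib_MP_051624_or.OSof

/-!
# Every one-relator group is sofic

`sofic_of_models` (from `OSof`) for `R = {L}`, where `mk L` and `r` have the same normal closure, so
that `PresentedGroup {r}` and `PresentedGroup (mk '' {L})` are equal up to an equality of subgroups
(rewrite `normalClosure {r} = normalClosure (mk '' {L})`, or use `IsSofic` along the isomorphism
`QuotientGroup.quotientMulEquivOfEq`).
* `r = 1`: `L = []`, the normal closure is trivial, and `free_rf` gives a finite quotient `Q` of the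
  free group in which the nontrivial elements of `E` survive; the model is `Q` with the left
  translations. (Or `leaf_free` with the window `∅`.)
* `r ≠ 1`: by `root_decomp`, `r = c * mk s ^ j * c⁻¹`, `L = pw s j` (`mk_pw`), and the normal closures
  of `r` and of `mk L` are equal. The models: `(thmA j hj s hs).win ∅` (`wd_empty`, `d = 1`).
-/

open Equiv

namespace ORel

theorem isSofic_congr {G H : Type} [Group G] [Group H] (e : G ≃* H) (h : IsSofic G) :
    IsSofic H := by
  classical
  intro F hF ε hε
  obtain ⟨n, hn, Φ, h1, h2⟩ := h (F.image e.symm) (by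
    intro hmem
    rw [Finset.mem_image] at hmem
    obtain ⟨x, hx, hx1⟩ := hmem
    have hx2 : x = 1 := by
      rw [← e.apply_symm_apply x, hx1, map_one]
    exact hF (hx2 ▸ hx)) ε hε
  refine ⟨n, hn, fun x => Φ (e.symm x), by simpa using h1, fun g hg k hk => ?_⟩
  have h3 := h2 (e.symm g) (Finset.mem_image_of_mem _ hg) (e.symm k) (Finset.mem_image_of_mem _ hk)
  rw [← map_mul] at h3
  exact h3

private theorem tfin_mem_wd {X : Type} (e : FreeGroup X) : e ∈ Wd (Set.univ : Set X) := by
  unfold Wd
  rw [Set.image_univ, FreeGroup.closure_range_of]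
  exact Subgroup.mem_top e

private theorem tfin_one {X : Type} : IsSofic (PresentedGroup ({1} : Set (FreeGroup X))) := by
  have hset : ({1} : Set (FreeGroup X)) = FreeGroup.mk '' {([] : List (X × Bool))} := by
    rw [Set.image_singleton, FreeGroup.one_eq_mk]
  rw [hset]
  refine sofic_of_models _ fun E ε hε => ?_
  obtain ⟨Q, gQ, fQ, q, hq⟩ := free_rf (E : Set (FreeGroup X)) E.finite_toSet
  refine ⟨Q, fQ, ⟨1⟩, (MulAction.toPermHom Q Q).comp q, ?_, ?_⟩
  · intro L hL
    rw [Set.mem_singleton_iff] at hL
    subst hL
    rw [← FreeGroup.one_eq_mk, map_one]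
    exact (small_false hε.le).mono (fun z hz => hz rfl) (le_refl _)
  · intro e he hne
    have he1 : e ≠ 1 := by
      rintro rfl
      exact hne (Subgroup.one_mem _)
    refine (small_false hε.le).mono (fun z hz => ?_) (le_refl _)
    have hz' : q e * z = z := hz
    exact hq e he he1 (mul_eq_right.1 hz')

/-- Every one-relator group is sofic. -/
theorem one_relator_sofic {X : Type} (r : FreeGroup X) : IsSofic (PresentedGroup {r}) := by
  by_cases hr : r = 1
  · subst hr
    exact tfin_one
  · obtain ⟨s, j, c, hj, hs, hrs⟩ := root_decomp r hr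
    have hnc : Subgroup.normalClosure (FreeGroup.mk '' {pw s j}) =
        Subgroup.normalClosure ({r} : Set (FreeGroup X)) := by
      rw [Set.image_singleton, mk_pw]
      apply le_antisymm
      · refine Subgroup.normalClosure_le_normal ?_
        rw [Set.singleton_subset_iff, SetLike.mem_coe]
        have h1 : FreeGroup.mk s ^ j = c⁻¹ * r * (c⁻¹)⁻¹ := by
          rw [hrs]
          group
        rw [h1]
        exact Subgroup.normalClosure_normal.conj_mem _
          (Subgroup.subset_normalClosure (Set.mem_singleton r)) _
      · refine Subgroup.normalClosure_le_normal ?_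
        rw [Set.singleton_subset_iff, SetLike.mem_coe, hrs]
        exact Subgroup.normalClosure_normal.conj_mem _
          (Subgroup.subset_normalClosure (Set.mem_singleton _)) _
    refine isSofic_congr (QuotientGroup.quotientMulEquivOfEq hnc)
      (sofic_of_models {pw s j} fun E ε hε => ?_)
    obtain ⟨y, hy⟩ := List.exists_mem_of_ne_nil s hs.ne_nil
    obtain ⟨Z, hZ, hZ', θ, h1, h2, -⟩ :=
      (thmA j hj s hs).win ∅ ⟨y, hy, Set.notMem_empty _⟩ E ε hε
    refine ⟨Z, hZ, hZ', θ, h1, fun e he hne => ?_⟩
    have h3 := h2 ∅ rfl e he (tfin_mem_wd e) (by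
      rw [wd_empty, bot_sup_eq]
      exact hne)
    exact h3.mono (fun z hz => ⟨1, Subgroup.one_mem _, by rw [map_one, Perm.one_apply]; exact hz.symm⟩)
      (le_refl _)

end ORel
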