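import Pool.Agent.Lib_MP_051624_or.TSwap
import Pool.Agent.Lib_MP_051624_or.OHall
import Pool.Agent.Lib_MP_051624_or.OAsm
import Pool.Agent.Lib_MP_051624_or.ODecomp

/-!
# Gluing of models: the general form

Proof of `glueG`. As the proof of `glue` in `OGlue`, with more windows and with certificates. Write
`F = S₀ ∩ S₁`, `R = R₀ ∪ R₁`, `NC` for the normal closure of `mk '' R`. Let `E` and `ε > 0` be
given. For every `e ∈ E` with `e ∈ Wd (S₀ ∪ S₁)` choose a decomposition (`decomp`): either `f ∈ Wd F`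
or an alternating list `fs`; let `e'` be `f` or `fprod fs`, so that `e⁻¹ * e' ∈ NC`. Let `C_e` be
the constant of `nc_bound` for `e⁻¹ * e'`. Let `K` be at least `1` and at least the lengths of all
the lists, and `C` at least all the `C_e`, and `K₀, K₁` the constants of `c₀, c₁`. Let
`δ₁ > 0` be such that `(2 * C + K + 2) * δ₁ ≤ ε`, and `δ = δ₁ / (K₀ + K₁ + 1)`. Let `E₀` be the finite
set of the factors with the label `true` in the lists and of the elements `f`, and `E₁` the finite set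
of the factors with the label `false` and of the elements `f`. Take the models `Z₀, θ₀` (from
`h₀`, with `E₀, δ`) and `Z₁, θ₁` (from `h₁`, with `E₁, δ`); they satisfy `CSolv` for `δ₁` by `c₀`,
`c₁`. Take the finite quotient `q : FreeGroup X →* Q` with `q f ≠ 1` for all the `f ≠ 1` (`free_rf`),
and the finite group `P` and `π₀ : FreeGroup (Z₀ × Z₁) →* P` of `free_rf_ball` with `k = 2 * K`; let
`π s = π₀ (of s)`, so that `FreeGroup.lift π = π₀`. Let `Ω, θ, G` be given by `assemble` (with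
`δ₁`).

* Relators: by `assemble`, `2 * δ₁ ≤ ε`.
* Certificates: for `c ∈ Cs₀` compose the function `h : Z₀ → ℕ` with `G.p₀`: `mk (c.1.drop i)` is
  in `Wd S₀` (`mk_mem_wd`), so `G.p₀ (θ (mk _) ω) = θ₀ (mk _) (G.p₀ ω)` (`G.eq₀`); use
  `Small.comp_triv`. Similarly for `c ∈ Cs₁` with `G.p₁`.
* Windows. Let `W = ∅`, or `W ∈ Vs₀`, or `W ∈ Vs₁`. Let `e ∈ E`, `e ∈ Wd (S₀ ∪ S₁)`,
  `e ∉ Wd W ⊔ NC`, with the decomposition `e'`; then `e' ∉ Wd W ⊔ NC`. Outside of a set of proportion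
  at most `C * (2 * δ₁)`, `θ e ω = θ e' ω` (`nc_bound` for `e⁻¹ * e'`). Let `d ∈ Wd W` with
  `θ d ω = θ e ω = θ e' ω`.
  Case `W ∈ Vs₁` (so `W ⊆ S₁`):
  - `e' = fprod fs` and some factor has the label `true`: as `d ∈ Wd S₁`, `G.b₀` and `G.bp` show
    that `(π (y₀, y₁))⁻¹ * p` has at `θ d ω` the same value as at `ω`; so `ω` belongs to the
    set of `alt_moves`, of proportion at most `K * δ₁`.
  - `e' = fprod fs` and no factor has the label `true`: then `fs = [(false, u)]`, `e' = u ∈ Wd S₁`,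
    `u ∉ Wd W ⊔ normalClosure (mk '' R₁)`, and `θ₁ d (G.p₁ ω) = θ₁ u (G.p₁ ω)` (`G.eq₁`), a set
    of proportion at most `δ`, by the window `W` of `Z₁`, `Small.comp_triv`.
  - `e' = f ∈ Wd F ≤ Wd S₁`: as before with the window `W` of `Z₁`.
  Case `W ∈ Vs₀` (so `W ⊆ S₀`): symmetric, with `alt_moves_swap`: `d ∈ Wd S₀` preserves `G.p`
  (`G.kp`).
  Case `W = ∅`: `d = 1` (`wd_empty`).
  - `e' = fprod fs`: some factor has the label `true` or `false`; use `alt_moves` or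
    `alt_moves_swap`.
  - `e' = f ∈ Wd F`: `θ f ω = ω`, so `q f = 1` by `G.free`, hence `f = 1`, a contradiction to
    `e' ∉ Wd ∅ ⊔ NC`; the set is empty.
-/

open Equiv

namespace ORel

/-- The data of a decomposition of an element, with the constant of `nc_bound`. -/
private theorem TGlue_data {X : Type} (S₀ S₁ : Set X) (R₀ R₁ : Set (List (X × Bool)))
    (e : FreeGroup X) :
    ∃ (e' : FreeGroup X) (C : ℕ) (fs : List (Bool × FreeGroup X)), e ∈ Wd (S₀ ∪ S₁) →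
      (e⁻¹ * e' ∈ Subgroup.normalClosure (FreeGroup.mk '' (R₀ ∪ R₁)) ∧
      (∀ (Z : Type) [Finite Z] (θ : FreeGroup X →* Perm Z) (δ : ℝ), 0 ≤ δ →
        (∀ L ∈ R₀ ∪ R₁, Small (fun z => θ (FreeGroup.mk L) z ≠ z) δ) →
          Small (fun z => θ (e⁻¹ * e') z ≠ z) (C * δ)) ∧
      ((fs = [] ∧ e' ∈ Wd (S₀ ∩ S₁)) ∨ (fs ≠ [] ∧
        Alt (fun b => if b then Fac S₀ R₀ (S₀ ∩ S₁) else Fac S₁ R₁ (S₀ ∩ S₁)) fs ∧
        e' = fprod fs))) := by
  by_cases he : e ∈ Wd (S₀ ∪ S₁)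
  · rcases decomp S₀ S₁ R₀ R₁ e he with ⟨f, hf, hef⟩ | ⟨fs, hne, halt, hef⟩
    · obtain ⟨C, hC⟩ := nc_bound (R₀ ∪ R₁) _ hef
      exact ⟨f, C, [], fun _ => ⟨hef, hC, Or.inl ⟨rfl, hf⟩⟩⟩
    · obtain ⟨C, hC⟩ := nc_bound (R₀ ∪ R₁) _ hef
      exact ⟨fprod fs, C, fs, fun _ => ⟨hef, hC, Or.inr ⟨hne, halt, rfl⟩⟩⟩
  · exact ⟨1, 0, [], fun h => absurd h he⟩

/-- An alternating nonempty list without the label `b` has one element. -/
private theorem TGlue_single {X : Type} (b : Bool) (fs : List (Bool × FreeGroup X)) (hne : fs ≠ [])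
    (hch : fs.IsChain (fun a b => a.1 ≠ b.1)) (ht : ¬ ∃ u, (b, u) ∈ fs) :
    ∃ u, fs = [(!b, u)] := by
  rcases fs with _ | ⟨⟨a, u⟩, rest⟩
  · exact absurd rfl hne
  · have ha : a = !b := by
      by_contra h
      have h1 : a = b := by cases a <;> cases b <;> simp_all
      exact ht ⟨u, by simp [h1]⟩
    subst ha
    rcases rest with _ | ⟨⟨b', u'⟩, rest'⟩
    · exact ⟨u, rfl⟩
    · rw [List.isChain_cons_cons] at hch
      have h1 : b' = b := by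
        have := hch.1
        cases b' <;> cases b <;> simp_all
      exact absurd ⟨u', by simp [h1]⟩ ht

/-- Pull-back of a certificate. -/
private theorem TGlue_cert {X Ω Z : Type} [Finite Ω] [Finite Z] {S : Set X}
    {θ' : FreeGroup X →* Perm Ω} {θ : FreeGroup X →* Perm Z} {p : Ω → Z} (hp : Triv p)
    (heq : ∀ w ∈ Wd S, ∀ ω, p (θ' w ω) = θ w (p ω)) (s : List (X × Bool))
    (hs : ∀ y ∈ s, y.1 ∈ S) (P : Finset ℕ) (n : ℕ) (δ : ℝ) (h : Cert θ s P n δ) :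
    Cert θ' s P n δ := by
  obtain ⟨f, hf⟩ := h
  refine ⟨fun ω => f (p ω), (hf.comp_triv hp).mono ?_ le_rfl⟩
  have hd : ∀ (i : ℕ) (ω : Ω), p (θ' (FreeGroup.mk (s.drop i)) ω) = θ (FreeGroup.mk (s.drop i)) (p ω) :=
    fun i ω => heq _ (mk_mem_wd _ fun y hy => hs y (List.mem_of_mem_drop hy)) ω
  rintro ω ⟨i, hi, hin, hle⟩
  refine ⟨i, hi, hin, ?_⟩
  have h1 : f (p (θ' (FreeGroup.mk (s.drop n)) ω)) ≤ f (p (θ' (FreeGroup.mk (s.drop i)) ω)) := hle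
  rwa [hd, hd] at h1

private theorem TGlue_mono {X Z : Type} [Finite Z] {S : Set X} {θ : FreeGroup X →* Perm Z}
    {R : Set (List (X × Bool))} {U : Set X} {ε δ : ℝ} (h : CSolv S θ R U ε) (hδ : ε ≤ δ) :
    CSolv S θ R U δ := by
  intro Ω _ θ' p hp heq Γ _ g₀
  obtain ⟨g, hg, hg'⟩ := h Ω θ' p hp heq Γ g₀
  exact ⟨g, hg, fun L hL => (hg' L hL).mono (fun _ hz => hz) hδ⟩

theorem glueG {X : Type} (S₀ S₁ : Set X) (R₀ R₁ : Set (List (X × Bool))) (U₀ U₁ : Set X)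
    (Vs₀ Vs₁ : Set (Set X)) (Cs₀ Cs₁ : Set (CD X))
    (hR₀ : ∀ L ∈ R₀, ∀ y ∈ L, y.1 ∈ S₀) (hR₁ : ∀ L ∈ R₁, ∀ y ∈ L, y.1 ∈ S₁)
    (hV₀ : ∀ V ∈ Vs₀, V ⊆ S₀) (hV₁ : ∀ V ∈ Vs₁, V ⊆ S₁)
    (hC₀ : ∀ c ∈ Cs₀, ∀ y ∈ c.1, y.1 ∈ S₀) (hC₁ : ∀ c ∈ Cs₁, ∀ y ∈ c.1, y.1 ∈ S₁)
    (hU₀ : Disjoint U₀ S₁) (hU₁ : Disjoint U₁ S₀)
    (c₀ : ∃ K : ℕ, ∀ (Z : Type) [Finite Z] (θ : FreeGroup X →* Perm Z) (δ : ℝ), 0 ≤ δ →
      (∀ c ∈ Cs₀, Cert θ c.1 c.2.1 c.2.2 δ) → CSolv S₀ θ R₀ U₀ (K * δ))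
    (c₁ : ∃ K : ℕ, ∀ (Z : Type) [Finite Z] (θ : FreeGroup X →* Perm Z) (δ : ℝ), 0 ≤ δ →
      (∀ c ∈ Cs₁, Cert θ c.1 c.2.1 c.2.2 δ) → CSolv S₁ θ R₁ U₁ (K * δ))
    (h₀ : Mod S₀ R₀ (insert (S₀ ∩ S₁) Vs₀) Cs₀) (h₁ : Mod S₁ R₁ (insert (S₀ ∩ S₁) Vs₁) Cs₁) :
    Mod (S₀ ∪ S₁) (R₀ ∪ R₁) (insert ∅ (Vs₀ ∪ Vs₁)) (Cs₀ ∪ Cs₁) := by
  classical
  intro E ε hε
  obtain ⟨K₀, hc₀⟩ := c₀
  obtain ⟨K₁, hc₁⟩ := c₁
  choose e' C fs hdat using TGlue_data S₀ S₁ R₀ R₁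
  -- the constants
  obtain ⟨K, hK1, hK⟩ : ∃ K : ℕ, 1 ≤ K ∧ ∀ e ∈ E, (fs e).length ≤ K :=
    ⟨1 + ∑ e ∈ E, (fs e).length, by omega, fun e he => by
      have := Finset.single_le_sum (f := fun e => (fs e).length) (fun _ _ => Nat.zero_le _) he
      omega⟩
  obtain ⟨C₀, hCC⟩ : ∃ C₀ : ℕ, ∀ e ∈ E, C e ≤ C₀ :=
    ⟨∑ e ∈ E, C e, fun e he =>
      Finset.single_le_sum (f := C) (fun _ _ => Nat.zero_le _) he⟩
  obtain ⟨δ, hδ, hδε, hδ2⟩ : ∃ δ : ℝ, 0 < δ ∧ (2 * C₀ + K) * δ ≤ ε ∧ 2 * δ ≤ ε := by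
    have h1 : (0 : ℝ) < 2 * C₀ + K + 2 := by positivity
    refine ⟨ε / (2 * C₀ + K + 2), div_pos hε h1, ?_, ?_⟩
    · rw [mul_div_assoc', div_le_iff₀ h1]
      nlinarith
    · rw [mul_div_assoc', div_le_iff₀ h1]
      have h2 : (0 : ℝ) ≤ 2 * C₀ + K := by positivity
      nlinarith
  obtain ⟨η, hη, hη1, hη2, hη3⟩ : ∃ η : ℝ, 0 < η ∧ K₀ * η ≤ δ ∧ K₁ * η ≤ δ ∧ η ≤ δ := by
    have h1 : (0 : ℝ) < K₀ + K₁ + 1 := by positivity
    have h2 : (0 : ℝ) ≤ K₀ := Nat.cast_nonneg _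
    have h3 : (0 : ℝ) ≤ K₁ := Nat.cast_nonneg _
    refine ⟨δ / (K₀ + K₁ + 1), div_pos hδ h1, ?_, ?_, ?_⟩
    · rw [mul_div_assoc', div_le_iff₀ h1]
      nlinarith
    · rw [mul_div_assoc', div_le_iff₀ h1]
      nlinarith
    · rw [div_le_iff₀ h1]
      nlinarith
  -- the finite set of test elements
  set E' : Finset (FreeGroup X) :=
    (E.biUnion fun e => ((fs e).map Prod.snd).toFinset) ∪ E.image e' with hE'
  have hEf : ∀ e ∈ E, ∀ b u, (b, u) ∈ fs e → u ∈ E' := by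
    intro e he b u hu
    rw [hE', Finset.mem_union, Finset.mem_biUnion]
    refine Or.inl ⟨e, he, ?_⟩
    rw [List.mem_toFinset, List.mem_map]
    exact ⟨(b, u), hu, rfl⟩
  have hEe : ∀ e ∈ E, e' e ∈ E' := by
    intro e he
    rw [hE', Finset.mem_union]
    exact Or.inr (Finset.mem_image_of_mem _ he)
  obtain ⟨Z₀, fZ₀, nZ₀, θ₀, r₀, w₀, t₀⟩ := h₀ E' η hη
  obtain ⟨Z₁, fZ₁, nZ₁, θ₁, r₁, w₁, t₁⟩ := h₁ E' η hη
  obtain ⟨Q, gQ, fQ, q, hq⟩ := free_rf (E' : Set (FreeGroup X)) E'.finite_toSet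
  obtain ⟨P, gP, fP, π₀, hπ₀⟩ := free_rf_ball (Z₀ × Z₁) (2 * K)
  set π : Z₀ × Z₁ → P := fun s => π₀ (FreeGroup.of s) with hπ
  have hlift : FreeGroup.lift π = π₀ := by
    ext s
    simp [hπ]
  have hP : ∀ L : List ((Z₀ × Z₁) × Bool), L.length ≤ 2 * K → FreeGroup.IsReduced L → L ≠ [] →
      FreeGroup.lift π (FreeGroup.mk L) ≠ 1 := by
    intro L h1 h2 h3
    rw [hlift]
    exact hπ₀ L h1 h2 h3
  have d₀ : CSolv S₀ θ₀ R₀ U₀ δ := TGlue_mono (hc₀ Z₀ θ₀ η hη.le t₀) hη1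
  have d₁ : CSolv S₁ θ₁ R₁ U₁ δ := TGlue_mono (hc₁ Z₁ θ₁ η hη.le t₁) hη2
  obtain ⟨Ω, fΩ, nΩ, θ, G, hrel⟩ := assemble S₀ S₁ R₀ R₁ hR₀ hR₁ U₀ U₁ hU₀ hU₁ θ₀ θ₁ q π δ
    (fun L hL => (r₀ L hL).mono (fun _ h => h) hη3) (fun L hL => (r₁ L hL).mono (fun _ h => h) hη3)
    d₀ d₁
  -- the windows of the models
  have hwin₁ : ∀ W : Set X, W ∈ insert (S₀ ∩ S₁) Vs₁ → W ⊆ S₁ →
      ∀ u ∈ E', u ∈ Wd S₁ →
      u ∉ Wd W ⊔ Subgroup.normalClosure (FreeGroup.mk '' R₁) →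
      Small (fun ω => ∃ d ∈ Wd W, θ d ω = θ u ω) δ := by
    intro W hW hWS u huE huS hu
    refine ((w₁ W hW u huE huS hu).comp_triv G.triv₁).mono ?_ hη3
    rintro ω ⟨d, hd, hdω⟩
    refine ⟨d, hd, ?_⟩
    rw [← G.eq₁ d (wd_mono hWS hd) ω, ← G.eq₁ u huS ω, hdω]
  have hwin₀ : ∀ W : Set X, W ∈ insert (S₀ ∩ S₁) Vs₀ → W ⊆ S₀ →
      ∀ u ∈ E', u ∈ Wd S₀ →
      u ∉ Wd W ⊔ Subgroup.normalClosure (FreeGroup.mk '' R₀) →
      Small (fun ω => ∃ d ∈ Wd W, θ d ω = θ u ω) δ := by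
    intro W hW hWS u huE huS hu
    refine ((w₀ W hW u huE huS hu).comp_triv G.triv₀).mono ?_ hη3
    rintro ω ⟨d, hd, hdω⟩
    refine ⟨d, hd, ?_⟩
    rw [← G.eq₀ d (wd_mono hWS hd) ω, ← G.eq₀ u huS ω, hdω]
  have hsub₁ : Subgroup.normalClosure (FreeGroup.mk '' R₁) ≤
      Subgroup.normalClosure (FreeGroup.mk '' (R₀ ∪ R₁)) :=
    Subgroup.normalClosure_mono (Set.image_mono Set.subset_union_right)
  have hsub₀ : Subgroup.normalClosure (FreeGroup.mk '' R₀) ≤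
      Subgroup.normalClosure (FreeGroup.mk '' (R₀ ∪ R₁)) :=
    Subgroup.normalClosure_mono (Set.image_mono Set.subset_union_left)
  have hKδ : δ ≤ K * δ := by
    have : (1 : ℝ) ≤ K := by exact_mod_cast hK1
    nlinarith
  have he'W : ∀ W : Set X, ∀ e ∈ E, e ∈ Wd (S₀ ∪ S₁) →
      e ∉ Wd W ⊔ Subgroup.normalClosure (FreeGroup.mk '' (R₀ ∪ R₁)) →
      e' e ∉ Wd W ⊔ Subgroup.normalClosure (FreeGroup.mk '' (R₀ ∪ R₁)) := by
    intro W e he heS heW h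
    obtain ⟨hnc, -, -⟩ := hdat e heS
    apply heW
    have h1 : e = e' e * (e⁻¹ * e' e)⁻¹ := by group
    rw [h1]
    exact Subgroup.mul_mem _ h (Subgroup.mem_sup_right (Subgroup.inv_mem _ hnc))
  -- factors of the first side move the invariants of the words of the second side
  have hA : ∀ W : Set X, W ⊆ S₁ → ∀ e ∈ E, Alt (fun b => if b then Fac S₀ R₀ (S₀ ∩ S₁) else
      Fac S₁ R₁ (S₀ ∩ S₁)) (fs e) → (∃ u, (true, u) ∈ fs e) → e' e = fprod (fs e) →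
      Small (fun ω => ∃ d ∈ Wd W, θ d ω = θ (e' e) ω) (K * δ) := by
    intro W hWS e he halt ht heq
    have h1 := alt_moves S₀ S₁ θ₀ θ₁ q π δ hδ.le Ω θ G K hP (fs e) (hK e he) halt.1
      (fun u hu => by
        have h2 : u ∈ Fac S₀ R₀ (S₀ ∩ S₁) := halt.2 (true, u) hu
        exact ⟨h2.1, (w₀ _ (Set.mem_insert _ _) u (hEf e he _ _ hu) h2.1 h2.2).mono
          (fun _ h => h) hη3⟩)
      (fun u hu => by
        have h2 : u ∈ Fac S₁ R₁ (S₀ ∩ S₁) := halt.2 (false, u) hu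
        exact ⟨h2.1, (w₁ _ (Set.mem_insert _ _) u (hEf e he _ _ hu) h2.1 h2.2).mono
          (fun _ h => h) hη3⟩) ht
    refine h1.mono ?_ le_rfl
    rintro ω ⟨d, hd, hdω⟩
    rw [heq] at hdω
    have hdS : d ∈ Wd S₁ := wd_mono hWS hd
    have h2 := G.bp d hdS ω
    rw [← hdω, G.b₀ d hdS ω]
    exact h2
  have hB : ∀ W : Set X, W ⊆ S₀ → ∀ e ∈ E, Alt (fun b => if b then Fac S₀ R₀ (S₀ ∩ S₁) else
      Fac S₁ R₁ (S₀ ∩ S₁)) (fs e) → (∃ u, (false, u) ∈ fs e) → e' e = fprod (fs e) →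
      Small (fun ω => ∃ d ∈ Wd W, θ d ω = θ (e' e) ω) (K * δ) := by
    intro W hWS e he halt ht heq
    have h1 := alt_moves_swap S₀ S₁ θ₀ θ₁ q π δ hδ.le Ω θ G K hP (fs e) (hK e he) halt.1
      (fun u hu => by
        have h2 : u ∈ Fac S₀ R₀ (S₀ ∩ S₁) := halt.2 (true, u) hu
        exact ⟨h2.1, (w₀ _ (Set.mem_insert _ _) u (hEf e he _ _ hu) h2.1 h2.2).mono
          (fun _ h => h) hη3⟩)
      (fun u hu => by
        have h2 : u ∈ Fac S₁ R₁ (S₀ ∩ S₁) := halt.2 (false, u) hu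
        exact ⟨h2.1, (w₁ _ (Set.mem_insert _ _) u (hEf e he _ _ hu) h2.1 h2.2).mono
          (fun _ h => h) hη3⟩) ht
    refine h1.mono ?_ le_rfl
    rintro ω ⟨d, hd, hdω⟩
    rw [heq] at hdω
    rw [← hdω]
    exact G.kp d (wd_mono hWS hd) ω
  have main : ∀ W ∈ insert ∅ (Vs₀ ∪ Vs₁), ∀ e ∈ E, e ∈ Wd (S₀ ∪ S₁) →
      e ∉ Wd W ⊔ Subgroup.normalClosure (FreeGroup.mk '' (R₀ ∪ R₁)) →
      Small (fun ω => ∃ d ∈ Wd W, θ d ω = θ (e' e) ω) (K * δ) := by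
    intro W hW e he heS heW
    have hnot := he'W W e he heS heW
    obtain ⟨-, -, hcase⟩ := hdat e heS
    rcases hW with rfl | hW | hW
    · -- the empty window
      rcases hcase with ⟨-, hf⟩ | ⟨hne, halt, heq⟩
      · refine (small_false (Z := Ω) (show (0 : ℝ) ≤ K * δ by positivity)).mono ?_ le_rfl
        rintro ω ⟨d, hd, hdω⟩
        rw [wd_empty, Subgroup.mem_bot] at hd
        rw [hd, map_one, Perm.one_apply] at hdω
        have h1 := G.free (e' e) hf ω hdω.symm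
        refine hq (e' e) (hEe e he) ?_ h1
        intro h2
        apply hnot
        rw [h2]
        exact Subgroup.one_mem _
      · by_cases ht : ∃ u, (true, u) ∈ fs e
        · exact hA ∅ (Set.empty_subset _) e he halt ht heq
        · obtain ⟨u, hu⟩ := TGlue_single true (fs e) hne halt.1 ht
          exact hB ∅ (Set.empty_subset _) e he halt ⟨u, by rw [hu]; simp⟩ heq
    · -- a window of the first side
      have hWS : W ⊆ S₀ := hV₀ W hW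
      have key : ∀ u ∈ E', u ∈ Wd S₀ →
          u ∉ Wd W ⊔ Subgroup.normalClosure (FreeGroup.mk '' (R₀ ∪ R₁)) →
          Small (fun ω => ∃ d ∈ Wd W, θ d ω = θ u ω) (K * δ) := fun u huE huS hu =>
        (hwin₀ W (Set.mem_insert_of_mem _ hW) hWS u huE huS
          fun h => hu (sup_le_sup_left hsub₀ _ h)).mono (fun _ h => h) hKδ
      rcases hcase with ⟨-, hf⟩ | ⟨hne, halt, heq⟩
      · exact key (e' e) (hEe e he) (wd_mono Set.inter_subset_left hf) hnot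
      · by_cases ht : ∃ u, (false, u) ∈ fs e
        · exact hB W hWS e he halt ht heq
        · obtain ⟨u, hu⟩ := TGlue_single false (fs e) hne halt.1 ht
          have hmem : (true, u) ∈ fs e := by rw [hu]; simp
          have h2 : u ∈ Fac S₀ R₀ (S₀ ∩ S₁) := halt.2 (true, u) hmem
          have h3 : e' e = u := by
            rw [heq, hu]
            simp [fprod]
          rw [h3] at hnot ⊢
          exact key u (hEf e he _ _ hmem) h2.1 hnot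
    · -- a window of the second side
      have hWS : W ⊆ S₁ := hV₁ W hW
      have key : ∀ u ∈ E', u ∈ Wd S₁ →
          u ∉ Wd W ⊔ Subgroup.normalClosure (FreeGroup.mk '' (R₀ ∪ R₁)) →
          Small (fun ω => ∃ d ∈ Wd W, θ d ω = θ u ω) (K * δ) := fun u huE huS hu =>
        (hwin₁ W (Set.mem_insert_of_mem _ hW) hWS u huE huS
          fun h => hu (sup_le_sup_left hsub₁ _ h)).mono (fun _ h => h) hKδ
      rcases hcase with ⟨-, hf⟩ | ⟨hne, halt, heq⟩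
      · exact key (e' e) (hEe e he) (wd_mono Set.inter_subset_right hf) hnot
      · by_cases ht : ∃ u, (true, u) ∈ fs e
        · exact hA W hWS e he halt ht heq
        · obtain ⟨u, hu⟩ := TGlue_single true (fs e) hne halt.1 ht
          have hmem : (false, u) ∈ fs e := by rw [hu]; simp
          have h2 : u ∈ Fac S₁ R₁ (S₀ ∩ S₁) := halt.2 (false, u) hmem
          have h3 : e' e = u := by
            rw [heq, hu]
            simp [fprod]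
          rw [h3] at hnot ⊢
          exact key u (hEf e he _ _ hmem) h2.1 hnot
  refine ⟨Ω, fΩ, nΩ, θ, ?_, ?_, ?_⟩
  · intro L hL
    exact (hrel L hL).mono (fun _ h => h) hδ2
  · intro W hW e he heS heW
    have h1 := (hdat e heS).2.1 Ω θ (2 * δ) (by positivity) hrel
    have h2 := main W hW e he heS heW
    refine (h1.or h2).mono ?_ ?_
    · rintro ω ⟨d, hd, hdω⟩
      by_cases h3 : θ (e⁻¹ * e' e) ω = ω
      · right
        refine ⟨d, hd, ?_⟩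
        rw [map_mul, map_inv, Perm.mul_apply, Perm.inv_eq_iff_eq] at h3
        rw [hdω, h3]
      · exact Or.inl h3
    · have h3 : (C e : ℝ) ≤ C₀ := by exact_mod_cast hCC e he
      nlinarith
  · have hηε : η ≤ ε := by linarith
    rintro a (ha | ha)
    · exact (TGlue_cert G.triv₀ G.eq₀ a.1 (hC₀ a ha) a.2.1 a.2.2 η (t₀ a ha)).mono hηε
    · exact (TGlue_cert G.triv₁ G.eq₁ a.1 (hC₁ a ha) a.2.1 a.2.2 η (t₁ a ha)).mono hηε

end ORel
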