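import Pool.Agent.Lib_MP_051624_or.TDefs
import Pool.Agent.Lib_MP_051624_or.OSolv

/-!
# Solving powers of words from certificates

* `csolv_pow`: if `val θ' g s ω' = 1` at the points `ω' = θ' (mk s) ^ i ω`, `i < j`, then
  `val θ' g (pw s j) ω = 1` (`val_append`, `pw_succ`); use `Small.comp_perm`.
* `csolv_union`: solve first `R₁` for `U₁`, then `R₀` for `U₀`; the letters of `U₀` do not occur in
  the words of `R₁` (`val_congr_letters`). (Compare `glued_csolv`.)
* `csolv_of_bps`: `solv_of_cert` for the index `i` of the letter of `s` with the base position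
  `p`. If `j ≠ i` is another index with the same letter then the base positions are different: if
  the signs are equal this is clear; otherwise one position is `a + 1` (index `a`, sign `true`) and
  the other `b` (index `b`, sign `false`), and `a + 1 = b` means that the letters `a` and `a + 1`
  cancel, which contradicts `FreeGroup.IsReduced s`. One has `bp s i = mk (s.drop p)` by definition.
-/

open Equiv

namespace ORel

theorem csolv_pow {X Z : Type} [Finite Z] (S : Set X) (θ : FreeGroup X →* Perm Z)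
    (s : List (X × Bool)) (U : Set X) (ε : ℝ) (j : ℕ) (h : CSolv S θ {s} U ε) :
    CSolv S θ {pw s j} U (j * ε) := by
  intro Ω _ θ' p hp heq Γ _ g₀
  obtain ⟨g, hg, hg'⟩ := h Ω θ' p hp heq Γ g₀
  refine ⟨g, hg, fun L hL => ?_⟩
  have hLL : L = pw s j := hL
  subst hLL
  have h1 := hg' s rfl
  clear hg' hL
  induction j with
  | zero =>
    refine (small_false (Z := Ω) (le_refl (0 : ℝ))).mono ?_ (by simp)
    intro ω hω
    exact hω rfl
  | succ j ih =>
    refine ((h1.comp_perm (θ' (FreeGroup.mk (pw s j)))).or ih).mono ?_ ?_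
    · intro ω hω
      by_contra h2
      push Not at h2
      apply hω
      rw [pw_succ, val_append, h2.1, h2.2, one_mul]
    · push_cast
      linarith

theorem csolv_union {X Z : Type} (S : Set X) (θ : FreeGroup X →* Perm Z)
    (R₀ R₁ : Set (List (X × Bool))) (U₀ U₁ : Set X) (δ : ℝ)
    (hd : ∀ L ∈ R₁, ∀ y ∈ L, y.1 ∉ U₀) (c₀ : CSolv S θ R₀ U₀ δ) (c₁ : CSolv S θ R₁ U₁ δ) :
    CSolv S θ (R₀ ∪ R₁) (U₀ ∪ U₁) δ := by
  intro Ω _ θ' p hp heq Γ _ g
  obtain ⟨g', hg', hR₁'⟩ := c₁ Ω θ' p hp heq Γ g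
  obtain ⟨g'', hg'', hR₀'⟩ := c₀ Ω θ' p hp heq Γ g'
  refine ⟨g'', fun x hx => ?_, ?_⟩
  · rw [hg'' x fun h => hx (Or.inl h), hg' x fun h => hx (Or.inr h)]
  · rintro L (hL | hL)
    · exact hR₀' L hL
    · have h1 : ∀ ω, val θ' g'' L ω = val θ' g' L ω := fun ω =>
        val_congr_letters θ' g'' g' L (fun y hy => hg'' y.1 (hd L hL y hy)) ω
      have h2 := hR₁' L hL
      simp only [h1]
      exact h2

theorem CSolv.mono {X Z : Type} [Finite Z] {S : Set X} {θ : FreeGroup X →* Perm Z}
    {R : Set (List (X × Bool))} {U : Set X} {ε δ : ℝ} (h : CSolv S θ R U ε) (hδ : ε ≤ δ) :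
    CSolv S θ R U δ := by
  intro Ω _ θ' p hp heq Γ _ g₀
  obtain ⟨g, hg, hg'⟩ := h Ω θ' p hp heq Γ g₀
  exact ⟨g, hg, fun L hL => (hg' L hL).mono (fun _ hz => hz) hδ⟩

/-- The set of the base positions of `u`. -/
theorem mem_bps {X : Type} (s : List (X × Bool)) (u : X) (p : ℕ) :
    p ∈ bps s u ↔ ∃ i : Fin s.length, (s.get i).1 = u ∧
      p = if (s.get i).2 then (i : ℕ) + 1 else (i : ℕ) := by
  classical
  unfold bps
  simp only [Finset.mem_image, Finset.mem_filter, Finset.mem_univ, true_and]
  constructor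
  · rintro ⟨i, hi, h⟩
    exact ⟨i, hi, h.symm⟩
  · rintro ⟨i, hi, h⟩
    exact ⟨i, hi, h.symm⟩

private theorem TSolv_pos {X : Type} (s : List (X × Bool)) (hred : FreeGroup.IsReduced s)
    (i j : Fin s.length) (hij : (s.get i).1 = (s.get j).1) (hi : (s.get i).2 = true)
    (hj : (s.get j).2 = false) : (i : ℕ) + 1 ≠ j := by
  intro h
  unfold FreeGroup.IsReduced at hred
  rw [List.isChain_iff_getElem] at hred
  have hlt : (i : ℕ) + 1 < s.length := by rw [h]; exact j.2
  have h1 := hred (i : ℕ) hlt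
  have e1 : s[(i : ℕ)] = s.get i := rfl
  have e2 : s[(i : ℕ) + 1] = s.get j := by
    rw [List.get_eq_getElem]
    congr 1
  rw [e1, e2, hi, hj] at h1
  exact absurd (h1 hij) (by simp)

private theorem TSolv_inj {X : Type} (s : List (X × Bool)) (hred : FreeGroup.IsReduced s)
    (i j : Fin s.length) (hij : (s.get i).1 = (s.get j).1)
    (h : (if (s.get i).2 then (i : ℕ) + 1 else (i : ℕ)) =
      if (s.get j).2 then (j : ℕ) + 1 else (j : ℕ)) : i = j := by
  cases hi : (s.get i).2 with
  | true =>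
    cases hj : (s.get j).2 with
    | true =>
      simp only [hi, hj, if_true] at h
      exact Fin.ext (by omega)
    | false =>
      rw [hi, hj] at h
      exact absurd (by simpa using h) (TSolv_pos s hred i j hij hi hj)
  | false =>
    cases hj : (s.get j).2 with
    | true =>
      rw [hi, hj] at h
      exact absurd (by simpa using h.symm) (TSolv_pos s hred j i hij.symm hj hi)
    | false =>
      rw [hi, hj] at h
      exact Fin.ext (by simpa using h)

theorem csolv_of_bps {X Z : Type} [Finite Z] (S : Set X) (θ : FreeGroup X →* Perm Z)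
    (s : List (X × Bool)) (hS : ∀ y ∈ s, y.1 ∈ S) (hred : FreeGroup.IsReduced s) (u : X) (p : ℕ)
    (hp : p ∈ bps s u) (j : ℕ) (ε : ℝ) (hc : Cert θ s (bps s u) p ε) :
    CSolv S θ {pw s j} {u} (j * ε) := by
  obtain ⟨h, hh⟩ := hc
  obtain ⟨i, hi, hpi⟩ := (mem_bps s u p).1 hp
  have hbp : ∀ k : Fin s.length, bp s k =
      FreeGroup.mk (s.drop (if (s.get k).2 then (k : ℕ) + 1 else (k : ℕ))) := fun _ => rfl
  refine csolv_pow S θ s {u} ε j ?_
  refine solv_of_cert S θ s hS {u} i hi _ ε hh h ?_
  intro z hz k hk hki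
  by_contra hle
  push Not at hle
  apply hz
  refine ⟨if (s.get k).2 then (k : ℕ) + 1 else (k : ℕ), (mem_bps s u _).2 ⟨k, hki.trans hi, rfl⟩,
    ?_, ?_⟩
  · intro he
    rw [hpi] at he
    exact hk (TSolv_inj s hred k i hki he)
  · rw [hbp, hbp, ← hpi] at hle
    exact hle

/-- The base positions of a letter of a cyclically reduced word are admissible. -/
theorem bps_adm {X : Type} (s : List (X × Bool)) (hred : FreeGroup.IsCyclicallyReduced s) (u : X)
    (hu : ∃ y ∈ s, y.1 = u) :
    (bps s u).Nonempty ∧ (∀ i ∈ bps s u, i ≤ s.length) ∧ ¬ (0 ∈ bps s u ∧ s.length ∈ bps s u) := by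
  refine ⟨?_, ?_, ?_⟩
  · obtain ⟨y, hy, hyu⟩ := hu
    obtain ⟨i, hi⟩ := List.get_of_mem hy
    exact ⟨_, (mem_bps s u _).2 ⟨i, by rw [hi, hyu], rfl⟩⟩
  · intro p hp
    obtain ⟨i, _, rfl⟩ := (mem_bps s u p).1 hp
    have := i.2
    split_ifs <;> omega
  · rintro ⟨h0, hl⟩
    obtain ⟨i, hi, hi0⟩ := (mem_bps s u _).1 h0
    obtain ⟨j, hj, hjl⟩ := (mem_bps s u _).1 hl
    have hi2 : (s.get i).2 = false := by
      by_contra h
      rw [Bool.not_eq_false] at h
      rw [if_pos h] at hi0
      omega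
    have hj2 : (s.get j).2 = true := by
      by_contra h
      rw [Bool.not_eq_true] at h
      rw [h] at hjl
      have := j.2
      simp only [Bool.false_eq_true, if_false] at hjl
      omega
    rw [hi2] at hi0
    simp only [Bool.false_eq_true, if_false] at hi0
    rw [if_pos hj2] at hjl
    have hlen : 0 < s.length := by omega
    have hne : s ≠ [] := List.length_pos_iff.1 hlen
    have e1 : s.head? = some (s.get i) := by
      rw [List.head?_eq_getElem?, List.get_eq_getElem, List.getElem?_eq_getElem hlen]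
      congr 2
    have e2 : s.getLast? = some (s.get j) := by
      rw [List.getLast?_eq_getElem?, List.get_eq_getElem, List.getElem?_eq_getElem (by omega)]
      congr 2
      omega
    have h1 := hred.2 (s.get j) (by rw [e2]; rfl) (s.get i) (by rw [e1]; rfl) (hj.trans hi.symm)
    rw [hi2, hj2] at h1
    exact absurd h1 (by simp)

/-- The base positions do not change under an injective relabelling. -/
theorem bps_wmap {X Y : Type} (f : X → Y) (hf : Function.Injective f) (s : List (X × Bool))
    (u : X) : bps (wmap f s) (f u) = bps s u := by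
  have hlen : (wmap f s).length = s.length := wmap_length f s
  have hget : ∀ (k : ℕ) (h1 : k < (wmap f s).length) (h2 : k < s.length),
      (wmap f s).get ⟨k, h1⟩ = (f (s.get ⟨k, h2⟩).1, (s.get ⟨k, h2⟩).2) := by
    intro k h1 h2
    simp only [wmap, List.get_eq_getElem, List.getElem_map]
  ext p
  rw [mem_bps, mem_bps]
  constructor
  · rintro ⟨i, hi, h⟩
    have hi2 : (i : ℕ) < s.length := by rw [← hlen]; exact i.2
    have e := hget (i : ℕ) i.2 hi2
    have e' : (wmap f s).get i = (f (s.get ⟨i, hi2⟩).1, (s.get ⟨i, hi2⟩).2) := e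
    rw [e'] at hi h
    exact ⟨⟨i, hi2⟩, hf hi, h⟩
  · rintro ⟨i, hi, h⟩
    have hi1 : (i : ℕ) < (wmap f s).length := by rw [hlen]; exact i.2
    have e := hget (i : ℕ) hi1 i.2
    refine ⟨⟨i, hi1⟩, ?_, ?_⟩
    · rw [e]
      exact congrArg f hi
    · rw [e]
      exact h

end ORel
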