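import Pool.Agent.Lib_MP_051624_or.TGlue
import Pool.Agent.Lib_MP_051624_or.TMod
import Pool.Agent.Lib_MP_051624_or.TSolv
import Pool.Agent.Lib_MP_051624_or.OInd

/-!
# The groups `K_N`

`kmod`: induction on `N`. Write `S_N = ltr c 0 (N + m)`, `R_N = relT s j N`.

`N = 0`: `R_0 = {pw s j}` (`sh X 0` is the identity); use `A` and `Mod.mono`.

Step from `N` to `N + 1`: `S₀ = ltr c 0 (N + m)`, `R₀ = relT s j N`,
`S₁ = ltr c (N + 1) (N + 1 + m)`, `R₁ = {pw (wmap (sh X (N + 1)) s) j}`,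
`U₀ = {(c, t) | 0 ≤ t ≤ N}`, `U₁ = {(c, N + 1 + m)}`. Then
`S₀ ∩ S₁ = ltr c (N + 1) (N + m)`, `S₀ ∪ S₁ = ltr c 0 (N + 1 + m)`, `R₀ ∪ R₁ = relT s j (N + 1)`.

The positions: let `P₀ = bps s (c, 0)` and `P₁ = bps s (c, m)`; they are admissible (`bps_adm`), so
`A.cer` gives `p₀ ∈ P₀` and `p₁ ∈ P₁` with `Mod univ {pw s j} ∅ {(s, P₀, p₀)}` etc. By `ih.cer`, the
group `K_N` has the certificates `(wmap (sh X t) s, P₀, p₀)` for all `t ≤ N`, and
`bps (wmap (sh X t) s) (c, t) = P₀` (`bps_wmap`). Let `Cs₀` contain these certificates and `Cs₁` the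
certificate `(wmap (sh X (N + 1)) s, P₁, p₁)`, `bps (wmap (sh X (N + 1)) s) (c, N + 1 + m) = P₁`.

`c₀` for `glueG`: by `csolv_of_bps`, `CSolv S₀ θ {pw (wmap (sh X t) s) j} {(c, t)} (j * δ)` for all
`t ≤ N`; by induction on `N'` with `csolv_union`, `CSolv S₀ θ (relT s j N') {(c, t) | 0 ≤ t ≤ N'}
(j * δ)`: add the relator `N' + 1` as `R₁`, `U₁ = {(c, N' + 1)}` (solved first); its letters
`(c, l)` have `l ≥ N' + 1`, so they are not in `U₀ = {(c, t) | 0 ≤ t ≤ N'}`. `c₁`: `csolv_of_bps`.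

The hypotheses of `glueG`: `h₀` with `Vs₀ = {Y}` or `∅`: by `Mod.of_finite` from `ih.win` and `ih.cer`:
the window `S₀ ∩ S₁ = ltr c (N + 1) (N + m)` is contained in `ltr c N (N + m)` and misses
the letter `(c, N)` of `wmap (sh X N) s` (`h0`). `h₁`: from `A` by `Mod.map (sh X (N + 1))`
and `Mod.mono`: the window `S₀ ∩ S₁` is the image of `ltr c 0 (m - 1)` (up to the other letters; take
the preimage of the window under the shift), which misses `(c, m)` (`hm`); for the window `Y` take the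
preimage of `Y` under the shift.

`kmod.win` for `t ≤ N`: `Vs₀ = {Y}`; for `t = N + 1`: `Vs₁ = {Y}`. `kmod.cer` for `t ≤ N`: add
the certificate to `Cs₀`; for `t = N + 1`: add it to `Cs₁`.
-/

open Equiv

namespace ORel

private theorem TInd_mem {X : Type} {c : X} {m : ℕ} {s : List ((X × ℤ) × Bool)}
    (hc : ∀ y ∈ s, y.1.1 = c → 0 ≤ y.1.2 ∧ y.1.2 ≤ m) (k : ℤ) :
    ∀ y ∈ wmap (sh X k) s, y.1 ∈ ltr c k (k + m) := by
  intro y hy
  obtain ⟨z, hz, rfl⟩ := List.mem_map.1 hy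
  intro h1
  have h2 := hc z hz h1
  change k ≤ z.1.2 + k ∧ z.1.2 + k ≤ k + m
  constructor <;> omega

private theorem TInd_univ {X : Type} (k : ℤ) : (Set.univ : Set (X × ℤ)) ⊆ sh X k '' Set.univ := by
  intro x _
  exact ⟨(sh X k).symm x, trivial, by simp⟩

private theorem TInd_win {X : Type} {s : List ((X × ℤ) × Bool)} {j : ℕ} (A : ThmA j s) (k : ℤ)
    (V : Set (X × ℤ)) (hV : ∃ y ∈ wmap (sh X k) s, y.1 ∉ V) :
    Mod Set.univ {pw (wmap (sh X k) s) j} {V} ∅ := by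
  have h1 := A.win (sh X k ⁻¹' V) (by
    obtain ⟨y, hy, hyV⟩ := hV
    obtain ⟨z, hz, rfl⟩ := List.mem_map.1 hy
    exact ⟨z, hz, hyV⟩)
  have h2 := h1.map (sh X k)
  rw [Set.image_singleton, Set.image_singleton, wmap_pw] at h2
  refine h2.mono (TInd_univ k) ?_ (Set.empty_subset _)
  rintro W rfl
  exact (Set.image_preimage_eq _ (sh X k).surjective).symm

private theorem TInd_cer {X : Type} {s : List ((X × ℤ) × Bool)} {j : ℕ} (k : ℤ) (P : Finset ℕ)
    (p : ℕ) (h : Mod Set.univ {pw s j} ∅ {(s, P, p)}) :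
    Mod Set.univ {pw (wmap (sh X k) s) j} ∅ {(wmap (sh X k) s, P, p)} := by
  have h2 := h.map (sh X k)
  rw [Set.image_singleton, wmap_pw, Set.image_singleton] at h2
  exact h2.mono (TInd_univ k) (Set.empty_subset _) (le_refl _)

private theorem TInd_relT_zero {X : Type} (s : List ((X × ℤ) × Bool)) (j : ℕ) :
    relT s j 0 = {pw (wmap (sh X 0) s) j} := by
  ext L
  constructor
  · rintro ⟨t, ht, rfl⟩
    have ht0 : t = 0 := Nat.le_zero.1 ht
    subst ht0
    rfl
  · intro hL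
    exact ⟨0, le_rfl, hL⟩

private theorem TInd_relT_succ {X : Type} (s : List ((X × ℤ) × Bool)) (j N : ℕ) :
    relT s j (N + 1) = relT s j N ∪ {pw (wmap (sh X ((N : ℤ) + 1)) s) j} := by
  ext L
  simp only [relT, Set.mem_union, Set.mem_setOf_eq, Set.mem_singleton_iff]
  constructor
  · rintro ⟨t, ht, rfl⟩
    rcases Nat.lt_or_ge N t with h1 | h1
    · have : t = N + 1 := by omega
      subst this
      right
      push_cast
      rfl
    · exact Or.inl ⟨t, h1, rfl⟩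
  · rintro (⟨t, ht, rfl⟩ | rfl)
    · exact ⟨t, by omega, rfl⟩
    · exact ⟨N + 1, le_rfl, by push_cast; rfl⟩

/-- The letters which are solved. -/
private def TInd_U {X : Type} (c : X) (N : ℤ) : Set (X × ℤ) := {y | y.1 = c ∧ 0 ≤ y.2 ∧ y.2 ≤ N}

/-- Solving one relator for its lowest letter. -/
private theorem TInd_low {X : Type} (c : X) (m : ℕ) (s : List ((X × ℤ) × Bool)) (j : ℕ)
    (hred : FreeGroup.IsCyclicallyReduced s)
    (hc : ∀ y ∈ s, y.1.1 = c → 0 ≤ y.1.2 ∧ y.1.2 ≤ m) (p : ℕ) (hp : p ∈ bps s (c, 0))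
    (S : Set (X × ℤ)) (t : ℕ) (hS : ltr c t (t + m) ⊆ S) {Z : Type} [Finite Z]
    (θ : FreeGroup (X × ℤ) →* Perm Z) (δ : ℝ)
    (h : Cert θ (wmap (sh X t) s) (bps s (c, 0)) p δ) :
    CSolv S θ {pw (wmap (sh X t) s) j} {(c, (t : ℤ))} (j * δ) := by
  have hb : bps (wmap (sh X t) s) (c, (t : ℤ)) = bps s (c, 0) := by
    rw [← bps_wmap (sh X t) (sh X t).injective s (c, 0)]
    congr 1
    change (c, (t : ℤ)) = (c, 0 + (t : ℤ))
    rw [zero_add]
  refine csolv_of_bps S θ _ (fun y hy => hS (TInd_mem hc t y hy))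
    (cycred_wmap _ (sh X t).injective hred).1 _ p ?_ j δ ?_
  · rw [hb]; exact hp
  · rw [hb]; exact h

private theorem TInd_high {X : Type} (c : X) (m : ℕ) (s : List ((X × ℤ) × Bool)) (j : ℕ)
    (hred : FreeGroup.IsCyclicallyReduced s)
    (hc : ∀ y ∈ s, y.1.1 = c → 0 ≤ y.1.2 ∧ y.1.2 ≤ m) (p : ℕ) (hp : p ∈ bps s (c, (m : ℤ)))
    (S : Set (X × ℤ)) (k : ℤ) (hS : ltr c k (k + m) ⊆ S) {Z : Type} [Finite Z]
    (θ : FreeGroup (X × ℤ) →* Perm Z) (δ : ℝ)
    (h : Cert θ (wmap (sh X k) s) (bps s (c, (m : ℤ))) p δ) :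
    CSolv S θ {pw (wmap (sh X k) s) j} {(c, k + m)} (j * δ) := by
  have hb : bps (wmap (sh X k) s) (c, k + m) = bps s (c, (m : ℤ)) := by
    rw [← bps_wmap (sh X k) (sh X k).injective s (c, (m : ℤ))]
    congr 1
    change (c, k + (m : ℤ)) = (c, (m : ℤ) + k)
    rw [add_comm]
  refine csolv_of_bps S θ _ (fun y hy => hS (TInd_mem hc k y hy))
    (cycred_wmap _ (sh X k).injective hred).1 _ p ?_ j δ ?_
  · rw [hb]; exact hp
  · rw [hb]; exact h

/-- Solving all the relators of `K_N` for the letters `(c, t)`, `0 ≤ t ≤ N`. -/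
private theorem TInd_solve {X : Type} (c : X) (m : ℕ) (s : List ((X × ℤ) × Bool)) (j : ℕ)
    (hred : FreeGroup.IsCyclicallyReduced s)
    (hc : ∀ y ∈ s, y.1.1 = c → 0 ≤ y.1.2 ∧ y.1.2 ≤ m) (p : ℕ) (hp : p ∈ bps s (c, 0))
    (S : Set (X × ℤ)) {Z : Type} [Finite Z] (θ : FreeGroup (X × ℤ) →* Perm Z) (δ : ℝ) (N : ℕ)
    (hS : ∀ t : ℕ, t ≤ N → ltr c t (t + m) ⊆ S)
    (h : ∀ t : ℕ, t ≤ N → Cert θ (wmap (sh X t) s) (bps s (c, 0)) p δ) :
    CSolv S θ (relT s j N) (TInd_U c N) (j * δ) := by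
  induction N with
  | zero =>
    have h1 := TInd_low c m s j hred hc p hp S 0 (hS 0 le_rfl) θ δ (h 0 le_rfl)
    rw [TInd_relT_zero]
    have h2 : TInd_U c ((0 : ℕ) : ℤ) = {(c, ((0 : ℕ) : ℤ))} := by
      ext ⟨x, l⟩
      simp only [TInd_U, Set.mem_setOf_eq, Set.mem_singleton_iff, Prod.mk.injEq]
      constructor
      · rintro ⟨h3, h4, h5⟩
        exact ⟨h3, by push_cast at h5 ⊢; omega⟩
      · rintro ⟨h3, h4⟩
        exact ⟨h3, by push_cast at h4; omega, by push_cast at h4 ⊢; omega⟩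
    rw [h2]
    exact h1
  | succ N ih =>
    have h1 := ih (fun t ht => hS t (by omega)) (fun t ht => h t (by omega))
    have h2 := TInd_low c m s j hred hc p hp S (N + 1) (hS (N + 1) le_rfl) θ δ
      (h (N + 1) le_rfl)
    have e1 : ((N + 1 : ℕ) : ℤ) = (N : ℤ) + 1 := by push_cast; ring
    rw [e1] at h2
    have h3 := csolv_union S θ _ _ _ _ _ (fun L hL y hy hyU => by
      rw [Set.mem_singleton_iff] at hL
      rw [hL] at hy
      have h4 := TInd_mem hc ((N : ℤ) + 1) y (mem_pw hy) hyU.1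
      have h5 := hyU.2.2
      have h6 := h4.1
      omega) h1 h2
    rw [← TInd_relT_succ] at h3
    have h4 : TInd_U c (((N + 1 : ℕ) : ℤ)) = TInd_U c (N : ℤ) ∪ {(c, (N : ℤ) + 1)} := by
      ext ⟨x, l⟩
      simp only [TInd_U, Set.mem_setOf_eq, Set.mem_union, Set.mem_singleton_iff, Prod.mk.injEq]
      constructor
      · rintro ⟨h5, h6, h7⟩
        push_cast at h7
        by_cases h8 : l ≤ N
        · exact Or.inl ⟨h5, h6, h8⟩
        · exact Or.inr ⟨h5, by omega⟩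
      · rintro (⟨h5, h6, h7⟩ | ⟨h5, h6⟩)
        · exact ⟨h5, h6, by push_cast; omega⟩
        · exact ⟨h5, by omega, by push_cast; omega⟩
    rw [h4]
    exact h3

private theorem TInd_step {X : Type} (c : X) (m : ℕ) (s : List ((X × ℤ) × Bool)) (j : ℕ)
    (hred : FreeGroup.IsCyclicallyReduced s)
    (hc : ∀ y ∈ s, y.1.1 = c → 0 ≤ y.1.2 ∧ y.1.2 ≤ m)
    (h0 : ∃ y ∈ s, y.1 = (c, 0)) (hm : ∃ y ∈ s, y.1 = (c, (m : ℤ)))
    (A : ThmA j s) (N : ℕ) (ih : KMod j c m s N)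
    (Vs₀ Vs₁ : Set (Set (X × ℤ))) (Cs₀ Cs₁ : Set (CD (X × ℤ)))
    (fV₀ : Vs₀.Finite) (fV₁ : Vs₁.Finite) (fC₀ : Cs₀.Finite) (fC₁ : Cs₁.Finite)
    (hV₀ : ∀ V ∈ Vs₀, V ⊆ ltr c 0 (N + m) ∧ Mod (ltr c 0 (N + m)) (relT s j N) {V} ∅)
    (hC₀ : ∀ a ∈ Cs₀, (∀ y ∈ a.1, y.1 ∈ ltr c 0 (N + m)) ∧
      Mod (ltr c 0 (N + m)) (relT s j N) ∅ {a})
    (hV₁ : ∀ V ∈ Vs₁, V ⊆ ltr c (N + 1) (N + 1 + m) ∧
      Mod Set.univ {pw (wmap (sh X ((N : ℤ) + 1)) s) j} {V} ∅)
    (hC₁ : ∀ a ∈ Cs₁, (∀ y ∈ a.1, y.1 ∈ ltr c (N + 1) (N + 1 + m)) ∧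
      Mod Set.univ {pw (wmap (sh X ((N : ℤ) + 1)) s) j} ∅ {a}) :
    Mod (ltr c 0 (((N + 1 : ℕ) : ℤ) + m)) (relT s j (N + 1)) (Vs₀ ∪ Vs₁) (Cs₀ ∪ Cs₁) := by
  obtain ⟨n₀, b₀, l₀⟩ := bps_adm s hred (c, 0) h0
  obtain ⟨p₀, hp₀, cp₀⟩ := A.cer _ n₀ b₀ l₀
  obtain ⟨n₁, b₁, l₁⟩ := bps_adm s hred (c, (m : ℤ)) hm
  obtain ⟨p₁, hp₁, cp₁⟩ := A.cer _ n₁ b₁ l₁
  have hS : ltr c 0 ((N : ℤ) + m) ∪ ltr c (N + 1) (N + 1 + m) =
      ltr c 0 (((N + 1 : ℕ) : ℤ) + m) := by
    ext y
    simp only [ltr, Set.mem_union, Set.mem_setOf_eq]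
    push_cast
    by_cases hy : y.1 = c
    · simp only [hy, forall_const]
      omega
    · simp [hy]
  have hsub : ∀ t : ℕ, t ≤ N → ltr c (t : ℤ) (t + m) ⊆ ltr c 0 ((N : ℤ) + m) := by
    intro t ht y hy hyc
    have h1 := hy hyc
    constructor <;> omega
  -- the certificates for the solutions
  obtain ⟨B₀, hB₀⟩ : ∃ B₀ : Set (CD (X × ℤ)), B₀ =
      (fun t : ℕ => ((wmap (sh X t) s, bps s (c, 0), p₀) : CD (X × ℤ))) '' {t | t ≤ N} := ⟨_, rfl⟩
  have fB₀ : B₀.Finite := by rw [hB₀]; exact (Set.finite_le_nat N).image _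
  obtain ⟨B₁, hB₁⟩ : ∃ B₁ : Set (CD (X × ℤ)), B₁ =
      {((wmap (sh X ((N : ℤ) + 1)) s, bps s (c, (m : ℤ)), p₁) : CD (X × ℤ))} := ⟨_, rfl⟩
  have fB₁ : B₁.Finite := by rw [hB₁]; exact Set.finite_singleton _
  have g := glueG (ltr c 0 ((N : ℤ) + m)) (ltr c (N + 1) (N + 1 + m)) (relT s j N)
    {pw (wmap (sh X ((N : ℤ) + 1)) s) j} (TInd_U c N) {(c, (N : ℤ) + 1 + m)} Vs₀ Vs₁
    (B₀ ∪ Cs₀) (B₁ ∪ Cs₁)
    (by
      rintro L ⟨t, ht, rfl⟩ y hy
      exact hsub t ht (TInd_mem hc t y (mem_pw hy)))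
    (by
      intro L hL y hy
      rw [Set.mem_singleton_iff] at hL
      rw [hL] at hy
      exact TInd_mem hc _ y (mem_pw hy))
    (fun V hV => (hV₀ V hV).1) (fun V hV => (hV₁ V hV).1)
    (by
      rintro a (ha | ha) y hy
      · rw [hB₀] at ha
        obtain ⟨t, ht, rfl⟩ := ha
        exact hsub t ht (TInd_mem hc t y hy)
      · exact (hC₀ a ha).1 y hy)
    (by
      rintro a (ha | ha) y hy
      · rw [hB₁, Set.mem_singleton_iff] at ha
        rw [ha] at hy
        exact TInd_mem hc _ y hy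
      · exact (hC₁ a ha).1 y hy)
    (by
      rw [Set.disjoint_left]
      intro y hy hy'
      have h1 := (hy' hy.1).1
      have h2 := hy.2.2
      omega)
    (by
      rw [Set.disjoint_left]
      intro y hy hy'
      rw [Set.mem_singleton_iff] at hy
      rw [hy] at hy'
      have h1 := (hy' rfl).2
      simp only at h1
      omega)
    ⟨j, fun Z _ θ δ _ hcert => by
      refine TInd_solve c m s j hred hc p₀ hp₀ _ θ δ N hsub fun t ht => ?_
      exact hcert (wmap (sh X t) s, bps s (c, 0), p₀) (Or.inl (by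
        rw [hB₀]
        exact ⟨t, ht, rfl⟩))⟩
    ⟨j, fun Z _ θ δ _ hcert => by
      refine TInd_high c m s j hred hc p₁ hp₁ _ _ (le_refl _) θ δ ?_
      exact hcert (wmap (sh X ((N : ℤ) + 1)) s, bps s (c, (m : ℤ)), p₁) (Or.inl (by
        rw [hB₁]
        rfl))⟩
    (by
      refine Mod.of_finite (fV₀.insert _) (fB₀.union fC₀) ?_ ?_
      · rintro V (rfl | hV)
        · refine ih.win N le_rfl _ ?_ ?_
          · intro y hy hyc
            have h1 := hy.1 hyc
            have h2 := hy.2 hyc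
            constructor <;> omega
          · obtain ⟨y, hy, hyc⟩ := h0
            refine ⟨(sh X N y.1, y.2), List.mem_map.2 ⟨y, hy, rfl⟩, ?_⟩
            intro h1
            have h2 : sh X N y.1 = (c, 0 + (N : ℤ)) := by rw [hyc]; rfl
            simp only at h1
            rw [h2] at h1
            have h3 := (h1.2 rfl).1
            simp only at h3
            omega
        · exact (hV₀ V hV).2
      · rintro a (ha | ha)
        · rw [hB₀] at ha
          obtain ⟨t, ht, rfl⟩ := ha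
          exact ih.cer _ _ cp₀ t ht
        · exact (hC₀ a ha).2)
    (by
      refine Mod.of_finite (fV₁.insert _) (fB₁.union fC₁) ?_ ?_
      · rintro V (rfl | hV)
        · refine (TInd_win A ((N : ℤ) + 1) _ ?_).mono (Set.subset_univ _) (le_refl _) (le_refl _)
          obtain ⟨y, hy, hyc⟩ := hm
          refine ⟨(sh X ((N : ℤ) + 1) y.1, y.2), List.mem_map.2 ⟨y, hy, rfl⟩, ?_⟩
          intro h1
          have h2 : sh X ((N : ℤ) + 1) y.1 = (c, (m : ℤ) + ((N : ℤ) + 1)) := by rw [hyc]; rfl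
          simp only at h1
          rw [h2] at h1
          have h3 := (h1.1 rfl).2
          simp only at h3
          omega
        · exact (hV₁ V hV).2.mono (Set.subset_univ _) (le_refl _) (le_refl _)
      · rintro a (ha | ha)
        · rw [hB₁, Set.mem_singleton_iff] at ha
          rw [ha]
          exact (TInd_cer _ _ _ cp₁).mono (Set.subset_univ _) (le_refl _) (le_refl _)
        · exact (hC₁ a ha).2.mono (Set.subset_univ _) (le_refl _) (le_refl _))
  rw [hS, ← TInd_relT_succ] at g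
  refine g.mono (le_refl _) (Set.subset_insert _ _) ?_
  rintro a (ha | ha)
  · exact Or.inl (Or.inr ha)
  · exact Or.inr (Or.inr ha)

theorem kmod {X : Type} (c : X) (m : ℕ) (s : List ((X × ℤ) × Bool)) (j : ℕ)
    (hred : FreeGroup.IsCyclicallyReduced s)
    (hc : ∀ y ∈ s, y.1.1 = c → 0 ≤ y.1.2 ∧ y.1.2 ≤ m)
    (h0 : ∃ y ∈ s, y.1 = (c, 0)) (hm : ∃ y ∈ s, y.1 = (c, (m : ℤ)))
    (A : ThmA j s) (N : ℕ) : KMod j c m s N := by
  induction N with
  | zero =>
    have e0 : ((0 : ℕ) : ℤ) = 0 := rfl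
    refine ⟨fun t ht Y _ hY => ?_, fun P p hP t ht => ?_⟩
    · have ht0 : t = 0 := Nat.le_zero.1 ht
      subst ht0
      rw [TInd_relT_zero]
      exact (TInd_win A 0 Y hY).mono (Set.subset_univ _) (le_refl _) (le_refl _)
    · have ht0 : t = 0 := Nat.le_zero.1 ht
      subst ht0
      rw [TInd_relT_zero]
      exact (TInd_cer 0 P p hP).mono (Set.subset_univ _) (le_refl _) (le_refl _)
  | succ N ih =>
    have e1 : ((N + 1 : ℕ) : ℤ) = (N : ℤ) + 1 := by push_cast; ring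
    refine ⟨fun t ht Y hYt hY => ?_, fun P p hP t ht => ?_⟩
    · rcases Nat.lt_or_ge N t with h1 | h1
      · have ht' : t = N + 1 := by omega
        subst ht'
        rw [e1] at hYt hY
        have h2 := TInd_step c m s j hred hc h0 hm A N ih ∅ {Y} ∅ ∅ Set.finite_empty
          (Set.finite_singleton _) Set.finite_empty Set.finite_empty
          (fun V hV => absurd hV (Set.notMem_empty V)) (fun a ha => absurd ha (Set.notMem_empty a))
          (by
            rintro V rfl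
            exact ⟨hYt, TInd_win A _ V hY⟩)
          (fun a ha => absurd ha (Set.notMem_empty a))
        exact h2.mono (le_refl _) Set.subset_union_right (Set.empty_subset _)
      · have h2 := TInd_step c m s j hred hc h0 hm A N ih {Y} ∅ ∅ ∅ (Set.finite_singleton _)
          Set.finite_empty Set.finite_empty Set.finite_empty
          (by
            rintro V rfl
            refine ⟨fun y hy hyc => ?_, ih.win t h1 V hYt hY⟩
            have h3 := hYt hy hyc
            constructor <;> omega)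
          (fun a ha => absurd ha (Set.notMem_empty a))
          (fun V hV => absurd hV (Set.notMem_empty V)) (fun a ha => absurd ha (Set.notMem_empty a))
        exact h2.mono (le_refl _) Set.subset_union_left (Set.empty_subset _)
    · rcases Nat.lt_or_ge N t with h1 | h1
      · have ht' : t = N + 1 := by omega
        subst ht'
        rw [e1]
        have h2 := TInd_step c m s j hred hc h0 hm A N ih ∅ ∅ ∅
          {(wmap (sh X ((N : ℤ) + 1)) s, P, p)} Set.finite_empty Set.finite_empty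
          Set.finite_empty (Set.finite_singleton _)
          (fun V hV => absurd hV (Set.notMem_empty V)) (fun a ha => absurd ha (Set.notMem_empty a))
          (fun V hV => absurd hV (Set.notMem_empty V))
          (by
            rintro a rfl
            exact ⟨TInd_mem hc _, TInd_cer _ P p hP⟩)
        rw [e1] at h2
        exact h2.mono (le_refl _) (Set.empty_subset _) Set.subset_union_right
      · have h2 := TInd_step c m s j hred hc h0 hm A N ih ∅ ∅
          {(wmap (sh X t) s, P, p)} ∅ Set.finite_empty Set.finite_empty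
          (Set.finite_singleton _) Set.finite_empty
          (fun V hV => absurd hV (Set.notMem_empty V))
          (by
            rintro a rfl
            refine ⟨fun y hy hyc => ?_, ih.cer P p hP t h1⟩
            have h3 := TInd_mem hc t y hy hyc
            constructor <;> omega)
          (fun V hV => absurd hV (Set.notMem_empty V)) (fun a ha => absurd ha (Set.notMem_empty a))
        exact h2.mono (le_refl _) (Set.empty_subset _) Set.subset_union_left

/-- Several windows and certificates of `K_N` at once. -/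
theorem KMod.mod {X : Type} {j : ℕ} {c : X} {m : ℕ} {s : List ((X × ℤ) × Bool)} {N : ℕ}
    (K : KMod j c m s N) (Vs : Set (Set (X × ℤ))) (hV : Vs.Finite)
    (hV' : ∀ V ∈ Vs, ∃ t : ℕ, t ≤ N ∧ V ⊆ ltr c t (t + m) ∧ ∃ y ∈ wmap (sh X t) s, y.1 ∉ V)
    (Cs : Set (CD (X × ℤ))) (hC : Cs.Finite)
    (hC' : ∀ a ∈ Cs, ∃ t : ℕ, t ≤ N ∧ ∃ (P : Finset ℕ) (p : ℕ), a = (wmap (sh X t) s, P, p) ∧
      Mod Set.univ {pw s j} ∅ {(s, P, p)}) :
    Mod (ltr c 0 (N + m)) (relT s j N) Vs Cs := by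
  refine Mod.of_finite hV hC (fun V hV1 => ?_) (fun a ha => ?_)
  · obtain ⟨t, ht, h1, h2⟩ := hV' V hV1
    exact K.win t ht V h1 h2
  · obtain ⟨t, ht, P, p, rfl, h1⟩ := hC' a ha
    exact K.cer P p h1 t ht

end ORel
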