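import Pool.Agent.Lib_MP_051624_or.TGlue
import Pool.Agent.Lib_MP_051624_or.TSolv
import Pool.Agent.Lib_MP_051624_or.TMod

/-!
# The groups `⟨X | x ^ j⟩`

`leaf_free`: by `Mod.of_finite` it suffices to consider one window `Y`. Let `E` and `ε` be given. For every `e ∈ E`,
`e ∈ Wd S₁`, `e ∉ Wd Y` (the normal closure of the empty set is trivial), let `ρ` be the endomorphism
of the free group which is the identity on the letters of `Y` and maps the other letters to `1`;
`ρ e ≠ e` since `ρ e ∈ Wd Y`. By `free_rf` there is a finite group `Q` and `ψ : FreeGroup X →* Q`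
with `ψ (e⁻¹ * ρ e) ≠ 1` for all these `e`. The model is the finite group `Q × Q` with the left
translations by `(ψ w, ψ (ρ w))` (`MulAction.toPermHom` or `Equiv.mulLeft`): if `d ∈ Wd Y` and
`(ψ d, ψ (ρ d)) * z = (ψ e, ψ (ρ e)) * z` then `ψ d = ψ e` and `ψ (ρ d) = ψ (ρ e)`, but `ρ d = d`,
a contradiction.

`leaf_cyc` (the group `⟨x | x ^ j⟩` on the letters `{x}`, the window `∅`): the model is `ZMod j`
with `x` acting by `z ↦ z + 1`. An element `e ∈ Wd {x}` is a power `x ^ k`; if it is not in the normal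
closure of `x ^ j` (or of `x ^ (-j)`) then `j` does not divide `k`, and `z + k ≠ z`.

`leaf`: `glueG` with `S₀ = {x}`, `S₁ = {x}ᶜ`, `R₀ = {pw [(x, b)] j}`, `R₁ = ∅`, `U₀ = {x}`, `U₁ = ∅`,
`Vs₀ = ∅`, `Vs₁ = {Y}`, no certificates. `S₀ ∩ S₁ = ∅`. `c₀`: the cocycle with `g x = 1` solves
`x ^ j = 1` exactly. `S₀ ∪ S₁ = univ`.
-/

open Equiv

namespace ORel

private theorem TLeaf_rho_mem {X : Type} (Y : Set X) (g : X → FreeGroup X)
    (hg : ∀ x, g x ∈ Wd Y) (e : FreeGroup X) : FreeGroup.lift g e ∈ Wd Y := by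
  induction e using FreeGroup.induction_on with
  | C1 => rw [map_one]; exact (Wd Y).one_mem
  | of x => rw [FreeGroup.lift_apply_of]; exact hg x
  | inv_of x h => rw [map_inv]; exact (Wd Y).inv_mem h
  | mul u v hu hv => rw [map_mul]; exact (Wd Y).mul_mem hu hv

private theorem TLeaf_win {X : Type} (S₁ Y : Set X) :
    Mod S₁ (∅ : Set (List (X × Bool))) {Y} ∅ := by
  classical
  intro E ε hε
  let g : X → FreeGroup X := fun x => if x ∈ Y then FreeGroup.of x else 1
  have hg : ∀ x, g x ∈ Wd Y := by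
    intro x
    by_cases hx : x ∈ Y
    · have h1 : g x = FreeGroup.of x := if_pos hx
      rw [h1]
      exact of_mem_wd hx
    · have h1 : g x = 1 := if_neg hx
      rw [h1]
      exact (Wd Y).one_mem
  let ρ : FreeGroup X →* FreeGroup X := FreeGroup.lift g
  have hρ : ∀ d ∈ Wd Y, ρ d = d := by
    intro d hd
    have h1 : ρ d = (MonoidHom.id (FreeGroup X)) d := hom_congr (fun x hx => by
      change FreeGroup.lift g (FreeGroup.of x) = FreeGroup.of x
      rw [FreeGroup.lift_apply_of]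
      exact if_pos hx) hd
    exact h1
  obtain ⟨Q, _, _, ψ, hψ⟩ := free_rf ((fun e => e⁻¹ * ρ e) '' (E : Set (FreeGroup X)))
    (E.finite_toSet.image _)
  refine ⟨Q × Q, inferInstance, inferInstance,
    (MulAction.toPermHom (Q × Q) (Q × Q)).comp (ψ.prod (ψ.comp ρ)), fun L hL => absurd hL (by simp),
    fun V hV e he _ heV => ?_, fun c hc => absurd hc (by simp)⟩
  rw [Set.mem_singleton_iff] at hV
  subst hV
  have heY : e ∉ Wd V := fun h => heV (Subgroup.mem_sup_left h)
  refine (small_false (Z := Q × Q) hε.le).mono ?_ le_rfl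
  rintro z ⟨d, hd, hde⟩
  have h1 : ((ψ d, ψ (ρ d)) : Q × Q) * z = (ψ e, ψ (ρ e)) * z := hde
  have h2 : ((ψ d, ψ (ρ d)) : Q × Q) = (ψ e, ψ (ρ e)) := mul_right_cancel h1
  have h3 : ψ d = ψ e := congrArg Prod.fst h2
  have h4 : ψ (ρ d) = ψ (ρ e) := congrArg Prod.snd h2
  rw [hρ d hd, h3] at h4
  have h5 : ψ (e⁻¹ * ρ e) = 1 := by
    rw [map_mul, map_inv, h4, inv_mul_cancel]
  have h6 : e⁻¹ * ρ e ≠ 1 := by
    intro h
    apply heY
    have h7 : ρ e = e := (inv_mul_eq_one.1 h).symm
    rw [← h7]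
    exact TLeaf_rho_mem V g hg e
  exact hψ _ ⟨e, he, rfl⟩ h6 h5

theorem leaf_free {X : Type} (S₁ : Set X) (Vs : Set (Set X)) (hfin : Vs.Finite) :
    Mod S₁ (∅ : Set (List (X × Bool))) Vs ∅ :=
  Mod.of_finite hfin Set.finite_empty (fun V _ => TLeaf_win S₁ V) (fun c hc => absurd hc (by simp))

private theorem TLeaf_zpow {X : Type} (x : X) (e : FreeGroup X) (he : e ∈ Wd ({x} : Set X)) :
    ∃ k : ℤ, e = FreeGroup.of x ^ k := by
  unfold Wd at he
  rw [Set.image_singleton, ← Subgroup.zpowers_eq_closure] at he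
  obtain ⟨k, hk⟩ := Subgroup.mem_zpowers_iff.1 he
  exact ⟨k, hk.symm⟩

private theorem TLeaf_mk {X : Type} (x : X) (b : Bool) (j : ℕ) :
    (FreeGroup.mk (pw [(x, b)] j) : FreeGroup X) =
      if b then FreeGroup.of x ^ j else (FreeGroup.of x ^ j)⁻¹ := by
  rw [mk_pw]
  cases b
  · have h1 : (FreeGroup.mk [(x, false)] : FreeGroup X) = (FreeGroup.of x)⁻¹ := rfl
    rw [h1, inv_pow]
    rfl
  · rfl

theorem leaf_cyc {X : Type} (x : X) (b : Bool) (j : ℕ) (hj : 1 ≤ j) :
    Mod {x} {pw [(x, b)] j} {∅} ∅ := by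
  intro E ε hε
  have : NeZero j := ⟨by omega⟩
  let ζ : FreeGroup X →* Multiplicative (ZMod j) := FreeGroup.lift fun _ => Multiplicative.ofAdd 1
  have hζ : ∀ k : ℤ, ζ (FreeGroup.of x ^ k) = Multiplicative.ofAdd (k : ZMod j) := by
    intro k
    rw [map_zpow]
    have h1 : ζ (FreeGroup.of x) = Multiplicative.ofAdd 1 := FreeGroup.lift_apply_of
    rw [h1, ← ofAdd_zsmul, zsmul_one]
  have hζj : ζ (FreeGroup.of x ^ j) = 1 := by
    have h1 := hζ j
    rw [zpow_natCast] at h1
    rw [h1, Int.cast_natCast, ZMod.natCast_self]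
    rfl
  refine ⟨Multiplicative (ZMod j), inferInstance, inferInstance,
    (MulAction.toPermHom (Multiplicative (ZMod j)) (Multiplicative (ZMod j))).comp ζ,
    fun L hL => ?_, fun V hV e he heS heV => ?_, fun c hc => absurd hc (by simp)⟩
  · rw [Set.mem_singleton_iff] at hL
    subst hL
    refine (small_false (Z := Multiplicative (ZMod j)) hε.le).mono ?_ le_rfl
    intro z hz
    apply hz
    change ζ (FreeGroup.mk (pw [(x, b)] j)) * z = z
    have h1 : ζ (FreeGroup.mk (pw [(x, b)] j)) = 1 := by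
      rw [TLeaf_mk]
      cases b
      · rw [if_neg (by simp), map_inv, hζj, inv_one]
      · rw [if_pos rfl, hζj]
    rw [h1, one_mul]
  · rw [Set.mem_singleton_iff] at hV
    subst hV
    refine (small_false (Z := Multiplicative (ZMod j)) hε.le).mono ?_ le_rfl
    rintro z ⟨d, hd, hde⟩
    rw [wd_empty, Subgroup.mem_bot] at hd
    subst hd
    have h1 : ζ 1 * z = ζ e * z := hde
    have h2 : ζ e = 1 := by
      have h3 := mul_right_cancel h1
      rw [map_one] at h3
      exact h3.symm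
    obtain ⟨k, rfl⟩ := TLeaf_zpow x e heS
    rw [hζ k] at h2
    have h3 : ((k : ℤ) : ZMod j) = 0 := h2
    rw [ZMod.intCast_zmod_eq_zero_iff_dvd] at h3
    obtain ⟨m, rfl⟩ := h3
    apply heV
    apply Subgroup.mem_sup_right
    have h4 : (FreeGroup.of x : FreeGroup X) ^ j ∈
        Subgroup.normalClosure (FreeGroup.mk '' {pw [(x, b)] j}) := by
      have h5 : (FreeGroup.mk (pw [(x, b)] j) : FreeGroup X) ∈
          Subgroup.normalClosure (FreeGroup.mk '' {pw [(x, b)] j}) :=
        Subgroup.subset_normalClosure ⟨_, rfl, rfl⟩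
      rw [TLeaf_mk] at h5
      cases b
      · rw [if_neg (by simp)] at h5
        exact (Subgroup.inv_mem_iff _).1 h5
      · rw [if_pos rfl] at h5
        exact h5
    rw [zpow_mul, zpow_natCast]
    exact Subgroup.zpow_mem _ h4 m

private theorem TLeaf_val {X Z Γ : Type} [Group Γ] (θ : FreeGroup X →* Perm Z) (g : X → Z → Γ)
    (L : List (X × Bool)) (h : ∀ y ∈ L, ∀ z, g y.1 z = 1) (z : Z) : val θ g L z = 1 := by
  induction L with
  | nil => rfl
  | cons y L ih =>
    have h1 := ih fun y' hy' => h y' (by simp [hy'])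
    have h2 := h y (by simp)
    rcases y with ⟨u, b⟩
    cases b
    · simp only [val]
      rw [h1, h2]
      simp
    · simp only [val]
      rw [h1, h2]
      simp

theorem leaf {X : Type} (x : X) (b : Bool) (j : ℕ) (hj : 1 ≤ j) (Y : Set X) (hY : x ∉ Y) :
    Mod Set.univ {pw [(x, b)] j} {Y} ∅ := by
  classical
  have hx : ∀ y ∈ pw [(x, b)] j, y.1 = x := by
    intro y hy
    have h1 := mem_pw hy
    rw [List.mem_singleton] at h1
    rw [h1]
  have hF : ({x} : Set X) ∩ {x}ᶜ = ∅ := Set.inter_compl_self _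
  have h := glueG ({x} : Set X) {x}ᶜ {pw [(x, b)] j} ∅ {x} ∅ ∅ {Y} ∅ ∅
    (fun L hL y hy => by
      rw [Set.mem_singleton_iff] at hL
      subst hL
      exact hx y hy)
    (fun L hL => absurd hL (by simp))
    (fun V hV => absurd hV (by simp))
    (fun V hV => by
      rw [Set.mem_singleton_iff] at hV
      subst hV
      exact Set.subset_compl_singleton_iff.2 hY)
    (fun c hc => absurd hc (by simp)) (fun c hc => absurd hc (by simp))
    disjoint_compl_right (Set.empty_disjoint _)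
    ⟨0, fun Z _ θ δ hδ _ Ω _ θ' p hp heq Γ _ g₀ => by
      refine ⟨fun y => if y = x then fun _ => 1 else g₀ y, fun y hy => ?_, fun L hL => ?_⟩
      · exact if_neg hy
      · rw [Set.mem_singleton_iff] at hL
        subst hL
        refine (small_false (Z := Ω) (ε := ((0 : ℕ) : ℝ) * δ) (by simp)).mono ?_ le_rfl
        intro ω hω
        apply hω
        refine TLeaf_val θ' _ _ (fun y hy z => ?_) ω
        simp only [hx y hy, if_true]⟩
    ⟨0, fun Z _ θ δ hδ _ Ω _ θ' p hp heq Γ _ g₀ =>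
      ⟨g₀, fun _ _ => rfl, fun L hL => absurd hL (by simp)⟩⟩
    (by
      rw [hF]
      exact (leaf_cyc x b j hj).mono le_rfl (by simp) le_rfl)
    (by
      rw [hF]
      exact leaf_free _ _ (by simp))
  rw [Set.union_empty] at h
  exact h.mono (by rw [Set.union_compl_self]) (by simp) (by simp)

/-- Theorem A for words of length one. -/
theorem thmA_one {X : Type} (j : ℕ) (hj : 1 ≤ j) (x : X) (b : Bool) : ThmA j [(x, b)] := by
  refine ⟨fun Y hY => ?_, fun P hP hle h01 => ?_⟩
  · obtain ⟨y, hy, hyY⟩ := hY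
    rw [List.mem_singleton] at hy
    subst hy
    exact leaf x b j hj Y hyY
  · obtain ⟨p, hp⟩ := hP
    refine ⟨p, hp, ?_⟩
    have hall : ∀ i ∈ P, i = p := by
      intro i hi
      have h1 := hle i hi
      have h2 := hle p hp
      have h3 : ([(x, b)] : List (X × Bool)).length = 1 := rfl
      rw [h3] at h1 h2 h01
      by_contra hne
      have h4 : (i = 0 ∧ p = 1) ∨ (i = 1 ∧ p = 0) := by omega
      rcases h4 with ⟨h5, h6⟩ | ⟨h5, h6⟩
      · subst h5 h6
        exact h01 ⟨hi, hp⟩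
      · subst h5 h6
        exact h01 ⟨hp, hi⟩
    intro E ε hε
    obtain ⟨Z, h1, h2, θ, h3, -, -⟩ := Mod.trivial (Set.univ : Set X) {pw [(x, b)] j} E ε hε
    refine ⟨Z, h1, h2, θ, h3, fun V hV => absurd hV (by simp), fun c hc => ?_⟩
    rw [Set.mem_singleton_iff] at hc
    subst hc
    refine ⟨fun _ => 0, ?_⟩
    refine (small_false (Z := Z) hε.le).mono ?_ le_rfl
    rintro z ⟨i, hi, hne, -⟩
    exact hne (hall i hi)

end ORel
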