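import Pool.Agent.Lib_MP_051624_or.TMod
import Pool.Agent.Lib_MP_051624_or.TSolv
import Pool.Agent.Lib_MP_051624_or.OHall

/-!
# Separation from smaller windows

Proof of `upgrade`. Let `NC` be the normal closure of `mk (pw s j)`. Let `E` and `ε > 0` be given.
For every `e ∈ E` with `e ∉ Wd Y ⊔ NC` and `e ∈ Wd {x}ᶜ ⊔ NC` write `e = f * ν`, `f ∈ Wd {x}ᶜ`,
`ν ∈ NC` (`Subgroup.mem_sup_of_normal_right`); `f ∉ Wd Y`. Let `C` be at least the constants of
`nc_bound` for these `ν`. Let `ρ` be the endomorphism of the free group which is the identity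
on the letters of `Y` and maps the other letters to `1`; then `ρ f ≠ f`, and by `free_rf` there is
a finite group `Q₀` and `ψ : FreeGroup X →* Q₀` with `ψ (f⁻¹ * ρ f) ≠ 1` for all these `f`. Let
`Q = Q₀ × Q₀` and `q w = (ψ w, ψ (ρ w))`. For `d ∈ Wd Y`: `q d = (ψ d, ψ d) ≠ q f`.

Let `δ > 0` with `(C + 1) * (j + 1) * δ ≤ ε` (and `2 * δ ≤ ε`). Take the model `Z, θ` of `h` for `E`
and `δ`. By `csolv_of_bps` (`CSolv univ θ {pw s j} {x} (j * δ)`), applied to the cover `Ω = Z`,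
`p = id` (`triv_id`), the group `Q` and the constant cocycle `fun y _ => q (of y)`, there is a cocycle
`g` with `g y z = q (of y)` for `y ≠ x`, and `val θ g (pw s j) z = 1` up to proportion `j * δ`. The
model is `skew θ g` on `Z × Q`.

* Relator: `skew_mk`: it moves `(z, γ)` only if `θ` of the relator moves `z` or `val ≠ 1`: proportion
  at most `(j + 1) * δ`.
* The window `Y`: let `e ∈ E`, `e ∉ Wd Y ⊔ NC`. If `e ∉ Wd {x}ᶜ ⊔ NC`: if
  `skew d (z, γ) = skew e (z, γ)`, `d ∈ Wd Y ≤ Wd {x}ᶜ`, then `θ d z = θ e z`, proportion at most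
  `δ`. Otherwise `e = f * ν`; outside of proportion `C * (j + 1) * δ` one has
  `skew ν (z, γ) = (z, γ)`, so `skew e (z, γ) = skew f (z, γ)`; if it is `skew d (z, γ)` with
  `d ∈ Wd Y` then the second coordinates give `q f * γ = q d * γ` (`skew_apply`, `cval_const` for the
  letters `{x}ᶜ`), a contradiction.
-/

open Equiv

namespace ORel

private theorem TUp_split {X : Type} (R : Set (List (X × Bool))) (V Y : Set X) (e : FreeGroup X)
    (h1 : e ∉ Wd Y ⊔ Subgroup.normalClosure (FreeGroup.mk '' R))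
    (h2 : e ∈ Wd V ⊔ Subgroup.normalClosure (FreeGroup.mk '' R)) :
    ∃ f : FreeGroup X, (f ∈ Wd V ∧ f ∉ Wd Y) ∧ ∃ C : ℕ, ∀ (Z : Type) [Finite Z]
      (θ : FreeGroup X →* Perm Z) (δ : ℝ), 0 ≤ δ →
        (∀ L ∈ R, Small (fun z => θ (FreeGroup.mk L) z ≠ z) δ) →
          Small (fun z => θ e z ≠ θ f z) (C * δ) := by
  obtain ⟨f, hf, ν, hν, rfl⟩ := Subgroup.mem_sup_of_normal_right.1 h2
  refine ⟨f, ⟨hf, fun hfY => h1 (Subgroup.mem_sup_of_normal_right.2 ⟨f, hfY, ν, hν, rfl⟩)⟩, ?_⟩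
  obtain ⟨C, hC⟩ := nc_bound R ν hν
  refine ⟨C, fun Z _ θ δ hδ hR => (hC Z θ δ hδ hR).mono (fun z hz hz' => hz ?_) le_rfl⟩
  rw [map_mul, Perm.mul_apply, hz']

open Classical in
/-- The retraction to the words in the letters of `Y`. -/
private noncomputable def TUp_ret {X : Type} (Y : Set X) : FreeGroup X →* FreeGroup X :=
  FreeGroup.lift fun y => if y ∈ Y then FreeGroup.of y else 1

private theorem TUp_ret_fix {X : Type} (Y : Set X) {d : FreeGroup X} (hd : d ∈ Wd Y) :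
    TUp_ret Y d = d := by
  have h : TUp_ret Y d = MonoidHom.id (FreeGroup X) d := by
    refine hom_congr (fun x hx => ?_) hd
    unfold TUp_ret
    rw [FreeGroup.lift_apply_of, if_pos hx]
    rfl
  exact h

private theorem TUp_ret_mem {X : Type} (Y : Set X) (w : FreeGroup X) : TUp_ret Y w ∈ Wd Y := by
  induction w using FreeGroup.induction_on with
  | C1 => rw [map_one]; exact (Wd Y).one_mem
  | of x =>
    unfold TUp_ret
    rw [FreeGroup.lift_apply_of]
    split_ifs with h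
    · exact of_mem_wd h
    · exact (Wd Y).one_mem
  | inv_of x ih =>
    rw [map_inv]
    exact (Wd Y).inv_mem ih
  | mul u v hu hv =>
    rw [map_mul]
    exact (Wd Y).mul_mem hu hv

theorem upgrade {X : Type} (s : List (X × Bool)) (hred : FreeGroup.IsReduced s) (j : ℕ) (x : X)
    (p : ℕ) (hp : p ∈ bps s x)
    (h : Mod Set.univ {pw s j} {{x}ᶜ} {(s, bps s x, p)}) (Y : Set X) (hY : x ∉ Y) :
    Mod Set.univ {pw s j} {Y} ∅ := by
  classical
  intro E ε hε
  have hYx : Y ⊆ ({x}ᶜ : Set X) := fun y hy hyx => hY (by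
    rw [Set.mem_singleton_iff] at hyx
    exact hyx ▸ hy)
  -- the decompositions
  have key := fun e => TUp_split ({pw s j} : Set (List (X × Bool))) ({x}ᶜ) Y e
  choose! f hf C hC using key
  -- the finite quotient
  obtain ⟨Q₀, _, _, ψ, hψ⟩ := free_rf ((fun e => (f e)⁻¹ * TUp_ret Y (f e)) '' (E : Set (FreeGroup X)))
    ((Finset.finite_toSet E).image _)
  let q : FreeGroup X →* Q₀ × Q₀ := ψ.prod (ψ.comp (TUp_ret Y))
  have hqY : ∀ d ∈ Wd Y, q d = (ψ d, ψ d) := by
    intro d hd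
    show (ψ d, ψ (TUp_ret Y d)) = (ψ d, ψ d)
    rw [TUp_ret_fix Y hd]
  have hqf : ∀ e ∈ E, f e ∉ Wd Y → ∀ d ∈ Wd Y, q d ≠ q (f e) := by
    intro e he hfe d hd heq
    have h1 : (f e)⁻¹ * TUp_ret Y (f e) ≠ 1 := by
      intro h2
      have h3 : TUp_ret Y (f e) = f e := (inv_mul_eq_one.1 h2).symm
      exact hfe (h3 ▸ TUp_ret_mem Y (f e))
    have h4 := hψ _ ⟨e, he, rfl⟩ h1
    apply h4
    rw [hqY d hd] at heq
    have h5 : ψ d = ψ (f e) := congrArg Prod.fst heq
    have h6 : ψ d = ψ (TUp_ret Y (f e)) := congrArg Prod.snd heq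
    show ψ ((f e)⁻¹ * TUp_ret Y (f e)) = 1
    rw [map_mul, map_inv, ← h5, ← h6, inv_mul_cancel]
  -- the constants
  set K : ℝ := ∑ e ∈ E, (C e : ℝ) with hK
  have hK0 : 0 ≤ K := Finset.sum_nonneg fun e _ => Nat.cast_nonneg _
  have hCK : ∀ e ∈ E, (C e : ℝ) ≤ K := fun e he =>
    Finset.single_le_sum (f := fun e => (C e : ℝ)) (fun e _ => Nat.cast_nonneg _) he
  have hj0 : (0 : ℝ) ≤ j := Nat.cast_nonneg _
  set δ : ℝ := ε / ((K + 1) * (j + 1)) with hδ
  have hδ0 : 0 < δ := by positivity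
  have hδε : (K + 1) * ((j + 1) * δ) = ε := by
    rw [hδ]
    field_simp
  have hjδ : 0 < ((j : ℝ) + 1) * δ := by positivity
  have hrelε : ((j : ℝ) + 1) * δ ≤ ε := by
    rw [← hδε]
    nlinarith
  have hδle : δ ≤ ε := by nlinarith
  obtain ⟨Z, _, _, θ, hrel, hwin, hcer⟩ := h E δ hδ0
  -- the cocycle
  have hsolv := csolv_of_bps (Set.univ : Set X) θ s (fun y _ => Set.mem_univ _) hred x p hp j δ
    (hcer (s, bps s x, p) (Set.mem_singleton _))
  obtain ⟨g, hg, hval⟩ := hsolv Z θ id (triv_id Z) (fun _ _ _ => rfl) (Q₀ × Q₀)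
    (fun y _ => q (FreeGroup.of y))
  have hgc : ∀ y ∈ ({x}ᶜ : Set X), ∀ z, g y z = q (FreeGroup.of y) := by
    intro y hy z
    rw [hg y hy]
  have htriv : Triv (Prod.fst : Z × (Q₀ × Q₀) → Z) :=
    ⟨Q₀ × Q₀, inferInstance, inferInstance, Equiv.refl _, fun _ => rfl⟩
  -- the relator
  have hrelΩ : ∀ L ∈ ({pw s j} : Set (List (X × Bool))),
      Small (fun ω => skew θ g (FreeGroup.mk L) ω ≠ ω) (((j : ℝ) + 1) * δ) := by
    intro L hL
    refine (((hrel L hL).or (hval L hL)).comp_triv htriv).mono ?_ (by linarith)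
    rintro ⟨z, γ⟩ hz
    by_contra hcon
    push Not at hcon
    apply hz
    rw [skew_mk]
    have h1 : θ (FreeGroup.mk L) z = z := hcon.1
    have h2 : val θ g L z = 1 := hcon.2
    rw [h1, h2, one_mul]
  refine ⟨Z × (Q₀ × Q₀), inferInstance, inferInstance, skew θ g, fun L hL =>
    (hrelΩ L hL).mono (fun _ hz => hz) hrelε, ?_, fun c hc => absurd hc (by simp)⟩
  intro V hV e he _ heY
  rw [Set.mem_singleton_iff] at hV
  subst hV
  by_cases hex : e ∈ Wd ({x}ᶜ : Set X) ⊔ Subgroup.normalClosure (FreeGroup.mk '' {pw s j})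
  · have h1 := hf e heY hex
    have h2 := hC e heY hex (Z × (Q₀ × Q₀)) (skew θ g) (((j : ℝ) + 1) * δ) hjδ.le hrelΩ
    refine h2.mono ?_ ?_
    · rintro ⟨z, γ⟩ ⟨d, hd, hde⟩ heq
      rw [heq, skew_apply, skew_apply] at hde
      have h3 : cval θ g d z * γ = cval θ g (f e) z * γ := congrArg Prod.snd hde
      have h4 := mul_right_cancel h3
      rw [cval_const θ g ({x}ᶜ) q hgc d (wd_mono hYx hd) z,
        cval_const θ g ({x}ᶜ) q hgc (f e) h1.1 z] at h4
      exact hqf e he h1.2 d hd h4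
    · have h3 := hCK e he
      rw [← hδε]
      exact mul_le_mul_of_nonneg_right (by linarith) hjδ.le
  · have h1 := hwin ({x}ᶜ) (Set.mem_singleton _) e he (by
      rw [Wd, Set.image_univ, FreeGroup.closure_range_of]
      exact Subgroup.mem_top _) hex
    refine (h1.comp_triv htriv).mono ?_ hδle
    rintro ⟨z, γ⟩ ⟨d, hd, hde⟩
    rw [skew_apply, skew_apply] at hde
    exact ⟨d, wd_mono hYx hd, congrArg Prod.fst hde⟩

end ORel
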