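import Pool.Agent.Lib_MP_051624_or.TWin

/-!
# The window of the stable letter

See the header of `TWin`.
-/

open Equiv

namespace ORel

private theorem wb_mem {X : Type} {s : List (X × Bool)} {b c : X} {φ : X → ℤ} {μ : ℤ} (a : ℤ)
    (h : ∃ y ∈ rwr b φ s, y.1 = (c, μ + a)) (t : ℤ) :
    ∃ y ∈ wmap (sh X t) (nw b φ μ s), y.1 = (c, a + t) := by
  obtain ⟨y, hy, hy1⟩ := h
  refine ⟨(sh X t (sh X (-μ) y.1), y.2), ?_, ?_⟩
  · unfold nw wmap
    refine List.mem_map.2 ⟨(sh X (-μ) y.1, y.2), List.mem_map.2 ⟨y, hy, rfl⟩, rfl⟩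
  · rw [hy1]
    change (c, μ + a + -μ + t) = (c, a + t)
    congr 1
    ring

theorem win_two {X : Type} {s : List (X × Bool)} {b c : X} {φ : X → ℤ} {μ : ℤ} {m : ℕ}
    (D : MData s b c φ μ m) (hm : 1 ≤ m) (hb : φ b = 1) (hφ : ∀ y, y ≠ b → φ y = 0) (j : ℕ)
    (K : ∀ N, KMod j c m (nw b φ μ s) N) :
    Mod Set.univ {pw s j} {{b}ᶜ} ∅ := by
  classical
  intro E ε hε
  -- the bound for the levels
  obtain ⟨B₀, hB₀⟩ := lev_bound φ (insert (pw s j) ((fun e : FreeGroup X => e.toWord) '' (E : Set (FreeGroup X))))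
    ((E.finite_toSet.image _).insert _)
  obtain ⟨B, hBdef⟩ : ∃ B : ℕ, B = B₀ + μ.natAbs + m := ⟨_, rfl⟩
  have hBpw : ∀ L', L' <:+ pw s j → |lev φ L'| ≤ B := fun L' h => by
    have := hB₀ (pw s j) (Set.mem_insert _ _) L' h
    omega
  have hBE : ∀ e ∈ E, ∀ L', L' <:+ e.toWord → |lev φ L'| ≤ B := fun e he L' h => by
    have := hB₀ e.toWord (Set.mem_insert_of_mem _ ⟨e, he, rfl⟩) L' h
    omega
  have hμB : |μ| + m ≤ B := by
    rw [hBdef, Int.abs_eq_natAbs]
    omega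
  -- the length of the cylinder
  obtain ⟨N, hNdef⟩ : ∃ N : ℕ, N = max (2 * B) ⌈4 * (B : ℝ) / ε⌉₊ := ⟨_, rfl⟩
  have hN1 : 2 * B ≤ N := hNdef ▸ le_max_left _ _
  have hN2 : 4 * (B : ℝ) / ε ≤ N := by
    refine (Nat.le_ceil _).trans ?_
    exact_mod_cast (hNdef ▸ le_max_right _ _ : ⌈4 * (B : ℝ) / ε⌉₊ ≤ N)
  have hMpos : 0 < N + m + 1 := Nat.succ_pos _
  have hεM : ε / 2 + 2 * B / ((N + m + 1 : ℕ) : ℝ) ≤ ε := by
    have h1 : (4 * (B : ℝ)) ≤ N * ε := (div_le_iff₀ hε).1 hN2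
    have h2 : (N : ℝ) ≤ ((N + m + 1 : ℕ) : ℝ) := by exact_mod_cast (by omega : N ≤ N + m + 1)
    have h3 : (0 : ℝ) < ((N + m + 1 : ℕ) : ℝ) := by exact_mod_cast hMpos
    have h4 : 2 * (B : ℝ) / ((N + m + 1 : ℕ) : ℝ) ≤ ε / 2 := by
      rw [div_le_iff₀ h3]
      nlinarith [mul_le_mul_of_nonneg_right h2 hε.le]
    linarith
  -- the windows
  have hmod := KMod.mod (K N)
    ((fun l : ℕ => {y : X × ℤ | y.1 ∈ ({b}ᶜ : Set X) ∧ y.2 = (l : ℤ)}) '' Set.Iio (N + m + 1))
    ((Set.finite_Iio _).image _) (by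
      rintro V ⟨l, hl, rfl⟩
      have hl' : l < N + m + 1 := hl
      by_cases hlN : l ≤ N
      · refine ⟨l, hlN, ?_, ?_⟩
        · rintro y ⟨-, hy⟩ -
          rw [hy]
          omega
        · obtain ⟨y, hy, hy1⟩ := wb_mem (m : ℤ) D.hi (l : ℤ)
          refine ⟨y, hy, ?_⟩
          rintro ⟨-, hy2⟩
          rw [hy1] at hy2
          change (m : ℤ) + l = l at hy2
          omega
      · refine ⟨N, le_refl N, ?_, ?_⟩
        · rintro y ⟨-, hy⟩ -
          rw [hy]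
          omega
        · obtain ⟨y, hy, hy1⟩ := wb_mem (0 : ℤ) (by rw [add_zero]; exact D.lo) (N : ℤ)
          refine ⟨y, hy, ?_⟩
          rintro ⟨-, hy2⟩
          rw [hy1] at hy2
          change (0 : ℤ) + N = l at hy2
          omega)
    ∅ Set.finite_empty (fun a ha => ha.elim)
  obtain ⟨Ω, hΩ, hΩ', θ, hrel, hwin, -⟩ := hmod
    ((E ×ˢ Finset.range (N + m + 1)).image fun a =>
      FreeGroup.mk (wmap (sh X (a.2 : ℤ)) (rwr b φ a.1.toWord))) (ε / 2) (half_pos hε)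
  refine ⟨Ω × ZMod (N + m + 1), inferInstance, inferInstance, cylT b φ θ (N + m + 1), ?_, ?_,
    fun a ha => ha.elim⟩
  · intro L hL
    rw [Set.mem_singleton_iff] at hL
    rw [hL]
    refine cyl_small (N + m + 1) B hMpos (ε / 2) ε (half_pos hε).le hεM _ ?_
    intro l h1 h2
    have h3 := abs_le.1 (le_refl |μ|)
    exact cyl_relator D j N θ (ε / 2) hrel B hBpw l (by omega) (by omega) h1 h2
  · intro V hV e he _ hne
    rw [Set.mem_singleton_iff] at hV
    subst hV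
    refine cyl_small (N + m + 1) B hMpos (ε / 2) ε (half_pos hε).le hεM _ ?_
    intro l h1 h2
    obtain ⟨k, rfl⟩ := Int.eq_ofNat_of_zero_le (le_trans (Int.natCast_nonneg B) h1)
    have hk : k < N + m + 1 := by omega
    have hval : (((k : ℤ) : ZMod (N + m + 1)).val : ℤ) = k := by
      rw [Int.cast_natCast, ZMod.val_cast_of_lt hk]
    have hV0 : ∀ x ∈ ({b}ᶜ : Set X), φ x = 0 := fun x hx => hφ x hx
    have hmk : FreeGroup.mk e.toWord = e := FreeGroup.mk_toWord
    by_cases hL : lev φ e.toWord = 0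
    · -- the level is zero
      have h5 := hwin _ ⟨k, hk, rfl⟩ (FreeGroup.mk (wmap (sh X (k : ℤ)) (rwr b φ e.toWord)))
        (Finset.mem_image.2 ⟨(e, k), Finset.mem_product.2 ⟨he, Finset.mem_range.2 hk⟩, rfl⟩)
        (by
          refine mk_mem_wd _ ?_
          intro y hy _
          unfold wmap at hy
          obtain ⟨y₀, hy₀, rfl⟩ := List.mem_map.1 hy
          obtain ⟨L', hL', hlev⟩ := mem_rwr_height b φ _ y₀ hy₀
          have h6 := abs_le.1 (hBE e he L' hL')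
          change 0 ≤ y₀.1.2 + k ∧ y₀.1.2 + k ≤ N + m
          rw [hlev]
          omega)
        (nonmem_level hb D.lev j N ({b}ᶜ) hV0 e.toWord hL k (by
          rw [hmk, ← Set.image_singleton (f := FreeGroup.mk)]
          exact hne))
      refine h5.mono ?_ (le_refl _)
      rintro ω ⟨d, hd, hd'⟩
      obtain ⟨-, d', hd1, hd2⟩ := cylT_level b φ θ (N + m + 1) ({b}ᶜ) hV0 (by simp) d hd
        (ω, ((k : ℤ) : ZMod (N + m + 1)))
      simp only [hval] at hd1
      refine ⟨d', hd1, ?_⟩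
      have h6 := cylT_mk b φ θ (N + m + 1) e.toWord k (fun L' hL' => by
        have := abs_le.1 (hBE e he L' hL')
        push_cast
        omega) ω
      rw [hmk] at h6
      rw [hd', h6] at hd2
      exact hd2.symm
    · -- the level is not zero
      refine (small_false (Z := Ω) (half_pos hε).le).mono ?_ (le_refl _)
      rintro ω ⟨d, hd, hd'⟩
      obtain ⟨hd1, -⟩ := cylT_level b φ θ (N + m + 1) ({b}ᶜ) hV0 (by simp) d hd
        (ω, ((k : ℤ) : ZMod (N + m + 1)))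
      have h6 := cylT_snd b φ θ (N + m + 1) e.toWord (ω, ((k : ℤ) : ZMod (N + m + 1)))
      rw [hmk, ← hd', hd1] at h6
      have h7 : ((lev φ e.toWord : ℤ) : ZMod (N + m + 1)) = 0 := by
        have := h6
        simpa using this
      rw [ZMod.intCast_zmod_eq_zero_iff_dvd] at h7
      have h8 := abs_le.1 (hBE e he e.toWord (List.suffix_refl _))
      apply hL
      obtain ⟨q, hq⟩ := h7
      by_contra h9
      have h10 : q ≠ 0 := by
        rintro rfl
        exact h9 (by simpa using hq)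
      rcases lt_or_gt_of_ne h10 with h11 | h11
      · have : (((N + m + 1 : ℕ) : ℤ)) * q ≤ -((N + m + 1 : ℕ) : ℤ) := by nlinarith [Int.natCast_nonneg (N + m + 1)]
        push_cast at *
        omega
      · have : ((N + m + 1 : ℕ) : ℤ) ≤ ((N + m + 1 : ℕ) : ℤ) * q := by nlinarith [Int.natCast_nonneg (N + m + 1)]
        push_cast at *
        omega

end ORel
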