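import Pool.Agent.Lib_MP_051624_or.TCer
import Pool.Agent.Lib_MP_051624_or.TDataB
import Pool.Agent.Lib_MP_051624_or.TWinB
import Pool.Agent.Lib_MP_051624_or.TLeaf
import Pool.Agent.Lib_MP_051624_or.TUp

/-!
# Theorem A

Strong induction on the length of the word.

`thmA_step`: `s` is a word of length at least `2`, and Theorem A holds for all shorter words (over all
alphabets). For every letter `x` of `s`, `exists_data` gives the data `D` of a rewriting; the normalised
rewritten word `s' = nw b φ μ s` is a word (`word_nw`), shorter than `s` (`rwr_length_lt`), so `A' :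
ThmA j s'`, and `kmod` gives the models of the groups `K_N` (the hypotheses on the heights are
`D.rng`, `D.lo`, `D.hi` shifted by `- μ`). So `win_one` or `win_two` gives
`Mod univ {pw s j} {{x}ᶜ} ∅`, and `cer_lift` gives the certificates.
* `cer`: `cer_lift`, for the data of any letter of `s`.
* `win`: let `y ∈ s`, `x = y.1 ∉ Y`. By `cer` for `P = bps s x` (`bps_adm`) there is `p ∈ bps s x`
  with `Mod univ {pw s j} ∅ {(s, bps s x, p)}`; by `Mod.prod` (and `Mod.mono`) there are models with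
  the window `{x}ᶜ` and this certificate; now `upgrade`.
-/

open Equiv

namespace ORel

theorem thmA_step {X : Type} (j : ℕ) (hj : 1 ≤ j) (s : List (X × Bool)) (hs : Word s)
    (h2 : 2 ≤ s.length)
    (ih : ∀ (Y : Type) (s' : List (Y × Bool)), s'.length < s.length → Word s' → ThmA j s') :
    ThmA j s := by
  have key : ∀ (b c : X) (φ : X → ℤ) (μ : ℤ) (m : ℕ), MData s b c φ μ m →
      ThmA j (nw b φ μ s) ∧ ∀ N, KMod j c m (nw b φ μ s) N := by
    intro b c φ μ m D
    have hw : Word (nw b φ μ s) := word_nw hs D.pos D.lev μ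
    have hlen : (nw b φ μ s).length < s.length := by
      unfold nw
      rw [wmap_length]
      exact rwr_length_lt b φ s D.hb
    have A : ThmA j (nw b φ μ s) := ih (X × ℤ) _ hlen hw
    refine ⟨A, fun N => kmod c m _ j hw.red ?_ ?_ ?_ A N⟩
    · intro y hy hyc
      obtain ⟨z, hz, rfl⟩ := List.mem_map.1 hy
      have h1 := D.rng z hz hyc
      change 0 ≤ z.1.2 + -μ ∧ z.1.2 + -μ ≤ m
      omega
    · obtain ⟨y, hy, hy1⟩ := D.lo
      refine ⟨(sh X (-μ) y.1, y.2), List.mem_map.2 ⟨y, hy, rfl⟩, ?_⟩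
      change (y.1.1, y.1.2 + -μ) = (c, 0)
      rw [hy1]
      simp
    · obtain ⟨y, hy, hy1⟩ := D.hi
      refine ⟨(sh X (-μ) y.1, y.2), List.mem_map.2 ⟨y, hy, rfl⟩, ?_⟩
      change (y.1.1, y.1.2 + -μ) = (c, (m : ℤ))
      rw [hy1]
      simp
  have hcer : ∀ P : Finset ℕ, P.Nonempty → (∀ i ∈ P, i ≤ s.length) →
      ¬ (0 ∈ P ∧ s.length ∈ P) → ∃ p ∈ P, Mod Set.univ {pw s j} ∅ {(s, P, p)} := by
    intro P hP hle hadm
    obtain ⟨y, hy⟩ := List.exists_mem_of_ne_nil s hs.ne_nil
    rcases exists_data s hs h2 y.1 ⟨y, hy, rfl⟩ with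
      ⟨b, φ, μ, m, D⟩ | ⟨c, φ, μ, m, -, -, -, D⟩
    · obtain ⟨A, K⟩ := key _ _ _ _ _ D
      exact cer_lift hs D j A K P hP hle hadm
    · obtain ⟨A, K⟩ := key _ _ _ _ _ D
      exact cer_lift hs D j A K P hP hle hadm
  refine ⟨?_, hcer⟩
  rintro Y ⟨y, hy, hyY⟩
  have hwin : Mod Set.univ {pw s j} {{y.1}ᶜ} ∅ := by
    rcases exists_data s hs h2 y.1 ⟨y, hy, rfl⟩ with
      ⟨b, φ, μ, m, D⟩ | ⟨c, φ, μ, m, hm, hx, h0, D⟩
    · exact win_one D j (key _ _ _ _ _ D).2
    · exact win_two D hm hx h0 j (key _ _ _ _ _ D).2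
  obtain ⟨h1, h3, h4⟩ := bps_adm s hs.red y.1 ⟨y, hy, rfl⟩
  obtain ⟨p, hp, hM⟩ := hcer _ h1 h3 h4
  have hboth : Mod Set.univ {pw s j} {{y.1}ᶜ} {(s, bps s y.1, p)} :=
    (hwin.prod hM).mono (subset_refl _) (by simp) (by simp)
  exact upgrade s hs.red.1 j y.1 p hp hboth Y hyY

theorem thmA (j : ℕ) (hj : 1 ≤ j) {X : Type} (s : List (X × Bool)) (hs : Word s) : ThmA j s := by
  have key : ∀ (n : ℕ) (X : Type) (s : List (X × Bool)), s.length = n → Word s → ThmA j s := by
    intro n
    induction n using Nat.strong_induction_on with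
    | _ n ih =>
      intro X s hn hs
      rcases Nat.lt_or_ge s.length 2 with h | h
      · have h1 : s.length = 1 := by
          have h2 := List.length_pos_iff.2 hs.ne_nil
          omega
        obtain ⟨y, rfl⟩ := List.length_eq_one_iff.1 h1
        obtain ⟨x, b⟩ := y
        exact thmA_one j hj x b
      · exact thmA_step j hj s hs h fun Y s' hs' => ih s'.length (hn ▸ hs') Y s' rfl
  exact key s.length X s rfl hs

end ORel
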