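import Pool.Agent.Lib_MP_051624_or.TPsi
import Pool.Agent.Lib_MP_051624_or.TRwR

/-!
# Non-membership and heredity of roots

Let `NC` be the normal closure of `mk (pw s j)` and `NK` the normal closure of the relators
`relT (nw b φ μ s) j N`. Write `k = mk (wmap (sh X l) (rwr b φ L))`.

* `nonmem`: Let `q = (φ b).toNat`, `H = Wd V ⊔ NC`, `S = FreeGroup X ⧸ H` (left cosets, a type with
  the action `σ : FreeGroup X →* Perm S` by left multiplication, `MulAction.toPermHom`), `* = 1 H`.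
  `σ (mk (pw s j)) = 1` since `NC` is normal and contained in `H`. Let `τ = cyc (σ (of b)) q`,
  `ρ = act φ σ q` (`act_b`). By `Psi_relT`, `NK` acts trivially through `Psi φ ρ τ`
  (`ρ (mk (pw s j)) = 1` by `act_mk`, `lev_pw`). The letters `(x, l')` with `x ∈ V` fix `(*, 0)`:
  `x * = *`, `b * = *` (`cyc_fix`), so `τ ^ l' (*, 0) = (*, l')`, `ρ x (*, l') = (*, l' + φ x)`,
  `τ ^ (-(l' + φ x)) (*, l' + φ x) = (*, 0)`. If `k ∈ Wd {y | y.1 ∈ V} ⊔ NK` then `Psi k` fixes
  `(*, 0)`. By `Psi_rwr`, `Psi k (*, 0) = τ ^ (-(l + lev L)) (σ (mk L) *, l + lev L)`, so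
  `(σ (mk L) *, l + lev L) = τ ^ (l + lev L) (*, 0) = (*, l + lev L)`, `σ (mk L) * = *`, i.e.
  `mk L ∈ H`.
* `nonmem_empty`: the same with `S = FreeGroup X ⧸ NC` (regular action): if `k ∈ NK` then
  `1 = Psi k = τ ^ (-l) * ρ (mk L) * τ ^ l` (`lev L = 0`), so `ρ (mk L) = 1`, `σ (mk L) = 1`.
* `nonmem_level`: `H = Wd V ⊔ NC`, `S = FreeGroup X ⧸ H`, the group `Perm S`, `ρ = σ`, `τ = σ (of b)`
  (`φ b = 1`). The letters `(x, l)`, `x ∈ V`, are mapped to `τ ^ (-l) σ x τ ^ l` (`φ x = 0`), which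
  fixes `τ ^ (-l) *`. If `k ∈ Wd {..} ⊔ NK` then `Psi k = τ ^ (-l) σ (mk L) τ ^ l` fixes it, so
  `σ (mk L) * = *`.
* `prim_rwr`: `S = FreeGroup X` with the left multiplication `σ`, `q = (φ b).toNat`, `τ`, `ρ` as in
  `nonmem`. All the permutations `τ`, `ρ g` of `S × ZMod q`, hence all `Psi g`, commute with the right
  multiplications `(y, i) ↦ (y * a, i)`, and `Psi` of a letter preserves the second coordinate. Let
  `mk (nw b φ μ s) = g ^ k`, `Psi g (1, 0) = (u, 0)`; then `Psi g (y, 0) = (u * y, 0)`, so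
  `Psi (g ^ k) (1, 0) = (u ^ k, 0)`. By `Psi_rwr` with `l = - μ`:
  `τ ^ μ * ρ (mk s) * τ ^ (-μ)` maps `(1, 0)` to `(u ^ k, 0)`. With `τ ^ (-μ) (1, 0) = (a, i)`
  one has `ρ (mk s) (a, i) = (mk s * a, i)`, and `τ ^ μ (mk s * a, i)`: compare with
  `τ ^ μ (a, i) = (1, 0)`; as `τ` does not commute with the left multiplication by `mk s`, it is
  easier to conjugate first: `mk (nw b φ μ s)` is the image of `mk (rwr b φ s)` under the
  isomorphism `FreeGroup.map (sh X (-μ))`, so one may assume that `μ = 0` (replace `g` by its image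
  under `FreeGroup.map (sh X μ)`); then `ρ (mk s) (1, 0) = (mk s, 0) = (u ^ k, 0)`, so `mk s = u ^ k` and
  `k = 1`.
* `word_nw`: `rwr_cycred`, `cycred_wmap`, `prim_rwr`.
-/

open Equiv

namespace ORel

variable {X : Type}

/-- the left multiplication on the cosets: elements of a normal subgroup contained in `H` act trivially -/
private theorem TNon_triv {G : Type} [Group G] (H N : Subgroup G) [N.Normal] (hN : N ≤ H) {n : G}
    (hn : n ∈ N) (y : G ⧸ H) : MulAction.toPermHom G (G ⧸ H) n y = y := by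
  induction y using QuotientGroup.induction_on with
  | H g =>
    change ((n * g : G) : G ⧸ H) = (g : G ⧸ H)
    rw [eq_comm, QuotientGroup.eq]
    apply hN
    have h1 : g⁻¹ * n * g⁻¹⁻¹ ∈ N := ‹N.Normal›.conj_mem n hn g⁻¹
    rw [inv_inv] at h1
    rw [← mul_assoc]
    exact h1

private theorem TNon_star {G : Type} [Group G] (H : Subgroup G) (n : G) :
    MulAction.toPermHom G (G ⧸ H) n ((1 : G) : G ⧸ H) = ((1 : G) : G ⧸ H) ↔ n ∈ H := by
  change ((n * 1 : G) : G ⧸ H) = ((1 : G) : G ⧸ H) ↔ n ∈ H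
  rw [eq_comm, QuotientGroup.eq, inv_one, one_mul, mul_one]

private theorem TNon_hs {s : List (X × Bool)} {φ : X → ℤ} (hlev : lev φ s = 0) (j : ℕ)
    (H : Subgroup (FreeGroup X)) (hH : Subgroup.normalClosure {FreeGroup.mk (pw s j)} ≤ H) (q : ℕ) :
    act φ (MulAction.toPermHom (FreeGroup X) (FreeGroup X ⧸ H)) q (FreeGroup.mk (pw s j)) = 1 := by
  ext1 ⟨y, i⟩
  rw [act_mk, lev_pw φ s hlev j, TNon_triv H (Subgroup.normalClosure {FreeGroup.mk (pw s j)}) hH
    (Subgroup.subset_normalClosure (Set.mem_singleton _))]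
  simp

/-- Non-membership, first version: windows which contain the stable letter, or are empty. -/
theorem nonmem {s : List (X × Bool)} {b : X} {φ : X → ℤ} {μ : ℤ} (hφ : 0 < φ b)
    (hlev : lev φ s = 0) (j N : ℕ) (V : Set X) (hV : b ∈ V) (L : List (X × Bool)) (l : ℤ)
    (h : FreeGroup.mk L ∉ Wd V ⊔ Subgroup.normalClosure {FreeGroup.mk (pw s j)}) :
    FreeGroup.mk (wmap (sh X l) (rwr b φ L)) ∉
      Wd {y : X × ℤ | y.1 ∈ V} ⊔
        Subgroup.normalClosure (FreeGroup.mk '' relT (nw b φ μ s) j N) := by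
  intro hk
  apply h
  obtain ⟨q, hq⟩ := Int.eq_ofNat_of_zero_le hφ.le
  have hq0 : 0 < q := by
    rw [hq] at hφ
    exact_mod_cast hφ
  generalize hH : Wd V ⊔ Subgroup.normalClosure {FreeGroup.mk (pw s j)} = H
  have hNH : Subgroup.normalClosure {FreeGroup.mk (pw s j)} ≤ H := by
    rw [← hH]
    exact le_sup_right
  have hVH : ∀ x ∈ V, FreeGroup.of x ∈ H := by
    intro x hx
    rw [← hH]
    exact Subgroup.mem_sup_left (of_mem_wd hx)
  have hs := TNon_hs hlev j H hNH q
  have hτ := act_b φ b (MulAction.toPermHom (FreeGroup X) (FreeGroup X ⧸ H)) q hq0 hq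
  have hrel := Psi_relT b φ μ s hlev j N _ _ hτ hs
  have hst : ∀ n : FreeGroup X, n ∈ H →
      MulAction.toPermHom (FreeGroup X) (FreeGroup X ⧸ H) n ((1 : FreeGroup X) : FreeGroup X ⧸ H) =
        ((1 : FreeGroup X) : FreeGroup X ⧸ H) := fun n hn => (TNon_star H n).2 hn
  have hb := hst _ (hVH b hV)
  have hR := Psi_rwr b φ _ _ hτ L l
  generalize hσ : MulAction.toPermHom (FreeGroup X) (FreeGroup X ⧸ H) = σ at *
  generalize hstar : ((1 : FreeGroup X) : FreeGroup X ⧸ H) = star at *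
  have hle : Wd {y : X × ℤ | y.1 ∈ V} ⊔
      Subgroup.normalClosure (FreeGroup.mk '' relT (nw b φ μ s) j N) ≤
      (MulAction.stabilizer (Perm ((FreeGroup X ⧸ H) × ZMod q)) (star, (0 : ZMod q))).comap
        (Psi φ (act φ σ q) (cyc (σ (FreeGroup.of b)) q)) := by
    refine sup_le ?_ ?_
    · unfold Wd
      rw [Subgroup.closure_le]
      rintro _ ⟨⟨x, l'⟩, hx, rfl⟩
      change Psi φ (act φ σ q) (cyc (σ (FreeGroup.of b)) q) (FreeGroup.of (x, l')) (star, (0 : ZMod q)) =
        (star, (0 : ZMod q))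
      unfold Psi
      rw [FreeGroup.lift_apply_of]
      change (cyc (σ (FreeGroup.of b)) q ^ (-(l' + φ x))) (act φ σ q (FreeGroup.mk [(x, true)])
        ((cyc (σ (FreeGroup.of b)) q ^ l') (star, (0 : ZMod q)))) = (star, (0 : ZMod q))
      rw [cyc_fix _ q star hb, act_mk]
      have h1 : σ (FreeGroup.mk [(x, true)]) star = star := hst _ (hVH x hx)
      rw [h1, cyc_fix _ q star hb]
      simp [lev]
    · refine hrel.trans ?_
      intro w hw
      rw [MonoidHom.mem_ker] at hw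
      change Psi φ (act φ σ q) (cyc (σ (FreeGroup.of b)) q) w (star, (0 : ZMod q)) = (star, (0 : ZMod q))
      rw [hw]
      rfl
  have h2 := hle hk
  change Psi φ (act φ σ q) (cyc (σ (FreeGroup.of b)) q) (FreeGroup.mk (wmap (sh X l) (rwr b φ L)))
    (star, (0 : ZMod q)) = (star, (0 : ZMod q)) at h2
  rw [hR, Perm.mul_apply, Perm.mul_apply, cyc_fix _ q star hb, act_mk, zpow_neg, Perm.inv_eq_iff_eq,
    cyc_fix _ q star hb] at h2
  have h3 : σ (FreeGroup.mk L) star = star := congrArg Prod.fst h2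
  rw [← hσ, ← hstar] at h3
  exact (TNon_star H _).1 h3

/-- Non-membership, second version: the empty window. -/
theorem nonmem_empty {s : List (X × Bool)} {b : X} {φ : X → ℤ} {μ : ℤ} (hφ : 0 < φ b)
    (hlev : lev φ s = 0) (j N : ℕ) (L : List (X × Bool)) (hL : lev φ L = 0) (l : ℤ)
    (h : FreeGroup.mk L ∉ Subgroup.normalClosure {FreeGroup.mk (pw s j)}) :
    FreeGroup.mk (wmap (sh X l) (rwr b φ L)) ∉
        Subgroup.normalClosure (FreeGroup.mk '' relT (nw b φ μ s) j N) := by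
  intro hk
  apply h
  obtain ⟨q, hq⟩ := Int.eq_ofNat_of_zero_le hφ.le
  have hq0 : 0 < q := by
    rw [hq] at hφ
    exact_mod_cast hφ
  generalize hH : Subgroup.normalClosure {FreeGroup.mk (pw s j)} = H
  have hNH : Subgroup.normalClosure {FreeGroup.mk (pw s j)} ≤ H := hH.le
  have hs := TNon_hs hlev j H hNH q
  have hτ := act_b φ b (MulAction.toPermHom (FreeGroup X) (FreeGroup X ⧸ H)) q hq0 hq
  have hrel := Psi_relT b φ μ s hlev j N _ _ hτ hs
  have hR := Psi_rwr b φ _ _ hτ L l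
  have h1 := hrel hk
  rw [MonoidHom.mem_ker, hR, hL, add_zero, zpow_neg, mul_assoc, inv_mul_eq_one] at h1
  have h2 : act φ (MulAction.toPermHom (FreeGroup X) (FreeGroup X ⧸ H)) q (FreeGroup.mk L) = 1 := by
    exact (mul_eq_right.1 h1.symm)
  have h3 := congrArg (fun p : Perm ((FreeGroup X ⧸ H) × ZMod q) =>
    (p (((1 : FreeGroup X) : FreeGroup X ⧸ H), 0)).1) h2
  simp only [act_mk] at h3
  exact (TNon_star H _).1 h3

/-- Non-membership, third version: windows without the stable letter, at one level. -/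
theorem nonmem_level {s : List (X × Bool)} {b : X} {φ : X → ℤ} {μ : ℤ} (hφ : φ b = 1)
    (hlev : lev φ s = 0) (j N : ℕ) (V : Set X) (hV : ∀ x ∈ V, φ x = 0) (L : List (X × Bool))
    (hL : lev φ L = 0) (l : ℤ)
    (h : FreeGroup.mk L ∉ Wd V ⊔ Subgroup.normalClosure {FreeGroup.mk (pw s j)}) :
    FreeGroup.mk (wmap (sh X l) (rwr b φ L)) ∉
      Wd {y : X × ℤ | y.1 ∈ V ∧ y.2 = l} ⊔
        Subgroup.normalClosure (FreeGroup.mk '' relT (nw b φ μ s) j N) := by
  intro hk
  apply h
  generalize hH : Wd V ⊔ Subgroup.normalClosure {FreeGroup.mk (pw s j)} = H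
  have hNH : Subgroup.normalClosure {FreeGroup.mk (pw s j)} ≤ H := by
    rw [← hH]
    exact le_sup_right
  have hVH : ∀ x ∈ V, FreeGroup.of x ∈ H := by
    intro x hx
    rw [← hH]
    exact Subgroup.mem_sup_left (of_mem_wd hx)
  have hs : MulAction.toPermHom (FreeGroup X) (FreeGroup X ⧸ H) (FreeGroup.mk (pw s j)) = 1 := by
    ext1 y
    exact TNon_triv H (Subgroup.normalClosure {FreeGroup.mk (pw s j)}) hNH
      (Subgroup.subset_normalClosure (Set.mem_singleton _)) y
  have hτ : MulAction.toPermHom (FreeGroup X) (FreeGroup X ⧸ H) (FreeGroup.of b) =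
      (MulAction.toPermHom (FreeGroup X) (FreeGroup X ⧸ H) (FreeGroup.of b)) ^ φ b := by
    rw [hφ, zpow_one]
  have hrel := Psi_relT b φ μ s hlev j N _ _ hτ hs
  have hst : ∀ n : FreeGroup X, n ∈ H →
      MulAction.toPermHom (FreeGroup X) (FreeGroup X ⧸ H) n ((1 : FreeGroup X) : FreeGroup X ⧸ H) =
        ((1 : FreeGroup X) : FreeGroup X ⧸ H) := fun n hn => (TNon_star H n).2 hn
  have hR := Psi_rwr b φ _ _ hτ L l
  generalize hσ : MulAction.toPermHom (FreeGroup X) (FreeGroup X ⧸ H) = σ at *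
  generalize hstar : ((1 : FreeGroup X) : FreeGroup X ⧸ H) = star at *
  have hle : Wd {y : X × ℤ | y.1 ∈ V ∧ y.2 = l} ⊔
      Subgroup.normalClosure (FreeGroup.mk '' relT (nw b φ μ s) j N) ≤
      (MulAction.stabilizer (Perm (FreeGroup X ⧸ H)) ((σ (FreeGroup.of b) ^ (-l)) star)).comap
        (Psi φ σ (σ (FreeGroup.of b))) := by
    refine sup_le ?_ ?_
    · unfold Wd
      rw [Subgroup.closure_le]
      rintro _ ⟨⟨x, l'⟩, ⟨hx, hl⟩, rfl⟩
      simp only at hx hl
      subst hl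
      change Psi φ σ (σ (FreeGroup.of b)) (FreeGroup.of (x, l')) ((σ (FreeGroup.of b) ^ (-l')) star) =
        (σ (FreeGroup.of b) ^ (-l')) star
      unfold Psi
      rw [FreeGroup.lift_apply_of]
      change (σ (FreeGroup.of b) ^ (-(l' + φ x))) (σ (FreeGroup.of x)
        ((σ (FreeGroup.of b) ^ l') ((σ (FreeGroup.of b) ^ (-l')) star))) = (σ (FreeGroup.of b) ^ (-l')) star
      rw [← Perm.mul_apply (σ (FreeGroup.of b) ^ l'), ← zpow_add, add_neg_cancel, zpow_zero, Perm.one_apply,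
        hst _ (hVH x hx), hV x hx, add_zero]
    · refine hrel.trans ?_
      intro w hw
      rw [MonoidHom.mem_ker] at hw
      change Psi φ σ (σ (FreeGroup.of b)) w ((σ (FreeGroup.of b) ^ (-l)) star) =
        (σ (FreeGroup.of b) ^ (-l)) star
      rw [hw]
      rfl
  have h2 := hle hk
  change Psi φ σ (σ (FreeGroup.of b)) (FreeGroup.mk (wmap (sh X l) (rwr b φ L)))
    ((σ (FreeGroup.of b) ^ (-l)) star) = (σ (FreeGroup.of b) ^ (-l)) star at h2
  rw [hR, hL, add_zero, Perm.mul_apply, Perm.mul_apply, ← Perm.mul_apply (σ (FreeGroup.of b) ^ l),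
    ← zpow_add, add_neg_cancel, zpow_zero, Perm.one_apply] at h2
  have h3 : σ (FreeGroup.mk L) star = star := (σ (FreeGroup.of b) ^ (-l)).injective h2
  rw [← hσ, ← hstar] at h3
  exact (TNon_star H _).1 h3

/-- right multiplication -/
private def TNon_R (q : ℕ) (a : FreeGroup X) : Perm (FreeGroup X × ZMod q) :=
  Equiv.prodCongr (Equiv.mulRight a) (Equiv.refl _)

private theorem TNon_R_apply (q : ℕ) (a y : FreeGroup X) (i : ZMod q) : TNon_R q a (y, i) = (y * a, i) := rfl

private theorem TNon_comm (b : X) (φ : X → ℤ) (q : ℕ) (a : FreeGroup X) (w : FreeGroup (X × ℤ)) :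
    Commute (Psi φ (act φ (MulAction.toPermHom (FreeGroup X) (FreeGroup X)) q)
      (cyc (MulAction.toPermHom (FreeGroup X) (FreeGroup X) (FreeGroup.of b)) q) w) (TNon_R q a) := by
  have h1 : Commute (cyc (MulAction.toPermHom (FreeGroup X) (FreeGroup X) (FreeGroup.of b)) q)
      (TNon_R q a) := by
    ext1 ⟨y, i⟩
    rw [Perm.mul_apply, Perm.mul_apply, TNon_R_apply]
    change ((if i = -1 then FreeGroup.of b * (y * a) else y * a), i + 1) =
      ((if i = -1 then FreeGroup.of b * y else y) * a, i + 1)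
    split_ifs
    · rw [mul_assoc]
    · rfl
  have h2 : ∀ x : X, Commute (act φ (MulAction.toPermHom (FreeGroup X) (FreeGroup X)) q (FreeGroup.of x))
      (TNon_R q a) := by
    intro x
    ext1 ⟨y, i⟩
    rw [Perm.mul_apply, Perm.mul_apply, TNon_R_apply]
    change act φ (MulAction.toPermHom (FreeGroup X) (FreeGroup X)) q (FreeGroup.mk [(x, true)]) (y * a, i) =
      TNon_R q a (act φ (MulAction.toPermHom (FreeGroup X) (FreeGroup X)) q (FreeGroup.mk [(x, true)]) (y, i))
    rw [act_mk, act_mk, TNon_R_apply]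
    change (FreeGroup.mk [(x, true)] * (y * a), _) = (FreeGroup.mk [(x, true)] * y * a, _)
    rw [mul_assoc]
  have h3 : ∀ y : X × ℤ, Commute (Psi φ (act φ (MulAction.toPermHom (FreeGroup X) (FreeGroup X)) q)
      (cyc (MulAction.toPermHom (FreeGroup X) (FreeGroup X) (FreeGroup.of b)) q) (FreeGroup.of y))
      (TNon_R q a) := by
    intro y
    unfold Psi
    rw [FreeGroup.lift_apply_of]
    exact ((h1.zpow_left _).mul_left (h2 _)).mul_left (h1.zpow_left _)
  induction w using FreeGroup.induction_on with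
  | C1 => rw [map_one]; exact Commute.one_left _
  | of y => exact h3 y
  | inv_of y _ =>
    rw [map_inv]
    exact (h3 y).inv_left
  | mul u v hu hv =>
    rw [map_mul]
    exact hu.mul_left hv

private theorem TNon_snd_zpow {S : Type} (q : ℕ) (f : Perm (S × ZMod q)) (c : ZMod q)
    (hf : ∀ z, (f z).2 = z.2 + c) (n : ℤ) (z : S × ZMod q) : ((f ^ n) z).2 = z.2 + n * c := by
  have hinv : ∀ z, (f⁻¹ z).2 = z.2 - c := by
    intro z
    have := hf (f⁻¹ z)
    have h0 : f (f⁻¹ z) = z := f.apply_symm_apply z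
    rw [h0] at this
    rw [this]
    ring
  induction n using Int.induction_on generalizing z with
  | zero => simp
  | succ n ih =>
    rw [zpow_add_one, Perm.mul_apply, ih, hf]
    push_cast
    ring
  | pred n ih =>
    rw [zpow_sub_one, Perm.mul_apply, ih, hinv]
    push_cast
    ring

private theorem TNon_snd (b : X) (φ : X → ℤ) (q : ℕ) (w : FreeGroup (X × ℤ))
    (z : FreeGroup X × ZMod q) :
    (Psi φ (act φ (MulAction.toPermHom (FreeGroup X) (FreeGroup X)) q)
      (cyc (MulAction.toPermHom (FreeGroup X) (FreeGroup X) (FreeGroup.of b)) q) w z).2 = z.2 := by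
  have h1 : ∀ z : FreeGroup X × ZMod q,
      (cyc (MulAction.toPermHom (FreeGroup X) (FreeGroup X) (FreeGroup.of b)) q z).2 = z.2 + 1 :=
    fun z => rfl
  have h2 : ∀ (y : X × ℤ) (z : FreeGroup X × ZMod q),
      (Psi φ (act φ (MulAction.toPermHom (FreeGroup X) (FreeGroup X)) q)
      (cyc (MulAction.toPermHom (FreeGroup X) (FreeGroup X) (FreeGroup.of b)) q) (FreeGroup.of y) z).2 =
        z.2 := by
    rintro ⟨x, l⟩ z
    unfold Psi
    rw [FreeGroup.lift_apply_of]
    change ((cyc (MulAction.toPermHom (FreeGroup X) (FreeGroup X) (FreeGroup.of b)) q ^ (-(l + φ x)))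
      (act φ (MulAction.toPermHom (FreeGroup X) (FreeGroup X)) q (FreeGroup.mk [(x, true)])
        ((cyc (MulAction.toPermHom (FreeGroup X) (FreeGroup X) (FreeGroup.of b)) q ^ l) z))).2 = z.2
    rw [TNon_snd_zpow q _ 1 h1]
    rcases h3 : (cyc (MulAction.toPermHom (FreeGroup X) (FreeGroup X) (FreeGroup.of b)) q ^ l) z with ⟨y, i⟩
    have h4 := TNon_snd_zpow q _ 1 h1 l z
    rw [h3] at h4
    change i = z.2 + (l : ZMod q) * 1 at h4
    rw [act_mk, h4]
    simp only [lev]
    push_cast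
    ring
  induction w using FreeGroup.induction_on generalizing z with
  | C1 => rw [map_one]; rfl
  | of y => exact h2 y z
  | inv_of y _ =>
    rw [map_inv]
    have := h2 y ((Psi φ (act φ (MulAction.toPermHom (FreeGroup X) (FreeGroup X)) q)
      (cyc (MulAction.toPermHom (FreeGroup X) (FreeGroup X) (FreeGroup.of b)) q) (FreeGroup.of y))⁻¹ z)
    have h0 : ∀ f : Perm (FreeGroup X × ZMod q), f (f⁻¹ z) = z := fun f => f.apply_symm_apply z
    rw [h0] at this
    exact this.symm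
  | mul u v hu hv =>
    rw [map_mul, Perm.mul_apply, hu, hv]

/-- The rewritten word is not a proper power. -/
theorem prim_rwr {s : List (X × Bool)} {b : X} {φ : X → ℤ} (hφ : 0 < φ b) (hlev : lev φ s = 0)
    (hp : ∀ (g : FreeGroup X) (k : ℕ), FreeGroup.mk s = g ^ k → k = 1) (μ : ℤ) :
    ∀ (g : FreeGroup (X × ℤ)) (k : ℕ), FreeGroup.mk (nw b φ μ s) = g ^ k → k = 1 := by
  intro g k hgk
  obtain ⟨q, hq⟩ := Int.eq_ofNat_of_zero_le hφ.le
  have hq0 : 0 < q := by
    rw [hq] at hφ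
    exact_mod_cast hφ
  have h1 : FreeGroup.mk (wmap (sh X 0) (rwr b φ s)) = (FreeGroup.map (sh X μ) g) ^ k := by
    rw [← map_pow, ← hgk]
    unfold nw
    have h2 : ∀ M : List ((X × ℤ) × Bool), FreeGroup.map (sh X μ) (FreeGroup.mk M) =
        FreeGroup.mk (wmap (sh X μ) M) := fun M => rfl
    rw [h2, wmap_sh, neg_add_cancel]
  have hτ := act_b φ b (MulAction.toPermHom (FreeGroup X) (FreeGroup X)) q hq0 hq
  have hR := Psi_rwr b φ _ _ hτ s 0
  rw [h1, hlev, add_zero, neg_zero, zpow_zero, one_mul, mul_one, map_pow] at hR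
  generalize hg : FreeGroup.map (sh X μ) g = g' at hR
  obtain ⟨u, hu⟩ : ∃ u : FreeGroup X, Psi φ (act φ (MulAction.toPermHom (FreeGroup X) (FreeGroup X)) q)
      (cyc (MulAction.toPermHom (FreeGroup X) (FreeGroup X) (FreeGroup.of b)) q) g' (1, 0) = (u, 0) := by
    refine ⟨_, Prod.ext rfl ?_⟩
    exact TNon_snd b φ q g' (1, 0)
  have hy : ∀ y : FreeGroup X, Psi φ (act φ (MulAction.toPermHom (FreeGroup X) (FreeGroup X)) q)
      (cyc (MulAction.toPermHom (FreeGroup X) (FreeGroup X) (FreeGroup.of b)) q) g' (y, 0) = (u * y, 0) := by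
    intro y
    have h3 := congrArg (fun p : Perm (FreeGroup X × ZMod q) => p (1, 0)) (TNon_comm b φ q y g').eq
    simp only [Perm.mul_apply, TNon_R_apply, hu, one_mul] at h3
    exact h3
  have hpow : ∀ k : ℕ, (Psi φ (act φ (MulAction.toPermHom (FreeGroup X) (FreeGroup X)) q)
      (cyc (MulAction.toPermHom (FreeGroup X) (FreeGroup X) (FreeGroup.of b)) q) g' ^ k) (1, 0) =
        (u ^ k, 0) := by
    intro k
    induction k with
    | zero => simp
    | succ k ih => rw [pow_succ', Perm.mul_apply, ih, hy, ← pow_succ']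
  have h4 := hpow k
  rw [hR, act_mk, hlev] at h4
  refine hp u k ?_
  have h5 := congrArg Prod.fst h4
  change FreeGroup.mk s * 1 = u ^ k at h5
  rw [mul_one] at h5
  exact h5

/-- The normalised rewritten word satisfies the hypotheses of Theorem A. -/
theorem word_nw {s : List (X × Bool)} {b : X} {φ : X → ℤ} (hs : Word s) (hφ : 0 < φ b)
    (hlev : lev φ s = 0) (μ : ℤ) : Word (nw b φ μ s) :=
  ⟨cycred_wmap (sh X (-μ)) (sh X (-μ)).injective (rwr_cycred b φ hφ.ne' s hs.red hlev),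
    prim_rwr hφ hlev hs.prim μ⟩

end ORel
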