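import Pool.Agent.Lib_MP_051624_or.TRw

/-!
# The homomorphisms of the rewriting

Let `H` be a group, `ρ : FreeGroup X →* H` and `τ : H` with `ρ (of b) = τ ^ φ b`. The homomorphism
`Psi φ ρ τ : FreeGroup (X × ℤ) →* H` maps the letter `(x, l)` to `τ ^ (-(l + φ x)) * ρ x * τ ^ l`.

* `Psi_rwr`: `Psi (mk (shift^l (rwr L))) = τ ^ (-(l + lev L)) * ρ (mk L) * τ ^ l`: induction on `L`:
  for `(x, true) :: L` with `x ≠ b` the letter is `(x, l + lev L)`; for `x = b` use
  `ρ (of b) = τ ^ φ b`; for `(x, false) :: L` the letter is `(x, l + lev L - φ x)`, inverted.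

The permutations of `S × ZMod q` (`q ≥ 1`), for an action `σ : FreeGroup X →* Perm S`:
`cyc b σ q (y, i) = (σ (of b) y, 0)` if `i = -1`, and `(y, i + 1)` otherwise;
`act φ σ q g (y, i) = (σ g y, i + lev g)`.

* `cyc_pow`: `cyc ^ q (y, i) = (σ (of b) y, i)`: `cyc ^ k (y, i) = (y, i + k)` as long as
  `i.val + k < q`.
-/

open Equiv

namespace ORel

variable {X : Type}

/-- The homomorphism of the rewriting. -/
def Psi {H : Type} [Group H] (φ : X → ℤ) (ρ : FreeGroup X →* H) (τ : H) :
    FreeGroup (X × ℤ) →* H :=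
  FreeGroup.lift fun y => τ ^ (-(y.2 + φ y.1)) * ρ (FreeGroup.of y.1) * τ ^ y.2

private theorem TPsi_cons {X : Type} (y : X × Bool) (L : List (X × Bool)) :
    (FreeGroup.mk (y :: L) : FreeGroup X) = FreeGroup.mk [y] * FreeGroup.mk L := by
  rw [FreeGroup.mul_mk]
  rfl

private theorem TPsi_tt {X : Type} (x : X) :
    (FreeGroup.mk [(x, true)] : FreeGroup X) = FreeGroup.of x := rfl

private theorem TPsi_ff {X : Type} (x : X) :
    (FreeGroup.mk [(x, false)] : FreeGroup X) = (FreeGroup.of x)⁻¹ := rfl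

private theorem TPsi_of {H : Type} [Group H] (φ : X → ℤ) (ρ : FreeGroup X →* H) (τ : H) (x : X)
    (k : ℤ) : Psi φ ρ τ (FreeGroup.of (x, k)) =
      τ ^ (-(k + φ x)) * ρ (FreeGroup.of x) * τ ^ k := by
  unfold Psi
  rw [FreeGroup.lift_apply_of]

private theorem TPsi_wcons (l : ℤ) (x : X) (h : ℤ) (c : Bool) (L : List ((X × ℤ) × Bool)) :
    wmap (sh X l) (((x, h), c) :: L) = ((x, h + l), c) :: wmap (sh X l) L := rfl

theorem Psi_rwr {H : Type} [Group H] (b : X) (φ : X → ℤ) (ρ : FreeGroup X →* H) (τ : H)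
    (hτ : ρ (FreeGroup.of b) = τ ^ φ b) (L : List (X × Bool)) (l : ℤ) :
    Psi φ ρ τ (FreeGroup.mk (wmap (sh X l) (rwr b φ L))) =
      τ ^ (-(l + lev φ L)) * ρ (FreeGroup.mk L) * τ ^ l := by
  induction L with
  | nil =>
    have h1 : (FreeGroup.mk [] : FreeGroup X) = 1 := rfl
    have h2 : (FreeGroup.mk [] : FreeGroup (X × ℤ)) = 1 := rfl
    have h3 : wmap (sh X l) (rwr b φ []) = [] := rfl
    rw [h3, h2, h1, map_one, map_one]
    simp [lev]
  | cons y L ih =>
    rcases y with ⟨x, c⟩
    cases c with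
    | true =>
      rw [TPsi_cons (x, true) L, map_mul ρ, TPsi_tt]
      by_cases hx : x = b
      · have h1 : rwr b φ ((x, true) :: L) = rwr b φ L := by
          simp only [rwr]
          rw [if_pos hx]
        have h2 : lev φ ((x, true) :: L) = lev φ L + φ x := rfl
        rw [h1, h2, ih, hx, hτ]
        have h3 : τ ^ (-(l + lev φ L)) = τ ^ (-(l + (lev φ L + φ b))) * τ ^ φ b := by
          rw [← zpow_add]
          congr 1
          ring
        rw [h3]
        simp only [mul_assoc]
      · have h1 : rwr b φ ((x, true) :: L) = ((x, lev φ L), true) :: rwr b φ L := by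
          simp only [rwr]
          rw [if_neg hx]
        have h2 : lev φ ((x, true) :: L) = lev φ L + φ x := rfl
        rw [h1, h2, TPsi_wcons, TPsi_cons, map_mul, TPsi_tt, TPsi_of, ih]
        have h3 : τ ^ (lev φ L + l) * τ ^ (-(l + lev φ L)) = 1 := by
          rw [← zpow_add, show lev φ L + l + -(l + lev φ L) = 0 by ring, zpow_zero]
        have h4 : (-(lev φ L + l + φ x)) = -(l + (lev φ L + φ x)) := by ring
        rw [h4]
        calc τ ^ (-(l + (lev φ L + φ x))) * ρ (FreeGroup.of x) * τ ^ (lev φ L + l) *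
              (τ ^ (-(l + lev φ L)) * ρ (FreeGroup.mk L) * τ ^ l)
            = τ ^ (-(l + (lev φ L + φ x))) * ρ (FreeGroup.of x) *
              (τ ^ (lev φ L + l) * τ ^ (-(l + lev φ L))) * (ρ (FreeGroup.mk L) * τ ^ l) := by
              simp only [mul_assoc]
          _ = _ := by
              rw [h3, mul_one]
              simp only [mul_assoc]
    | false =>
      rw [TPsi_cons (x, false) L, map_mul ρ, TPsi_ff, map_inv]
      by_cases hx : x = b
      · have h1 : rwr b φ ((x, false) :: L) = rwr b φ L := by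
          simp only [rwr]
          rw [if_pos hx]
        have h2 : lev φ ((x, false) :: L) = lev φ L - φ x := rfl
        rw [h1, h2, ih, hx, hτ]
        have h3 : τ ^ (-(l + lev φ L)) = τ ^ (-(l + (lev φ L - φ b))) * (τ ^ φ b)⁻¹ := by
          rw [← zpow_neg, ← zpow_add]
          congr 1
          ring
        rw [h3]
        simp only [mul_assoc]
      · have h1 : rwr b φ ((x, false) :: L) = ((x, lev φ L - φ x), false) :: rwr b φ L := by
          simp only [rwr]
          rw [if_neg hx]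
        have h2 : lev φ ((x, false) :: L) = lev φ L - φ x := rfl
        rw [h1, h2, TPsi_wcons, TPsi_cons, map_mul, TPsi_ff, map_inv, TPsi_of, ih]
        have h3 : (τ ^ (-(lev φ L - φ x + l + φ x)) * ρ (FreeGroup.of x) *
            τ ^ (lev φ L - φ x + l))⁻¹ =
            τ ^ (-(l + (lev φ L - φ x))) * (ρ (FreeGroup.of x))⁻¹ * τ ^ (l + lev φ L) := by
          rw [mul_inv_rev, mul_inv_rev, ← zpow_neg, ← zpow_neg, ← mul_assoc]
          congr 2
          · congr 1
            congr 1
            ring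
          · ring
        have h4 : τ ^ (l + lev φ L) * τ ^ (-(l + lev φ L)) = 1 := by
          rw [← zpow_add, add_neg_cancel, zpow_zero]
        rw [h3]
        calc τ ^ (-(l + (lev φ L - φ x))) * (ρ (FreeGroup.of x))⁻¹ * τ ^ (l + lev φ L) *
              (τ ^ (-(l + lev φ L)) * ρ (FreeGroup.mk L) * τ ^ l)
            = τ ^ (-(l + (lev φ L - φ x))) * (ρ (FreeGroup.of x))⁻¹ *
              (τ ^ (l + lev φ L) * τ ^ (-(l + lev φ L))) * (ρ (FreeGroup.mk L) * τ ^ l) := by
              simp only [mul_assoc]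
          _ = _ := by
              rw [h4, mul_one]
              simp only [mul_assoc]

/-- The permutation `τ`. -/
noncomputable def cyc {S : Type} (β : Perm S) (q : ℕ) : Perm (S × ZMod q) where
  toFun a := (if a.2 = -1 then β a.1 else a.1, a.2 + 1)
  invFun a := (if a.2 = 0 then β⁻¹ a.1 else a.1, a.2 - 1)
  left_inv a := by
    rcases a with ⟨y, i⟩
    by_cases h : i = -1
    · simp [h]
    · have h' : ¬ i + 1 = 0 := fun h1 => h (eq_neg_of_add_eq_zero_left h1)
      simp [h, h']
  right_inv a := by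
    rcases a with ⟨y, i⟩
    by_cases h : i = 0
    · simp [h]
    · have h' : ¬ i - 1 = -1 := fun h1 => h (by linear_combination h1)
      simp [h, h']

private theorem TPsi_cyc {S : Type} (β : Perm S) (q : ℕ) (y : S) (i : ZMod q) :
    cyc β q (y, i) = (if i = -1 then β y else y, i + 1) := rfl

private theorem TPsi_cyci {S : Type} (β : Perm S) (q : ℕ) (y : S) (i : ZMod q) :
    (cyc β q)⁻¹ (y, i) = (if i = 0 then β⁻¹ y else y, i - 1) := rfl

private theorem TPsi_step {S : Type} (β : Perm S) (q : ℕ) (y : S) (a k : ℕ) (h : a + k < q) :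
    (cyc β q ^ k) (y, (a : ZMod q)) = (y, ((a + k : ℕ) : ZMod q)) := by
  induction k with
  | zero => simp
  | succ k ih =>
    have h1 := ih (by omega)
    rw [pow_succ', Perm.mul_apply, h1, TPsi_cyc]
    have hne : ((a + k : ℕ) : ZMod q) ≠ -1 := by
      intro h2
      have h3 : ((a + k + 1 : ℕ) : ZMod q) = 0 := by
        push_cast at h2 ⊢
        rw [h2]
        ring
      rw [ZMod.natCast_eq_zero_iff] at h3
      have h4 := Nat.le_of_dvd (by omega) h3
      omega
    rw [if_neg hne]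
    refine Prod.ext rfl ?_
    push_cast
    ring

theorem cyc_pow {S : Type} (β : Perm S) (q : ℕ) (hq : 0 < q) (y : S) (i : ZMod q) :
    (cyc β q ^ q) (y, i) = (β y, i) := by
  have : NeZero q := ⟨hq.ne'⟩
  have hi : ((i.val : ℕ) : ZMod q) = i := ZMod.natCast_zmod_val i
  have hv : i.val < q := ZMod.val_lt i
  obtain ⟨r, hr⟩ : ∃ r, q = i.val + (1 + r) := ⟨q - i.val - 1, by omega⟩
  have h1 := TPsi_step β q y i.val r (by omega)
  rw [hi] at h1
  have h2 : ((i.val + r : ℕ) : ZMod q) = -1 := by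
    have h3 : ((i.val + (1 + r) : ℕ) : ZMod q) = 0 := by
      rw [← hr]
      exact ZMod.natCast_self q
    push_cast at h3 ⊢
    linear_combination h3
  have h4 : cyc β q ^ q = cyc β q ^ i.val * (cyc β q * cyc β q ^ r) := by
    rw [← pow_succ', ← pow_add]
    congr 1
    omega
  rw [h4, Perm.mul_apply, Perm.mul_apply, h1, TPsi_cyc, if_pos h2, h2, neg_add_cancel]
  have h5 := TPsi_step β q (β y) 0 i.val (by omega)
  rw [Nat.cast_zero, zero_add, hi] at h5
  exact h5

/-- A fixed point of `β` is never moved in the first coordinate. -/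
theorem cyc_fix {S : Type} (β : Perm S) (q : ℕ) (y : S) (hy : β y = y) (l : ℤ) (i : ZMod q) :
    (cyc β q ^ l) (y, i) = (y, i + l) := by
  have hy' : β⁻¹ y = y := by
    rw [Perm.inv_eq_iff_eq, hy]
  induction l using Int.induction_on generalizing i with
  | zero => simp
  | succ n ih =>
    rw [zpow_add_one, Perm.mul_apply, TPsi_cyc, hy, ite_self, ih]
    refine Prod.ext rfl ?_
    push_cast
    ring
  | pred n ih =>
    rw [zpow_sub_one, Perm.mul_apply, TPsi_cyci, hy', ite_self, ih]
    refine Prod.ext rfl ?_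
    push_cast
    ring

/-- The action of `FreeGroup X` on `S × ZMod q`. -/
noncomputable def act {S : Type} (φ : X → ℤ) (σ : FreeGroup X →* Perm S) (q : ℕ) :
    FreeGroup X →* Perm (S × ZMod q) :=
  FreeGroup.lift fun x => (Equiv.prodCongr (σ (FreeGroup.of x)) (Equiv.addRight ((φ x : ℤ) : ZMod q)))

private theorem TPsi_act_of {S : Type} (φ : X → ℤ) (σ : FreeGroup X →* Perm S) (q : ℕ) (x : X)
    (y : S) (i : ZMod q) :
    act φ σ q (FreeGroup.of x) (y, i) = (σ (FreeGroup.of x) y, i + ((φ x : ℤ) : ZMod q)) := by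
  unfold act
  rw [FreeGroup.lift_apply_of]
  rfl

theorem act_mk {S : Type} (φ : X → ℤ) (σ : FreeGroup X →* Perm S) (q : ℕ) (L : List (X × Bool))
    (y : S) (i : ZMod q) :
    act φ σ q (FreeGroup.mk L) (y, i) = (σ (FreeGroup.mk L) y, i + (lev φ L : ℤ)) := by
  induction L with
  | nil =>
    have h1 : (FreeGroup.mk [] : FreeGroup X) = 1 := rfl
    rw [h1, map_one, map_one]
    simp [lev]
  | cons a L ih =>
    rcases a with ⟨x, c⟩
    rw [TPsi_cons (x, c) L, map_mul, map_mul, Perm.mul_apply, ih, Perm.mul_apply]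
    cases c with
    | true =>
      rw [TPsi_tt, TPsi_act_of]
      refine Prod.ext rfl ?_
      have h2 : lev φ ((x, true) :: L) = lev φ L + φ x := rfl
      rw [h2]
      push_cast
      ring
    | false =>
      rw [TPsi_ff, map_inv, map_inv]
      have h2 : lev φ ((x, false) :: L) = lev φ L - φ x := rfl
      rw [h2, Perm.inv_eq_iff_eq, TPsi_act_of]
      refine Prod.ext ?_ ?_
      · simp
      · push_cast
        ring

theorem act_b {S : Type} (φ : X → ℤ) (b : X) (σ : FreeGroup X →* Perm S) (q : ℕ) (hq : 0 < q)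
    (hφ : φ b = q) :
    act φ σ q (FreeGroup.of b) = cyc (σ (FreeGroup.of b)) q ^ φ b := by
  ext1 a
  rcases a with ⟨y, i⟩
  rw [TPsi_act_of, hφ, zpow_natCast, cyc_pow _ q hq]
  refine Prod.ext rfl ?_
  simp

/-- The relators of `K_N` act trivially on `S × ZMod q`. -/
theorem Psi_relT {H : Type} [Group H] (b : X) (φ : X → ℤ) (μ : ℤ) (s : List (X × Bool))
    (hlev : lev φ s = 0) (j N : ℕ) (ρ : FreeGroup X →* H) (τ : H)
    (hτ : ρ (FreeGroup.of b) = τ ^ φ b) (hs : ρ (FreeGroup.mk (pw s j)) = 1) :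
    Subgroup.normalClosure (FreeGroup.mk '' relT (nw b φ μ s) j N) ≤ (Psi φ ρ τ).ker := by
  refine Subgroup.normalClosure_le_normal ?_
  rintro w ⟨L, ⟨t, _, rfl⟩, rfl⟩
  show Psi φ ρ τ _ = 1
  unfold nw
  rw [wmap_sh, mk_pw, map_pow, Psi_rwr b φ ρ τ hτ, hlev, add_zero, zpow_neg]
  set a : H := τ ^ (-μ + (t : ℤ)) with ha
  have h1 : a⁻¹ * ρ (FreeGroup.mk s) * a = a⁻¹ * ρ (FreeGroup.mk s) * a⁻¹⁻¹ := by
    rw [inv_inv]
  rw [h1, conj_pow, ← map_pow, ← mk_pw, hs, mul_one, mul_inv_cancel]

end ORel
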