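import Pool.Agent.Lib_MP_051624_or.TDefs
import Pool.Agent.Lib_MP_051624_or.OPath

/-!
# The symmetry of the glued model

`Glued.swap`: exchange of the two sides: `p' ω = (π (y₀ ω, y₁ ω))⁻¹ * p ω` and
`π' (b, a) = (π (a, b))⁻¹`. Then `kp'` (for `w ∈ Wd S₁`) is `G.bp`, and `bp'` (for `w ∈ Wd S₀`) says
that `(π' (y₁, y₀))⁻¹ * p' = π (y₀, y₁) * (π (y₀, y₁))⁻¹ * p = p` is preserved: this is `G.kp` (with
`G.k₁`). The other fields are exchanged (`Set.inter_comm`).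

`alt_moves_swap`: this is `alt_moves` for `G.swap` and the list `fs` with the labels exchanged. The
hypothesis `hP` for `π'`: the homomorphism `FreeGroup.lift π'` is `FreeGroup.lift π` composed with
the isomorphism `of (b, a) ↦ (of (a, b))⁻¹`; on lists: `lift π' (mk L) = lift π (mk L')` where
`L' = L.map fun y => ((y.1.2, y.1.1), !y.2)`, which is reduced, of the same length. Here
`(π' (y₁, y₀))⁻¹ * p' = p`.
-/

open Equiv

namespace ORel

/-- Exchange of the two sides of a glued model. -/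
def Glued.swap {X : Type} {S₀ S₁ : Set X} {Z₀ Z₁ Q P : Type} [Group Q] [Group P]
    {θ₀ : FreeGroup X →* Perm Z₀} {θ₁ : FreeGroup X →* Perm Z₁} {q : FreeGroup X →* Q}
    {π : Z₀ × Z₁ → P} {Ω : Type} {θ : FreeGroup X →* Perm Ω}
    (G : Glued S₀ S₁ θ₀ θ₁ q π Ω θ) :
    Glued S₁ S₀ θ₁ θ₀ q (fun a => (π (a.2, a.1))⁻¹) Ω θ where
  p₀ := G.p₁
  p₁ := G.p₀
  y₀ := G.y₁
  y₁ := G.y₀
  p := fun ω => (π (G.y₀ ω, G.y₁ ω))⁻¹ * G.p ω
  triv₀ := G.triv₁
  triv₁ := G.triv₀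
  eq₀ := G.eq₁
  eq₁ := G.eq₀
  k₁ := G.b₀
  kp := fun w hw ω => by rw [G.b₀ w hw]; exact G.bp w hw ω
  b₀ := G.k₁
  bp := fun w hw ω => by
    rw [G.k₁ w hw, G.kp w hw]
    simp
  move₀ := fun w hw ω h => by
    rw [Set.inter_comm]
    exact G.move₁ w hw ω h
  move₁ := fun w hw ω h => by
    rw [Set.inter_comm]
    exact G.move₀ w hw ω h
  free := fun f hf ω h => G.free f (by rw [Set.inter_comm]; exact hf) ω h

/-- An alternating list with a factor in `Wd S₁` changes the coordinate `p`. -/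
theorem alt_moves_swap {X : Type} (S₀ S₁ : Set X) {Z₀ Z₁ Q P : Type} [Finite Z₀] [Finite Z₁]
    [Group Q] [Group P]
    (θ₀ : FreeGroup X →* Perm Z₀) (θ₁ : FreeGroup X →* Perm Z₁) (q : FreeGroup X →* Q)
    (π : Z₀ × Z₁ → P) (δ : ℝ) (hδ : 0 ≤ δ) (Ω : Type) [Finite Ω] (θ : FreeGroup X →* Perm Ω)
    (G : Glued S₀ S₁ θ₀ θ₁ q π Ω θ) (K : ℕ)
    (hP : ∀ L : List ((Z₀ × Z₁) × Bool), L.length ≤ 2 * K → FreeGroup.IsReduced L → L ≠ [] →
      FreeGroup.lift π (FreeGroup.mk L) ≠ 1)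
    (fs : List (Bool × FreeGroup X)) (hK : fs.length ≤ K)
    (hch : fs.IsChain (fun a b => a.1 ≠ b.1))
    (h₀ : ∀ u, (true, u) ∈ fs → u ∈ Wd S₀ ∧
      Small (fun z => ∃ d ∈ Wd (S₀ ∩ S₁), θ₀ d z = θ₀ u z) δ)
    (h₁ : ∀ u, (false, u) ∈ fs → u ∈ Wd S₁ ∧
      Small (fun z => ∃ d ∈ Wd (S₀ ∩ S₁), θ₁ d z = θ₁ u z) δ)
    (hf : ∃ u, (false, u) ∈ fs) :
    Small (fun ω => G.p (θ (fprod fs) ω) = G.p ω) (K * δ) := by
  have hfp : fprod (fs.map fun f => (!f.1, f.2)) = fprod fs := by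
    simp [fprod, List.map_map, Function.comp_def]
  have hmem : ∀ (b : Bool) (u : FreeGroup X), (b, u) ∈ (fs.map fun f => (!f.1, f.2)) → (!b, u) ∈ fs := by
    intro b u h
    obtain ⟨f, hf, he⟩ := List.mem_map.1 h
    obtain ⟨h1, h2⟩ := Prod.mk.inj he
    rw [← h1, ← h2, Bool.not_not]
    exact hf
  have key := alt_moves S₁ S₀ θ₁ θ₀ q (fun a => (π (a.2, a.1))⁻¹) δ hδ Ω θ G.swap K
    (fun L hL hr hne => by
      have h1 : FreeGroup.lift (fun a : Z₁ × Z₀ => (π (a.2, a.1))⁻¹) (FreeGroup.mk L) =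
          FreeGroup.lift π (FreeGroup.mk (L.map fun y => ((y.1.2, y.1.1), !y.2))) := by
        rw [FreeGroup.lift_mk, FreeGroup.lift_mk, List.map_map]
        congr 1
        refine List.map_congr_left fun y _ => ?_
        rcases y with ⟨⟨a, b⟩, c⟩
        cases c <;> simp
      rw [h1]
      refine hP _ (by simpa using hL) ?_ (by simpa using hne)
      unfold FreeGroup.IsReduced at hr ⊢
      rw [List.isChain_map]
      refine hr.imp fun a b h h2 => ?_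
      obtain ⟨h3, h4⟩ := Prod.mk.inj h2
      have h5 := h (Prod.ext h4 h3)
      rw [h5])
    (fs.map fun f => (!f.1, f.2)) (by simpa using hK)
    (by
      rw [List.isChain_map]
      refine hch.imp fun a b h h2 => h ?_
      simpa using h2)
    (fun u hu => by
      have := h₁ u (hmem true u hu)
      rwa [Set.inter_comm] at this)
    (fun u hu => by
      have := h₀ u (hmem false u hu)
      rwa [Set.inter_comm] at this)
    (by
      obtain ⟨u, hu⟩ := hf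
      exact ⟨u, List.mem_map.2 ⟨(false, u), hu, rfl⟩⟩)
  rw [hfp] at key
  refine key.mono (fun ω hω => ?_) le_rfl
  change (((π (G.y₀ (θ (fprod fs) ω), G.y₁ (θ (fprod fs) ω)))⁻¹)⁻¹ *
    ((π (G.y₀ (θ (fprod fs) ω), G.y₁ (θ (fprod fs) ω)))⁻¹ * G.p (θ (fprod fs) ω)) =
    ((π (G.y₀ ω, G.y₁ ω))⁻¹)⁻¹ * ((π (G.y₀ ω, G.y₁ ω))⁻¹ * G.p ω))
  rw [inv_inv, mul_inv_cancel_left, inv_inv, mul_inv_cancel_left]
  exact hω

end ORel
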