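import Pool.Agent.Lib_MP_051624_or.TInd
import Pool.Agent.Lib_MP_051624_or.TNon
import Pool.Agent.Lib_MP_051624_or.TRel
import Pool.Agent.Lib_MP_051624_or.TCylS

/-!
# The windows of the cylinder

`cyl_relator`: by `cylT_mk`, `rwr_pw`, `wmap_pw`: on the level `l` the word `pw s j` acts as
`θ` of `pw (wmap (sh l) (rwr s)) j = pw (wmap (sh (l + μ)) (nw s)) j`, which is in
`relT (nw s) j N` for `t = l + μ`; the level does not change (`lev_pw`).

`win_one` (the window `{c}ᶜ`). Let `E` and `ε > 0` be given. For `e ∈ E` let `L e = e.toWord`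
(classically), `mk (L e) = e`. Let `B` be a bound (`lev_bound`) for the levels of all the tails of
`pw s j` and of the `L e`, and also `|μ| + m ≤ B`. Let `N` be such that `M = N + m + 1` satisfies
`2 * B < M` and `ε / 2 + 2 * B / M ≤ ε`. Let `V = {y | y.1 ∈ {c}ᶜ}`; it is contained in `ltr c 0 m`
and misses the letter `(c, 0)` of `nw s` (`D.lo`). Let `Ω, θ` be a model of `K_N` (`KMod.mod`)
with the window `V`, for `ε / 2` and the finite set of the elements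
`k e l = mk (wmap (sh X l) (rwr b φ (L e)))`, `e ∈ E`, `0 ≤ l < M`. The model of `G` is `cylT b φ θ M`
on `Ω × ZMod M`; use `cyl_small` with `δ = ε / 2`.
* Relator: `cyl_relator`.
* Window: let `e ∈ E`, `e ∉ Wd {c}ᶜ ⊔ NC` and `B ≤ l`, `l + B < M`. If `d ∈ Wd {c}ᶜ` and
  `cylT d (ω, l) = cylT e (ω, l)` then, by `cylT_wd` and `cylT_mk`, `θ d' ω = θ (k e l) ω` for some
  `d' ∈ Wd V`. By `nonmem` (`b ∈ {c}ᶜ`), `k e l ∉ Wd V ⊔ NC_K`, and `k e l ∈ Wd (ltr c 0 (N + m))`: its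
  letters have heights in `[0, M)` (`mem_rwr_height`). So the proportion is at most `ε / 2`.

`win_two` (the window `{b}ᶜ`, all letters except `b` have `φ = 0`, `φ b = 1`, `1 ≤ m`). The same with
the windows `V l = {y | y.1 ∈ {b}ᶜ ∧ y.2 = l}`, `0 ≤ l < M`: if `l ≤ N` then `V l ⊆ ltr c l (l + m)`
misses `(c, l + m)` (`D.hi`); if `N < l ≤ N + m` then `V l ⊆ ltr c N (N + m)` misses `(c, N)`
(`D.lo`). Let `d ∈ Wd {b}ᶜ`, `cylT d (ω, l) = cylT e (ω, l)`. By `cylT_level` the second coordinate of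
`cylT d (ω, l)` is `l`. If `lev (L e) ≠ 0`, this is impossible by `cylT_mk` (`|lev (L e)| ≤ B < M`).
If `lev (L e) = 0` then `θ d' ω = θ (k e l) ω` with `d' ∈ Wd (V l)`, and
`k e l ∉ Wd (V l) ⊔ NC_K` by `nonmem_level`.
-/

open Equiv

namespace ORel

private theorem TWin_mem {X : Type} {s : List (X × Bool)} {b c : X} {φ : X → ℤ} {μ : ℤ}
    (h : ∃ y ∈ rwr b φ s, y.1 = (c, μ)) :
    ∃ y ∈ wmap (sh X ((0 : ℕ) : ℤ)) (nw b φ μ s), y.1 = (c, 0) := by
  obtain ⟨y, hy, hy1⟩ := h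
  refine ⟨(sh X ((0 : ℕ) : ℤ) (sh X (-μ) y.1), y.2), ?_, ?_⟩
  · unfold nw wmap
    refine List.mem_map.2 ⟨(sh X (-μ) y.1, y.2), List.mem_map.2 ⟨y, hy, rfl⟩, rfl⟩
  · rw [hy1]
    change (c, μ + -μ + ((0 : ℕ) : ℤ)) = (c, 0)
    simp

theorem win_one {X : Type} {s : List (X × Bool)} {b c : X} {φ : X → ℤ} {μ : ℤ} {m : ℕ}
    (D : MData s b c φ μ m) (j : ℕ) (K : ∀ N, KMod j c m (nw b φ μ s) N) :
    Mod Set.univ {pw s j} {{c}ᶜ} ∅ := by
  classical
  intro E ε hε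
  -- the bound for the levels
  obtain ⟨B₀, hB₀⟩ := lev_bound φ (insert (pw s j) ((fun e : FreeGroup X => e.toWord) '' (E : Set (FreeGroup X))))
    ((E.finite_toSet.image _).insert _)
  obtain ⟨B, hBdef⟩ : ∃ B : ℕ, B = B₀ + μ.natAbs + m := ⟨_, rfl⟩
  have hBpw : ∀ L', L' <:+ pw s j → |lev φ L'| ≤ B := fun L' h => by
    have := hB₀ (pw s j) (Set.mem_insert _ _) L' h
    omega
  have hBE : ∀ e ∈ E, ∀ L', L' <:+ e.toWord → |lev φ L'| ≤ B := fun e he L' h => by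
    have := hB₀ e.toWord (Set.mem_insert_of_mem _ ⟨e, he, rfl⟩) L' h
    omega
  have hμB : |μ| + m ≤ B := by
    rw [hBdef, Int.abs_eq_natAbs]
    omega
  -- the length of the cylinder
  obtain ⟨N, hNdef⟩ : ∃ N : ℕ, N = max (2 * B) ⌈4 * (B : ℝ) / ε⌉₊ := ⟨_, rfl⟩
  have hN1 : 2 * B ≤ N := hNdef ▸ le_max_left _ _
  have hN2 : 4 * (B : ℝ) / ε ≤ N := by
    refine (Nat.le_ceil _).trans ?_
    exact_mod_cast (hNdef ▸ le_max_right _ _ : ⌈4 * (B : ℝ) / ε⌉₊ ≤ N)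
  have hMpos : 0 < N + m + 1 := Nat.succ_pos _
  have hεM : ε / 2 + 2 * B / ((N + m + 1 : ℕ) : ℝ) ≤ ε := by
    have h1 : (4 * (B : ℝ)) ≤ N * ε := (div_le_iff₀ hε).1 hN2
    have h2 : (N : ℝ) ≤ ((N + m + 1 : ℕ) : ℝ) := by exact_mod_cast (by omega : N ≤ N + m + 1)
    have h3 : (0 : ℝ) < ((N + m + 1 : ℕ) : ℝ) := by exact_mod_cast hMpos
    have h4 : 2 * (B : ℝ) / ((N + m + 1 : ℕ) : ℝ) ≤ ε / 2 := by
      rw [div_le_iff₀ h3]
      nlinarith [mul_le_mul_of_nonneg_right h2 hε.le]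
    linarith
  -- the window
  have hmod := (K N).win 0 (Nat.zero_le N) {y : X × ℤ | y.1 ∈ ({c}ᶜ : Set X)}
    (fun y hy hc => absurd hc hy) (by
      obtain ⟨y, hy, hy1⟩ := TWin_mem D.lo
      refine ⟨y, hy, fun h => ?_⟩
      rw [hy1] at h
      exact h rfl)
  obtain ⟨Ω, hΩ, hΩ', θ, hrel, hwin, -⟩ := hmod
    ((E ×ˢ Finset.range (N + m + 1)).image fun a =>
      FreeGroup.mk (wmap (sh X (a.2 : ℤ)) (rwr b φ a.1.toWord))) (ε / 2) (half_pos hε)
  refine ⟨Ω × ZMod (N + m + 1), inferInstance, inferInstance, cylT b φ θ (N + m + 1), ?_, ?_,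
    fun a ha => ha.elim⟩
  · intro L hL
    rw [Set.mem_singleton_iff] at hL
    rw [hL]
    refine cyl_small (N + m + 1) B hMpos (ε / 2) ε (half_pos hε).le hεM _ ?_
    intro l h1 h2
    have h3 := abs_le.1 (le_refl |μ|)
    exact cyl_relator D j N θ (ε / 2) hrel B hBpw l (by omega) (by omega) h1 h2
  · intro V hV e he _ hne
    rw [Set.mem_singleton_iff] at hV
    subst hV
    refine cyl_small (N + m + 1) B hMpos (ε / 2) ε (half_pos hε).le hεM _ ?_
    intro l h1 h2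
    obtain ⟨k, rfl⟩ := Int.eq_ofNat_of_zero_le (le_trans (Int.natCast_nonneg B) h1)
    have hk : k < N + m + 1 := by omega
    have hmk : FreeGroup.mk e.toWord = e := FreeGroup.mk_toWord
    have h5 := hwin _ rfl (FreeGroup.mk (wmap (sh X (k : ℤ)) (rwr b φ e.toWord)))
      (Finset.mem_image.2 ⟨(e, k), Finset.mem_product.2 ⟨he, Finset.mem_range.2 hk⟩, rfl⟩)
      (by
        refine mk_mem_wd _ ?_
        intro y hy _
        unfold wmap at hy
        obtain ⟨y₀, hy₀, rfl⟩ := List.mem_map.1 hy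
        obtain ⟨L', hL', hlev⟩ := mem_rwr_height b φ _ y₀ hy₀
        have h6 := abs_le.1 (hBE e he L' hL')
        change 0 ≤ y₀.1.2 + k ∧ y₀.1.2 + k ≤ N + m
        rw [hlev]
        omega)
      (nonmem D.pos D.lev j N ({c}ᶜ) (fun h => D.ne h.symm) e.toWord k (by
        rw [hmk, ← Set.image_singleton (f := FreeGroup.mk)]
        exact hne))
    refine h5.mono ?_ (le_refl _)
    rintro ω ⟨d, hd, hd'⟩
    obtain ⟨d', hd1, hd2⟩ := cylT_wd b φ θ (N + m + 1) ({c}ᶜ) d hd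
      (ω, ((k : ℤ) : ZMod (N + m + 1)))
    refine ⟨d', hd1, ?_⟩
    have h6 := cylT_mk b φ θ (N + m + 1) e.toWord k (fun L' hL' => by
      have := abs_le.1 (hBE e he L' hL')
      push_cast
      omega) ω
    rw [hmk] at h6
    rw [hd', h6] at hd2
    exact hd2.symm

end ORel
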